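import Mathlib

/-! # No ballistic transport for the Anderson model: definitions and statements of the tasks -/

set_option autoImplicit false

open MeasureTheory Filter Topology
open scoped BigOperators ENNReal NNReal InnerProductSpace ComplexConjugate

namespace Pool.Agent.H5R2.NB

/-- strongly continuous one-parameter unitary group -/
structure UG (X : Type) [NormedAddCommGroup X] [InnerProductSpace ℂ X] where
  U : ℝ → X →L[ℂ] X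
  zero' : ∀ x, U 0 x = x
  add' : ∀ s t x, U (s + t) x = U s (U t x)
  norm' : ∀ t x, ‖U t x‖ = ‖x‖
  cont' : ∀ x, Continuous fun t => U t x

section abstract

variable {X : Type} [NormedAddCommGroup X] [InnerProductSpace ℂ X]

/-- a family of unitary groups `exp(-it(H₀ + κ e⟨e,·⟩))`, expressed by Duhamel's formula -/
def Fam (U : ℝ → UG X) (e : X) : Prop :=
  ∀ (κ κ' t : ℝ) (x : X), (U κ').U t x = (U κ).U t x -
    (Complex.I * ((κ' - κ : ℝ) : ℂ)) •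
      ∫ s in (0 : ℝ)..t, ⟪e, (U κ').U s x⟫_ℂ • (U κ).U (t - s) e

/-- forward time average of `v` (applied to `x`), `U t = exp(-itH)` -/
noncomputable def avP (W : UG X) (v : X →L[ℂ] X) (N : ℕ) (x : X) : X :=
  ((N : ℂ)⁻¹) • ∫ s in (0 : ℝ)..(N : ℝ), W.U (-s) (v (W.U s x))

/-- backward time average of `v` (applied to `x`) -/
noncomputable def avM (W : UG X) (v : X →L[ℂ] X) (N : ℕ) (x : X) : X :=
  ((N : ℂ)⁻¹) • ∫ s in (0 : ℝ)..(N : ℝ), W.U s (v (W.U (-s) x))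

/-- both time averages of `v` converge strongly to `B` along the sequence `Nk` -/
def Good (W : UG X) (v : X →L[ℂ] X) (Nk : ℕ → ℕ) (B : X →L[ℂ] X) : Prop :=
  ∀ x, Tendsto (fun k => avP W v (Nk k) x) atTop (𝓝 (B x)) ∧
    Tendsto (fun k => avM W v (Nk k) x) atTop (𝓝 (B x))

end abstract

/-- `ℓ²(ι)` -/
abbrev L2 (ι : Type) : Type := lp (fun _ : ι => ℂ) 2

/-! ### Part I: rank one families (abstract) -/

/-- KB: Hilbert's inequality with the kernel `x/(x²+ε²)` for a measure with density `≤ C` -/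
def St_KB : Prop :=
  ∀ (ι : Type) [Countable ι] (ν : Measure ℝ) [IsFiniteMeasure ν] (C : ℝ≥0), ν ≤ C • volume →
    ∀ (u : ℝ → L2 ι) (M : ℝ), AEStronglyMeasurable u ν → (∀ κ, ‖u κ‖ ≤ M) →
    ∀ ε : ℝ, 0 < ε →
      ‖∫ κ, ∫ κ', (((κ - κ') / ((κ - κ') ^ 2 + ε ^ 2) : ℝ) : ℂ) * ⟪u κ, u κ'⟫_ℂ ∂ν ∂ν‖ ≤
        Real.pi * C * ∫ κ, ‖u κ‖ ^ 2 ∂ν

/-- S1: averaged Kato smoothness of `e` -/
def St_S1 : Prop :=
  ∀ (ι : Type) [Countable ι] (U : ℝ → UG (L2 ι)) (e : L2 ι), Fam U e →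
    ∀ (ν : Measure ℝ) [IsFiniteMeasure ν] (C : ℝ≥0), ν ≤ C • volume →
    ∀ (q : ℝ → ℂ) (Q R : ℝ), Measurable q → (∀ κ, ‖q κ‖ ≤ Q) → (∀ κ, R < |κ| → q κ = 0) →
    ∀ (χ : ℝ → L2 ι) (M : ℝ), AEStronglyMeasurable χ ν → (∀ κ, ‖χ κ‖ ≤ M) →
      ∫⁻ t : ℝ, ‖∫ κ, q κ * ⟪χ κ, (U κ).U t e⟫_ℂ ∂ν‖ₑ ^ 2 ≤
        ENNReal.ofReal (8 * C * Q ^ 2 * M ^ 2) * ν Set.univ

/-- CT: joint continuity of a rank one family -/
def St_CT : Prop :=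
  ∀ (ι : Type) (U : ℝ → UG (L2 ι)) (e : L2 ι), Fam U e →
    Continuous fun p : ℝ × ℝ × L2 ι => (U p.1).U p.2.1 p.2.2

/-- BP: basic properties of the limit of the time averages -/
def St_BP : Prop :=
  ∀ (ι : Type) (W : UG (L2 ι)) (v : L2 ι →L[ℂ] L2 ι) (Nk : ℕ → ℕ), Tendsto Nk atTop atTop →
    ∀ B : L2 ι →L[ℂ] L2 ι, Good W v Nk B →
      (∀ x, ‖B x‖ ≤ ‖v‖ * ‖x‖) ∧ ∀ t x, B (W.U t x) = W.U t (B x)

/-- NN: the orthogonal complement of the cyclic space of `e` does not depend on `κ`, and the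
groups agree on it -/
def St_NN : Prop :=
  ∀ (ι : Type) (U : ℝ → UG (L2 ι)) (e : L2 ι), Fam U e → ∀ (κ κ' : ℝ) (φ : L2 ι),
    (∀ t, ⟪φ, (U κ).U t e⟫_ℂ = 0) →
      (∀ t, ⟪φ, (U κ').U t e⟫_ℂ = 0) ∧ ∀ t, (U κ').U t φ = (U κ).U t φ

/-- AVL: time averages of a convolution-type integral -/
def St_AVL : Prop :=
  ∀ (α : ℝ → ℂ) (β : ℝ → ℝ → ℂ) (γ : ℝ → ℂ) (M K : ℝ) (Nk : ℕ → ℕ),
    Measurable α → (∀ r, ‖α r‖ ≤ M) → ∫⁻ r, ‖α r‖ₑ ^ 2 ≤ ENNReal.ofReal K →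
    Measurable (fun p : ℝ × ℝ => β p.1 p.2) → (∀ s r, ‖β s r‖ ≤ M) →
    (∀ s, ∫⁻ r, ‖β s r‖ₑ ^ 2 ≤ ENNReal.ofReal K) →
    Measurable γ → Tendsto Nk atTop atTop →
    (∀ r, 0 ≤ r → Tendsto (fun k => ((Nk k : ℂ)⁻¹) * ∫ s in r..(Nk k : ℝ), β s r) atTop
      (𝓝 (γ r))) →
    IntegrableOn (fun r => α r * γ r) (Set.Ioi 0) ∧
    Tendsto (fun k => ((Nk k : ℂ)⁻¹) * ∫ s in (0 : ℝ)..(Nk k : ℝ),
      ∫ r in (0 : ℝ)..s, α r * β s r) atTop (𝓝 (∫ r in Set.Ioi (0 : ℝ), α r * γ r))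

/-- the function `G κ r = ⟨φ, B_κ U_κ(-r) e⟩` -/
noncomputable def G {ι : Type} (U : ℝ → UG (L2 ι)) (B : ℝ → L2 ι →L[ℂ] L2 ι) (e φ : L2 ι)
    (κ r : ℝ) : ℂ := ⟪φ, B κ ((U κ).U (-r) e)⟫_ℂ

/-- STAR: the main identity -/
def St_STAR : Prop :=
  ∀ (ι : Type) [Countable ι] (U : ℝ → UG (L2 ι)) (e : L2 ι), Fam U e →
    ∀ (ν : Measure ℝ) [IsProbabilityMeasure ν] (C : ℝ≥0), ν ≤ C • volume →
    ∀ (v : L2 ι →L[ℂ] L2 ι) (Nk : ℕ → ℕ), Tendsto Nk atTop atTop →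
    ∀ B : ℝ → L2 ι →L[ℂ] L2 ι, (∀ᵐ κ ∂ν, Good (U κ) v Nk (B κ)) →
    ∀ φ : L2 ι, (∀ t, ⟪φ, (U 0).U t e⟫_ℂ = 0) →
    ∀ (q₁ q₂ : ℝ → ℂ) (R : ℝ), Measurable q₁ → Measurable q₂ → (∀ κ, ‖q₁ κ‖ ≤ 1) →
      (∀ κ, ‖q₂ κ‖ ≤ 1) → (∀ κ, R < |κ| → q₁ κ = 0 ∧ q₂ κ = 0) →
      ∫ r : ℝ, ((∫ κ, q₂ κ * κ * conj (G U B e φ κ r) ∂ν) * (∫ κ, q₁ κ * G U B e φ κ r ∂ν) -
        (∫ κ, q₂ κ * conj (G U B e φ κ r) ∂ν) * (∫ κ, q₁ κ * κ * G U B e φ κ r ∂ν)) = 0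

/-- PROPR: if for almost every `κ` the forward and the backward time averages of `v` converge to
the same `B_κ`, then `B_κ e` lies in the cyclic space of `e` -/
def St_PROPR : Prop :=
  ∀ (ι : Type) [Countable ι] (U : ℝ → UG (L2 ι)) (e : L2 ι), Fam U e →
    ∀ (ν : Measure ℝ) [IsProbabilityMeasure ν] (C : ℝ≥0), ν ≤ C • volume →
    ∀ (v : L2 ι →L[ℂ] L2 ι) (Nk : ℕ → ℕ), Tendsto Nk atTop atTop →
    ∀ B : ℝ → L2 ι →L[ℂ] L2 ι, (∀ᵐ κ ∂ν, Good (U κ) v Nk (B κ)) →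
      ∀ᵐ κ ∂ν, ∀ φ : L2 ι, (∀ t, ⟪φ, (U 0).U t e⟫_ℂ = 0) → ⟪φ, B κ e⟫_ℂ = 0

/-- ME: mean ergodic theorem for stationary sequences in a Hilbert space -/
def St_ME : Prop :=
  ∀ (X : Type) [NormedAddCommGroup X] [InnerProductSpace ℂ X] [CompleteSpace X] (x : ℤ → X),
    (∀ m n, ⟪x (m + 1), x (n + 1)⟫_ℂ = ⟪x m, x n⟫_ℂ) →
    ∃ y : X, Tendsto (fun N : ℕ => ((N : ℂ)⁻¹) • ∑ n ∈ Finset.range N, x n) atTop (𝓝 y) ∧
      Tendsto (fun N : ℕ => ((N : ℂ)⁻¹) • ∑ n ∈ Finset.range N, x (-(n : ℤ) - 1)) atTop (𝓝 y)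

/-! ### Part II: the lattice -/

/-- sites of `ℤ^d` -/
abbrev Site (d : ℕ) : Type := Fin d → ℤ

/-- `δ_x` -/
noncomputable def dl {d : ℕ} (x : Site d) : L2 (Site d) := lp.single 2 x (1 : ℂ)

/-- `c` times the sum over the `2d` neighbours -/
noncomputable def hopf {d : ℕ} (c : ℝ) (ψ : Site d → ℂ) (x : Site d) : ℂ :=
  (c : ℂ) * ∑ i : Fin d, (ψ (x + Pi.single i 1) + ψ (x - Pi.single i 1))

/-- `S` is the translation operator `(S ψ)(x) = ψ(x + z)` -/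
def IsShift {d : ℕ} (z : Site d) (S : L2 (Site d) →L[ℂ] L2 (Site d)) : Prop :=
  ∀ ψ x, (S ψ) x = ψ (x + z)

/-- `K` is the hopping operator -/
def IsHop {d : ℕ} (c : ℝ) (K : L2 (Site d) →L[ℂ] L2 (Site d)) : Prop :=
  ∀ ψ x, (K ψ) x = hopf c (fun y => ψ y) x

/-- `v` is the velocity operator `i[H, X_j]`, `(v ψ)(x) = i c (ψ(x+e_j) - ψ(x-e_j))` -/
def IsVel {d : ℕ} (c : ℝ) (j : Fin d) (v : L2 (Site d) →L[ℂ] L2 (Site d)) : Prop :=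
  ∀ ψ x, (v ψ) x = Complex.I * c * (ψ (x + Pi.single j 1) - ψ (x - Pi.single j 1))

/-- `f` is a locally bounded solution of `f' = -i(K + V) f + h` (coordinate by coordinate) -/
def IsSol {d : ℕ} (c : ℝ) (V : Site d → ℝ) (f h : ℝ → L2 (Site d)) : Prop :=
  (∀ T : ℝ, ∃ M : ℝ, ∀ t, |t| ≤ T → ‖f t‖ ≤ M) ∧
  ∀ (t : ℝ) (x : Site d), HasDerivAt (fun s => (f s) x)
    (-Complex.I * (hopf c (fun y => (f t) y) x + V x * (f t) x) + (h t) x) t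

/-- `W` is the unitary group `exp(-it(K+V))` -/
def IsGrp {d : ℕ} (c : ℝ) (V : Site d → ℝ) (W : UG (L2 (Site d))) : Prop :=
  ∀ ψ, IsSol c V (fun t => W.U t ψ) (fun _ => 0)

/-- OPS: the translation, hopping and velocity operators exist -/
def St_OPS : Prop :=
  ∀ d : ℕ, (∀ z : Site d, ∃ S : L2 (Site d) →L[ℂ] L2 (Site d), IsShift z S) ∧
    (∀ c : ℝ, ∃ K : L2 (Site d) →L[ℂ] L2 (Site d), IsHop c K) ∧
    (∀ (c : ℝ) (j : Fin d), ∃ v : L2 (Site d) →L[ℂ] L2 (Site d), IsVel c j v)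

/-- EXA: linear ODE with strongly continuous bounded self-adjoint coefficients -/
def St_EXA : Prop :=
  ∀ (ι : Type) (A : ℝ → L2 ι →L[ℂ] L2 ι) (a : ℝ), (∀ x, Continuous fun t => A t x) →
    (∀ t x, ‖A t x‖ ≤ a * ‖x‖) → (∀ t x y, ⟪A t x, y⟫_ℂ = ⟪x, A t y⟫_ℂ) →
    ∃ Y : ℝ → L2 ι →L[ℂ] L2 ι, (∀ x, Y 0 x = x) ∧ (∀ t x, ‖Y t x‖ = ‖x‖) ∧
      ∀ x t, HasDerivAt (fun s => Y s x) (-Complex.I • A t (Y t x)) t

/-- EX: existence of the group for every real potential -/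
def St_EX : Prop :=
  ∀ (d : ℕ) (c : ℝ) (V : Site d → ℝ), ∃ W : UG (L2 (Site d)), IsGrp c V W

/-- UN: Duhamel's formula and uniqueness -/
def St_UN : Prop :=
  ∀ (d : ℕ) (c : ℝ) (V : Site d → ℝ) (W : UG (L2 (Site d))), IsGrp c V W →
    ∀ f h : ℝ → L2 (Site d), Continuous h → IsSol c V f h →
      ∀ t, f t = W.U t (f 0) + ∫ s in (0 : ℝ)..t, W.U (t - s) (h s)

/-- CV: continuity in the potential (product topology) and in the time -/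
def St_CV : Prop :=
  ∀ (d : ℕ) (c : ℝ) (ev : (Site d → ℝ) → UG (L2 (Site d))), (∀ V, IsGrp c V (ev V)) →
    Continuous fun p : (Site d → ℝ) × ℝ × L2 (Site d) => (ev p.1).U p.2.1 p.2.2

/-- FAM: changing the potential at the origin gives a rank one family -/
def St_FAM : Prop :=
  ∀ (d : ℕ) (c : ℝ) (ev : (Site d → ℝ) → UG (L2 (Site d))), (∀ V, IsGrp c V (ev V)) →
    ∀ V, Fam (fun κ => ev (Function.update V 0 κ)) (dl 0)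

/-- COV: covariance -/
def St_COV : Prop :=
  ∀ (d : ℕ) (c : ℝ) (ev : (Site d → ℝ) → UG (L2 (Site d))), (∀ V, IsGrp c V (ev V)) →
    ∀ (z : Site d) (S : L2 (Site d) →L[ℂ] L2 (Site d)), IsShift z S →
    ∀ V t ψ, (ev fun y => V (y + z)).U t (S ψ) = S ((ev V).U t ψ)

/-- SYM: the matrix of `exp(-itH)` is symmetric -/
def St_SYM : Prop :=
  ∀ (d : ℕ) (c : ℝ) (V : Site d → ℝ) (W : UG (L2 (Site d))), IsGrp c V W →
    ∀ t x y, (W.U t (dl y)) x = (W.U t (dl x)) y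

/-- ANTI: the limit of the averaged velocity is orthogonal to the orbit -/
def St_ANTI : Prop :=
  ∀ (d : ℕ) (c : ℝ) (V : Site d → ℝ) (W : UG (L2 (Site d))), IsGrp c V W →
    ∀ (j : Fin d) (v : L2 (Site d) →L[ℂ] L2 (Site d)), IsVel c j v →
    ∀ (Nk : ℕ → ℕ), Tendsto Nk atTop atTop → ∀ B : L2 (Site d) →L[ℂ] L2 (Site d),
      Good W v Nk B → ∀ t, ⟪W.U t (dl 0), B (dl 0)⟫_ℂ = 0

/-- MOM: second moment of the position -/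
def St_MOM : Prop :=
  ∀ (d : ℕ) (c : ℝ) (V : Site d → ℝ) (W : UG (L2 (Site d))), IsGrp c V W →
    ∀ (j : Fin d) (v : L2 (Site d) →L[ℂ] L2 (Site d)), IsVel c j v → ∀ t : ℝ,
      ∑' x : Site d, ENNReal.ofReal ((x j : ℝ) ^ 2) * ‖(W.U t (dl 0)) x‖ₑ ^ 2 =
        ‖∫ s in (0 : ℝ)..t, W.U (-s) (v (W.U s (dl 0)))‖ₑ ^ 2

/-! ### Part III: the random potential -/

/-- the law of the iid potential -/
noncomputable def PP (d : ℕ) (ν : Measure ℝ) [IsProbabilityMeasure ν] : Measure (Site d → ℝ) :=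
  Measure.infinitePi fun _ => ν

/-- RES: resampling the origin, and translation invariance -/
def St_RES : Prop :=
  ∀ (d : ℕ) (ν : Measure ℝ) [IsProbabilityMeasure ν],
    MeasurePreserving (fun p : (Site d → ℝ) × ℝ => Function.update p.1 0 p.2)
      ((PP d ν).prod ν) (PP d ν) ∧
    ∀ z : Site d, MeasurePreserving (fun (V : Site d → ℝ) (y : Site d) => V (y + z))
      (PP d ν) (PP d ν)

/-- the velocity at time `s` applied to `δ_0` -/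
noncomputable def tau {d : ℕ} (ev : (Site d → ℝ) → UG (L2 (Site d)))
    (v : L2 (Site d) →L[ℂ] L2 (Site d)) (s : ℝ) (V : Site d → ℝ) : L2 (Site d) :=
  (ev V).U (-s) (v ((ev V).U s (dl 0)))

/-- STAT: stationarity of the velocity correlations -/
def St_STAT : Prop :=
  ∀ (d : ℕ) (c : ℝ) (ev : (Site d → ℝ) → UG (L2 (Site d))), (∀ V, IsGrp c V (ev V)) →
    ∀ (ν : Measure ℝ) [IsProbabilityMeasure ν] (j : Fin d)
      (v : L2 (Site d) →L[ℂ] L2 (Site d)), IsVel c j v → ∀ s s' a : ℝ,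
      ∫ V, ⟪tau ev v (s + a) V, tau ev v (s' + a) V⟫_ℂ ∂(PP d ν) =
        ∫ V, ⟪tau ev v s V, tau ev v s' V⟫_ℂ ∂(PP d ν)

/-- LIMA: mean square convergence of both averages at `δ_0` to the same limit -/
def St_LIMA : Prop :=
  ∀ (d : ℕ) (c : ℝ) (ev : (Site d → ℝ) → UG (L2 (Site d))), (∀ V, IsGrp c V (ev V)) →
    ∀ (ν : Measure ℝ) [IsProbabilityMeasure ν] (j : Fin d)
      (v : L2 (Site d) →L[ℂ] L2 (Site d)), IsVel c j v →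
      ∃ b : (Site d → ℝ) → L2 (Site d), AEStronglyMeasurable b (PP d ν) ∧
        Tendsto (fun N : ℕ => ∫⁻ V, ‖avP (ev V) v N (dl 0) - b V‖ₑ ^ 2 ∂(PP d ν)) atTop
          (𝓝 0) ∧
        Tendsto (fun N : ℕ => ∫⁻ V, ‖avM (ev V) v N (dl 0) - b V‖ₑ ^ 2 ∂(PP d ν)) atTop
          (𝓝 0)

/-- LIM: mean square convergence of the averages and almost sure strong convergence along a
subsequence -/
def St_LIM : Prop :=
  ∀ (d : ℕ) (c : ℝ) (ev : (Site d → ℝ) → UG (L2 (Site d))), (∀ V, IsGrp c V (ev V)) →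
    ∀ (ν : Measure ℝ) [IsProbabilityMeasure ν] (j : Fin d)
      (v : L2 (Site d) →L[ℂ] L2 (Site d)), IsVel c j v →
      ∃ (Nk : ℕ → ℕ) (b : (Site d → ℝ) → L2 (Site d)), Tendsto Nk atTop atTop ∧
        Tendsto (fun N : ℕ => ∫⁻ V, ‖avP (ev V) v N (dl 0) - b V‖ₑ ^ 2 ∂(PP d ν)) atTop
          (𝓝 0) ∧
        ∀ᵐ V ∂(PP d ν), ∃ B : L2 (Site d) →L[ℂ] L2 (Site d),
          Good (ev V) v Nk B ∧ B (dl 0) = b V

/-- ZERO: the limit vanishes -/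
def St_ZERO : Prop :=
  ∀ (d : ℕ) (c : ℝ) (ev : (Site d → ℝ) → UG (L2 (Site d))), (∀ V, IsGrp c V (ev V)) →
    ∀ (ν : Measure ℝ) [IsProbabilityMeasure ν] (C : ℝ≥0), ν ≤ C • volume →
    ∀ (j : Fin d) (v : L2 (Site d) →L[ℂ] L2 (Site d)), IsVel c j v →
    ∀ (Nk : ℕ → ℕ), Tendsto Nk atTop atTop →
      (∀ᵐ V ∂(PP d ν), ∃ B : L2 (Site d) →L[ℂ] L2 (Site d), Good (ev V) v Nk B) →
      ∀ᵐ V ∂(PP d ν), ∀ B : L2 (Site d) →L[ℂ] L2 (Site d), Good (ev V) v Nk B → B (dl 0) = 0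

/-- MAIN: no ballistic transport -/
def St_MAIN : Prop :=
  ∀ (d : ℕ) (c : ℝ) (ev : (Site d → ℝ) → UG (L2 (Site d))), (∀ V, IsGrp c V (ev V)) →
    ∀ (ν : Measure ℝ) [IsProbabilityMeasure ν] (C : ℝ≥0), ν ≤ C • volume →
      Tendsto (fun t : ℝ => (∫⁻ V, ∑' x : Site d,
        ENNReal.ofReal (∑ i : Fin d, (x i : ℝ) ^ 2) * ‖((ev V).U t (dl 0)) x‖ₑ ^ 2 ∂(PP d ν)) /
          ENNReal.ofReal (t ^ 2)) atTop (𝓝 0)

end Pool.Agent.H5R2.NB
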