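import Mathlib
import Pool.Agent.H5R2.NB.Defs

set_option autoImplicit false

/-!
# AVL: time averages of a convolution-type integral (helper962)
-/

namespace Pool.Agent.H5R2.NB

open MeasureTheory Filter Topology Set
open scoped ENNReal NNReal

namespace AVL

/-- Cauchy-Schwarz against the constant one -/
lemma sq_lintegral_le {X : Type*} [MeasurableSpace X] (μ : Measure X) (f : X → ℝ≥0∞)
    (hf : AEMeasurable f μ) : (∫⁻ x, f x ∂μ) ^ 2 ≤ μ univ * ∫⁻ x, f x ^ 2 ∂μ := by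
  have h := ENNReal.lintegral_mul_le_Lp_mul_Lq μ (p := 2) (q := 2)
    (Real.HolderConjugate.two_two) hf (aemeasurable_const (b := (1 : ℝ≥0∞)))
  have h1 : ∫⁻ x, ((f * fun _ => (1 : ℝ≥0∞)) : X → ℝ≥0∞) x ∂μ = ∫⁻ x, f x ∂μ := by
    apply lintegral_congr; intro x; simp
  rw [h1] at h
  have h2 : ∫⁻ x, f x ^ (2 : ℝ) ∂μ = ∫⁻ x, f x ^ 2 ∂μ := by
    apply lintegral_congr; intro x; rw [← ENNReal.rpow_natCast]; norm_num
  have h3 : ∫⁻ _, (1 : ℝ≥0∞) ^ (2 : ℝ) ∂μ = μ univ := by simp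
  rw [h2, h3] at h
  calc (∫⁻ x, f x ∂μ) ^ 2 ≤ ((∫⁻ x, f x ^ 2 ∂μ) ^ (1 / 2 : ℝ) * (μ univ) ^ (1 / 2 : ℝ)) ^ 2 := by
        gcongr
    _ = (∫⁻ x, f x ^ 2 ∂μ) * μ univ := by
        rw [mul_pow, ← ENNReal.rpow_natCast, ← ENNReal.rpow_natCast, ← ENNReal.rpow_mul,
          ← ENNReal.rpow_mul]
        norm_num
    _ = _ := mul_comm _ _

/-- the averaged kernel -/
noncomputable def bb (β : ℝ → ℝ → ℂ) (N : ℕ) (r : ℝ) : ℂ :=
  ((N : ℂ)⁻¹) * ∫ s in Ioc r (N : ℝ), β s r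

lemma bb_meas (β : ℝ → ℝ → ℂ) (hβ : Measurable (fun p : ℝ × ℝ => β p.1 p.2)) (N : ℕ) :
    Measurable (bb β N) := by
  have h1 : MeasurableSet {p : ℝ × ℝ | p.1 < p.2 ∧ p.2 ≤ (N : ℝ)} :=
    (measurableSet_lt measurable_fst measurable_snd).inter
      (measurableSet_le measurable_snd measurable_const)
  have h2 : Measurable ({p : ℝ × ℝ | p.1 < p.2 ∧ p.2 ≤ (N : ℝ)}.indicator
      (fun p : ℝ × ℝ => β p.2 p.1)) := (hβ.comp measurable_swap).indicator h1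
  have h3 : StronglyMeasurable (fun r : ℝ => ∫ s : ℝ,
      ({p : ℝ × ℝ | p.1 < p.2 ∧ p.2 ≤ (N : ℝ)}.indicator (fun p : ℝ × ℝ => β p.2 p.1)) (r, s)) :=
    h2.stronglyMeasurable.integral_prod_right'
  have h4 : (fun r : ℝ => ∫ s in Ioc r (N : ℝ), β s r) = fun r : ℝ => ∫ s : ℝ,
      ({p : ℝ × ℝ | p.1 < p.2 ∧ p.2 ≤ (N : ℝ)}.indicator (fun p : ℝ × ℝ => β p.2 p.1)) (r, s) := by
    funext r
    rw [← integral_indicator measurableSet_Ioc]
    apply integral_congr_ae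
    filter_upwards with s
    by_cases hs : s ∈ Ioc r (N : ℝ)
    · rw [indicator_of_mem hs, indicator_of_mem]
      exact hs
    · rw [indicator_of_notMem hs, indicator_of_notMem]
      exact hs
  unfold bb
  rw [← h4] at h3
  exact (h3.measurable).const_mul _

lemma bb_bound (β : ℝ → ℝ → ℂ) (M : ℝ) (hM : ∀ s r, ‖β s r‖ ≤ M) (N : ℕ) (hN : 0 < N) (r : ℝ)
    (hr : 0 < r) : ‖bb β N r‖ ≤ M := by
  have hM0 : 0 ≤ M := (norm_nonneg _).trans (hM 0 0)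
  unfold bb
  rw [norm_mul, norm_inv, Complex.norm_natCast]
  have h1 : ‖∫ s in Ioc r (N : ℝ), β s r‖ ≤ M * (volume (Ioc r (N : ℝ))).toReal :=
    norm_setIntegral_le_of_norm_le_const (by rw [Real.volume_Ioc]; exact ENNReal.ofReal_lt_top)
      (fun s _ => hM s r)
  rw [Real.volume_Ioc] at h1
  have h2 : (ENNReal.ofReal ((N : ℝ) - r)).toReal ≤ N := by
    rw [ENNReal.toReal_ofReal']
    apply max_le
    · linarith
    · positivity
  have hN' : (0 : ℝ) < N := by exact_mod_cast hN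
  calc (N : ℝ)⁻¹ * ‖∫ s in Ioc r (N : ℝ), β s r‖ ≤ (N : ℝ)⁻¹ * (M * N) := by
        gcongr
        exact h1.trans (mul_le_mul_of_nonneg_left h2 hM0)
    _ = M := by field_simp

lemma bb_L2 (β : ℝ → ℝ → ℂ) (hβ : Measurable (fun p : ℝ × ℝ => β p.1 p.2)) (C : ℝ≥0∞)
    (hC : ∀ s, ∫⁻ r, ‖β s r‖ₑ ^ 2 ≤ C) (N : ℕ) (hN : 0 < N) :
    ∫⁻ r in Ioi (0 : ℝ), ‖bb β N r‖ₑ ^ 2 ≤ C := by
  have hN0 : (N : ℝ≥0∞) ≠ 0 := by exact_mod_cast hN.ne'
  have hNt : (N : ℝ≥0∞) ≠ ∞ := ENNReal.natCast_ne_top N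
  have hvol : (volume.restrict (Ioc (0 : ℝ) N)) univ = (N : ℝ≥0∞) := by
    rw [Measure.restrict_apply_univ, Real.volume_Ioc, sub_zero, ENNReal.ofReal_natCast]
  have hpt : ∀ r ∈ Ioi (0 : ℝ), ‖bb β N r‖ₑ ^ 2 ≤
      (N : ℝ≥0∞)⁻¹ * ∫⁻ s in Ioc (0 : ℝ) N, ‖β s r‖ₑ ^ 2 := by
    intro r hr
    have hr' : (0 : ℝ) < r := hr
    have hme : Measurable (fun s => ‖β s r‖ₑ) :=
      (hβ.comp (measurable_id.prodMk measurable_const)).enorm
    have h1 : ‖bb β N r‖ₑ ≤ (N : ℝ≥0∞)⁻¹ * ∫⁻ s in Ioc (0 : ℝ) N, ‖β s r‖ₑ := by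
      unfold bb
      rw [enorm_mul]
      have h2 : ‖((N : ℂ)⁻¹)‖ₑ = (N : ℝ≥0∞)⁻¹ := by
        rw [enorm_inv (by exact_mod_cast hN.ne')]
        congr 1
        rw [← ofReal_norm, Complex.norm_natCast, ENNReal.ofReal_natCast]
      rw [h2]
      gcongr
      calc ‖∫ s in Ioc r (N : ℝ), β s r‖ₑ ≤ ∫⁻ s in Ioc r (N : ℝ), ‖β s r‖ₑ :=
            enorm_integral_le_lintegral_enorm _
        _ ≤ ∫⁻ s in Ioc (0 : ℝ) N, ‖β s r‖ₑ :=
            lintegral_mono_set (Ioc_subset_Ioc_left hr'.le)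
    calc ‖bb β N r‖ₑ ^ 2 ≤ ((N : ℝ≥0∞)⁻¹ * ∫⁻ s in Ioc (0 : ℝ) N, ‖β s r‖ₑ) ^ 2 := by gcongr
      _ = (N : ℝ≥0∞)⁻¹ ^ 2 * (∫⁻ s in Ioc (0 : ℝ) N, ‖β s r‖ₑ) ^ 2 := mul_pow _ _ _
      _ ≤ (N : ℝ≥0∞)⁻¹ ^ 2 * ((N : ℝ≥0∞) * ∫⁻ s in Ioc (0 : ℝ) N, ‖β s r‖ₑ ^ 2) := by
          gcongr
          have h3 := sq_lintegral_le (volume.restrict (Ioc (0 : ℝ) N)) (fun s => ‖β s r‖ₑ)
            hme.aemeasurable
          rwa [hvol] at h3
      _ = _ := by
          rw [← mul_assoc]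
          congr 1
          rw [pow_two, mul_assoc, ENNReal.inv_mul_cancel hN0 hNt, mul_one]
  have hmm : Measurable (fun p : ℝ × ℝ => ‖β p.1 p.2‖ₑ ^ 2) := (hβ.enorm).pow_const 2
  calc ∫⁻ r in Ioi (0 : ℝ), ‖bb β N r‖ₑ ^ 2
      ≤ ∫⁻ r in Ioi (0 : ℝ), (N : ℝ≥0∞)⁻¹ * ∫⁻ s in Ioc (0 : ℝ) N, ‖β s r‖ₑ ^ 2 :=
        setLIntegral_mono' measurableSet_Ioi hpt
    _ ≤ ∫⁻ r, (N : ℝ≥0∞)⁻¹ * ∫⁻ s in Ioc (0 : ℝ) N, ‖β s r‖ₑ ^ 2 :=
        lintegral_mono' Measure.restrict_le_self le_rfl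
    _ = (N : ℝ≥0∞)⁻¹ * ∫⁻ r, ∫⁻ s in Ioc (0 : ℝ) N, ‖β s r‖ₑ ^ 2 := by
        rw [lintegral_const_mul']
        exact ENNReal.inv_ne_top.mpr hN0
    _ = (N : ℝ≥0∞)⁻¹ * ∫⁻ s in Ioc (0 : ℝ) N, ∫⁻ r, ‖β s r‖ₑ ^ 2 := by
        congr 1
        rw [lintegral_lintegral_swap]
        exact (hmm.comp measurable_swap).aemeasurable
    _ ≤ (N : ℝ≥0∞)⁻¹ * ∫⁻ _ in Ioc (0 : ℝ) N, C := by
        gcongr with s
        exact hC s
    _ = C := by
        rw [lintegral_const, hvol, mul_comm C, ← mul_assoc, ENNReal.inv_mul_cancel hN0 hNt, one_mul]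

lemma fubini (α : ℝ → ℂ) (β : ℝ → ℝ → ℂ) (M : ℝ) (hα : Measurable α) (hαM : ∀ r, ‖α r‖ ≤ M)
    (hβ : Measurable (fun p : ℝ × ℝ => β p.1 p.2)) (hβM : ∀ s r, ‖β s r‖ ≤ M) (N : ℕ) :
    ((N : ℂ)⁻¹) * ∫ s in (0 : ℝ)..(N : ℝ), ∫ r in (0 : ℝ)..s, α r * β s r =
      ∫ r in Ioi (0 : ℝ), α r * bb β N r := by
  have hM0 : 0 ≤ M := (norm_nonneg _).trans (hαM 0)
  -- the kernel on the plane, coordinates (s, r)
  set A : Set (ℝ × ℝ) := {p | 0 < p.2 ∧ p.2 < p.1 ∧ p.1 ≤ (N : ℝ)} with hA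
  have hAm : MeasurableSet A :=
    (measurableSet_lt measurable_const measurable_snd).inter
      ((measurableSet_lt measurable_snd measurable_fst).inter
        (measurableSet_le measurable_fst measurable_const))
  set h : ℝ → ℝ → ℂ := fun s r => A.indicator (fun p : ℝ × ℝ => α p.2 * β p.1 p.2) (s, r) with hh
  have hmeas : Measurable (fun p : ℝ × ℝ => A.indicator (fun p : ℝ × ℝ => α p.2 * β p.1 p.2) p) :=
    ((hα.comp measurable_snd).mul hβ).indicator hAm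
  have hint : Integrable (Function.uncurry h) ((volume : Measure ℝ).prod volume) := by
    have hsub : A ⊆ (Ioc (0 : ℝ) N) ×ˢ (Ioc (0 : ℝ) N) := by
      rintro ⟨s, r⟩ ⟨h1, h2, h3⟩
      simp only at h1 h2 h3
      exact ⟨⟨by linarith, h3⟩, ⟨h1, by linarith⟩⟩
    have hfin : ((volume : Measure ℝ).prod volume) A < ∞ := by
      refine lt_of_le_of_lt (measure_mono hsub) ?_
      rw [Measure.prod_prod, Real.volume_Ioc]
      exact ENNReal.mul_lt_top ENNReal.ofReal_lt_top ENNReal.ofReal_lt_top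
    have h1 : IntegrableOn (fun p : ℝ × ℝ => α p.2 * β p.1 p.2) A ((volume : Measure ℝ).prod volume) := by
      refine Measure.integrableOn_of_bounded (M := M * M) hfin.ne
        ((hα.comp measurable_snd).mul hβ).aestronglyMeasurable ?_
      filter_upwards with p
      rw [norm_mul]
      exact mul_le_mul (hαM _) (hβM _ _) (norm_nonneg _) hM0
    have h2 := (integrable_indicator_iff hAm).mpr h1
    exact h2
  have hsw := integral_integral_swap hint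
  -- left side
  have hL : ∫ s in (0 : ℝ)..(N : ℝ), ∫ r in (0 : ℝ)..s, α r * β s r = ∫ s, ∫ r, h s r := by
    rw [intervalIntegral.integral_of_le (Nat.cast_nonneg N), ← integral_indicator measurableSet_Ioc]
    apply integral_congr_ae
    filter_upwards with s
    by_cases hs : s ∈ Ioc (0 : ℝ) N
    · rw [indicator_of_mem hs, intervalIntegral.integral_of_le hs.1.le, integral_Ioc_eq_integral_Ioo,
        ← integral_indicator measurableSet_Ioo]
      apply integral_congr_ae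
      filter_upwards with r
      simp only [hh]
      by_cases hr : r ∈ Ioo (0 : ℝ) s
      · rw [indicator_of_mem hr, indicator_of_mem]
        exact ⟨hr.1, hr.2, hs.2⟩
      · rw [indicator_of_notMem hr, indicator_of_notMem]
        rintro ⟨h1, h2, h3⟩
        exact hr ⟨h1, h2⟩
    · rw [indicator_of_notMem hs]
      symm
      rw [integral_eq_zero_of_ae]
      filter_upwards with r
      simp only [hh]
      rw [indicator_of_notMem]
      · rfl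
      · rintro ⟨h1, h2, h3⟩
        simp only at h1 h2 h3
        exact hs ⟨by linarith, h3⟩
  have hR : ∫ r in Ioi (0 : ℝ), α r * bb β N r = (N : ℂ)⁻¹ * ∫ r, ∫ s, h s r := by
    rw [← integral_const_mul, ← integral_indicator measurableSet_Ioi]
    apply integral_congr_ae
    filter_upwards with r
    by_cases hr : r ∈ Ioi (0 : ℝ)
    · rw [indicator_of_mem hr]
      unfold bb
      rw [mul_left_comm]
      congr 1
      rw [← integral_const_mul, ← integral_indicator measurableSet_Ioc]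
      apply integral_congr_ae
      filter_upwards with s
      simp only [hh]
      by_cases hs : s ∈ Ioc r (N : ℝ)
      · rw [indicator_of_mem hs, indicator_of_mem]
        exact ⟨hr, hs.1, hs.2⟩
      · rw [indicator_of_notMem hs, indicator_of_notMem]
        rintro ⟨h1, h2, h3⟩
        exact hs ⟨h2, h3⟩
    · rw [indicator_of_notMem hr]
      have : ∫ s, h s r = 0 := by
        rw [integral_eq_zero_of_ae]
        filter_upwards with s
        simp only [hh]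
        rw [indicator_of_notMem]
        · rfl
        · rintro ⟨h1, h2, h3⟩
          exact hr h1
      rw [this, mul_zero]
  rw [hL, hR, hsw]

lemma holder (S : Set ℝ) (hS : S ⊆ Ioi 0) (α g : ℝ → ℂ) (hα : Measurable α) (hg : Measurable g)
    (C : ℝ≥0∞) (hgC : ∫⁻ r in Ioi (0 : ℝ), ‖g r‖ₑ ^ 2 ≤ C) :
    ∫⁻ r in S, ‖α r * g r‖ₑ ≤ (∫⁻ r in S, ‖α r‖ₑ ^ 2) ^ (1 / 2 : ℝ) * C ^ (1 / 2 : ℝ) := by
  have h := ENNReal.lintegral_mul_le_Lp_mul_Lq (volume.restrict S) (p := 2) (q := 2)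
    (Real.HolderConjugate.two_two) (hα.enorm.aemeasurable (μ := volume.restrict S))
    (hg.enorm.aemeasurable (μ := volume.restrict S))
  have e1 : ∀ f : ℝ → ℂ, ∫⁻ x, ‖f x‖ₑ ^ (2 : ℝ) ∂(volume.restrict S) =
      ∫⁻ x in S, ‖f x‖ₑ ^ 2 := by
    intro f
    apply lintegral_congr; intro x; rw [← ENNReal.rpow_natCast]; norm_num
  rw [e1 α, e1 g] at h
  calc ∫⁻ r in S, ‖α r * g r‖ₑ = ∫⁻ r in S, ‖α r‖ₑ * ‖g r‖ₑ := by
        apply lintegral_congr; intro x; rw [enorm_mul]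
    _ ≤ (∫⁻ r in S, ‖α r‖ₑ ^ 2) ^ (1 / 2 : ℝ) * (∫⁻ r in S, ‖g r‖ₑ ^ 2) ^ (1 / 2 : ℝ) := h
    _ ≤ _ := by
        gcongr
        exact (lintegral_mono_set hS).trans hgC

end AVL

open AVL in
theorem t_AVL : St_AVL := by
  intro α β γ M K Nk hα hαM hαK hβ hβM hβK hγ hN hlim
  set C : ℝ≥0∞ := ENNReal.ofReal K with hC
  have hCt : C ≠ ∞ := ENNReal.ofReal_ne_top
  have hev1 : ∀ᶠ k in atTop, 0 < Nk k := hN.eventually_gt_atTop 0
  -- pointwise convergence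
  have hpt : ∀ r, 0 < r → Tendsto (fun k => bb β (Nk k) r) atTop (𝓝 (γ r)) := by
    intro r hr
    refine (hlim r hr.le).congr' ?_
    obtain ⟨m, hm⟩ := exists_nat_ge r
    filter_upwards [hN.eventually_ge_atTop m] with k hk
    have hrk : r ≤ (Nk k : ℝ) := hm.trans (by exact_mod_cast hk)
    unfold bb
    rw [intervalIntegral.integral_of_le hrk]
  have hbC : ∀ᶠ k in atTop, ∫⁻ r in Ioi (0 : ℝ), ‖bb β (Nk k) r‖ₑ ^ 2 ≤ C := by
    filter_upwards [hev1] with k hk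
    exact bb_L2 β hβ C hβK (Nk k) hk
  -- Fatou
  have hγC : ∫⁻ r in Ioi (0 : ℝ), ‖γ r‖ₑ ^ 2 ≤ C := by
    have h1 : ∫⁻ r in Ioi (0 : ℝ), ‖γ r‖ₑ ^ 2 =
        ∫⁻ r in Ioi (0 : ℝ), liminf (fun k => ‖bb β (Nk k) r‖ₑ ^ 2) atTop := by
      apply setLIntegral_congr_fun measurableSet_Ioi
      intro r hr
      have h2 : Tendsto (fun k => ‖bb β (Nk k) r‖ₑ ^ 2) atTop (𝓝 (‖γ r‖ₑ ^ 2)) :=
        (ENNReal.continuous_pow 2).continuousAt.tendsto.comp ((hpt r hr).enorm)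
      exact h2.liminf_eq.symm
    rw [h1]
    refine (lintegral_liminf_le (fun k => ((bb_meas β hβ (Nk k)).enorm.pow_const 2))).trans ?_
    calc liminf (fun k => ∫⁻ r in Ioi (0 : ℝ), ‖bb β (Nk k) r‖ₑ ^ 2) atTop
        ≤ liminf (fun _ : ℕ => C) atTop := liminf_le_liminf hbC
      _ = C := liminf_const C
  have hfinα : ∀ S : Set ℝ, ∫⁻ r in S, ‖α r‖ₑ ^ 2 < ∞ := fun S =>
    lt_of_le_of_lt ((lintegral_mono' Measure.restrict_le_self le_rfl).trans hαK) ENNReal.ofReal_lt_top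
  have hint : ∀ g : ℝ → ℂ, Measurable g → ∫⁻ r in Ioi (0 : ℝ), ‖g r‖ₑ ^ 2 ≤ C →
      IntegrableOn (fun r => α r * g r) (Ioi 0) := by
    intro g hg hgC
    refine ⟨(hα.mul hg).aestronglyMeasurable, ?_⟩
    refine lt_of_le_of_lt (holder (Ioi 0) subset_rfl α g hα hg C hgC) ?_
    exact ENNReal.mul_lt_top (ENNReal.rpow_lt_top_of_nonneg (by norm_num) (hfinα _).ne)
      (ENNReal.rpow_lt_top_of_nonneg (by norm_num) hCt)
  refine ⟨hint γ hγ hγC, ?_⟩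
  have hform : ∀ k, ((Nk k : ℂ)⁻¹) * ∫ s in (0 : ℝ)..(Nk k : ℝ), ∫ r in (0 : ℝ)..s, α r * β s r =
      ∫ r in Ioi (0 : ℝ), α r * bb β (Nk k) r := fun k => fubini α β M hα hαM hβ hβM (Nk k)
  simp_rw [hform]
  -- tails
  set D : ℕ → ℝ≥0∞ := fun n => (∫⁻ r in Ioi (n : ℝ), ‖α r‖ₑ ^ 2) ^ (1 / 2 : ℝ) * C ^ (1 / 2 : ℝ) with hD
  have htail : ∀ (n : ℕ) (g : ℝ → ℂ), Measurable g → ∫⁻ r in Ioi (0 : ℝ), ‖g r‖ₑ ^ 2 ≤ C →
      ‖∫ r in Ioi (n : ℝ), α r * g r‖ₑ ≤ D n := by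
    intro n g hg hgC
    exact (enorm_integral_le_lintegral_enorm _).trans
      (holder (Ioi (n : ℝ)) (Ioi_subset_Ioi (Nat.cast_nonneg n)) α g hα hg C hgC)
  have hT : Tendsto (fun n : ℕ => ∫⁻ r in Ioi (n : ℝ), ‖α r‖ₑ ^ 2) atTop (𝓝 0) := by
    have h1 : Tendsto (fun n : ℕ => ∫⁻ r, (Ioi (n : ℝ)).indicator (fun r => ‖α r‖ₑ ^ 2) r) atTop
        (𝓝 (∫⁻ _ : ℝ, (0 : ℝ≥0∞))) := by
      apply tendsto_lintegral_of_dominated_convergence (fun r => ‖α r‖ₑ ^ 2)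
      · intro n
        exact (hα.enorm.pow_const 2).indicator measurableSet_Ioi
      · intro n
        filter_upwards with r
        exact indicator_le_self' (fun _ _ => bot_le) r
      · exact (lt_of_le_of_lt hαK ENNReal.ofReal_lt_top).ne
      · filter_upwards with r
        refine tendsto_const_nhds.congr' ?_
        obtain ⟨m, hm⟩ := exists_nat_ge r
        filter_upwards [eventually_ge_atTop m] with n hn
        rw [indicator_of_notMem]
        have : r ≤ (n : ℝ) := hm.trans (by exact_mod_cast hn)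
        simp only [mem_Ioi, not_lt]; exact this
    rw [lintegral_zero] at h1
    refine h1.congr fun n => ?_
    rw [lintegral_indicator measurableSet_Ioi]
  have hDT : Tendsto D atTop (𝓝 0) := by
    have h1 : Tendsto (fun n : ℕ => (∫⁻ r in Ioi (n : ℝ), ‖α r‖ₑ ^ 2) ^ (1 / 2 : ℝ)) atTop
        (𝓝 ((0 : ℝ≥0∞) ^ (1 / 2 : ℝ))) := (ENNReal.continuous_rpow_const.tendsto 0).comp hT
    have h2 : (0 : ℝ≥0∞) ^ (1 / 2 : ℝ) = 0 := ENNReal.zero_rpow_of_pos (by norm_num)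
    rw [h2] at h1
    have h3 := ENNReal.Tendsto.mul_const (b := C ^ (1 / 2 : ℝ)) h1
      (Or.inr (ENNReal.rpow_lt_top_of_nonneg (by norm_num) hCt).ne)
    rw [zero_mul] at h3
    exact h3
  -- compact part
  have hcomp : ∀ n : ℕ, Tendsto (fun k => ∫ r in Ioc (0 : ℝ) n, α r * bb β (Nk k) r) atTop
      (𝓝 (∫ r in Ioc (0 : ℝ) n, α r * γ r)) := by
    intro n
    have hM0 : 0 ≤ M := (norm_nonneg _).trans (hαM 0)
    apply tendsto_integral_filter_of_dominated_convergence (fun _ => M * M)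
    · filter_upwards with k
      exact (hα.mul (bb_meas β hβ (Nk k))).aestronglyMeasurable
    · filter_upwards [hev1] with k hk
      rw [ae_restrict_iff' measurableSet_Ioc]
      filter_upwards with r hr
      rw [norm_mul]
      exact mul_le_mul (hαM r) (bb_bound β M hβM (Nk k) hk r hr.1) (norm_nonneg _) hM0
    · exact integrable_const_iff.mpr (Or.inr ⟨by
        rw [Measure.restrict_apply_univ, Real.volume_Ioc]; exact ENNReal.ofReal_lt_top⟩)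
    · rw [ae_restrict_iff' measurableSet_Ioc]
      filter_upwards with r hr
      exact (hpt r hr.1).const_mul (α r)
  have hsplit : ∀ (n : ℕ) (g : ℝ → ℂ), Measurable g → ∫⁻ r in Ioi (0 : ℝ), ‖g r‖ₑ ^ 2 ≤ C →
      ∫ r in Ioi (0 : ℝ), α r * g r =
        (∫ r in Ioc (0 : ℝ) n, α r * g r) + ∫ r in Ioi (n : ℝ), α r * g r := by
    intro n g hg hgC
    have hi := hint g hg hgC
    rw [← setIntegral_union (Ioc_disjoint_Ioi le_rfl) measurableSet_Ioi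
      (hi.mono_set Ioc_subset_Ioi_self) (hi.mono_set (Ioi_subset_Ioi (Nat.cast_nonneg n))),
      Ioc_union_Ioi_eq_Ioi (Nat.cast_nonneg n)]
  rw [EMetric.tendsto_nhds]
  intro ε hε
  have hε3 : 0 < ε / 3 := ENNReal.div_pos hε.ne' (by norm_num)
  obtain ⟨n, hn⟩ := ((hDT.eventually (gt_mem_nhds hε3))).exists
  have hc := (EMetric.tendsto_nhds.mp (hcomp n)) (ε / 3) hε3
  filter_upwards [hc, hbC] with k hk hkC
  rw [hsplit n _ (bb_meas β hβ (Nk k)) hkC, hsplit n γ hγ hγC]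
  have t1 := htail n _ (bb_meas β hβ (Nk k)) hkC
  have t2 := htail n γ hγ hγC
  calc edist ((∫ r in Ioc (0 : ℝ) n, α r * bb β (Nk k) r) + ∫ r in Ioi (n : ℝ), α r * bb β (Nk k) r)
        ((∫ r in Ioc (0 : ℝ) n, α r * γ r) + ∫ r in Ioi (n : ℝ), α r * γ r)
      ≤ edist (∫ r in Ioc (0 : ℝ) n, α r * bb β (Nk k) r) (∫ r in Ioc (0 : ℝ) n, α r * γ r) +
        edist (∫ r in Ioi (n : ℝ), α r * bb β (Nk k) r) (∫ r in Ioi (n : ℝ), α r * γ r) :=
        edist_add_add_le _ _ _ _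
    _ ≤ edist (∫ r in Ioc (0 : ℝ) n, α r * bb β (Nk k) r) (∫ r in Ioc (0 : ℝ) n, α r * γ r) +
        (D n + D n) := by
        gcongr
        refine (edist_triangle _ 0 _).trans ?_
        rw [edist_zero_right, edist_zero_left]
        exact add_le_add t1 t2
    _ < ε / 3 + (ε / 3 + ε / 3) := ENNReal.add_lt_add hk (ENNReal.add_lt_add hn hn)
    _ = ε := by
        rw [← add_assoc]; exact ENNReal.add_thirds ε

end Pool.Agent.H5R2.NB
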