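import Pool.Agent.H5R2.NB.Defs

/-! Task BP: basic properties of the limit of the time averages. -/

set_option autoImplicit false

open MeasureTheory Filter Topology
open scoped BigOperators ENNReal NNReal InnerProductSpace ComplexConjugate

namespace Pool.Agent.H5R2.NB

namespace BP

variable {X : Type} [NormedAddCommGroup X] [InnerProductSpace ℂ X]

theorem cont_U (W : UG X) {a : ℝ → ℝ} {h : ℝ → X} (ha : Continuous a) (hh : Continuous h) :
    Continuous fun s => W.U (a s) (h s) := by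
  rw [continuous_iff_continuousAt]
  intro s
  rw [ContinuousAt, tendsto_iff_norm_sub_tendsto_zero]
  have hg : Continuous fun s' : ℝ => ‖h s' - h s‖ + ‖W.U (a s') (h s) - W.U (a s) (h s)‖ := by
    have h1 : Continuous fun s' : ℝ => W.U (a s') (h s) := (W.cont' (h s)).comp ha
    fun_prop
  refine squeeze_zero (fun p => norm_nonneg _) (fun p => ?_) (hg.tendsto' _ _ (by simp))
  have e1 : W.U (a p) (h p) - W.U (a s) (h s) = W.U (a p) (h p - h s) +
      (W.U (a p) (h s) - W.U (a s) (h s)) := by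
    rw [map_sub]; abel
  rw [e1]
  refine (norm_add_le _ _).trans (add_le_add ?_ le_rfl)
  rw [W.norm']

/-- the velocity at time `s` -/
noncomputable def g (W : UG X) (v : X →L[ℂ] X) (x : X) (s : ℝ) : X :=
  W.U (-s) (v (W.U s x))

theorem g_cont (W : UG X) (v : X →L[ℂ] X) (x : X) : Continuous (g W v x) :=
  cont_U W continuous_neg (v.continuous.comp (W.cont' x))

theorem g_norm (W : UG X) (v : X →L[ℂ] X) (x : X) (s : ℝ) :
    ‖g W v x s‖ ≤ ‖v‖ * ‖x‖ := by
  unfold g
  rw [W.norm']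
  refine (v.le_opNorm _).trans ?_
  rw [W.norm']

theorem int_norm (W : UG X) (v : X →L[ℂ] X) (x : X) (a b : ℝ) :
    ‖∫ s in a..b, g W v x s‖ ≤ ‖v‖ * ‖x‖ * |b - a| :=
  intervalIntegral.norm_integral_le_of_norm_le_const fun s _ => g_norm W v x s

theorem avP_norm (W : UG X) (v : X →L[ℂ] X) (N : ℕ) (x : X) :
    ‖avP W v N x‖ ≤ ‖v‖ * ‖x‖ := by
  have h0 : 0 ≤ ‖v‖ * ‖x‖ := by positivity
  unfold avP
  rw [norm_smul, norm_inv, Complex.norm_natCast]
  have h1 := int_norm W v x 0 N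
  rw [sub_zero, Nat.abs_cast] at h1
  rcases Nat.eq_zero_or_pos N with hN | hN
  · rw [hN]; simp; positivity
  · have hN' : (0 : ℝ) < N := by exact_mod_cast hN
    rw [inv_mul_le_iff₀ hN', mul_comm (N : ℝ)]
    exact h1

theorem g_shift (W : UG X) (v : X →L[ℂ] X) (x : X) (t s : ℝ) :
    g W v (W.U t x) s = W.U t (g W v x (s + t)) := by
  unfold g
  rw [← W.add', ← W.add']
  congr 2
  ring

theorem avP_shift [CompleteSpace X] (W : UG X) (v : X →L[ℂ] X) (N : ℕ) (x : X) (t : ℝ) :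
    ‖avP W v N (W.U t x) - W.U t (avP W v N x)‖ ≤ (N : ℝ)⁻¹ * (2 * (‖v‖ * ‖x‖ * |t|)) := by
  have hi : ∀ a b : ℝ, IntervalIntegrable (g W v x) volume a b :=
    fun a b => (g_cont W v x).intervalIntegrable a b
  have h1 : avP W v N (W.U t x) = ((N : ℂ)⁻¹) • W.U t (∫ s in t..(N : ℝ) + t, g W v x s) := by
    unfold avP
    congr 1
    have e1 : ∫ s in (0 : ℝ)..(N : ℝ), W.U (-s) (v (W.U s (W.U t x))) =
        ∫ s in (0 : ℝ)..(N : ℝ), W.U t (g W v x (s + t)) :=
      intervalIntegral.integral_congr fun s _ => g_shift W v x t s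
    rw [e1, intervalIntegral.integral_comp_add_right (fun s => W.U t (g W v x s)) t, zero_add,
      ContinuousLinearMap.intervalIntegral_comp_comm _ (hi _ _)]
  have h2 : W.U t (avP W v N x) = ((N : ℂ)⁻¹) • W.U t (∫ s in (0 : ℝ)..(N : ℝ), g W v x s) := by
    unfold avP
    rw [map_smul]
    rfl
  rw [h1, h2, ← smul_sub, ← map_sub, norm_smul, norm_inv, Complex.norm_natCast, W.norm']
  refine mul_le_mul_of_nonneg_left ?_ (by positivity)
  have h3 : ∫ s in t..(N : ℝ) + t, g W v x s = (∫ s in t..(0 : ℝ), g W v x s) +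
      (∫ s in (0 : ℝ)..(N : ℝ), g W v x s) + ∫ s in (N : ℝ)..(N : ℝ) + t, g W v x s := by
    rw [intervalIntegral.integral_add_adjacent_intervals (hi _ _) (hi _ _),
      intervalIntegral.integral_add_adjacent_intervals (hi _ _) (hi _ _)]
  have h4 : (∫ s in t..(N : ℝ) + t, g W v x s) - ∫ s in (0 : ℝ)..(N : ℝ), g W v x s =
      (∫ s in t..(0 : ℝ), g W v x s) + ∫ s in (N : ℝ)..(N : ℝ) + t, g W v x s := by
    rw [h3]; abel
  rw [h4]
  have h5 := int_norm W v x t 0
  have h6 := int_norm W v x (N : ℝ) ((N : ℝ) + t)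
  rw [zero_sub, abs_neg] at h5
  rw [add_sub_cancel_left] at h6
  refine (norm_add_le _ _).trans ?_
  linarith

end BP

theorem t_BP : St_BP := by
  intro ι W v Nk hNk B hB
  refine ⟨fun x => ?_, fun t x => ?_⟩
  · exact le_of_tendsto (hB x).1.norm (Eventually.of_forall fun k => BP.avP_norm W v (Nk k) x)
  · have h1 := (hB (W.U t x)).1
    have h2 : Tendsto (fun k => W.U t (avP W v (Nk k) x)) atTop (𝓝 (W.U t (B x))) :=
      ((W.U t).continuous.tendsto _).comp (hB x).1
    have h3 : Tendsto (fun k => avP W v (Nk k) (W.U t x) - W.U t (avP W v (Nk k) x)) atTop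
        (𝓝 0) := by
      refine squeeze_zero_norm (fun k => BP.avP_shift W v (Nk k) x t) ?_
      have h4 : Tendsto (fun k => ((Nk k : ℕ) : ℝ)⁻¹) atTop (𝓝 0) :=
        tendsto_inv_atTop_zero.comp (tendsto_natCast_atTop_atTop.comp hNk)
      simpa using h4.mul_const (2 * (‖v‖ * ‖x‖ * |t|))
    have h5 := tendsto_nhds_unique h3 (h1.sub h2)
    exact (sub_eq_zero.1 h5.symm)

end Pool.Agent.H5R2.NB
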