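import Pool.Agent.H5R2.NB.Defs

/-! Task COV: covariance of the group under translations. -/

set_option autoImplicit false

open MeasureTheory Filter Topology
open scoped BigOperators ENNReal NNReal InnerProductSpace ComplexConjugate

namespace Pool.Agent.H5R2.NB

theorem t_COV (h : St_UN) : St_COV := by
  intro d c ev hev z S hS V t ψ
  have hsol : IsSol c (fun y => V (y + z)) (fun t => S ((ev V).U t ψ)) (fun _ => 0) := by
    refine ⟨fun T => ⟨‖S‖ * ‖ψ‖, fun t _ => ?_⟩, fun t x => ?_⟩
    · refine (S.le_opNorm _).trans ?_
      rw [(ev V).norm']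
    · have h1 := (hev V ψ).2 t (x + z)
      have h2 : (fun s => (S ((ev V).U s ψ)) x) = fun s => ((ev V).U s ψ) (x + z) := by
        funext s; exact hS _ x
      rw [h2]
      refine h1.congr_deriv ?_
      have h3 : hopf c (fun y => (S ((ev V).U t ψ)) y) x =
          hopf c (fun y => ((ev V).U t ψ) y) (x + z) := by
        unfold hopf
        congr 1
        refine Finset.sum_congr rfl fun i _ => ?_
        have e1 := hS ((ev V).U t ψ) (x + Pi.single i 1)
        have e2 := hS ((ev V).U t ψ) (x - Pi.single i 1)
        have e3 : x + Pi.single i 1 + z = x + z + Pi.single i 1 := by abel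
        have e4 : x - Pi.single i 1 + z = x + z - Pi.single i 1 := by abel
        rw [e3] at e1
        rw [e4] at e2
        exact congrArg₂ (· + ·) e1 e2
      rw [h3, hS]
      rfl
  have h4 := h d c (fun y => V (y + z)) (ev fun y => V (y + z)) (hev _)
    (fun t => S ((ev V).U t ψ)) (fun _ => 0) continuous_const hsol t
  simp only [map_zero, intervalIntegral.integral_zero, add_zero] at h4
  rw [h4, (ev V).zero']

end Pool.Agent.H5R2.NB
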