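import Pool.Agent.H5R2.NB.Defs

/-! Task CT: joint continuity of a rank one family. -/

set_option autoImplicit false

open MeasureTheory Filter Topology
open scoped BigOperators ENNReal NNReal InnerProductSpace ComplexConjugate

namespace Pool.Agent.H5R2.NB

namespace CT

theorem diff_le {ι : Type} {U : ℝ → UG (L2 ι)} {e : L2 ι} (hF : Fam U e) (κ κ' t : ℝ) (x : L2 ι) :
    ‖(U κ').U t x - (U κ).U t x‖ ≤ |κ' - κ| * (‖e‖ * ‖x‖ * ‖e‖ * |t|) := by
  have h := hF κ κ' t x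
  have h1 : (U κ').U t x - (U κ).U t x = -((Complex.I * ((κ' - κ : ℝ) : ℂ)) •
      ∫ s in (0 : ℝ)..t, ⟪e, (U κ').U s x⟫_ℂ • (U κ).U (t - s) e) := by
    rw [h]; abel
  rw [h1, norm_neg, norm_smul, norm_mul, Complex.norm_I, one_mul, Complex.norm_real,
    Real.norm_eq_abs]
  refine mul_le_mul_of_nonneg_left ?_ (abs_nonneg _)
  have h2 := intervalIntegral.norm_integral_le_of_norm_le_const (a := 0) (b := t)
    (f := fun s => ⟪e, (U κ').U s x⟫_ℂ • (U κ).U (t - s) e) (C := ‖e‖ * ‖x‖ * ‖e‖) (fun s _ => by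
      rw [norm_smul, (U κ).norm']
      refine mul_le_mul_of_nonneg_right ?_ (norm_nonneg _)
      refine (norm_inner_le_norm _ _).trans ?_
      rw [(U κ').norm'])
  rwa [sub_zero] at h2

end CT

theorem t_CT : St_CT := by
  intro ι U e hF
  rw [continuous_iff_continuousAt]
  rintro ⟨κ, t, x⟩
  rw [ContinuousAt, tendsto_iff_norm_sub_tendsto_zero]
  have hg : Continuous fun p : ℝ × ℝ × L2 ι => ‖p.2.2 - x‖ +
      |p.1 - κ| * (‖e‖ * ‖x‖ * ‖e‖ * |p.2.1|) + ‖(U κ).U p.2.1 x - (U κ).U t x‖ := by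
    have h1 : Continuous fun p : ℝ × ℝ × L2 ι => (U κ).U p.2.1 x :=
      ((U κ).cont' x).comp (continuous_fst.comp continuous_snd)
    fun_prop
  refine squeeze_zero (fun p => norm_nonneg _) (fun p => ?_) (hg.tendsto' _ _ (by simp))
  obtain ⟨κ', t', x'⟩ := p
  have e1 : (U κ').U t' x' - (U κ).U t x = (U κ').U t' (x' - x) +
      ((U κ').U t' x - (U κ).U t' x) + ((U κ).U t' x - (U κ).U t x) := by
    rw [map_sub]; abel
  show ‖(U κ').U t' x' - (U κ).U t x‖ ≤ _
  rw [e1]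
  refine (norm_add_le _ _).trans (add_le_add ((norm_add_le _ _).trans (add_le_add ?_ ?_)) le_rfl)
  · rw [(U κ').norm']
  · exact CT.diff_le hF κ κ' t' x

end Pool.Agent.H5R2.NB
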