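import Pool.Agent.H5R2.NB.Defs

/-! # CV: continuity of the unitary group in the potential and in the time -/

set_option autoImplicit false

open MeasureTheory Filter Topology
open scoped BigOperators ENNReal NNReal InnerProductSpace ComplexConjugate

namespace Pool.Agent.H5R2.NB

namespace CV

variable {d : ℕ}

/-- projection onto finitely many sites -/
noncomputable def PF (F : Finset (Site d)) : L2 (Site d) →L[ℂ] L2 (Site d) :=
  ∑ x ∈ F, (innerSL ℂ (dl x)).smulRight (dl x)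

theorem inner_dl (x : Site d) (b : L2 (Site d)) : ⟪dl x, b⟫_ℂ = b x := by
  unfold dl
  rw [lp.inner_single_left]
  simp

theorem PF_apply (F : Finset (Site d)) (b : L2 (Site d)) :
    PF F b = ∑ x ∈ F, lp.single 2 x (b x) := by
  unfold PF
  rw [sum_apply]
  refine Finset.sum_congr rfl fun x _ => ?_
  rw [ContinuousLinearMap.smulRight_apply, innerSL_apply_apply, inner_dl]
  unfold dl
  rw [← lp.single_smul]
  simp

theorem PF_norm_le (F : Finset (Site d)) (b : L2 (Site d)) : ‖PF F b‖ ≤ ‖b‖ := by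
  rw [PF_apply]
  have h0 : (0 : ℝ) < (2 : ℝ≥0∞).toReal := by norm_num
  have h1 := lp.norm_sum_single h0 (fun i => b i) F
  have h2 := lp.sum_rpow_le_norm_rpow h0 b F
  rw [← h1] at h2
  exact (Real.rpow_le_rpow_iff (norm_nonneg _) (norm_nonneg _) h0).1 h2

theorem PF_tendsto (b : L2 (Site d)) :
    Tendsto (fun F : Finset (Site d) => PF F b) atTop (𝓝 b) := by
  have h := lp.hasSum_single (p := 2) (by simp) b
  have h2 : Tendsto (fun F : Finset (Site d) => ∑ x ∈ F, lp.single 2 x (b x)) atTop (𝓝 b) := h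
  simpa only [PF_apply] using h2

theorem inner_PF (F : Finset (Site d)) (a b : L2 (Site d)) :
    ⟪a, PF F b⟫_ℂ = ∑ x ∈ F, conj (a x) * b x := by
  rw [PF_apply, inner_sum]
  refine Finset.sum_congr rfl fun x _ => ?_
  rw [lp.inner_single_right]
  simp [mul_comm]

theorem shift_adj {z : Site d} {S S' : L2 (Site d) →L[ℂ] L2 (Site d)} (hS : IsShift z S)
    (hS' : IsShift (-z) S') (a b : L2 (Site d)) : ⟪S a, b⟫_ℂ = ⟪a, S' b⟫_ℂ := by
  rw [lp.inner_eq_tsum, lp.inner_eq_tsum, ← Equiv.tsum_eq (Equiv.addRight z)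
    (fun x => ⟪a x, (S' b) x⟫_ℂ)]
  refine tsum_congr fun x => ?_
  rw [hS, hS', Equiv.coe_addRight, add_neg_cancel_right]

theorem hop_symm (hO : St_OPS) {c : ℝ} {K : L2 (Site d) →L[ℂ] L2 (Site d)} (hK : IsHop c K)
    (a b : L2 (Site d)) : ⟪K a, b⟫_ℂ = ⟪a, K b⟫_ℂ := by
  obtain ⟨h1, -, -⟩ := hO d
  choose S hS using h1
  have hKe : ∀ f : L2 (Site d), K f =
      (c : ℂ) • ∑ i : Fin d, (S (Pi.single i 1) f + S (-Pi.single i 1) f) := by
    intro f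
    ext x
    rw [hK, hopf, lp.coeFn_smul, Pi.smul_apply, smul_eq_mul, lp.coeFn_sum, Finset.sum_apply]
    congr 1
    refine Finset.sum_congr rfl fun i _ => ?_
    rw [lp.coeFn_add, Pi.add_apply, hS, hS, sub_eq_add_neg]
  rw [hKe a, hKe b, inner_smul_left, inner_smul_right, sum_inner, inner_sum, Complex.conj_ofReal]
  congr 1
  refine Finset.sum_congr rfl fun i _ => ?_
  rw [inner_add_left, inner_add_right, shift_adj (hS _) (hS (-Pi.single i 1)),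
    shift_adj (hS (-Pi.single i 1)) (S' := S (Pi.single i 1)) (by
      rw [neg_neg]
      exact hS _), add_comm]

/-- the commutator of the hopping operator and the projection -/
noncomputable def RF (K : L2 (Site d) →L[ℂ] L2 (Site d)) (F : Finset (Site d))
    (b : L2 (Site d)) : ℝ := ‖K (PF F b) - PF F (K b)‖

theorem RF_le (K : L2 (Site d) →L[ℂ] L2 (Site d)) (F : Finset (Site d)) (b : L2 (Site d)) :
    RF K F b ≤ 2 * (‖K‖ * ‖b‖) := by
  unfold RF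
  have h1 : ‖K (PF F b)‖ ≤ ‖K‖ * ‖b‖ :=
    (K.le_opNorm _).trans (mul_le_mul_of_nonneg_left (PF_norm_le _ _) (norm_nonneg _))
  have h2 : ‖PF F (K b)‖ ≤ ‖K‖ * ‖b‖ := (PF_norm_le _ _).trans (K.le_opNorm _)
  linarith [norm_sub_le (K (PF F b)) (PF F (K b))]

theorem RF_nonneg (K : L2 (Site d) →L[ℂ] L2 (Site d)) (F : Finset (Site d)) (b : L2 (Site d)) :
    0 ≤ RF K F b := norm_nonneg _

theorem RF_tendsto (K : L2 (Site d) →L[ℂ] L2 (Site d)) (b : L2 (Site d)) :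
    Tendsto (fun F => RF K F b) atTop (𝓝 0) := by
  have h1 : Tendsto (fun F : Finset (Site d) => K (PF F b)) atTop (𝓝 (K b)) :=
    (K.continuous.tendsto b).comp (PF_tendsto b)
  have h2 := (h1.sub (PF_tendsto (K b))).norm
  simpa [RF] using h2

theorem RF_cont (K : L2 (Site d) →L[ℂ] L2 (Site d)) (F : Finset (Site d)) :
    Continuous (RF K F) := by
  unfold RF
  fun_prop

/-- the derivative of the truncated inner product -/
theorem hasDeriv (hO : St_OPS) {c : ℝ} {K : L2 (Site d) →L[ℂ] L2 (Site d)} (hK : IsHop c K)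
    {V V₀ : Site d → ℝ} {W W₀ : UG (L2 (Site d))} (hW : IsGrp c V W) (hW₀ : IsGrp c V₀ W₀)
    (ψ : L2 (Site d)) (F : Finset (Site d)) (s : ℝ) :
    HasDerivAt (fun r => ⟪W.U r ψ, PF F (W₀.U r ψ)⟫_ℂ)
      (Complex.I * ⟪W.U s ψ, K (PF F (W₀.U s ψ)) - PF F (K (W₀.U s ψ))⟫_ℂ +
        Complex.I * ∑ x ∈ F, ((V x - V₀ x : ℝ) : ℂ) * (conj ((W.U s ψ) x) * (W₀.U s ψ) x)) s := by
  have h1 : (fun r => ⟪W.U r ψ, PF F (W₀.U r ψ)⟫_ℂ) =
      fun r => ∑ x ∈ F, conj ((W.U r ψ) x) * (W₀.U r ψ) x := by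
    funext r
    exact inner_PF F _ _
  rw [h1]
  have h2 : ∀ x ∈ F, HasDerivAt (fun r => conj ((W.U r ψ) x) * (W₀.U r ψ) x)
      (conj (-Complex.I * (hopf c (fun y => (W.U s ψ) y) x + V x * (W.U s ψ) x)) *
        (W₀.U s ψ) x + conj ((W.U s ψ) x) *
        (-Complex.I * (hopf c (fun y => (W₀.U s ψ) y) x + V₀ x * (W₀.U s ψ) x))) s := by
    intro x _
    have e1 := (hW ψ).2 s x
    have e2 := (hW₀ ψ).2 s x
    simp only [lp.coeFn_zero, Pi.zero_apply, add_zero] at e1 e2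
    have e3 := (Complex.conjCLE.toContinuousLinearMap.hasFDerivAt
      (x := (W.U s ψ) x)).comp_hasDerivAt s e1
    exact e3.mul e2
  have h3 := HasDerivAt.fun_sum h2
  refine HasDerivAt.congr_deriv h3 (Eq.symm ?_)
  rw [inner_sub_right, ← hop_symm hO hK, inner_PF, inner_PF, mul_sub, Finset.mul_sum,
    Finset.mul_sum, Finset.mul_sum, ← Finset.sum_sub_distrib, ← Finset.sum_add_distrib]
  refine Finset.sum_congr rfl fun x _ => ?_
  rw [hK, hK]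
  simp only [map_mul, map_add, map_neg, Complex.conj_I, Complex.conj_ofReal]
  push_cast
  ring

theorem coord_cont {c : ℝ} {V : Site d → ℝ} {W : UG (L2 (Site d))} (hW : IsGrp c V W)
    (ψ : L2 (Site d)) (x : Site d) : Continuous fun s => (W.U s ψ) x :=
  continuous_iff_continuousAt.2 fun s => ((hW ψ).2 s x).continuousAt

theorem coord_le (b : L2 (Site d)) (x : Site d) : ‖b x‖ ≤ ‖b‖ :=
  lp.norm_apply_le_norm (by simp) b x

/-- the increment of the truncated inner product -/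
theorem incr (hO : St_OPS) {c : ℝ} {K : L2 (Site d) →L[ℂ] L2 (Site d)} (hK : IsHop c K)
    {V V₀ : Site d → ℝ} {W W₀ : UG (L2 (Site d))} (hW : IsGrp c V W) (hW₀ : IsGrp c V₀ W₀)
    (ψ : L2 (Site d)) (F : Finset (Site d)) {δ : ℝ} (hδ : ∀ x ∈ F, |V x - V₀ x| ≤ δ)
    (hδ0 : 0 ≤ δ) {t T : ℝ} (ht : |t| ≤ T) :
    ‖⟪W.U t ψ, PF F (W₀.U t ψ)⟫_ℂ - ⟪ψ, PF F ψ⟫_ℂ‖ ≤
      ‖ψ‖ * (∫ s in (-T)..T, RF K F (W₀.U s ψ)) + 2 * T * (δ * F.card * ‖ψ‖ ^ 2) := by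
  set g' : ℝ → ℂ := fun s =>
    Complex.I * ⟪W.U s ψ, K (PF F (W₀.U s ψ)) - PF F (K (W₀.U s ψ))⟫_ℂ +
        Complex.I * ∑ x ∈ F, ((V x - V₀ x : ℝ) : ℂ) * (conj ((W.U s ψ) x) * (W₀.U s ψ) x)
    with hg'
  have hc : Continuous g' := by
    have e1 : Continuous fun s => W.U s ψ := W.cont' ψ
    have e2 : Continuous fun s => W₀.U s ψ := W₀.cont' ψ
    have e3 : Continuous fun s => K (PF F (W₀.U s ψ)) - PF F (K (W₀.U s ψ)) :=
      (K.continuous.comp ((PF F).continuous.comp e2)).sub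
        ((PF F).continuous.comp (K.continuous.comp e2))
    have e4 : Continuous fun s =>
        ∑ x ∈ F, ((V x - V₀ x : ℝ) : ℂ) * (conj ((W.U s ψ) x) * (W₀.U s ψ) x) := by
      refine continuous_finsetSum _ fun x _ => ?_
      exact continuous_const.mul ((Complex.continuous_conj.comp (coord_cont hW ψ x)).mul
        (coord_cont hW₀ ψ x))
    exact (continuous_const.mul (e1.inner e3)).add (continuous_const.mul e4)
  have hT : 0 ≤ T := (abs_nonneg t).trans ht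
  have h1 : ∫ s in (0 : ℝ)..t, g' s =
      ⟪W.U t ψ, PF F (W₀.U t ψ)⟫_ℂ - ⟪W.U 0 ψ, PF F (W₀.U 0 ψ)⟫_ℂ :=
    intervalIntegral.integral_eq_sub_of_hasDerivAt (fun s _ => hasDeriv hO hK hW hW₀ ψ F s)
      (hc.intervalIntegrable _ _)
  rw [W.zero', W₀.zero'] at h1
  rw [← h1]
  have hb : ∀ s, ‖g' s‖ ≤ ‖ψ‖ * RF K F (W₀.U s ψ) + δ * F.card * ‖ψ‖ ^ 2 := by
    intro s
    refine (norm_add_le _ _).trans (add_le_add ?_ ?_)
    · rw [norm_mul, Complex.norm_I, one_mul]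
      refine (norm_inner_le_norm _ _).trans ?_
      rw [W.norm']
      exact le_refl _
    · rw [norm_mul, Complex.norm_I, one_mul]
      refine (norm_sum_le _ _).trans ?_
      have h2 : ∀ x ∈ F, ‖((V x - V₀ x : ℝ) : ℂ) * (conj ((W.U s ψ) x) * (W₀.U s ψ) x)‖ ≤
          δ * ‖ψ‖ ^ 2 := by
        intro x hx
        rw [norm_mul, norm_mul, Complex.norm_real, Real.norm_eq_abs]
        have e1 : ‖conj ((W.U s ψ) x)‖ ≤ ‖ψ‖ := by
          rw [RCLike.norm_conj]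
          exact (coord_le _ _).trans (le_of_eq (W.norm' _ _))
        have e2 : ‖(W₀.U s ψ) x‖ ≤ ‖ψ‖ := (coord_le _ _).trans (le_of_eq (W₀.norm' _ _))
        have e3 := hδ x hx
        rw [sq]
        exact mul_le_mul e3 (mul_le_mul e1 e2 (norm_nonneg _) (norm_nonneg _))
          (mul_nonneg (norm_nonneg _) (norm_nonneg _)) hδ0
      refine (Finset.sum_le_sum h2).trans ?_
      rw [Finset.sum_const, nsmul_eq_mul]
      apply le_of_eq
      ring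
  have hRc : Continuous fun s => RF K F (W₀.U s ψ) := (RF_cont K F).comp (W₀.cont' ψ)
  have h3 : ‖∫ s in (0 : ℝ)..t, g' s‖ ≤ |∫ s in (0 : ℝ)..t, ‖g' s‖| :=
    intervalIntegral.norm_integral_le_abs_integral_norm
  have h4 : |∫ s in (0 : ℝ)..t, ‖g' s‖| ≤ |∫ s in (-T)..T, ‖g' s‖| := by
    apply intervalIntegral.abs_integral_mono_interval
    · intro s hs
      rw [Set.uIoc_of_le (by linarith)]
      rw [abs_le] at ht
      rcases Set.mem_uIoc.1 hs with h | h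
      · exact ⟨by linarith [h.1], by linarith [h.2]⟩
      · exact ⟨by linarith [h.1], by linarith [h.2]⟩
    · exact Eventually.of_forall fun s => norm_nonneg _
    · exact hc.norm.intervalIntegrable _ _
  have h5 : 0 ≤ ∫ s in (-T)..T, ‖g' s‖ :=
    intervalIntegral.integral_nonneg (by linarith) fun s _ => norm_nonneg _
  rw [abs_of_nonneg h5] at h4
  have h6 : ∫ s in (-T)..T, ‖g' s‖ ≤
      ∫ s in (-T)..T, (‖ψ‖ * RF K F (W₀.U s ψ) + δ * F.card * ‖ψ‖ ^ 2) := by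
    apply intervalIntegral.integral_mono_on (by linarith) (hc.norm.intervalIntegrable _ _)
      (((continuous_const.mul hRc).add continuous_const).intervalIntegrable _ _)
    intro s _
    exact hb s
  have hRc' : Continuous fun s => ‖ψ‖ * RF K F (W₀.U s ψ) := continuous_const.mul hRc
  rw [intervalIntegral.integral_add (hRc'.intervalIntegrable _ _)
    (continuous_const.intervalIntegrable _ _), intervalIntegral.integral_const_mul,
    intervalIntegral.integral_const, smul_eq_mul] at h6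
  have h7 : (T - -T) * (δ * F.card * ‖ψ‖ ^ 2) = 2 * T * (δ * F.card * ‖ψ‖ ^ 2) := by ring
  rw [h7] at h6
  exact (h3.trans h4).trans h6

theorem key (hO : St_OPS) {c : ℝ} {K : L2 (Site d) →L[ℂ] L2 (Site d)} (hK : IsHop c K)
    {V V₀ : Site d → ℝ} {W W₀ : UG (L2 (Site d))} (hW : IsGrp c V W) (hW₀ : IsGrp c V₀ W₀)
    (ψ : L2 (Site d)) (F : Finset (Site d)) {δ : ℝ} (hδ : ∀ x ∈ F, |V x - V₀ x| ≤ δ)
    (hδ0 : 0 ≤ δ) {t T : ℝ} (ht : |t| ≤ T) :
    ‖W.U t ψ - W₀.U t ψ‖ ^ 2 ≤ 2 * (‖ψ‖ * ‖ψ - PF F ψ‖) +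
      2 * (‖ψ‖ * ‖W₀.U t ψ - PF F (W₀.U t ψ)‖) +
      2 * (‖ψ‖ * (∫ s in (-T)..T, RF K F (W₀.U s ψ)) + 2 * T * (δ * F.card * ‖ψ‖ ^ 2)) := by
  have h1 := incr hO hK hW hW₀ ψ F hδ hδ0 ht
  set a := W.U t ψ with ha
  set b := W₀.U t ψ with hb
  have hna : ‖a‖ = ‖ψ‖ := W.norm' _ _
  have hnb : ‖b‖ = ‖ψ‖ := W₀.norm' _ _
  have h2 : ‖a - b‖ ^ 2 = 2 * ‖ψ‖ ^ 2 - 2 * RCLike.re ⟪a, b⟫_ℂ := by
    rw [@norm_sub_sq ℂ, hna, hnb]
    ring
  have h3 : ⟪a, b⟫_ℂ = (⟪a, PF F b⟫_ℂ - ⟪ψ, PF F ψ⟫_ℂ) + ⟪a, b - PF F b⟫_ℂ -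
      ⟪ψ, ψ - PF F ψ⟫_ℂ + ⟪ψ, ψ⟫_ℂ := by
    rw [inner_sub_right, inner_sub_right]
    ring
  have h4 : RCLike.re ⟪ψ, ψ⟫_ℂ = ‖ψ‖ ^ 2 := by
    rw [inner_self_eq_norm_sq_to_K]
    norm_cast
  have h5 : RCLike.re ⟪a, b⟫_ℂ = RCLike.re (⟪a, PF F b⟫_ℂ - ⟪ψ, PF F ψ⟫_ℂ) +
      RCLike.re ⟪a, b - PF F b⟫_ℂ - RCLike.re ⟪ψ, ψ - PF F ψ⟫_ℂ + ‖ψ‖ ^ 2 := by
    conv_lhs => rw [h3]
    rw [← h4]
    simp only [map_add, map_sub]
  have e1 : |RCLike.re (⟪a, PF F b⟫_ℂ - ⟪ψ, PF F ψ⟫_ℂ)| ≤ _ :=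
    (RCLike.abs_re_le_norm _).trans h1
  have e2 : |RCLike.re ⟪a, b - PF F b⟫_ℂ| ≤ ‖ψ‖ * ‖b - PF F b‖ :=
    (RCLike.abs_re_le_norm _).trans ((norm_inner_le_norm _ _).trans (by rw [hna]))
  have e3 : |RCLike.re ⟪ψ, ψ - PF F ψ⟫_ℂ| ≤ ‖ψ‖ * ‖ψ - PF F ψ‖ :=
    (RCLike.abs_re_le_norm _).trans (norm_inner_le_norm _ _)
  rw [h2, h5]
  have e1' := (abs_le.1 e1).1
  have e2' := (abs_le.1 e2).1
  have e3' := (abs_le.1 e3).2
  linarith

theorem int_tendsto {K : L2 (Site d) →L[ℂ] L2 (Site d)} (W₀ : UG (L2 (Site d)))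
    (ψ : L2 (Site d)) (T : ℝ) :
    Tendsto (fun F : Finset (Site d) => ∫ s in (-T)..T, RF K F (W₀.U s ψ)) atTop (𝓝 0) := by
  have h := intervalIntegral.tendsto_integral_filter_of_dominated_convergence
    (μ := volume) (a := -T) (b := T) (l := (atTop : Filter (Finset (Site d))))
    (F := fun F s => RF K F (W₀.U s ψ)) (f := fun _ => (0 : ℝ))
    (fun _ => 2 * (‖K‖ * ‖ψ‖)) ?_ ?_ ?_ ?_
  · simpa using h
  · exact Eventually.of_forall fun F =>
      ((RF_cont K F).comp (W₀.cont' ψ)).aestronglyMeasurable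
  · refine Eventually.of_forall fun F => Eventually.of_forall fun s _ => ?_
    rw [Real.norm_eq_abs, abs_of_nonneg (RF_nonneg _ _ _)]
    exact (RF_le K F _).trans (by rw [W₀.norm'])
  · exact intervalIntegrable_const
  · exact Eventually.of_forall fun s _ => RF_tendsto K _

end CV

theorem t_CV (hO : St_OPS) : St_CV := by
  intro d c ev hev
  obtain ⟨K, hK⟩ := (hO d).2.1 c
  rw [continuous_iff_continuousAt]
  rintro ⟨V₀, t₀, ψ₀⟩
  rw [ContinuousAt, tendsto_iff_norm_sub_tendsto_zero]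
  have hA : Tendsto (fun p : (Site d → ℝ) × ℝ × L2 (Site d) => ‖p.2.2 - ψ₀‖)
      (𝓝 (V₀, t₀, ψ₀)) (𝓝 0) := by
    have : Continuous fun p : (Site d → ℝ) × ℝ × L2 (Site d) => ‖p.2.2 - ψ₀‖ := by fun_prop
    simpa using this.tendsto (V₀, t₀, ψ₀)
  have hC : Tendsto (fun p : (Site d → ℝ) × ℝ × L2 (Site d) =>
      ‖(ev V₀).U p.2.1 ψ₀ - (ev V₀).U t₀ ψ₀‖) (𝓝 (V₀, t₀, ψ₀)) (𝓝 0) := by
    have : Continuous fun p : (Site d → ℝ) × ℝ × L2 (Site d) =>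
      ‖(ev V₀).U p.2.1 ψ₀ - (ev V₀).U t₀ ψ₀‖ :=
        ((((ev V₀).cont' ψ₀).comp (continuous_fst.comp continuous_snd)).sub
          continuous_const).norm
    simpa using this.tendsto (V₀, t₀, ψ₀)
  have hB : Tendsto (fun p : (Site d → ℝ) × ℝ × L2 (Site d) =>
      ‖(ev p.1).U p.2.1 ψ₀ - (ev V₀).U p.2.1 ψ₀‖) (𝓝 (V₀, t₀, ψ₀)) (𝓝 0) := by
    have hsq : Tendsto (fun p : (Site d → ℝ) × ℝ × L2 (Site d) =>
      ‖(ev p.1).U p.2.1 ψ₀ - (ev V₀).U p.2.1 ψ₀‖ ^ 2) (𝓝 (V₀, t₀, ψ₀)) (𝓝 0) := by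
      rw [Metric.tendsto_nhds]
      intro ε hε
      set T := |t₀| + 1 with hT
      -- choose the finite set
      have hF : Tendsto (fun F : Finset (Site d) => 2 * (‖ψ₀‖ * ‖ψ₀ - CV.PF F ψ₀‖) +
          2 * (‖ψ₀‖ * ‖(ev V₀).U t₀ ψ₀ - CV.PF F ((ev V₀).U t₀ ψ₀)‖) +
          2 * (‖ψ₀‖ * (∫ s in (-T)..T, CV.RF K F ((ev V₀).U s ψ₀)))) atTop (𝓝 0) := by
        have e1 := ((tendsto_const_nhds (x := ψ₀)).sub (CV.PF_tendsto ψ₀)).norm
        have e2 := ((tendsto_const_nhds (x := (ev V₀).U t₀ ψ₀)).sub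
          (CV.PF_tendsto ((ev V₀).U t₀ ψ₀))).norm
        have e3 := CV.int_tendsto (K := K) (ev V₀) ψ₀ T
        have e4 := (((e1.const_mul ‖ψ₀‖).const_mul 2).add
          ((e2.const_mul ‖ψ₀‖).const_mul 2)).add ((e3.const_mul ‖ψ₀‖).const_mul 2)
        simpa using e4
      obtain ⟨F, hF'⟩ := (hF.eventually (gt_mem_nhds (half_pos hε))).exists
      -- choose delta
      obtain ⟨δ, hδ0, hδ⟩ : ∃ δ : ℝ, 0 < δ ∧
          2 * (2 * T * (δ * F.card * ‖ψ₀‖ ^ 2)) < ε / 4 := by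
        have hcont : Tendsto (fun δ : ℝ => 2 * (2 * T * (δ * F.card * ‖ψ₀‖ ^ 2)))
            (𝓝[>] 0) (𝓝 0) := by
          have : Continuous fun δ : ℝ => 2 * (2 * T * (δ * F.card * ‖ψ₀‖ ^ 2)) := by fun_prop
          have h := (this.tendsto 0).mono_left (nhdsWithin_le_nhds (s := Set.Ioi 0))
          simpa using h
        have h2 := hcont.eventually (gt_mem_nhds (show (0 : ℝ) < ε / 4 by linarith))
        obtain ⟨δ, h3, h4⟩ := (h2.and self_mem_nhdsWithin).exists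
        exact ⟨δ, h4, h3⟩
      have n1 : ∀ᶠ p : (Site d → ℝ) × ℝ × L2 (Site d) in 𝓝 (V₀, t₀, ψ₀),
          ∀ x ∈ F, |p.1 x - V₀ x| < δ := by
        rw [Finset.eventually_all]
        intro x _
        have : Continuous fun p : (Site d → ℝ) × ℝ × L2 (Site d) => |p.1 x - V₀ x| := by
          fun_prop
        have h := this.tendsto (V₀, t₀, ψ₀)
        simp only [sub_self, abs_zero] at h
        exact h.eventually (gt_mem_nhds hδ0)
      have n2 : ∀ᶠ p : (Site d → ℝ) × ℝ × L2 (Site d) in 𝓝 (V₀, t₀, ψ₀), |p.2.1| < T := by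
        have : Continuous fun p : (Site d → ℝ) × ℝ × L2 (Site d) => |p.2.1| := by
          fun_prop
        have h := this.tendsto (V₀, t₀, ψ₀)
        exact h.eventually (gt_mem_nhds (by rw [hT]; linarith))
      have n3 : ∀ᶠ p : (Site d → ℝ) × ℝ × L2 (Site d) in 𝓝 (V₀, t₀, ψ₀),
          2 * (‖ψ₀‖ * (2 * ‖(ev V₀).U p.2.1 ψ₀ - (ev V₀).U t₀ ψ₀‖)) < ε / 4 := by
        have h := ((hC.const_mul 2).const_mul ‖ψ₀‖).const_mul 2
        simp only [mul_zero] at h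
        exact h.eventually (gt_mem_nhds (by linarith))
      filter_upwards [n1, n2, n3] with p h1 h2 h3
      rw [Real.dist_eq, sub_zero, abs_of_nonneg (sq_nonneg _)]
      have h4 := CV.key hO hK (hev p.1) (hev V₀) ψ₀ F (δ := δ) (fun x hx => (h1 x hx).le)
        hδ0.le (t := p.2.1) (T := T) h2.le
      have h5 : ‖(ev V₀).U p.2.1 ψ₀ - CV.PF F ((ev V₀).U p.2.1 ψ₀)‖ ≤
          ‖(ev V₀).U t₀ ψ₀ - CV.PF F ((ev V₀).U t₀ ψ₀)‖ +
            2 * ‖(ev V₀).U p.2.1 ψ₀ - (ev V₀).U t₀ ψ₀‖ := by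
        have e1 : (ev V₀).U p.2.1 ψ₀ - CV.PF F ((ev V₀).U p.2.1 ψ₀) =
            ((ev V₀).U t₀ ψ₀ - CV.PF F ((ev V₀).U t₀ ψ₀)) +
            (((ev V₀).U p.2.1 ψ₀ - (ev V₀).U t₀ ψ₀) -
              CV.PF F ((ev V₀).U p.2.1 ψ₀ - (ev V₀).U t₀ ψ₀)) := by
          rw [map_sub]
          abel
        rw [e1]
        refine (norm_add_le _ _).trans (add_le_add (le_refl _) ((norm_sub_le _ _).trans ?_))
        linarith [CV.PF_norm_le F ((ev V₀).U p.2.1 ψ₀ - (ev V₀).U t₀ ψ₀)]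
      have h6 := mul_le_mul_of_nonneg_left h5 (norm_nonneg ψ₀)
      nlinarith
    have h := hsq.sqrt
    simpa [Real.sqrt_sq] using h
  have hsum := (hA.add hB).add hC
  simp only [add_zero] at hsum
  refine squeeze_zero (fun _ => norm_nonneg _) (fun p => ?_) hsum
  have e1 : (ev p.1).U p.2.1 p.2.2 - (ev V₀).U t₀ ψ₀ =
      ((ev p.1).U p.2.1 (p.2.2 - ψ₀) + ((ev p.1).U p.2.1 ψ₀ - (ev V₀).U p.2.1 ψ₀)) +
        ((ev V₀).U p.2.1 ψ₀ - (ev V₀).U t₀ ψ₀) := by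
    rw [map_sub]
    abel
  have e2 : ‖(ev p.1).U p.2.1 (p.2.2 - ψ₀)‖ = ‖p.2.2 - ψ₀‖ := (ev p.1).norm' _ _
  rw [← e2]
  simp only [e1]
  exact (norm_add_le _ _).trans (add_le_add (norm_add_le _ _) (le_refl _))

end Pool.Agent.H5R2.NB
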