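import Pool.Agent.H5R2.NB.Defs

/-! # EX: existence of the unitary group for every real potential -/

set_option autoImplicit false

open MeasureTheory Filter Topology
open scoped BigOperators ENNReal NNReal InnerProductSpace ComplexConjugate

namespace Pool.Agent.H5R2.NB

namespace EX

section mult

variable {ι : Type}

/-- the multiplier `exp(-i t V_x)` -/
noncomputable def ph (V : ι → ℝ) (t : ℝ) (x : ι) : ℂ := Complex.exp (-(Complex.I * t * V x))

lemma norm_ph (V : ι → ℝ) (t : ℝ) (x : ι) : ‖ph V t x‖ = 1 := by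
  unfold ph
  rw [show -(Complex.I * t * V x) = ((-(t * V x) : ℝ) : ℂ) * Complex.I by push_cast; ring]
  exact Complex.norm_exp_ofReal_mul_I _

lemma ph_add (V : ι → ℝ) (s t : ℝ) (x : ι) : ph V (s + t) x = ph V s x * ph V t x := by
  unfold ph
  rw [← Complex.exp_add]
  congr 1
  push_cast
  ring

lemma ph_zero (V : ι → ℝ) (x : ι) : ph V 0 x = 1 := by
  unfold ph; simp

lemma conj_ph (V : ι → ℝ) (t : ℝ) (x : ι) : conj (ph V t x) = ph V (-t) x := by
  unfold ph
  rw [← Complex.exp_conj]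
  congr 1
  simp

lemma hasDerivAt_ph (V : ι → ℝ) (t : ℝ) (x : ι) :
    HasDerivAt (fun s => ph V s x) (-(Complex.I * V x) * ph V t x) t := by
  unfold ph
  have h1 : HasDerivAt (fun s : ℝ => -(Complex.I * (s:ℂ) * V x)) (-(Complex.I * V x)) t := by
    have h0 : HasDerivAt (fun s : ℝ => (s:ℂ)) 1 t := by
      simpa using HasDerivAt.ofReal_comp (hasDerivAt_id t)
    have h1 := ((h0.const_mul Complex.I).mul_const ((V x : ℝ) : ℂ)).neg
    exact h1.congr_deriv (by ring)
  have h2 := h1.cexp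
  rw [mul_comm] at h2
  exact h2

lemma mem_mult (w : ι → ℂ) (hw : ∀ x, ‖w x‖ = 1) (f : L2 ι) :
    Memℓp (fun x => w x * f x) 2 := by
  have hf : Memℓp (fun x => f x) 2 := lp.memℓp f
  rw [memℓp_gen_iff (by simp)] at hf ⊢
  simpa [hw] using hf

/-- multiplication by `w`, `|w| = 1` -/
noncomputable def mult (w : ι → ℂ) (hw : ∀ x, ‖w x‖ = 1) : L2 ι →L[ℂ] L2 ι :=
  LinearMap.mkContinuous
    { toFun := fun f => (⟨fun x => w x * f x, mem_mult w hw f⟩ : L2 ι)
      map_add' := by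
        intro f g
        ext x
        simp only [lp.coeFn_add, Pi.add_apply]
        ring
      map_smul' := by
        intro c f
        ext x
        simp only [lp.coeFn_smul, Pi.smul_apply, smul_eq_mul, RingHom.id_apply]
        ring } 1 (by
    intro f
    rw [one_mul]
    apply le_of_eq
    rw [lp.norm_eq_tsum_rpow (by simp), lp.norm_eq_tsum_rpow (by simp)]
    simp [hw])

lemma mult_apply (w : ι → ℂ) (hw : ∀ x, ‖w x‖ = 1) (f : L2 ι) (x : ι) :
    (mult w hw f) x = w x * f x := rfl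

lemma norm_mult (w : ι → ℂ) (hw : ∀ x, ‖w x‖ = 1) (f : L2 ι) : ‖mult w hw f‖ = ‖f‖ := by
  rw [lp.norm_eq_tsum_rpow (by simp), lp.norm_eq_tsum_rpow (by simp)]
  simp [hw, mult_apply]

/-- multiplication by `exp(-itV)` -/
noncomputable def DD (V : ι → ℝ) (t : ℝ) : L2 ι →L[ℂ] L2 ι := mult (ph V t) (norm_ph V t)

lemma DD_apply (V : ι → ℝ) (t : ℝ) (f : L2 ι) (x : ι) : (DD V t f) x = ph V t x * f x := rfl

lemma norm_DD (V : ι → ℝ) (t : ℝ) (f : L2 ι) : ‖DD V t f‖ = ‖f‖ := norm_mult _ _ _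

lemma DD_zero (V : ι → ℝ) (f : L2 ι) : DD V 0 f = f := by
  ext x
  rw [DD_apply, ph_zero, one_mul]

lemma DD_add (V : ι → ℝ) (s t : ℝ) (f : L2 ι) : DD V (s + t) f = DD V s (DD V t f) := by
  ext x
  rw [DD_apply, DD_apply, DD_apply, ph_add, mul_assoc]

lemma DD_neg (V : ι → ℝ) (t : ℝ) (f : L2 ι) : DD V (-t) (DD V t f) = f := by
  rw [← DD_add, neg_add_cancel, DD_zero]

lemma DD_neg' (V : ι → ℝ) (t : ℝ) (f : L2 ι) : DD V t (DD V (-t) f) = f := by
  rw [← DD_add, add_neg_cancel, DD_zero]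

lemma inner_DD (V : ι → ℝ) (t : ℝ) (f g : L2 ι) : ⟪DD V t f, g⟫_ℂ = ⟪f, DD V (-t) g⟫_ℂ := by
  rw [lp.inner_eq_tsum, lp.inner_eq_tsum]
  refine tsum_congr fun x => ?_
  rw [DD_apply, DD_apply]
  simp only [RCLike.inner_apply, map_mul, conj_ph]
  ring

lemma cont_DD (V : ι → ℝ) (f : L2 ι) : Continuous fun t => DD V t f := by
  rw [continuous_iff_continuousAt]
  intro t0
  rw [ContinuousAt, tendsto_iff_norm_sub_tendsto_zero]
  have hsq : Tendsto (fun t => ‖DD V t f - DD V t0 f‖ ^ 2) (𝓝 t0) (𝓝 0) := by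
    have e : ∀ t, ‖DD V t f - DD V t0 f‖ ^ 2 = ∑' x, ‖(ph V t x - ph V t0 x) * f x‖ ^ 2 := by
      intro t
      have := lp.norm_rpow_eq_tsum (p := 2) (by simp) (DD V t f - DD V t0 f)
      simp only [ENNReal.toReal_ofNat, Real.rpow_ofNat] at this
      rw [this]
      refine tsum_congr fun x => ?_
      rw [lp.coeFn_sub, Pi.sub_apply, DD_apply, DD_apply, sub_mul]
    simp_rw [e]
    have hs : Summable fun x => 4 * ‖f x‖ ^ 2 := by
      have hf : Memℓp (fun x => f x) 2 := lp.memℓp f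
      rw [memℓp_gen_iff (by simp)] at hf
      simp only [ENNReal.toReal_ofNat, Real.rpow_ofNat] at hf
      exact hf.mul_left 4
    have := tendsto_tsum_of_dominated_convergence (𝓕 := 𝓝 t0)
      (f := fun t x => ‖(ph V t x - ph V t0 x) * f x‖ ^ 2) (g := fun _ => (0:ℝ)) hs ?_ ?_
    · simpa using this
    · intro x
      have h1 : Tendsto (fun t => ph V t x) (𝓝 t0) (𝓝 (ph V t0 x)) :=
        (hasDerivAt_ph V t0 x).continuousAt
      have h2 : Tendsto (fun t => ‖(ph V t x - ph V t0 x) * f x‖ ^ 2) (𝓝 t0)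
          (𝓝 (‖(ph V t0 x - ph V t0 x) * f x‖ ^ 2)) :=
        (((h1.sub tendsto_const_nhds).mul tendsto_const_nhds).norm).pow 2
      simpa using h2
    · refine Filter.Eventually.of_forall fun t x => ?_
      rw [norm_mul, mul_pow, Real.norm_of_nonneg (by positivity)]
      have h1 : ‖ph V t x - ph V t0 x‖ ≤ 2 := by
        calc ‖ph V t x - ph V t0 x‖ ≤ ‖ph V t x‖ + ‖ph V t0 x‖ := norm_sub_le _ _
          _ = 2 := by rw [norm_ph, norm_ph]; norm_num
      have h2 : ‖ph V t x - ph V t0 x‖ ^ 2 ≤ 4 := by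
        nlinarith [norm_nonneg (ph V t x - ph V t0 x)]
      exact mul_le_mul_of_nonneg_right h2 (by positivity)
  have h := hsq.sqrt
  simpa [Real.sqrt_sq (norm_nonneg _)] using h

lemma cont_DD_comp (V : ι → ℝ) (a : ℝ → ℝ) (g : ℝ → L2 ι) (ha : Continuous a)
    (hg : Continuous g) : Continuous fun t => DD V (a t) (g t) := by
  rw [continuous_iff_continuousAt]
  intro t0
  rw [ContinuousAt, tendsto_iff_norm_sub_tendsto_zero]
  have h1 : Tendsto (fun t => ‖g t - g t0‖ + ‖DD V (a t) (g t0) - DD V (a t0) (g t0)‖)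
      (𝓝 t0) (𝓝 0) := by
    have h2 := (tendsto_iff_norm_sub_tendsto_zero.1 (hg.tendsto t0))
    have h3 := (tendsto_iff_norm_sub_tendsto_zero.1 (((cont_DD V (g t0)).comp ha).tendsto t0))
    simpa using h2.add h3
  refine squeeze_zero (fun _ => norm_nonneg _) (fun t => ?_) h1
  calc ‖DD V (a t) (g t) - DD V (a t0) (g t0)‖
      = ‖DD V (a t) (g t - g t0) + (DD V (a t) (g t0) - DD V (a t0) (g t0))‖ := by
        congr 1
        rw [map_sub]; abel
    _ ≤ ‖DD V (a t) (g t - g t0)‖ + ‖DD V (a t) (g t0) - DD V (a t0) (g t0)‖ := norm_add_le _ _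
    _ = _ := by rw [norm_DD]

end mult

/-- symmetry of the hopping operator -/
lemma hop_symm (h2 : St_OPS) {d : ℕ} {c : ℝ} {K : L2 (Site d) →L[ℂ] L2 (Site d)}
    (hK : IsHop c K) (f g : L2 (Site d)) : ⟪K f, g⟫_ℂ = ⟪f, K g⟫_ℂ := by
  classical
  choose S hS using (h2 d).1
  have hKS : ∀ f, K f = (c : ℂ) • ∑ i : Fin d, (S (Pi.single i 1) f + S (-Pi.single i 1) f) := by
    intro f
    ext x
    rw [hK f x, lp.coeFn_smul, Pi.smul_apply, lp.coeFn_sum, Finset.sum_apply, smul_eq_mul]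
    unfold hopf
    congr 1
    refine Finset.sum_congr rfl fun i _ => ?_
    rw [lp.coeFn_add, Pi.add_apply, hS, hS, sub_eq_add_neg]
  have hadj : ∀ (z : Site d) (f g : L2 (Site d)), ⟪S z f, g⟫_ℂ = ⟪f, S (-z) g⟫_ℂ := by
    intro z f g
    rw [lp.inner_eq_tsum, lp.inner_eq_tsum]
    rw [← Equiv.tsum_eq (Equiv.addRight z) (fun x => ⟪f x, (S (-z) g) x⟫_ℂ)]
    refine tsum_congr fun x => ?_
    rw [hS, hS]
    simp
  rw [hKS f, hKS g, inner_smul_left, inner_smul_right, sum_inner, inner_sum, Complex.conj_ofReal]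
  congr 1
  refine Finset.sum_congr rfl fun i _ => ?_
  rw [inner_add_left, inner_add_right, hadj, hadj, neg_neg, add_comm]

end EX

open EX in
theorem t_EX (h1 : St_EXA) (h2 : St_OPS) : St_EX := by
  classical
  intro d c V
  obtain ⟨K, hK⟩ := (h2 d).2.1 c
  -- the operators A t
  set A : ℝ → L2 (Site d) →L[ℂ] L2 (Site d) := fun t => (DD V (-t)) ∘L K ∘L (DD V t) with hA
  have hAapp : ∀ t f, A t f = DD V (-t) (K (DD V t f)) := fun t f => rfl
  have hAc : ∀ x, Continuous fun t => A t x := by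
    intro x
    exact cont_DD_comp V (fun t => -t) (fun t => K (DD V t x)) continuous_neg
      (K.continuous.comp (cont_DD V x))
  have hAb : ∀ t x, ‖A t x‖ ≤ ‖K‖ * ‖x‖ := by
    intro t x
    rw [hAapp, norm_DD]
    refine (K.le_opNorm _).trans ?_
    rw [norm_DD]
  have hAs : ∀ t x y, ⟪A t x, y⟫_ℂ = ⟪x, A t y⟫_ℂ := by
    intro t x y
    rw [hAapp, hAapp, inner_DD, neg_neg, hop_symm h2 hK, inner_DD]
  obtain ⟨Y, hY0, hYn, hYd⟩ := h1 (Site d) A ‖K‖ hAc hAb hAs
  have hYc : ∀ x, Continuous fun t => Y t x := fun x =>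
    continuous_iff_continuousAt.2 fun t => (hYd x t).continuousAt
  -- intertwining
  have hDA : ∀ s t f, DD V t (A (s + t) f) = A s (DD V t f) := by
    intro s t f
    rw [hAapp, hAapp, ← DD_add, ← DD_add]
    congr 2
    ring
  set U : ℝ → L2 (Site d) →L[ℂ] L2 (Site d) := fun t => (DD V t) ∘L (Y t) with hU
  have hUapp : ∀ t f, U t f = DD V t (Y t f) := fun t f => rfl
  have hUn : ∀ t f, ‖U t f‖ = ‖f‖ := by
    intro t f
    rw [hUapp, norm_DD, hYn]
  -- group property
  have hgrp : ∀ s t f, U (s + t) f = U s (U t f) := by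
    intro s t f
    set y : ℝ → L2 (Site d) := fun r => DD V t (Y (r + t) f) - Y r (U t f) with hy
    have hyd : ∀ r, HasDerivAt y (-Complex.I • A r (y r)) r := by
      intro r
      have e1 : HasDerivAt (fun r => Y (r + t) f) (-Complex.I • A (r + t) (Y (r + t) f)) r :=
        HasDerivAt.comp_add_const r t (hYd f (r + t))
      have e2 : HasDerivAt (fun r => DD V t (Y (r + t) f))
          (DD V t (-Complex.I • A (r + t) (Y (r + t) f))) r := by
        have := ((DD V t).restrictScalars ℝ).hasFDerivAt.comp_hasDerivAt r e1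
        exact this
      have e3 := e2.sub (hYd (U t f) r)
      refine e3.congr_deriv ?_
      rw [hy, map_smul, hDA]
      simp only [map_sub, smul_sub]
    have hconst : ∀ r, ⟪y r, y r⟫_ℂ = ⟪y 0, y 0⟫_ℂ := by
      intro r
      have hd : ∀ r, HasDerivAt (fun r => ⟪y r, y r⟫_ℂ) 0 r := by
        intro r
        have := HasDerivAt.inner ℂ (hyd r) (hyd r)
        refine this.congr_deriv ?_
        rw [inner_smul_right, inner_smul_left, hAs]
        simp
      exact is_const_of_deriv_eq_zero (fun r => (hd r).differentiableAt)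
        (fun r => (hd r).deriv) r 0
    have hy0 : y 0 = 0 := by
      simp only [hy, zero_add, hY0, hUapp, sub_self]
    have hys : y s = 0 := by
      have := hconst s
      rw [hy0, inner_zero_left] at this
      exact inner_self_eq_zero.1 this
    have hys' : DD V t (Y (s + t) f) = Y s (U t f) := sub_eq_zero.1 hys
    rw [hUapp, DD_add, hys', ← hUapp]
  refine ⟨⟨U, ?_, hgrp, hUn, ?_⟩, ?_⟩
  · intro x
    rw [hUapp, DD_zero, hY0]
  · intro x
    exact cont_DD_comp V (fun t => t) (fun t => Y t x) continuous_id (hYc x)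
  · intro ψ
    refine ⟨fun T => ⟨‖ψ‖, fun t _ => (hUn t ψ).le⟩, ?_⟩
    intro t x
    have e1 : HasDerivAt (fun s => (Y s ψ) x) ((-Complex.I • A t (Y t ψ)) x) t := by
      have := ((lp.evalCLM (𝕜 := ℂ) (E := fun _ : Site d => ℂ) (p := 2) x).restrictScalars
        ℝ).hasFDerivAt.comp_hasDerivAt t (hYd ψ t)
      exact this
    have e2 := (hasDerivAt_ph V t x).mul e1
    have e3 : (fun s => (U s ψ) x) = fun s => ph V s x * (Y s ψ) x := by
      funext s
      rw [hUapp, DD_apply]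
    show HasDerivAt (fun s => (U s ψ) x) _ t
    rw [e3]
    refine e2.congr_deriv ?_
    have e4 : ph V t x * (A t (Y t ψ)) x = hopf c (fun y => (U t ψ) y) x := by
      rw [← hK, hAapp, ← DD_apply, DD_neg', hUapp]
    have e5 : ((-Complex.I • A t (Y t ψ)) : L2 (Site d)) x = -Complex.I * (A t (Y t ψ)) x := by
      rw [lp.coeFn_smul, Pi.smul_apply, smul_eq_mul]
    rw [e5]
    have e6 : (U t ψ) x = ph V t x * (Y t ψ) x := by rw [hUapp, DD_apply]
    show _ = -Complex.I * (hopf c (fun y => (U t ψ) y) x + V x * (U t ψ) x) + ((0 : L2 (Site d)) : Site d → ℂ) x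
    rw [← e4, e6]
    simp only [lp.coeFn_zero, Pi.zero_apply]
    ring

end Pool.Agent.H5R2.NB
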