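import Pool.Agent.H5R2.NB.Defs

/-! # NB, task EXA: linear ODE with strongly continuous bounded symmetric coefficients -/

set_option autoImplicit false

open MeasureTheory Filter Topology
open scoped BigOperators ENNReal NNReal InnerProductSpace ComplexConjugate

namespace Pool.Agent.H5R2.NB
namespace EXA

variable {X : Type} [NormedAddCommGroup X] [InnerProductSpace ℂ X]

theorem norm_const (A : ℝ → X →L[ℂ] X) (hsym : ∀ t x y, ⟪A t x, y⟫_ℂ = ⟪x, A t y⟫_ℂ)
    (y : ℝ → X) (hy : ∀ t, HasDerivAt y (-Complex.I • A t (y t)) t) (t : ℝ) : ‖y t‖ = ‖y 0‖ := by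
  have h1 : ∀ s, HasDerivAt (fun s => ⟪y s, y s⟫_ℂ) 0 s := by
    intro s
    have h := HasDerivAt.inner ℂ (hy s) (hy s)
    refine h.congr_deriv ?_
    rw [inner_smul_right, inner_smul_left, hsym]
    simp
  have h2 : ⟪y t, y t⟫_ℂ = ⟪y 0, y 0⟫_ℂ :=
    is_const_of_deriv_eq_zero (fun s => (h1 s).differentiableAt) (fun s => (h1 s).deriv) t 0
  rw [inner_self_eq_norm_sq_to_K, inner_self_eq_norm_sq_to_K] at h2
  have h3 : ‖y t‖ ^ 2 = ‖y 0‖ ^ 2 := by exact_mod_cast h2
  exact (sq_eq_sq₀ (norm_nonneg _) (norm_nonneg _)).1 h3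

theorem cont_A (A : ℝ → X →L[ℂ] X) (a : ℝ) (hc : ∀ x, Continuous fun t => A t x)
    (ha : ∀ t x, ‖A t x‖ ≤ a * ‖x‖) {y : ℝ → X} (hy : Continuous y) :
    Continuous fun s => A s (y s) := by
  rw [continuous_iff_continuousAt]
  intro s
  have h1 : Tendsto (fun r => a * ‖y r - y s‖) (𝓝 s) (𝓝 0) := by
    have : Tendsto (fun r => a * ‖y r - y s‖) (𝓝 s) (𝓝 (a * ‖y s - y s‖)) :=
      (((hy.sub continuous_const).norm).const_smul a).tendsto s
    simpa using this
  have h2 : Tendsto (fun r => A r (y r - y s)) (𝓝 s) (𝓝 0) :=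
    squeeze_zero_norm (fun r => ha r _) h1
  have h3 : Tendsto (fun r => A r (y r - y s) + A r (y s)) (𝓝 s) (𝓝 (0 + A s (y s))) :=
    h2.add ((hc (y s)).tendsto s)
  have h4 : (fun r => A r (y r - y s) + A r (y s)) = fun r => A r (y r) := by
    funext r
    rw [← map_add, sub_add_cancel]
  rw [h4, zero_add] at h3
  exact h3

variable [CompleteSpace X]

/-- Picard iterates -/
noncomputable def P (A : ℝ → X →L[ℂ] X) (x : X) : ℕ → ℝ → X
  | 0 => fun _ => x
  | (n + 1) => fun t => ∫ s in (0 : ℝ)..t, (-Complex.I) • A s (P A x n s)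

theorem P_cont (A : ℝ → X →L[ℂ] X) (a : ℝ) (hc : ∀ x, Continuous fun t => A t x)
    (ha : ∀ t x, ‖A t x‖ ≤ a * ‖x‖) (x : X) : ∀ n, Continuous (P A x n)
  | 0 => continuous_const
  | (n + 1) => by
      have h1 : Continuous fun s => (-Complex.I) • A s (P A x n s) :=
        (cont_A A a hc ha (P_cont A a hc ha x n)).const_smul _
      rw [continuous_iff_continuousAt]
      intro t
      exact (h1.integral_hasStrictDerivAt 0 t).hasDerivAt.continuousAt

theorem P_deriv (A : ℝ → X →L[ℂ] X) (a : ℝ) (hc : ∀ x, Continuous fun t => A t x)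
    (ha : ∀ t x, ‖A t x‖ ≤ a * ‖x‖) (x : X) (n : ℕ) (t : ℝ) :
    HasDerivAt (P A x (n + 1)) (-Complex.I • A t (P A x n t)) t := by
  have h1 : Continuous fun s => (-Complex.I) • A s (P A x n s) :=
    (cont_A A a hc ha (P_cont A a hc ha x n)).const_smul _
  exact (h1.integral_hasStrictDerivAt 0 t).hasDerivAt

theorem P_bound (A : ℝ → X →L[ℂ] X) (a : ℝ) (ha0 : 0 ≤ a) (hc : ∀ x, Continuous fun t => A t x)
    (ha : ∀ t x, ‖A t x‖ ≤ a * ‖x‖) (x : X) :
    ∀ (n : ℕ) (t : ℝ), ‖P A x n t‖ ≤ (a * |t|) ^ n / n.factorial * ‖x‖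
  | 0, t => by simp [P]
  | (n + 1), t => by
      have h1 : Continuous fun s => (-Complex.I) • A s (P A x n s) :=
        (cont_A A a hc ha (P_cont A a hc ha x n)).const_smul _
      have h2 : ‖P A x (n + 1) t‖ ≤ ∫ s in Set.uIoc 0 t, ‖(-Complex.I) • A s (P A x n s)‖ :=
        intervalIntegral.norm_integral_le_integral_norm_uIoc
      have h3 : ∫ s in Set.uIoc 0 t, ‖(-Complex.I) • A s (P A x n s)‖ ≤
          ∫ s in Set.uIoc 0 t, (a ^ (n + 1) / n.factorial * ‖x‖) * |s - 0| ^ n := by
        refine setIntegral_mono_on ?_ ?_ measurableSet_uIoc ?_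
        · exact (h1.norm.intervalIntegrable 0 t).def'
        · have : Continuous fun s : ℝ => (a ^ (n + 1) / n.factorial * ‖x‖) * |s - 0| ^ n := by
            fun_prop
          exact (this.intervalIntegrable 0 t).def'
        · intro s _
          rw [norm_smul, norm_neg, Complex.norm_I, one_mul]
          refine (ha s _).trans ?_
          have h4 := mul_le_mul_of_nonneg_left (P_bound A a ha0 hc ha x n s) ha0
          refine h4.trans (le_of_eq ?_)
          rw [sub_zero, mul_pow]
          ring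
      refine h2.trans (h3.trans (le_of_eq ?_))
      rw [integral_const_mul, integral_pow_abs_sub_uIoc, sub_zero, Nat.factorial_succ, mul_pow]
      push_cast
      have hn : (n.factorial : ℝ) ≠ 0 := by positivity
      have hn1 : (n : ℝ) + 1 ≠ 0 := by positivity
      field_simp

theorem exists_sol (A : ℝ → X →L[ℂ] X) (a : ℝ) (ha0 : 0 ≤ a)
    (hc : ∀ x, Continuous fun t => A t x)
    (ha : ∀ t x, ‖A t x‖ ≤ a * ‖x‖) (x : X) :
    ∃ y : ℝ → X, y 0 = x ∧ ∀ t, HasDerivAt y (-Complex.I • A t (y t)) t := by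
  refine ⟨fun t => ∑' n, P A x n t, ?_, ?_⟩
  · show ∑' n, P A x n 0 = x
    rw [tsum_eq_single 0]
    · rfl
    · intro n hn
      obtain ⟨m, rfl⟩ := Nat.exists_eq_succ_of_ne_zero hn
      simp [P]
  · intro t
    set T : ℝ := |t| + 1 with hT
    let g' : ℕ → ℝ → X := fun n s => match n with
      | 0 => 0
      | (m + 1) => -Complex.I • A s (P A x m s)
    let u : ℕ → ℝ := fun n => match n with
      | 0 => 0
      | (m + 1) => a * ((a * T) ^ m / m.factorial * ‖x‖)
    have hu : Summable u := by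
      rw [← summable_nat_add_iff 1]
      exact ((Real.summable_pow_div_factorial (a * T)).mul_right ‖x‖).mul_left a
    have hsum : ∀ s, Summable fun n => P A x n s := fun s =>
      Summable.of_norm_bounded ((Real.summable_pow_div_factorial (a * |s|)).mul_right ‖x‖)
        (fun n => P_bound A a ha0 hc ha x n s)
    have hg : ∀ n, ∀ s ∈ Metric.ball (0 : ℝ) T, HasDerivAt (P A x n) (g' n s) s := by
      intro n s _
      match n with
      | 0 => exact hasDerivAt_const s x
      | (m + 1) => exact P_deriv A a hc ha x m s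
    have hg' : ∀ n, ∀ s ∈ Metric.ball (0 : ℝ) T, ‖g' n s‖ ≤ u n := by
      intro n s hs
      match n with
      | 0 => simp [g', u]
      | (m + 1) =>
        show ‖-Complex.I • A s (P A x m s)‖ ≤ a * ((a * T) ^ m / m.factorial * ‖x‖)
        rw [norm_smul, norm_neg, Complex.norm_I, one_mul]
        refine (ha s _).trans (mul_le_mul_of_nonneg_left ?_ ha0)
        refine (P_bound A a ha0 hc ha x m s).trans ?_
        have hs' : |s| ≤ T := by
          have := mem_ball_zero_iff.1 hs
          exact (le_of_lt this)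
        gcongr
    have h := hasDerivAt_tsum_of_isPreconnected hu Metric.isOpen_ball
      (convex_ball (0 : ℝ) T).isPreconnected hg hg' (y₀ := 0) (by simp [hT]; positivity) (hsum 0)
      (y := t) (by simp [hT])
    have h5 : ∑' n, g' n t = -Complex.I • A t (∑' n, P A x n t) := by
      have hs1 : Summable fun n => g' n t :=
        Summable.of_norm_bounded hu (fun n => hg' n t (by simp [hT]))
      rw [hs1.tsum_eq_zero_add]
      show (0 : X) + ∑' n, -Complex.I • A t (P A x n t) = _
      rw [zero_add, ContinuousLinearMap.map_tsum _ (hsum t), tsum_const_smul'']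
    rw [h5] at h
    exact h

end EXA

/-- EXA -/
theorem t_EXA : St_EXA := by
  intro ι A a hc ha hsym
  have ha' : ∀ t x, ‖A t x‖ ≤ |a| * ‖x‖ := fun t x =>
    (ha t x).trans (mul_le_mul_of_nonneg_right (le_abs_self a) (norm_nonneg x))
  choose y hy0 hyd using EXA.exists_sol A |a| (abs_nonneg a) hc ha'
  have huniq : ∀ z : ℝ → L2 ι, z 0 = 0 → (∀ t, HasDerivAt z (-Complex.I • A t (z t)) t) →
      ∀ t, z t = 0 := by
    intro z hz0 hz t
    have := EXA.norm_const A hsym z hz t
    rw [hz0, norm_zero] at this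
    exact norm_eq_zero.1 this
  have hadd : ∀ x x' t, y (x + x') t = y x t + y x' t := by
    intro x x' t
    have h := huniq (fun t => y (x + x') t - (y x t + y x' t)) (by simp [hy0]) (by
      intro t
      have h1 := (hyd (x + x') t).sub ((hyd x t).add (hyd x' t))
      refine h1.congr_deriv ?_
      rw [map_sub, map_add, smul_sub, smul_add]) t
    exact sub_eq_zero.1 h
  have hsmul : ∀ (k : ℂ) x t, y (k • x) t = k • y x t := by
    intro k x t
    have h := huniq (fun t => y (k • x) t - k • y x t) (by simp [hy0]) (by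
      intro t
      have h1 := (hyd (k • x) t).sub ((hyd x t).const_smul k)
      refine h1.congr_deriv ?_
      rw [map_sub, map_smul, smul_sub, smul_comm k (-Complex.I)]) t
    exact sub_eq_zero.1 h
  have hnorm : ∀ x t, ‖y x t‖ = ‖x‖ := by
    intro x t
    rw [EXA.norm_const A hsym (y x) (hyd x) t, hy0]
  refine ⟨fun t => LinearMap.mkContinuous
    { toFun := fun x => y x t
      map_add' := fun x x' => hadd x x' t
      map_smul' := fun k x => hsmul k x t } 1 (fun x => ?_), ?_, ?_, ?_⟩
  · show ‖y x t‖ ≤ 1 * ‖x‖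
    rw [hnorm, one_mul]
  · intro x
    exact hy0 x
  · intro t x
    exact hnorm x t
  · intro x t
    exact hyd x t

end Pool.Agent.H5R2.NB
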