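import Pool.Agent.H5R2.NB.Defs

/-! # Task FAM: changing the potential at the origin gives a rank one family -/

set_option autoImplicit false

open MeasureTheory Filter Topology
open scoped BigOperators ENNReal NNReal InnerProductSpace ComplexConjugate

namespace Pool.Agent.H5R2.NB

namespace FAM

theorem dl_apply {d : ℕ} (y : Site d) :
    (dl (0 : Site d)) y = if y = 0 then (1 : ℂ) else 0 := by
  unfold dl
  rw [lp.single_apply]
  by_cases h : y = 0
  · subst h; simp
  · simp [h]

theorem inner_dl {d : ℕ} (f : L2 (Site d)) : ⟪dl (0 : Site d), f⟫_ℂ = f 0 := by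
  unfold dl
  rw [lp.inner_single_left]
  simp

end FAM

theorem t_FAM (hUN : St_UN) : St_FAM := by
  intro d c ev hev V κ κ' t x
  have h0 := hev (Function.update V 0 κ') x
  set W := ev (Function.update V 0 κ) with hW
  set W' := ev (Function.update V 0 κ') with hW'
  set h : ℝ → L2 (Site d) := fun s =>
    (-(Complex.I * ((κ' - κ : ℝ) : ℂ))) • (⟪dl (0 : Site d), W'.U s x⟫_ℂ • dl (0 : Site d)) with hh
  have hcont : Continuous h := by
    have h1 : Continuous fun s => W'.U s x := W'.cont' x
    have h2 : Continuous fun s => ⟪dl (0 : Site d), W'.U s x⟫_ℂ :=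
      Continuous.inner continuous_const h1
    have h3 : Continuous fun s => ⟪dl (0 : Site d), W'.U s x⟫_ℂ • dl (0 : Site d) :=
      h2.smul (continuous_const (y := dl (0 : Site d)))
    exact h3.const_smul (-(Complex.I * ((κ' - κ : ℝ) : ℂ)))
  have hsol : IsSol c (Function.update V 0 κ) (fun t => W'.U t x) h := by
    refine ⟨h0.1, fun s y => ?_⟩
    have h3 := h0.2 s y
    convert h3 using 1
    have e1 : (h s) y = -(Complex.I * ((κ' - κ : ℝ) : ℂ)) *
        ((W'.U s x) 0 * (if y = 0 then (1 : ℂ) else 0)) := by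
      simp only [hh]
      rw [lp.coeFn_smul, Pi.smul_apply, lp.coeFn_smul, Pi.smul_apply, FAM.dl_apply, FAM.inner_dl,
        smul_eq_mul, smul_eq_mul]
    have e2 : ((0 : L2 (Site d))) y = 0 := rfl
    simp only [e1, e2]
    by_cases hy : y = 0
    · subst hy
      simp only [Function.update_self, if_true]
      push_cast
      ring
    · simp only [Function.update_of_ne hy, if_neg hy]
      ring
  have h4 := hUN d c (Function.update V 0 κ) W (hev _) (fun t => W'.U t x) h hcont hsol t
  have h5 : ∀ s, W.U (t - s) (h s) = (-(Complex.I * ((κ' - κ : ℝ) : ℂ))) •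
      (⟪dl (0 : Site d), W'.U s x⟫_ℂ • W.U (t - s) (dl (0 : Site d))) := by
    intro s
    simp only [hh]
    rw [map_smul, map_smul]
  simp only [h5] at h4
  rw [intervalIntegral.integral_smul, W'.zero'] at h4
  show W'.U t x = W.U t x - (Complex.I * ((κ' - κ : ℝ) : ℂ)) •
      ∫ s in (0 : ℝ)..t, ⟪dl (0 : Site d), W'.U s x⟫_ℂ • W.U (t - s) (dl (0 : Site d))
  rw [h4, neg_smul, ← sub_eq_add_neg]

end Pool.Agent.H5R2.NB
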