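import Pool.Agent.H5R2.NB.Defs

/-! # Transfer of MAIN to solutions of the Schrödinger equation, iid potentials `g(ξ_x)` -/

set_option autoImplicit false

open MeasureTheory Filter Topology
open scoped BigOperators ENNReal NNReal InnerProductSpace ComplexConjugate

namespace Pool.Agent.H5R2.NB

namespace GEN

variable {d : ℕ}

/-- `ψ` solves `i ∂_t ψ = (K + V) ψ`, `ψ(0) = δ_0`, with `ℓ²` norm one -/
structure IsEvo (c : ℝ) (V : Site d → ℝ) (ψ : ℝ → Site d → ℂ) : Prop where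
  init : ψ 0 = Pi.single 0 1
  deriv : ∀ t x, HasDerivAt (fun s => ψ s x)
    (-Complex.I * (hopf c (ψ t) x + V x * ψ t x)) t
  norm : ∀ t, HasSum (fun x => ‖ψ t x‖ ^ 2) 1

theorem norm_dl (x : Site d) : ‖(dl x : L2 (Site d))‖ = 1 := by
  unfold dl
  rw [lp.norm_single (by norm_num)]
  simp

theorem hasSum_sq (f : L2 (Site d)) : HasSum (fun x => ‖f x‖ ^ 2) (‖f‖ ^ 2) := by
  have h := lp.hasSum_norm (by norm_num : 0 < (2 : ℝ≥0∞).toReal) f
  simpa using h

theorem dl_coe : ((dl 0 : L2 (Site d)) : Site d → ℂ) = Pi.single 0 1 := by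
  funext x
  unfold dl
  rw [lp.coeFn_single]

theorem exists_evo (hEX : St_EX) (c : ℝ) (V : Site d → ℝ) : ∃ ψ, IsEvo c V ψ := by
  obtain ⟨W, hW⟩ := hEX d c V
  refine ⟨fun t x => (W.U t (dl 0)) x, ?_, ?_, ?_⟩
  · funext x
    simp only
    rw [W.zero', dl_coe]
  · intro t x
    have := (hW (dl 0)).2 t x
    simpa using this
  · intro t
    have h := hasSum_sq (W.U t (dl 0))
    rw [W.norm', norm_dl, one_pow] at h
    exact h

theorem evo_eq (hUN : St_UN) (c : ℝ) (V : Site d → ℝ) (W : UG (L2 (Site d)))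
    (hW : IsGrp c V W) (ψ : ℝ → Site d → ℂ) (hψ : IsEvo c V ψ) (t : ℝ) (x : Site d) :
    ψ t x = (W.U t (dl 0)) x := by
  have hmem : ∀ t, Memℓp (ψ t) 2 := by
    intro t
    refine memℓp_gen ?_
    simpa using (hψ.norm t).summable
  set f : ℝ → L2 (Site d) := fun t => ⟨ψ t, hmem t⟩ with hf
  have hfx : ∀ t x, (f t) x = ψ t x := fun t x => rfl
  have hfn : ∀ t, ‖f t‖ = 1 := by
    intro t
    have h := hasSum_sq (f t)
    have h2 := h.unique (hψ.norm t)
    have h3 := norm_nonneg (f t)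
    nlinarith [h2]
  have h0 : f 0 = dl 0 := by
    ext x
    rw [hfx, hψ.init, dl_coe]
  have hsol : IsSol c V f (fun _ => 0) := by
    refine ⟨fun T => ⟨1, fun t _ => (hfn t).le⟩, fun t x => ?_⟩
    have := hψ.deriv t x
    simpa using this
  have := hUN d c V W hW f (fun _ => 0) continuous_const hsol t
  have h4 : ∫ s in (0 : ℝ)..t, W.U (t - s) ((fun _ => (0 : L2 (Site d))) s) = 0 := by
    simp
  rw [h4, add_zero, h0] at this
  rw [← hfx, this]

theorem existsUnique_evo (hEX : St_EX) (hUN : St_UN) (c : ℝ) (V : Site d → ℝ) :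
    ∃! ψ, IsEvo c V ψ := by
  obtain ⟨ψ, hψ⟩ := exists_evo hEX c V
  obtain ⟨W, hW⟩ := hEX d c V
  refine ⟨ψ, hψ, fun φ hφ => ?_⟩
  funext t x
  rw [evo_eq hUN c V W hW ψ hψ, evo_eq hUN c V W hW φ hφ]

/-- the general transfer theorem -/
theorem main (hEX : St_EX) (hUN : St_UN) (hCV : St_CV) (hM : St_MAIN) (c : ℝ)
    (μ : Measure ℝ) [IsProbabilityMeasure μ] (g : ℝ → ℝ) (hg : Measurable g) (C : ℝ≥0)
    (hμ : μ.map g ≤ C • volume) (Ψ : (Site d → ℝ) → ℝ → Site d → ℂ)
    (hΨ : ∀ ξ, IsEvo c (fun x => g (ξ x)) (Ψ ξ)) :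
    Tendsto (fun t : ℝ => (∫⁻ ξ, ∑' x : Site d,
        ENNReal.ofReal (∑ i : Fin d, (x i : ℝ) ^ 2) * ‖Ψ ξ t x‖ₑ ^ 2
          ∂(Measure.infinitePi fun _ : Site d => μ)) /
          ENNReal.ofReal (t ^ 2)) atTop (𝓝 0) := by
  choose ev hev using fun V => hEX d c V
  have hpm : IsProbabilityMeasure (μ.map g) := Measure.isProbabilityMeasure_map hg.aemeasurable
  have h := hM d c ev hev (μ.map g) C hμ
  refine h.congr fun t => ?_
  congr 1
  have hpi : PP d (μ.map g) =
      (Measure.infinitePi fun _ : Site d => μ).map (fun ξ x => g (ξ x)) := by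
    unfold PP
    exact (Measure.infinitePi_map_pi (μ := fun _ : Site d => μ) (fun _ => hg)).symm
  have hmeas : Measurable (fun V : Site d → ℝ => ∑' x : Site d,
      ENNReal.ofReal (∑ i : Fin d, (x i : ℝ) ^ 2) * ‖((ev V).U t (dl 0)) x‖ₑ ^ 2) := by
    refine Measurable.tsum fun x => ?_
    refine Measurable.const_mul ?_ _
    refine Measurable.pow_const ?_ 2
    have h1 : Continuous (fun V : Site d → ℝ => (ev V).U t (dl 0)) :=
      (hCV d c ev hev).comp (continuous_id.prodMk (continuous_const.prodMk continuous_const))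
    have h2 : Continuous (fun f : L2 (Site d) => (f : Site d → ℂ) x) :=
      (continuous_apply x).comp (lp.uniformContinuous_coe).continuous
    exact (h2.comp h1).enorm.measurable
  have hgm : Measurable (fun (ξ : Site d → ℝ) (x : Site d) => g (ξ x)) :=
    measurable_pi_iff.2 fun x => hg.comp (measurable_pi_apply x)
  rw [hpi, lintegral_map hmeas hgm]
  refine lintegral_congr fun ξ => ?_
  refine tsum_congr fun x => ?_
  rw [evo_eq hUN c (fun x => g (ξ x)) (ev fun x => g (ξ x)) (hev _) (Ψ ξ) (hΨ ξ)]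

end GEN

end Pool.Agent.H5R2.NB
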