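import Pool.Agent.H5R2.NB.Defs

/-!
Task KB: Hilbert's inequality with the kernel `x/(x²+ε²)`.
-/

set_option autoImplicit false
set_option linter.unusedSectionVars false

open MeasureTheory Filter Topology
open scoped BigOperators ENNReal NNReal InnerProductSpace ComplexConjugate

namespace Pool.Agent.H5R2.NB

namespace KB

/-- the kernel -/
noncomputable def K (ε y : ℝ) : ℝ := y / (y ^ 2 + ε ^ 2)

/-- the (unnormalised) Poisson kernel -/
noncomputable def P (ε y : ℝ) : ℝ := ε / (y ^ 2 + ε ^ 2)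

lemma den_pos {ε : ℝ} (hε : 0 < ε) (y : ℝ) : 0 < y ^ 2 + ε ^ 2 := by positivity

lemma continuous_K {ε : ℝ} (hε : 0 < ε) : Continuous (K ε) := by
  unfold K
  exact Continuous.div continuous_id (by fun_prop) fun y => (den_pos hε y).ne'

lemma continuous_P {ε : ℝ} (hε : 0 < ε) : Continuous (P ε) := by
  unfold P
  exact Continuous.div continuous_const (by fun_prop) fun y => (den_pos hε y).ne'

lemma P_eq {ε : ℝ} (hε : 0 < ε) (y : ℝ) : P ε y = ε⁻¹ * (1 + (y / ε) ^ 2)⁻¹ := by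
  unfold P
  have := den_pos hε y
  field_simp
  ring

lemma P_nonneg {ε : ℝ} (hε : 0 < ε) (y : ℝ) : 0 ≤ P ε y := by
  unfold P
  positivity

lemma integrable_P {ε : ℝ} (hε : 0 < ε) : Integrable (P ε) := by
  have h1 : Integrable (fun y : ℝ => ε⁻¹ * (1 + (y / ε) ^ 2)⁻¹) :=
    (integrable_inv_one_add_sq.comp_div hε.ne').const_mul _
  exact h1.congr (Filter.Eventually.of_forall fun y => (P_eq hε y).symm)

lemma integral_P {ε : ℝ} (hε : 0 < ε) : ∫ y, P ε y = Real.pi := by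
  rw [integral_congr_ae (Filter.Eventually.of_forall fun y => P_eq hε y), integral_const_mul]
  have h := Measure.integral_comp_div (fun y : ℝ => (1 + y ^ 2)⁻¹) ε
  rw [h, integral_univ_inv_one_add_sq, abs_of_pos hε, smul_eq_mul]
  field_simp

lemma K_sq_le {ε : ℝ} (hε : 0 < ε) (y : ℝ) : K ε y ^ 2 ≤ ε⁻¹ * P ε y := by
  unfold K P
  have h := den_pos hε y
  rw [div_pow, ← mul_div_assoc, inv_mul_cancel₀ hε.ne', div_le_div_iff₀ (by positivity) h]
  nlinarith [sq_nonneg ε]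

lemma integrable_K_sq {ε : ℝ} (hε : 0 < ε) : Integrable (fun y => K ε y ^ 2) := by
  refine ((integrable_P hε).const_mul ε⁻¹).mono' ((continuous_K hε).pow 2).aestronglyMeasurable ?_
  refine Filter.Eventually.of_forall fun y => ?_
  rw [Real.norm_eq_abs, abs_of_nonneg (sq_nonneg _)]
  exact K_sq_le hε y

lemma abs_K_mul_le (ε x y : ℝ) : |K ε x * K ε y| ≤ (K ε x ^ 2 + K ε y ^ 2) / 2 := by
  rw [abs_le]
  constructor <;> nlinarith [sq_nonneg (K ε x + K ε y), sq_nonneg (K ε x - K ε y)]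

lemma integrable_KK {ε : ℝ} (hε : 0 < ε) (y y' : ℝ) :
    Integrable (fun x => K ε (x - y) * K ε (x - y')) := by
  have h1 := ((integrable_K_sq hε).comp_sub_right y).add ((integrable_K_sq hε).comp_sub_right y')
  refine (h1.div_const 2).mono' (((continuous_K hε).comp (continuous_sub_right y)).mul
    ((continuous_K hε).comp (continuous_sub_right y'))).aestronglyMeasurable ?_
  exact Filter.Eventually.of_forall fun x => abs_K_mul_le ε _ _

lemma tendsto_K {ε : ℝ} (hε : 0 < ε) : Tendsto (K ε) (cocompact ℝ) (𝓝 0) := by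
  have h1 : ∀ y : ℝ, ‖K ε y‖ ≤ ‖y‖⁻¹ := by
    intro y
    unfold K
    rcases eq_or_ne y 0 with rfl | hy
    · simp
    · rw [norm_div, Real.norm_eq_abs, Real.norm_eq_abs, abs_of_pos (den_pos hε y)]
      have h2 : 0 < |y| := abs_pos.2 hy
      rw [inv_eq_one_div, div_le_div_iff₀ (den_pos hε y) h2, ← sq, sq_abs]
      nlinarith [sq_nonneg ε]
  exact squeeze_zero_norm h1 ((tendsto_norm_cocompact_atTop).inv_tendsto_atTop)

lemma tendsto_P (ε : ℝ) : Tendsto (P ε) (cocompact ℝ) (𝓝 0) := by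
  have h1 : Tendsto (fun y : ℝ => y ^ 2 + ε ^ 2) (cocompact ℝ) atTop := by
    have h2 : Tendsto (fun y : ℝ => ‖y‖ ^ 2) (cocompact ℝ) atTop :=
      (tendsto_pow_atTop two_ne_zero).comp tendsto_norm_cocompact_atTop
    have h3 := tendsto_atTop_add_const_right (cocompact ℝ) (ε ^ 2) h2
    simpa [sq_abs] using h3
  have h4 := h1.inv_tendsto_atTop.const_mul ε
  rw [mul_zero] at h4
  exact h4

/-- antiderivative for `a = 0` -/
lemma hasDerivAt_zero {ε : ℝ} (hε : 0 < ε) (x : ℝ) :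
    HasDerivAt (fun x => 1 / (2 * ε) * Real.arctan (x / ε) - K ε x / 2) (K ε x * K ε x) x := by
  have hd := den_pos hε x
  have h1 : HasDerivAt (fun x : ℝ => x / ε) (1 / ε) x := (hasDerivAt_id x).div_const ε
  have h2 := (h1.arctan).const_mul (1 / (2 * ε))
  have h3 : HasDerivAt (fun x : ℝ => x ^ 2 + ε ^ 2) (2 * x) x := by
    have := (hasDerivAt_pow 2 x).add_const (ε ^ 2)
    simpa using this
  have h4 : HasDerivAt (K ε) ((1 * (x ^ 2 + ε ^ 2) - x * (2 * x)) / (x ^ 2 + ε ^ 2) ^ 2) x :=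
    (hasDerivAt_id x).div h3 hd.ne'
  refine (h2.sub (h4.div_const 2)).congr_deriv ?_
  unfold K
  have h5 : (1 + (x / ε) ^ 2) = (x ^ 2 + ε ^ 2) / ε ^ 2 := by field_simp; ring
  rw [h5]
  field_simp
  ring

lemma hasDerivAt_log {ε : ℝ} (hε : 0 < ε) (x : ℝ) :
    HasDerivAt (fun x => Real.log (x ^ 2 + ε ^ 2) / 2) (K ε x) x := by
  have hd := den_pos hε x
  have h3 : HasDerivAt (fun x : ℝ => x ^ 2 + ε ^ 2) (2 * x) x := by
    have := (hasDerivAt_pow 2 x).add_const (ε ^ 2)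
    simpa using this
  refine ((h3.log hd.ne').div_const 2).congr_deriv ?_
  unfold K
  field_simp

lemma hasDerivAt_arctan {ε : ℝ} (hε : 0 < ε) (x : ℝ) :
    HasDerivAt (fun x => Real.arctan (x / ε)) (P ε x) x := by
  have hd := den_pos hε x
  have h1 : HasDerivAt (fun x : ℝ => x / ε) (1 / ε) x := (hasDerivAt_id x).div_const ε
  refine (h1.arctan).congr_deriv ?_
  unfold P
  have h5 : (1 + (x / ε) ^ 2) = (x ^ 2 + ε ^ 2) / ε ^ 2 := by field_simp; ring
  rw [h5]
  field_simp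

lemma partial_fractions {ε a : ℝ} (hε : 0 < ε) (ha : a ≠ 0) (x : ℝ) :
    K ε x * K ε (x - a) =
      -(a ^ 2 + 2 * ε ^ 2) / (a * (a ^ 2 + 4 * ε ^ 2)) * (K ε x - K ε (x - a)) +
        ε / (a ^ 2 + 4 * ε ^ 2) * (P ε x + P ε (x - a)) := by
  have h1 := den_pos hε x
  have h2 := den_pos hε (x - a)
  have h3 : 0 < a ^ 2 + 4 * ε ^ 2 := by positivity
  unfold K P
  field_simp
  ring

lemma tendsto_log_sub {ε : ℝ} (hε : 0 < ε) (a : ℝ) :
    Tendsto (fun x => Real.log (x ^ 2 + ε ^ 2) / 2 - Real.log ((x - a) ^ 2 + ε ^ 2) / 2)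
      (cocompact ℝ) (𝓝 0) := by
  have hsub : Tendsto (fun x : ℝ => x - a) (cocompact ℝ) (cocompact ℝ) :=
    (Homeomorph.subRight a).isClosedEmbedding.tendsto_cocompact
  have h1 : Tendsto (fun x => 1 + (2 * a * K ε (x - a) + a ^ 2 / ε * P ε (x - a)))
      (cocompact ℝ) (𝓝 1) := by
    have h2 := ((tendsto_K hε).comp hsub).const_mul (2 * a)
    have h3 := ((tendsto_P ε).comp hsub).const_mul (a ^ 2 / ε)
    have h4 := (h2.add h3).const_add 1
    simpa using h4
  have h5 : ∀ x, Real.log (x ^ 2 + ε ^ 2) / 2 - Real.log ((x - a) ^ 2 + ε ^ 2) / 2 =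
      Real.log (1 + (2 * a * K ε (x - a) + a ^ 2 / ε * P ε (x - a))) / 2 := by
    intro x
    have hx := den_pos hε x
    have hx' := den_pos hε (x - a)
    rw [← sub_div, ← Real.log_div hx.ne' hx'.ne']
    congr 2
    unfold K P
    field_simp
    ring
  simp only [h5]
  have h6 := ((Real.continuousAt_log one_ne_zero).tendsto.comp h1).div_const 2
  simpa using h6

/-- the autocorrelation of the kernel -/
lemma integral_KK0 {ε : ℝ} (hε : 0 < ε) (a : ℝ) :
    ∫ x, K ε x * K ε (x - a) = Real.pi * P (2 * ε) a := by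
  have hint : Integrable (fun x => K ε x * K ε (x - a)) := by
    have := integrable_KK hε 0 a
    simpa using this
  have hPe : Real.pi * P (2 * ε) a = Real.pi * (2 * ε) / (a ^ 2 + 4 * ε ^ 2) := by
    unfold P
    ring
  rw [hPe]
  have hat : ∀ b : ℝ, Tendsto (fun x : ℝ => Real.arctan ((x - b) / ε)) atTop (𝓝 (Real.pi / 2)) := by
    intro b
    have h1 : Tendsto (fun x : ℝ => (x - b) / ε) atTop atTop :=
      (tendsto_atTop_add_const_right atTop (-b) tendsto_id).atTop_div_const hε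
    exact (Real.tendsto_arctan_atTop.mono_right nhdsWithin_le_nhds).comp h1
  have hab : ∀ b : ℝ, Tendsto (fun x : ℝ => Real.arctan ((x - b) / ε)) atBot
      (𝓝 (-(Real.pi / 2))) := by
    intro b
    have h1 : Tendsto (fun x : ℝ => (x - b) / ε) atBot atBot :=
      (tendsto_atBot_add_const_right atBot (-b) tendsto_id).atBot_div_const hε
    exact (Real.tendsto_arctan_atBot.mono_right nhdsWithin_le_nhds).comp h1
  have hbt : (atTop : Filter ℝ) ≤ cocompact ℝ := by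
    rw [cocompact_eq_atBot_atTop]
    exact le_sup_right
  have hbb : (atBot : Filter ℝ) ≤ cocompact ℝ := by
    rw [cocompact_eq_atBot_atTop]
    exact le_sup_left
  rcases eq_or_ne a 0 with rfl | ha
  · have hint' : Integrable (fun x => K ε x * K ε x) := by simpa using hint
    have h1 := integral_of_hasDerivAt_of_tendsto (hasDerivAt_zero hε) hint'
      (((hab 0).const_mul (1 / (2 * ε))).sub (((tendsto_K hε).mono_left hbb).div_const 2) |>.congr
        (fun x => by simp))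
      (((hat 0).const_mul (1 / (2 * ε))).sub (((tendsto_K hε).mono_left hbt).div_const 2) |>.congr
        (fun x => by simp))
    simp only [sub_zero]
    rw [h1]
    field_simp
    ring
  · set A : ℝ := -(a ^ 2 + 2 * ε ^ 2) / (a * (a ^ 2 + 4 * ε ^ 2)) with hA
    set B : ℝ := ε / (a ^ 2 + 4 * ε ^ 2) with hB
    have hsubd : ∀ x : ℝ, HasDerivAt (fun x : ℝ => x - a) 1 x := fun x =>
      (hasDerivAt_id x).sub_const a
    have hder : ∀ x, HasDerivAt (fun x => A * (Real.log (x ^ 2 + ε ^ 2) / 2 -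
        Real.log ((x - a) ^ 2 + ε ^ 2) / 2) + B * (Real.arctan ((x - 0) / ε) +
          Real.arctan ((x - a) / ε))) (K ε x * K ε (x - a)) x := by
      intro x
      rw [partial_fractions hε ha x]
      have h1 := hasDerivAt_log hε x
      have h2 := HasDerivAt.comp x (hasDerivAt_log hε (x - a)) (hsubd x)
      have h3 := hasDerivAt_arctan hε x
      have h4 := HasDerivAt.comp x (hasDerivAt_arctan hε (x - a)) (hsubd x)
      rw [mul_one] at h2 h4
      have h5 := ((h1.sub h2).const_mul A).add ((h3.add h4).const_mul B)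
      simp only [sub_zero]
      exact h5
    have h1 := integral_of_hasDerivAt_of_tendsto hder hint
      ((((tendsto_log_sub hε a).mono_left hbb).const_mul A).add
        (((hab 0).add (hab a)).const_mul B))
      ((((tendsto_log_sub hε a).mono_left hbt).const_mul A).add
        (((hat 0).add (hat a)).const_mul B))
    rw [h1, hB]
    ring

lemma integral_KK {ε : ℝ} (hε : 0 < ε) (y y' : ℝ) :
    ∫ x, K ε (x - y) * K ε (x - y') = Real.pi * P (2 * ε) (y' - y) := by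
  rw [← integral_KK0 hε (y' - y)]
  rw [← integral_sub_right_eq_self (fun x => K ε x * K ε (x - (y' - y))) y]
  refine integral_congr_ae (Filter.Eventually.of_forall fun x => ?_)
  simp only
  congr 2
  ring

section hilbert

variable {E : Type} [NormedAddCommGroup E] [InnerProductSpace ℂ E] [CompleteSpace E]

/-- convolution of the vector measure `u ν` with the kernel -/
noncomputable def ff (ε : ℝ) (ν : Measure ℝ) (u : ℝ → E) (x : ℝ) : E :=
  ∫ κ, ((K ε (x - κ) : ℝ) : ℂ) • u κ ∂ν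

variable {ν : Measure ℝ} [IsFiniteMeasure ν] {u : ℝ → E} {M : ℝ}

lemma K_abs_le {ε : ℝ} (hε : 0 < ε) (y : ℝ) : |K ε y| ≤ 1 / (2 * ε) := by
  unfold K
  rw [abs_div, abs_of_pos (den_pos hε y), div_le_div_iff₀ (den_pos hε y) (by positivity)]
  nlinarith [sq_nonneg (|y| - ε), sq_abs y, abs_nonneg y]

lemma integrable_Ku {ε : ℝ} (hε : 0 < ε) (hu : AEStronglyMeasurable u ν) (hM : ∀ κ, ‖u κ‖ ≤ M)
    (x : ℝ) : Integrable (fun κ => ((K ε (x - κ) : ℝ) : ℂ) • u κ) ν := by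
  have hc : Continuous fun κ : ℝ => ((K ε (x - κ) : ℝ) : ℂ) :=
    Complex.continuous_ofReal.comp ((continuous_K hε).comp (continuous_const.sub continuous_id))
  refine Integrable.of_bound (hc.aestronglyMeasurable.smul hu) (1 / (2 * ε) * M)
    (Filter.Eventually.of_forall fun κ => ?_)
  rw [norm_smul, Complex.norm_real, Real.norm_eq_abs]
  exact mul_le_mul (K_abs_le hε _) (hM κ) (norm_nonneg _) (by positivity)

/-- the integrand -/
noncomputable def Phi (ε : ℝ) (u : ℝ → E) (x : ℝ) (p : ℝ × ℝ) : ℂ :=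
  ((K ε (x - p.1) * K ε (x - p.2) : ℝ) : ℂ) * ⟪u p.1, u p.2⟫_ℂ

lemma aesm_inner (hu : AEStronglyMeasurable u ν) :
    AEStronglyMeasurable (fun p : ℝ × ℝ => ⟪u p.1, u p.2⟫_ℂ) (ν.prod ν) :=
  hu.comp_fst.inner hu.comp_snd

lemma norm_inner_uu (hM : ∀ κ, ‖u κ‖ ≤ M) (κ κ' : ℝ) : ‖⟪u κ, u κ'⟫_ℂ‖ ≤ M * M :=
  (norm_inner_le_norm _ _).trans (mul_le_mul (hM κ) (hM κ') (norm_nonneg _)
    ((norm_nonneg _).trans (hM κ)))

lemma inner_ff {ε : ℝ} (hε : 0 < ε) (hu : AEStronglyMeasurable u ν) (hM : ∀ κ, ‖u κ‖ ≤ M)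
    (x : ℝ) : ⟪ff ε ν u x, ff ε ν u x⟫_ℂ = ∫ p, Phi ε u x p ∂(ν.prod ν) := by
  have hi := integrable_Ku hε hu hM x
  have hK : Continuous fun p : ℝ × ℝ => ((K ε (x - p.1) * K ε (x - p.2) : ℝ) : ℂ) := by
    refine Complex.continuous_ofReal.comp (Continuous.mul ?_ ?_)
    · exact (continuous_K hε).comp (continuous_const.sub continuous_fst)
    · exact (continuous_K hε).comp (continuous_const.sub continuous_snd)
  have hint : Integrable (Phi ε u x) (ν.prod ν) := by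
    refine Integrable.of_bound (hK.aestronglyMeasurable.mul (aesm_inner hu))
      ((1 / (2 * ε) * (1 / (2 * ε))) * (M * M)) (Filter.Eventually.of_forall fun p => ?_)
    unfold Phi
    rw [norm_mul, Complex.norm_real, Real.norm_eq_abs, abs_mul]
    refine mul_le_mul (mul_le_mul (K_abs_le hε _) (K_abs_le hε _) (abs_nonneg _) (by positivity))
      (norm_inner_uu hM _ _) (norm_nonneg _) (by positivity)
  rw [integral_prod _ hint]
  have h1 : ∀ κ, ∫ κ', Phi ε u x (κ, κ') ∂ν =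
      starRingEnd ℂ ⟪ff ε ν u x, ((K ε (x - κ) : ℝ) : ℂ) • u κ⟫_ℂ := by
    intro κ
    rw [inner_conj_symm]
    unfold ff
    rw [← integral_inner hi]
    refine integral_congr_ae (Filter.Eventually.of_forall fun κ' => ?_)
    simp only [Phi, inner_smul_left, inner_smul_right, Complex.conj_ofReal]
    push_cast
    ring
  rw [integral_congr_ae (Filter.Eventually.of_forall h1), integral_conj, integral_inner hi]
  rw [← inner_conj_symm]
  rfl

lemma Phi_integrable {ε : ℝ} (hε : 0 < ε) (hu : AEStronglyMeasurable u ν)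
    (hM : ∀ κ, ‖u κ‖ ≤ M) :
    Integrable (fun q : (ℝ × ℝ) × ℝ => Phi ε u q.2 q.1) ((ν.prod ν).prod volume) := by
  have hK : Continuous fun q : (ℝ × ℝ) × ℝ => ((K ε (q.2 - q.1.1) * K ε (q.2 - q.1.2) : ℝ) : ℂ) := by
    refine Complex.continuous_ofReal.comp (Continuous.mul ?_ ?_)
    · exact (continuous_K hε).comp (continuous_snd.sub (continuous_fst.comp continuous_fst))
    · exact (continuous_K hε).comp (continuous_snd.sub (continuous_snd.comp continuous_fst))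
  have hm : AEStronglyMeasurable (fun q : (ℝ × ℝ) × ℝ => Phi ε u q.2 q.1)
      ((ν.prod ν).prod volume) := by
    unfold Phi
    exact hK.aestronglyMeasurable.mul (aesm_inner hu).comp_fst
  have hb : ∀ (p : ℝ × ℝ) (x : ℝ), ‖Phi ε u x p‖ ≤
      (K ε (x - p.1) ^ 2 + K ε (x - p.2) ^ 2) / 2 * (M * M) := by
    intro p x
    unfold Phi
    rw [norm_mul, Complex.norm_real, Real.norm_eq_abs]
    exact mul_le_mul (abs_K_mul_le ε _ _) (norm_inner_uu hM _ _) (norm_nonneg _) (by positivity)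
  have hbi : ∀ p : ℝ × ℝ, Integrable (fun x : ℝ =>
      (K ε (x - p.1) ^ 2 + K ε (x - p.2) ^ 2) / 2 * (M * M)) := fun p =>
    ((((integrable_K_sq hε).comp_sub_right p.1).add
      ((integrable_K_sq hε).comp_sub_right p.2)).div_const 2).mul_const _
  have hxi : ∀ p : ℝ × ℝ, Integrable (fun x : ℝ => Phi ε u x p) := by
    intro p
    refine (hbi p).mono' ?_ (Filter.Eventually.of_forall fun x => hb p x)
    have hK' : Continuous fun x : ℝ => ((K ε (x - p.1) * K ε (x - p.2) : ℝ) : ℂ) := by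
      refine Complex.continuous_ofReal.comp (Continuous.mul ?_ ?_)
      · exact (continuous_K hε).comp (continuous_id.sub continuous_const)
      · exact (continuous_K hε).comp (continuous_id.sub continuous_const)
    exact hK'.aestronglyMeasurable.mul_const _
  rw [integrable_prod_iff hm]
  refine ⟨Filter.Eventually.of_forall fun p => hxi p, ?_⟩
  refine Integrable.of_bound hm.norm.integral_prod_right'
    ((∫ x, K ε x ^ 2) * (M * M)) (Filter.Eventually.of_forall fun p => ?_)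
  rw [Real.norm_eq_abs, abs_of_nonneg (integral_nonneg fun x => norm_nonneg _)]
  refine (integral_mono (hxi p).norm (hbi p) fun x => hb p x).trans (le_of_eq ?_)
  rw [integral_mul_const, integral_div, integral_add
    ((integrable_K_sq hε).comp_sub_right p.1) ((integrable_K_sq hε).comp_sub_right p.2),
    integral_sub_right_eq_self (fun x => K ε x ^ 2), integral_sub_right_eq_self (fun x => K ε x ^ 2)]
  ring

lemma integral_measure_le {C : ℝ≥0} (hν : ν ≤ C • (volume : Measure ℝ)) {g : ℝ → ℝ}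
    (hg : ∀ x, 0 ≤ g x) (hgi : Integrable g) : ∫ x, g x ∂ν ≤ C * ∫ x, g x := by
  have h1 : Integrable g (C • (volume : Measure ℝ)) := hgi.smul_measure_nnreal
  have h2 := integral_mono_measure hν (Filter.Eventually.of_forall hg) h1
  rw [integral_smul_nnreal_measure] at h2
  exact h2

lemma P_int_le {C : ℝ≥0} (hν : ν ≤ C • (volume : Measure ℝ)) {ε : ℝ} (hε : 0 < ε) (y : ℝ) :
    ∫ x, P ε (x - y) ∂ν ≤ C * Real.pi := by
  have h := integral_measure_le hν (g := fun x => P ε (x - y)) (fun x => P_nonneg hε _)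
    ((integrable_P hε).comp_sub_right y)
  rw [integral_sub_right_eq_self (μ := (volume : Measure ℝ)) (P ε), integral_P hε] at h
  exact h

lemma P_neg (ε y : ℝ) : P ε (-y) = P ε y := by
  unfold P
  rw [neg_sq]

lemma P_le {ε : ℝ} (hε : 0 < ε) (y : ℝ) : P ε y ≤ 1 / ε := by
  unfold P
  rw [div_le_div_iff₀ (den_pos hε y) hε]
  nlinarith [sq_nonneg y]

lemma Pu_bound {C : ℝ≥0} (hν : ν ≤ C • (volume : Measure ℝ)) {ε : ℝ} (hε : 0 < ε)
    (hu : AEStronglyMeasurable u ν) (hM : ∀ κ, ‖u κ‖ ≤ M) :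
    Integrable (fun p : ℝ × ℝ => P ε (p.2 - p.1) * ((‖u p.1‖ ^ 2 + ‖u p.2‖ ^ 2) / 2)) (ν.prod ν) ∧
    ∫ p : ℝ × ℝ, P ε (p.2 - p.1) * ((‖u p.1‖ ^ 2 + ‖u p.2‖ ^ 2) / 2) ∂(ν.prod ν) ≤
      C * Real.pi * ∫ κ, ‖u κ‖ ^ 2 ∂ν := by
  have hPc : Continuous fun p : ℝ × ℝ => P ε (p.2 - p.1) :=
    (continuous_P hε).comp (continuous_snd.sub continuous_fst)
  have hM0 : 0 ≤ M := (norm_nonneg _).trans (hM 0)
  have hu2 : ∀ κ, ‖u κ‖ ^ 2 ≤ M ^ 2 := fun κ => pow_le_pow_left₀ (norm_nonneg _) (hM κ) 2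
  have hui : Integrable (fun κ => ‖u κ‖ ^ 2) ν := by
    refine Integrable.of_bound (hu.norm.pow 2) (M ^ 2) (Filter.Eventually.of_forall fun κ => ?_)
    rw [Real.norm_eq_abs, abs_of_nonneg (sq_nonneg _)]
    exact hu2 κ
  have hi1 : Integrable (fun p : ℝ × ℝ => P ε (p.2 - p.1) * ‖u p.1‖ ^ 2) (ν.prod ν) := by
    refine Integrable.of_bound (hPc.aestronglyMeasurable.mul (hu.norm.pow 2).comp_fst)
      (1 / ε * M ^ 2) (Filter.Eventually.of_forall fun p => ?_)
    rw [Real.norm_eq_abs, abs_of_nonneg (mul_nonneg (P_nonneg hε _) (sq_nonneg _))]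
    exact mul_le_mul (P_le hε _) (hu2 _) (sq_nonneg _) (by positivity)
  have hi2 : Integrable (fun p : ℝ × ℝ => P ε (p.2 - p.1) * ‖u p.2‖ ^ 2) (ν.prod ν) := by
    refine Integrable.of_bound (hPc.aestronglyMeasurable.mul (hu.norm.pow 2).comp_snd)
      (1 / ε * M ^ 2) (Filter.Eventually.of_forall fun p => ?_)
    rw [Real.norm_eq_abs, abs_of_nonneg (mul_nonneg (P_nonneg hε _) (sq_nonneg _))]
    exact mul_le_mul (P_le hε _) (hu2 _) (sq_nonneg _) (by positivity)
  have e : (fun p : ℝ × ℝ => P ε (p.2 - p.1) * ((‖u p.1‖ ^ 2 + ‖u p.2‖ ^ 2) / 2)) =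
      fun p : ℝ × ℝ => (P ε (p.2 - p.1) * ‖u p.1‖ ^ 2 + P ε (p.2 - p.1) * ‖u p.2‖ ^ 2) / 2 := by
    funext p
    ring
  rw [e]
  refine ⟨(hi1.add hi2).div_const 2, ?_⟩
  have b1 : ∫ p : ℝ × ℝ, P ε (p.2 - p.1) * ‖u p.1‖ ^ 2 ∂(ν.prod ν) ≤
      C * Real.pi * ∫ κ, ‖u κ‖ ^ 2 ∂ν := by
    rw [integral_prod _ hi1, ← integral_const_mul]
    refine integral_mono hi1.integral_prod_left (hui.const_mul _) fun κ => ?_
    simp only
    rw [integral_mul_const]
    exact mul_le_mul_of_nonneg_right (P_int_le hν hε κ) (sq_nonneg _)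
  have b2 : ∫ p : ℝ × ℝ, P ε (p.2 - p.1) * ‖u p.2‖ ^ 2 ∂(ν.prod ν) ≤
      C * Real.pi * ∫ κ, ‖u κ‖ ^ 2 ∂ν := by
    rw [integral_prod_symm _ hi2, ← integral_const_mul]
    refine integral_mono hi2.integral_prod_right (hui.const_mul _) fun κ => ?_
    simp only
    rw [integral_mul_const]
    refine mul_le_mul_of_nonneg_right ?_ (sq_nonneg _)
    have h1 : ∀ x, P ε (κ - x) = P ε (x - κ) := fun x => by rw [← P_neg, neg_sub]
    simp only [h1]
    exact P_int_le hν hε κ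
  rw [integral_div, integral_add hi1 hi2]
  linarith

lemma ff_sq {C : ℝ≥0} (hν : ν ≤ C • (volume : Measure ℝ)) {ε : ℝ} (hε : 0 < ε)
    (hu : AEStronglyMeasurable u ν) (hM : ∀ κ, ‖u κ‖ ≤ M) :
    Integrable (fun x => ‖ff ε ν u x‖ ^ 2) ∧
    ∫ x, ‖ff ε ν u x‖ ^ 2 ≤ Real.pi ^ 2 * C * ∫ κ, ‖u κ‖ ^ 2 ∂ν := by
  have hΦ := Phi_integrable hε hu hM
  have h1 : ∀ x, ((‖ff ε ν u x‖ ^ 2 : ℝ) : ℂ) = ∫ p, Phi ε u x p ∂(ν.prod ν) := by
    intro x
    rw [← inner_ff hε hu hM x, inner_self_eq_norm_sq_to_K]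
    push_cast
    rfl
  have hi : Integrable (fun x => ((‖ff ε ν u x‖ ^ 2 : ℝ) : ℂ)) := by
    refine hΦ.integral_prod_right.congr (Filter.Eventually.of_forall fun x => ?_)
    exact (h1 x).symm
  have hir : Integrable (fun x => ‖ff ε ν u x‖ ^ 2) := by
    have := hi.re
    refine this.congr (Filter.Eventually.of_forall fun x => ?_)
    exact Complex.ofReal_re _
  refine ⟨hir, ?_⟩
  have h2 : ((∫ x, ‖ff ε ν u x‖ ^ 2 : ℝ) : ℂ) =
      ∫ p : ℝ × ℝ, ((Real.pi * P (2 * ε) (p.2 - p.1) : ℝ) : ℂ) * ⟪u p.1, u p.2⟫_ℂ ∂(ν.prod ν) := by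
    rw [← integral_complex_ofReal, integral_congr_ae (Filter.Eventually.of_forall h1),
      ← integral_integral_swap (f := fun (p : ℝ × ℝ) (x : ℝ) => Phi ε u x p) hΦ]
    refine integral_congr_ae (Filter.Eventually.of_forall fun p => ?_)
    simp only [Phi]
    rw [integral_mul_const, integral_complex_ofReal, integral_KK hε]
  obtain ⟨h3, h4⟩ := Pu_bound hν (by positivity : 0 < 2 * ε) hu hM
  have h5 : ∫ x, ‖ff ε ν u x‖ ^ 2 = ‖((∫ x, ‖ff ε ν u x‖ ^ 2 : ℝ) : ℂ)‖ := by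
    rw [Complex.norm_real, Real.norm_eq_abs, abs_of_nonneg (integral_nonneg fun x => sq_nonneg _)]
  rw [h5, h2]
  refine (norm_integral_le_of_norm_le (h3.const_mul Real.pi)
    (Filter.Eventually.of_forall fun p => ?_)).trans ?_
  · rw [norm_mul, Complex.norm_real, Real.norm_eq_abs,
      abs_of_nonneg (mul_nonneg Real.pi_pos.le (P_nonneg (by positivity) _)), mul_assoc]
    refine mul_le_mul_of_nonneg_left ?_ Real.pi_pos.le
    refine mul_le_mul_of_nonneg_left ?_ (P_nonneg (by positivity) _)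
    refine (norm_inner_le_norm _ _).trans ?_
    nlinarith [sq_nonneg (‖u p.1‖ - ‖u p.2‖)]
  · rw [integral_const_mul]
    have := mul_le_mul_of_nonneg_left h4 Real.pi_pos.le
    calc _ ≤ _ := this
      _ = _ := by ring

theorem main {C : ℝ≥0} (hν : ν ≤ C • (volume : Measure ℝ)) {ε : ℝ} (hε : 0 < ε)
    (hu : AEStronglyMeasurable u ν) (hM : ∀ κ, ‖u κ‖ ≤ M) :
    ‖∫ κ, ∫ κ', (((κ - κ') / ((κ - κ') ^ 2 + ε ^ 2) : ℝ) : ℂ) * ⟪u κ, u κ'⟫_ℂ ∂ν ∂ν‖ ≤
        Real.pi * C * ∫ κ, ‖u κ‖ ^ 2 ∂ν := by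
  rcases eq_or_ne C 0 with rfl | hC
  · have h0 : ν = 0 := by
      refine le_antisymm ?_ (Measure.zero_le ν)
      simpa using hν
    subst h0
    simp
  have hCp : (0 : ℝ) < C := by
    have := pos_iff_ne_zero.2 hC
    exact_mod_cast this
  have hu2 : ∀ κ, ‖u κ‖ ^ 2 ≤ M ^ 2 := fun κ => pow_le_pow_left₀ (norm_nonneg _) (hM κ) 2
  have hui : Integrable (fun κ => ‖u κ‖ ^ 2) ν := by
    refine Integrable.of_bound (hu.norm.pow 2) (M ^ 2) (Filter.Eventually.of_forall fun κ => ?_)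
    rw [Real.norm_eq_abs, abs_of_nonneg (sq_nonneg _)]
    exact hu2 κ
  have h1 : ∀ κ, ∫ κ', (((κ - κ') / ((κ - κ') ^ 2 + ε ^ 2) : ℝ) : ℂ) * ⟪u κ, u κ'⟫_ℂ ∂ν =
      ⟪u κ, ff ε ν u κ⟫_ℂ := by
    intro κ
    unfold ff
    rw [← integral_inner (integrable_Ku hε hu hM κ)]
    refine integral_congr_ae (Filter.Eventually.of_forall fun κ' => ?_)
    simp only [inner_smul_right]
    rfl
  rw [integral_congr_ae (Filter.Eventually.of_forall h1)]
  obtain ⟨h2, h3⟩ := ff_sq hν hε hu hM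
  have h2ν : Integrable (fun x => ‖ff ε ν u x‖ ^ 2) ν :=
    (h2.smul_measure_nnreal (c := C)).mono_measure hν
  have h4 := integral_measure_le hν (fun x => sq_nonneg ‖ff ε ν u x‖) h2
  set t : ℝ := Real.pi * C with ht
  have ht0 : 0 < t := by rw [ht]; exact mul_pos Real.pi_pos hCp
  have h5 : ∀ κ, ‖⟪u κ, ff ε ν u κ⟫_ℂ‖ ≤ t / 2 * ‖u κ‖ ^ 2 + 1 / (2 * t) * ‖ff ε ν u κ‖ ^ 2 := by
    intro κ
    refine (norm_inner_le_norm _ _).trans ?_
    have h6 : 0 ≤ (t * ‖u κ‖ - ‖ff ε ν u κ‖) ^ 2 / (2 * t) := by positivity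
    have h7 : (t * ‖u κ‖ - ‖ff ε ν u κ‖) ^ 2 / (2 * t) =
        t / 2 * ‖u κ‖ ^ 2 + 1 / (2 * t) * ‖ff ε ν u κ‖ ^ 2 - ‖u κ‖ * ‖ff ε ν u κ‖ := by
      field_simp
      ring
    linarith
  refine (norm_integral_le_of_norm_le ((hui.const_mul (t / 2)).add (h2ν.const_mul (1 / (2 * t))))
    (Filter.Eventually.of_forall h5)).trans ?_
  rw [integral_add' (hui.const_mul (t / 2)) (h2ν.const_mul (1 / (2 * t))), integral_const_mul,
    integral_const_mul]
  have h8 : 1 / (2 * t) * ∫ κ, ‖ff ε ν u κ‖ ^ 2 ∂ν ≤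
      1 / (2 * t) * (C * (Real.pi ^ 2 * C * ∫ κ, ‖u κ‖ ^ 2 ∂ν)) := by
    refine mul_le_mul_of_nonneg_left (h4.trans ?_) (by positivity)
    exact mul_le_mul_of_nonneg_left h3 hCp.le
  have h9 : 1 / (2 * t) * (C * (Real.pi ^ 2 * C * ∫ κ, ‖u κ‖ ^ 2 ∂ν)) =
      t / 2 * ∫ κ, ‖u κ‖ ^ 2 ∂ν := by
    rw [ht]
    field_simp
  rw [h9] at h8
  linarith

end hilbert

end KB

theorem t_KB : St_KB := by
  intro ι _ ν _ C hν u M hu hM ε hε
  exact KB.main hν hε hu hM

end Pool.Agent.H5R2.NB
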