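import Mathlib

/-! # Single-site laws with bounded density -/

set_option autoImplicit false

open MeasureTheory Filter Topology ProbabilityTheory
open scoped BigOperators ENNReal NNReal

namespace Pool.Agent.H5R2.NB.LAW

theorem map_affine_le (μ : Measure ℝ) (C : ℝ≥0) (h : μ ≤ C • volume) (a b : ℝ) (hb : b ≠ 0) :
    μ.map (fun r => a + b * r) ≤ (C * Real.toNNReal |b⁻¹|) • volume := by
  have hm : Measurable (fun r : ℝ => a + b * r) := by fun_prop
  have e : (volume : Measure ℝ).map (fun r => a + b * r) = ENNReal.ofReal |b⁻¹| • volume := by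
    have e1 : (fun r : ℝ => a + b * r) = (fun r => a + r) ∘ (fun r => b * r) := rfl
    rw [e1, ← Measure.map_map (by fun_prop) (by fun_prop), Real.map_volume_mul_left hb,
      Measure.map_smul, (measurePreserving_add_left volume a).map_eq]
  calc μ.map (fun r => a + b * r) ≤ (C • volume : Measure ℝ).map (fun r => a + b * r) :=
        Measure.map_mono h hm
    _ = (C * Real.toNNReal |b⁻¹|) • volume := by
        have : (C • (volume : Measure ℝ)) = (C : ℝ≥0∞) • (volume : Measure ℝ) := rfl
        rw [this, Measure.map_smul, e, smul_smul]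
        rw [ENNReal.ofReal, ← ENNReal.coe_mul]
        rfl

theorem gaussian_le : ∃ C : ℝ≥0, gaussianReal 0 1 ≤ C • volume := by
  refine ⟨1, ?_⟩
  rw [gaussianReal_of_var_ne_zero 0 one_ne_zero, one_smul]
  have h : (volume : Measure ℝ) = volume.withDensity (fun _ => (1 : ℝ≥0∞)) := by
    have := (withDensity_one (μ := (volume : Measure ℝ))).symm
    exact this
  conv_rhs => rw [h]
  refine withDensity_mono (Eventually.of_forall fun x => ?_)
  unfold gaussianPDF gaussianPDFReal
  rw [← ENNReal.ofReal_one]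
  refine ENNReal.ofReal_le_ofReal ?_
  have h1 : (√(2 * Real.pi * ((1 : ℝ≥0) : ℝ)))⁻¹ ≤ 1 := by
    refine inv_le_one_of_one_le₀ ?_
    rw [Real.one_le_sqrt]
    have := Real.pi_gt_three
    simp only [NNReal.coe_one, mul_one]
    linarith
  have h2 : Real.exp (-(x - 0) ^ 2 / (2 * ((1 : ℝ≥0) : ℝ))) ≤ 1 := by
    rw [Real.exp_le_one_iff]
    have : 0 ≤ (x - 0) ^ 2 := sq_nonneg _
    simp only [NNReal.coe_one, mul_one]
    linarith
  have h3 : 0 ≤ Real.exp (-(x - 0) ^ 2 / (2 * ((1 : ℝ≥0) : ℝ))) := (Real.exp_pos _).le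
  calc _ ≤ 1 * 1 := mul_le_mul h1 h2 h3 (by norm_num)
    _ = 1 := by norm_num

theorem uniform_le (c : ℝ) :
    ENNReal.ofReal (2 * c)⁻¹ • (volume : Measure ℝ).restrict (Set.Icc (-c) c) ≤
      (Real.toNNReal (2 * c)⁻¹) • (volume : Measure ℝ) := by
  have : (Real.toNNReal (2 * c)⁻¹) • (volume : Measure ℝ) =
      ENNReal.ofReal (2 * c)⁻¹ • (volume : Measure ℝ) := rfl
  rw [this]
  gcongr
  exact Measure.restrict_le_self

theorem uniform_prob (c : ℝ) (hc : 0 < c) : IsProbabilityMeasure
    (ENNReal.ofReal (2 * c)⁻¹ • (volume : Measure ℝ).restrict (Set.Icc (-c) c)) := by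
  refine ⟨?_⟩
  simp only [Measure.smul_apply, MeasurableSet.univ, Measure.restrict_apply, Set.univ_inter,
    Real.volume_Icc, sub_neg_eq_add, smul_eq_mul]
  rw [← ENNReal.ofReal_mul (by positivity)]
  have : (2 * c)⁻¹ * (c + c) = 1 := by
    field_simp
    norm_num
  rw [this, ENNReal.ofReal_one]

end Pool.Agent.H5R2.NB.LAW
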