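import Pool.Agent.H5R2.NB.Defs

/-! # Task LIMA: mean square convergence (helper215) -/

set_option autoImplicit false
set_option linter.unusedSectionVars false

open MeasureTheory Filter Topology
open scoped BigOperators ENNReal NNReal InnerProductSpace ComplexConjugate

namespace Pool.Agent.H5R2.NB

namespace LIMA

section abstract

variable {Ω : Type} [TopologicalSpace Ω] [SecondCountableTopology Ω] [MeasurableSpace Ω]
  [OpensMeasurableSpace Ω] {X : Type} [NormedAddCommGroup X] [InnerProductSpace ℂ X]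
  [CompleteSpace X] (P : Measure Ω) [IsProbabilityMeasure P] (T : ℝ → Ω → X) (K : ℝ)

/-- the average over one unit of time -/
noncomputable def Y (n : ℤ) (V : Ω) : X := ∫ s in (0 : ℝ)..1, T (s + n) V

theorem cont_Y (hT : Continuous fun p : ℝ × Ω => T p.1 p.2) (n : ℤ) : Continuous (Y T n) := by
  unfold Y
  apply intervalIntegral.continuous_parametric_intervalIntegral_of_continuous'
  have : (Function.uncurry fun (V : Ω) (s : ℝ) => T (s + n) V) =
      (fun p : ℝ × Ω => T p.1 p.2) ∘ (fun q : Ω × ℝ => (q.2 + n, q.1)) := by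
    funext q
    rfl
  rw [this]
  exact hT.comp (by fun_prop)

theorem norm_Y (hK : ∀ s V, ‖T s V‖ ≤ K) (n : ℤ) (V : Ω) : ‖Y T n V‖ ≤ K := by
  unfold Y
  have := intervalIntegral.norm_integral_le_of_norm_le_const (a := (0 : ℝ)) (b := 1)
    (f := fun s => T (s + n) V) (C := K) (fun s _ => hK _ _)
  simpa using this

theorem memLp_of (f : Ω → X) (hf : Continuous f) (C : ℝ) (hC : ∀ V, ‖f V‖ ≤ C) : MemLp f 2 P :=
  MemLp.of_bound hf.stronglyMeasurable.aestronglyMeasurable C (Eventually.of_forall hC)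

theorem memLp_Y (hT : Continuous fun p : ℝ × Ω => T p.1 p.2) (hK : ∀ s V, ‖T s V‖ ≤ K) (n : ℤ) :
    MemLp (Y T n) 2 P :=
  memLp_of P _ (cont_Y T hT n) K (norm_Y T K hK n)

/-- expectation of the inner product as an average of the correlations -/
theorem inner_Y (hT : Continuous fun p : ℝ × Ω => T p.1 p.2) (hK : ∀ s V, ‖T s V‖ ≤ K)
    (m n : ℤ) : ∫ V, ⟪Y T m V, Y T n V⟫_ℂ ∂P =
      ∫ s in (0 : ℝ)..1, ∫ s' in (0 : ℝ)..1, ∫ V, ⟪T (s + m) V, T (s' + n) V⟫_ℂ ∂P := by
  have hc : ∀ V, Continuous fun s : ℝ => T s V := fun V =>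
    hT.comp (by fun_prop : Continuous fun s : ℝ => (s, V))
  have e1 : ∀ V, ⟪Y T m V, Y T n V⟫_ℂ =
      ∫ s in (0 : ℝ)..1, ∫ s' in (0 : ℝ)..1, ⟪T (s + m) V, T (s' + n) V⟫_ℂ := by
    intro V
    have h1 : ∀ x : X, ∫ s' in (0 : ℝ)..1, ⟪x, T (s' + n) V⟫_ℂ = ⟪x, Y T n V⟫_ℂ := by
      intro x
      unfold Y
      rw [intervalIntegral.integral_of_le zero_le_one, intervalIntegral.integral_of_le zero_le_one]
      apply integral_inner
      have h : Continuous fun s : ℝ => T (s + n) V :=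
        (hc V).comp (by fun_prop : Continuous fun s : ℝ => s + (n : ℝ))
      exact (h.intervalIntegrable 0 1).1
    have h2 : ∀ y : X, ∫ s in (0 : ℝ)..1, ⟪T (s + m) V, y⟫_ℂ = ⟪Y T m V, y⟫_ℂ := by
      intro y
      have h3 : ∀ s, ⟪T (s + m) V, y⟫_ℂ = conj (⟪y, T (s + m) V⟫_ℂ) := fun s =>
        (inner_conj_symm _ _).symm
      simp only [h3]
      rw [← inner_conj_symm (Y T m V) y]
      unfold Y
      rw [intervalIntegral.integral_of_le zero_le_one, intervalIntegral.integral_of_le zero_le_one,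
        integral_conj]
      congr 1
      apply integral_inner
      have h : Continuous fun s : ℝ => T (s + m) V :=
        (hc V).comp (by fun_prop : Continuous fun s : ℝ => s + (m : ℝ))
      exact (h.intervalIntegrable 0 1).1
    simp only [h1, h2]
  have hfin : IsFiniteMeasure (volume.restrict (Set.Ioc (0 : ℝ) 1)) := ⟨by simp⟩
  have hb : ∀ (s s' : ℝ) (V : Ω), ‖⟪T s V, T s' V⟫_ℂ‖ ≤ K * K := by
    intro s s' V
    refine le_trans (norm_inner_le_norm _ _) ?_
    have h0 := norm_nonneg (T s V)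
    have h0' := norm_nonneg (T s' V)
    exact mul_le_mul (hK _ _) (hK _ _) h0' (h0.trans (hK _ _))
  have hphi : Continuous fun p : (Ω × ℝ) × ℝ => ⟪T (p.1.2 + m) p.1.1, T (p.2 + n) p.1.1⟫_ℂ := by
    apply Continuous.inner
    · exact hT.comp (by fun_prop : Continuous fun p : (Ω × ℝ) × ℝ => (p.1.2 + (m : ℝ), p.1.1))
    · exact hT.comp (by fun_prop : Continuous fun p : (Ω × ℝ) × ℝ => (p.2 + (n : ℝ), p.1.1))
  simp only [e1]
  rw [intervalIntegral.integral_of_le zero_le_one]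
  simp only [intervalIntegral.integral_of_le zero_le_one]
  rw [integral_integral_swap]
  · apply integral_congr_ae
    refine Eventually.of_forall fun s => ?_
    simp only
    rw [integral_integral_swap]
    apply Integrable.of_bound (C := K * K)
    · apply Continuous.aestronglyMeasurable
      have : (Function.uncurry fun (V : Ω) (s' : ℝ) => ⟪T (s + m) V, T (s' + n) V⟫_ℂ) =
          (fun p : (Ω × ℝ) × ℝ => ⟪T (p.1.2 + m) p.1.1, T (p.2 + n) p.1.1⟫_ℂ) ∘
            (fun q : Ω × ℝ => ((q.1, s), q.2)) := by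
        funext q
        rfl
      rw [this]
      exact hphi.comp (by fun_prop)
    · exact Eventually.of_forall fun q => hb _ _ _
  · apply Integrable.of_bound (C := K * K)
    · apply Continuous.aestronglyMeasurable
      have h4 : Continuous fun q : Ω × ℝ => ∫ s' in (0 : ℝ)..1,
          ⟪T (q.2 + m) q.1, T (s' + n) q.1⟫_ℂ := by
        apply intervalIntegral.continuous_parametric_intervalIntegral_of_continuous'
        exact hphi
      simp only [intervalIntegral.integral_of_le zero_le_one] at h4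
      exact h4
    · refine Eventually.of_forall fun q => ?_
      have h5 := intervalIntegral.norm_integral_le_of_norm_le_const (a := (0 : ℝ)) (b := 1)
        (f := fun s' => ⟪T (q.2 + m) q.1, T (s' + n) q.1⟫_ℂ) (C := K * K) (fun s _ => hb _ _ _)
      rw [intervalIntegral.integral_of_le zero_le_one] at h5
      have h6 : ‖∫ s' in Set.Ioc (0 : ℝ) 1, ⟪T (q.2 + m) q.1, T (s' + n) q.1⟫_ℂ‖ ≤ K * K := by
        simpa using h5
      exact h6

theorem inner_stat (hT : Continuous fun p : ℝ × Ω => T p.1 p.2) (hK : ∀ s V, ‖T s V‖ ≤ K)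
    (hS : ∀ s s' a : ℝ, ∫ V, ⟪T (s + a) V, T (s' + a) V⟫_ℂ ∂P = ∫ V, ⟪T s V, T s' V⟫_ℂ ∂P)
    (m n : ℤ) : ∫ V, ⟪Y T (m + 1) V, Y T (n + 1) V⟫_ℂ ∂P = ∫ V, ⟪Y T m V, Y T n V⟫_ℂ ∂P := by
  rw [inner_Y P T K hT hK, inner_Y P T K hT hK]
  congr 1
  funext s
  congr 1
  funext s'
  rw [← hS (s + m) (s' + n) 1]
  push_cast
  simp only [add_assoc]

theorem sum_forward (hT : Continuous fun p : ℝ × Ω => T p.1 p.2) (V : Ω) (N : ℕ) :
    ∫ s in (0 : ℝ)..(N : ℝ), T s V = ∑ n ∈ Finset.range N, Y T (n : ℤ) V := by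
  have hc : Continuous fun s : ℝ => T s V := hT.comp (by fun_prop : Continuous fun s : ℝ => (s, V))
  induction N with
  | zero => simp
  | succ N ih =>
    rw [Finset.sum_range_succ, ← ih]
    have h1 : Y T (N : ℤ) V = ∫ s in (N : ℝ)..((N + 1 : ℕ) : ℝ), T s V := by
      unfold Y
      have h := intervalIntegral.integral_comp_add_right (a := (0 : ℝ)) (b := 1)
        (fun s => T s V) (N : ℝ)
      push_cast
      rw [h, zero_add, add_comm (1 : ℝ)]
    rw [h1]
    exact (intervalIntegral.integral_add_adjacent_intervals (hc.intervalIntegrable _ _)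
      (hc.intervalIntegrable _ _)).symm

theorem sum_backward (hT : Continuous fun p : ℝ × Ω => T p.1 p.2) (V : Ω) (N : ℕ) :
    ∫ s in (0 : ℝ)..(N : ℝ), T (-s) V = ∑ n ∈ Finset.range N, Y T (-(n : ℤ) - 1) V := by
  have hc : Continuous fun s : ℝ => T s V := hT.comp (by fun_prop : Continuous fun s : ℝ => (s, V))
  have hc' : Continuous fun s : ℝ => T (-s) V := hc.comp (by fun_prop : Continuous fun s : ℝ => -s)
  induction N with
  | zero => simp
  | succ N ih =>
    rw [Finset.sum_range_succ, ← ih]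
    have h1 : Y T (-(N : ℤ) - 1) V = ∫ s in (N : ℝ)..((N + 1 : ℕ) : ℝ), T (-s) V := by
      unfold Y
      have h := intervalIntegral.integral_comp_add_right (a := (0 : ℝ)) (b := 1)
        (fun s => T s V) (-(N : ℝ) - 1)
      have h' := intervalIntegral.integral_comp_neg (a := (N : ℝ)) (b := ((N + 1 : ℕ) : ℝ))
        (fun s => T s V)
      rw [h']
      push_cast
      rw [h]
      congr 1 <;> ring
    rw [h1]
    exact (intervalIntegral.integral_add_adjacent_intervals (hc'.intervalIntegrable _ _)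
      (hc'.intervalIntegrable _ _)).symm

theorem sum_toLp (y : ℕ → Ω → X) (hy : ∀ n, MemLp (y n) 2 P) (N : ℕ) :
    ∃ h : MemLp (fun V => ((N : ℂ)⁻¹) • ∑ n ∈ Finset.range N, y n V) 2 P,
      ((N : ℂ)⁻¹) • ∑ n ∈ Finset.range N, (hy n).toLp = h.toLp := by
  have h1 : ∀ M : ℕ, ∃ h : MemLp (fun V => ∑ n ∈ Finset.range M, y n V) 2 P,
      ∑ n ∈ Finset.range M, (hy n).toLp = h.toLp := by
    intro M
    induction M with
    | zero =>
      have h0 : MemLp (fun V => ∑ n ∈ Finset.range 0, y n V) 2 P := by simp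
      have h00 : MemLp (0 : Ω → X) 2 P := MemLp.zero
      refine ⟨h0, ?_⟩
      rw [Finset.sum_range_zero, ← MemLp.toLp_zero h00, MemLp.toLp_eq_toLp_iff]
      exact Eventually.of_forall fun V => by simp
    | succ M ih =>
      obtain ⟨h, he⟩ := ih
      have h2 : (fun V => ∑ n ∈ Finset.range (M + 1), y n V) =
          (fun V => ∑ n ∈ Finset.range M, y n V) + y M := by
        funext V
        rw [Finset.sum_range_succ]
        rfl
      have h3 : MemLp (fun V => ∑ n ∈ Finset.range (M + 1), y n V) 2 P := by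
        rw [h2]
        exact h.add (hy M)
      refine ⟨h3, ?_⟩
      rw [Finset.sum_range_succ, he, ← MemLp.toLp_add]
      congr 1
      exact h2.symm
  obtain ⟨h, he⟩ := h1 N
  refine ⟨h.const_smul _, ?_⟩
  rw [he, ← MemLp.toLp_const_smul]
  rfl

theorem conv (f : ℕ → Ω → X) (hf : ∀ N, MemLp (f N) 2 P) (b : Lp X 2 P)
    (h : Tendsto (fun N => (hf N).toLp (f N)) atTop (𝓝 b)) :
    Tendsto (fun N : ℕ => ∫⁻ V, ‖f N V - b V‖ₑ ^ 2 ∂P) atTop (𝓝 0) := by
  have h1 : (Lp.memLp b).toLp b = b := Lp.toLp_coeFn b (Lp.memLp b)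
  rw [← h1, Lp.tendsto_Lp_iff_tendsto_eLpNorm''] at h
  have h2 : ∀ N, ∫⁻ V, ‖f N V - b V‖ₑ ^ 2 ∂P = eLpNorm (f N - (⇑b : Ω → X)) 2 P ^ 2 := by
    intro N
    have h3 := eLpNorm_nnreal_pow_eq_lintegral (f := f N - (⇑b : Ω → X)) (μ := P) (p := 2) two_ne_zero
    have h4 : ((2 : ℝ≥0) : ℝ≥0∞) = 2 := rfl
    have h5 : ((2 : ℝ≥0) : ℝ) = 2 := rfl
    rw [h4, h5] at h3
    simp only [ENNReal.rpow_two] at h3
    rw [h3]
    rfl
  simp only [h2]
  have h6 := (ENNReal.continuous_pow 2).tendsto 0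
  have h7 := h6.comp h
  rw [zero_pow two_ne_zero] at h7
  exact h7

theorem main (hME : St_ME) (hT : Continuous fun p : ℝ × Ω => T p.1 p.2)
    (hK : ∀ s V, ‖T s V‖ ≤ K)
    (hS : ∀ s s' a : ℝ, ∫ V, ⟪T (s + a) V, T (s' + a) V⟫_ℂ ∂P = ∫ V, ⟪T s V, T s' V⟫_ℂ ∂P) :
    ∃ b : Ω → X, AEStronglyMeasurable b P ∧
      Tendsto (fun N : ℕ => ∫⁻ V, ‖((N : ℂ)⁻¹) • (∫ s in (0 : ℝ)..(N : ℝ), T s V) - b V‖ₑ ^ 2 ∂P)
        atTop (𝓝 0) ∧
      Tendsto (fun N : ℕ => ∫⁻ V, ‖((N : ℂ)⁻¹) • (∫ s in (0 : ℝ)..(N : ℝ), T (-s) V) - b V‖ₑ ^ 2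
        ∂P) atTop (𝓝 0) := by
  have hmem : ∀ n : ℤ, MemLp (Y T n) 2 P := memLp_Y P T K hT hK
  obtain ⟨y, h1, h2⟩ := hME (Lp X 2 P) (fun n => (hmem n).toLp) (by
    intro m n
    have e : ∀ m n : ℤ, ⟪(hmem m).toLp, (hmem n).toLp⟫_ℂ = ∫ V, ⟪Y T m V, Y T n V⟫_ℂ ∂P := by
      intro m n
      rw [L2.inner_def]
      apply integral_congr_ae
      filter_upwards [(hmem m).coeFn_toLp, (hmem n).coeFn_toLp] with V h3 h4
      rw [h3, h4]
    rw [e, e]
    exact inner_stat P T K hT hK hS m n)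
  refine ⟨y, (Lp.aestronglyMeasurable y), ?_, ?_⟩
  · have h3 := sum_toLp P (fun n : ℕ => Y T (n : ℤ)) (fun n => hmem n)
    choose h4 h5 using h3
    have h6 := conv P _ h4 y (by
      refine h1.congr fun N => ?_
      exact h5 N)
    simp only [sum_forward T hT]
    exact h6
  · have h3 := sum_toLp P (fun n : ℕ => Y T (-(n : ℤ) - 1)) (fun n => hmem _)
    choose h4 h5 using h3
    have h6 := conv P _ h4 y (by
      refine h2.congr fun N => ?_
      exact h5 N)
    simp only [sum_backward T hT]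
    exact h6

end abstract

end LIMA

open LIMA in
theorem t_LIMA (h1 : St_STAT) (h2 : St_ME) (h3 : St_CV) : St_LIMA := by
  intro d c ev hev ν _ j v hv
  have hCV := h3 d c ev hev
  have hT : Continuous fun p : ℝ × (Site d → ℝ) => tau ev v p.1 p.2 := by
    unfold tau
    have g1 : Continuous fun p : ℝ × (Site d → ℝ) => (ev p.2).U p.1 (dl 0) :=
      hCV.comp (by fun_prop :
        Continuous fun p : ℝ × (Site d → ℝ) => (p.2, p.1, (dl 0 : L2 (Site d))))
    have g2 : Continuous fun p : ℝ × (Site d → ℝ) => v ((ev p.2).U p.1 (dl 0)) :=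
      v.continuous.comp g1
    exact hCV.comp ((continuous_snd.prodMk (continuous_fst.neg.prodMk g2)) :
      Continuous fun p : ℝ × (Site d → ℝ) => (p.2, -p.1, v ((ev p.2).U p.1 (dl 0))))
  have hK : ∀ s V, ‖tau ev v s V‖ ≤ ‖v‖ * ‖(dl 0 : L2 (Site d))‖ := by
    intro s V
    unfold tau
    rw [(ev V).norm']
    refine le_trans (v.le_opNorm _) ?_
    rw [(ev V).norm']
  have hP : IsProbabilityMeasure (PP d ν) := by
    unfold PP
    infer_instance
  obtain ⟨b, hb, hf, hg⟩ := LIMA.main (PP d ν) (fun s V => tau ev v s V) _ h2 hT hK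
    (fun s s' a => h1 d c ev hev ν j v hv s s' a)
  refine ⟨b, hb, hf, ?_⟩
  unfold avM
  have e : ∀ (V : Site d → ℝ) (s : ℝ), tau ev v (-s) V = (ev V).U s (v ((ev V).U (-s) (dl 0))) := by
    intro V s
    unfold tau
    rw [neg_neg]
  simp only [e] at hg
  exact hg

end Pool.Agent.H5R2.NB
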