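import Pool.Agent.H5R2.NB.Defs

/-! # LIMB: almost sure strong convergence along a subsequence -/

set_option autoImplicit false

open MeasureTheory Filter Topology
open scoped BigOperators ENNReal NNReal InnerProductSpace ComplexConjugate

namespace Pool.Agent.H5R2.NB

namespace LIMB

section abstract

variable {X : Type} [NormedAddCommGroup X] [InnerProductSpace ℂ X]

theorem cont_U (W : UG X) (g : ℝ → X) (hg : Continuous g) (φ : ℝ → ℝ) (hφ : Continuous φ) :
    Continuous fun s => W.U (φ s) (g s) := by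
  rw [continuous_iff_continuousAt]
  intro s₀
  rw [ContinuousAt, tendsto_iff_norm_sub_tendsto_zero]
  have h1 : Tendsto (fun s => ‖g s - g s₀‖ + ‖W.U (φ s) (g s₀) - W.U (φ s₀) (g s₀)‖) (𝓝 s₀)
      (𝓝 (0 + 0)) := by
    refine Tendsto.add ?_ ?_
    · exact tendsto_iff_norm_sub_tendsto_zero.1 hg.continuousAt
    · exact tendsto_iff_norm_sub_tendsto_zero.1
        (((W.cont' (g s₀)).comp hφ).continuousAt (x := s₀))
  rw [add_zero] at h1
  refine squeeze_zero (fun _ => norm_nonneg _) (fun s => ?_) h1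
  have e : W.U (φ s) (g s) - W.U (φ s₀) (g s₀) =
      W.U (φ s) (g s - g s₀) + (W.U (φ s) (g s₀) - W.U (φ s₀) (g s₀)) := by
    rw [map_sub]; abel
  rw [e]
  refine (norm_add_le _ _).trans ?_
  rw [W.norm']

theorem cont_P (W : UG X) (v : X →L[ℂ] X) (x : X) :
    Continuous fun s : ℝ => W.U (-s) (v (W.U s x)) :=
  cont_U W _ (v.continuous.comp (W.cont' x)) _ continuous_neg

theorem cont_M (W : UG X) (v : X →L[ℂ] X) (x : X) :
    Continuous fun s : ℝ => W.U s (v (W.U (-s) x)) :=
  cont_U W _ (v.continuous.comp ((W.cont' x).comp continuous_neg)) _ continuous_id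

theorem norm_P (W : UG X) (v : X →L[ℂ] X) (x : X) (s t : ℝ) :
    ‖W.U t (v (W.U s x))‖ ≤ ‖v‖ * ‖x‖ := by
  rw [W.norm']
  refine (v.le_opNorm _).trans ?_
  rw [W.norm']

theorem norm_avg (F : ℝ → X) (C : ℝ) (hF : ∀ s, ‖F s‖ ≤ C) (N : ℕ) :
    ‖((N : ℂ)⁻¹) • ∫ s in (0 : ℝ)..(N : ℝ), F s‖ ≤ C := by
  have hC : 0 ≤ C := (norm_nonneg _).trans (hF 0)
  have h := intervalIntegral.norm_integral_le_of_norm_le_const (a := (0 : ℝ)) (b := (N : ℝ))
    (f := F) (C := C) fun s _ => hF s
  rw [norm_smul, norm_inv, Complex.norm_natCast]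
  rw [sub_zero, abs_of_nonneg (Nat.cast_nonneg N)] at h
  rcases Nat.eq_zero_or_pos N with rfl | hN
  · simpa using hC
  · have hN' : (0 : ℝ) < N := by exact_mod_cast hN
    calc (N : ℝ)⁻¹ * ‖∫ s in (0 : ℝ)..(N : ℝ), F s‖ ≤ (N : ℝ)⁻¹ * (C * N) :=
          mul_le_mul_of_nonneg_left h (by positivity)
      _ = C := by field_simp

/-- the forward average as a bounded operator -/
noncomputable def PL (W : UG X) (v : X →L[ℂ] X) (N : ℕ) : X →L[ℂ] X :=
  LinearMap.mkContinuous
    { toFun := avP W v N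
      map_add' := fun x y => by
        unfold avP
        rw [← smul_add, ← intervalIntegral.integral_add
          ((cont_P W v x).intervalIntegrable _ _) ((cont_P W v y).intervalIntegrable _ _)]
        simp only [map_add]
      map_smul' := fun a x => by
        unfold avP
        simp only [map_smul, intervalIntegral.integral_smul, RingHom.id_apply]
        rw [smul_comm] } ‖v‖
    fun x => norm_avg _ _ (fun s => norm_P W v x _ _) N

/-- the backward average as a bounded operator -/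
noncomputable def ML (W : UG X) (v : X →L[ℂ] X) (N : ℕ) : X →L[ℂ] X :=
  LinearMap.mkContinuous
    { toFun := avM W v N
      map_add' := fun x y => by
        unfold avM
        rw [← smul_add, ← intervalIntegral.integral_add
          ((cont_M W v x).intervalIntegrable _ _) ((cont_M W v y).intervalIntegrable _ _)]
        simp only [map_add]
      map_smul' := fun a x => by
        unfold avM
        simp only [map_smul, intervalIntegral.integral_smul, RingHom.id_apply]
        rw [smul_comm] } ‖v‖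
    fun x => norm_avg _ _ (fun s => norm_P W v x _ _) N

theorem norm_PL (W : UG X) (v : X →L[ℂ] X) (N : ℕ) (x : X) : ‖PL W v N x‖ ≤ ‖v‖ * ‖x‖ :=
  norm_avg _ _ (fun _ => norm_P W v x _ _) N

theorem norm_ML (W : UG X) (v : X →L[ℂ] X) (N : ℕ) (x : X) : ‖ML W v N x‖ ≤ ‖v‖ * ‖x‖ :=
  norm_avg _ _ (fun _ => norm_P W v x _ _) N

theorem PL_apply (W : UG X) (v : X →L[ℂ] X) (N : ℕ) (x : X) : PL W v N x = avP W v N x := rfl
theorem ML_apply (W : UG X) (v : X →L[ℂ] X) (N : ℕ) (x : X) : ML W v N x = avM W v N x := rfl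

/-- extension of the convergence to all vectors -/
theorem ext_lim [CompleteSpace X] (T T' : ℕ → X →L[ℂ] X) (M : ℝ) (hM : 0 ≤ M)
    (hT : ∀ k x, ‖T k x‖ ≤ M * ‖x‖) (hT' : ∀ k x, ‖T' k x‖ ≤ M * ‖x‖)
    (ι : Type) (e : ι → X) (he : ∀ x, x ∈ closure (Submodule.span ℂ (Set.range e) : Set X))
    (h : ∀ i, ∃ y, Tendsto (fun k => T k (e i)) atTop (𝓝 y) ∧
      Tendsto (fun k => T' k (e i)) atTop (𝓝 y)) :
    ∃ B : X →L[ℂ] X, ∀ x, Tendsto (fun k => T k x) atTop (𝓝 (B x)) ∧
      Tendsto (fun k => T' k x) atTop (𝓝 (B x)) := by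
  -- the span
  have hspan : ∀ x ∈ Submodule.span ℂ (Set.range e), ∃ y,
      Tendsto (fun k => T k x) atTop (𝓝 y) ∧ Tendsto (fun k => T' k x) atTop (𝓝 y) := by
    intro x hx
    induction hx using Submodule.span_induction with
    | mem x hx => obtain ⟨i, rfl⟩ := hx; exact h i
    | zero => exact ⟨0, by simp, by simp⟩
    | add x y _ _ hx hy =>
      obtain ⟨a, ha, ha'⟩ := hx
      obtain ⟨b, hb, hb'⟩ := hy
      exact ⟨a + b, by simpa using ha.add hb, by simpa using ha'.add hb'⟩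
    | smul c x _ hx =>
      obtain ⟨a, ha, ha'⟩ := hx
      exact ⟨c • a, by simpa using ha.const_smul c, by simpa using ha'.const_smul c⟩
  have hall : ∀ x, ∃ y, Tendsto (fun k => T k x) atTop (𝓝 y) ∧
      Tendsto (fun k => T' k x) atTop (𝓝 y) := by
    intro x
    have hx := he x
    rw [Metric.mem_closure_iff] at hx
    have hc : CauchySeq fun k => T k x := by
      rw [Metric.cauchySeq_iff]
      intro ε hε
      obtain ⟨x', hx', hd⟩ := hx (ε / (4 * (M + 1))) (by positivity)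
      obtain ⟨y, hy, -⟩ := hspan x' hx'
      obtain ⟨N, hN⟩ := Metric.cauchySeq_iff.1 hy.cauchySeq (ε / 2) (by positivity)
      refine ⟨N, fun m hm n hn => ?_⟩
      have h1 := hN m hm n hn
      rw [dist_eq_norm] at h1 hd ⊢
      have h2 : ‖T m (x - x')‖ ≤ ε / 4 := by
        refine (hT m _).trans ?_
        calc M * ‖x - x'‖ ≤ (M + 1) * (ε / (4 * (M + 1))) :=
              mul_le_mul (by linarith) hd.le (norm_nonneg _) (by linarith)
          _ = ε / 4 := by field_simp
      have h3 : ‖T n (x - x')‖ ≤ ε / 4 := by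
        refine (hT n _).trans ?_
        calc M * ‖x - x'‖ ≤ (M + 1) * (ε / (4 * (M + 1))) :=
              mul_le_mul (by linarith) hd.le (norm_nonneg _) (by linarith)
          _ = ε / 4 := by field_simp
      have e1 : T m x - T n x = T m (x - x') + (T m x' - T n x') - T n (x - x') := by
        rw [map_sub, map_sub]; abel
      rw [e1]
      calc _ ≤ ‖T m (x - x') + (T m x' - T n x')‖ + ‖T n (x - x')‖ := norm_sub_le _ _
        _ ≤ ‖T m (x - x')‖ + ‖T m x' - T n x'‖ + ‖T n (x - x')‖ := by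
          gcongr; exact norm_add_le _ _
        _ < ε := by linarith
    obtain ⟨y, hy⟩ := cauchySeq_tendsto_of_complete hc
    refine ⟨y, hy, ?_⟩
    have hz : Tendsto (fun k => T' k x - T k x) atTop (𝓝 0) := by
      rw [Metric.tendsto_atTop]
      intro ε hε
      obtain ⟨x', hx', hd⟩ := hx (ε / (4 * (M + 1))) (by positivity)
      obtain ⟨y', hy', hy''⟩ := hspan x' hx'
      have hz' := hy''.sub hy'
      rw [sub_self, Metric.tendsto_atTop] at hz'
      obtain ⟨N, hN⟩ := hz' (ε / 2) (by positivity)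
      refine ⟨N, fun n hn => ?_⟩
      have h1 := hN n hn
      rw [dist_zero_right] at h1 ⊢
      rw [dist_eq_norm] at hd
      have h2 : ‖T n (x - x')‖ ≤ ε / 4 := by
        refine (hT n _).trans ?_
        calc M * ‖x - x'‖ ≤ (M + 1) * (ε / (4 * (M + 1))) :=
              mul_le_mul (by linarith) hd.le (norm_nonneg _) (by linarith)
          _ = ε / 4 := by field_simp
      have h3 : ‖T' n (x - x')‖ ≤ ε / 4 := by
        refine (hT' n _).trans ?_
        calc M * ‖x - x'‖ ≤ (M + 1) * (ε / (4 * (M + 1))) :=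
              mul_le_mul (by linarith) hd.le (norm_nonneg _) (by linarith)
          _ = ε / 4 := by field_simp
      have e1 : T' n x - T n x = T' n (x - x') + (T' n x' - T n x') - T n (x - x') := by
        rw [map_sub, map_sub]; abel
      rw [e1]
      calc _ ≤ ‖T' n (x - x') + (T' n x' - T n x')‖ + ‖T n (x - x')‖ := norm_sub_le _ _
        _ ≤ ‖T' n (x - x')‖ + ‖T' n x' - T n x'‖ + ‖T n (x - x')‖ := by
          gcongr; exact norm_add_le _ _
        _ < ε := by linarith
    have := hz.add hy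
    simpa using this
  choose B hB using hall
  have hadd : ∀ x y, B (x + y) = B x + B y := fun x y =>
    tendsto_nhds_unique (hB (x + y)).1 (by simpa using (hB x).1.add (hB y).1)
  have hsmul : ∀ (c : ℂ) x, B (c • x) = c • B x := fun c x =>
    tendsto_nhds_unique (hB (c • x)).1 (by simpa using (hB x).1.const_smul c)
  have hbd : ∀ x, ‖B x‖ ≤ M * ‖x‖ := fun x =>
    le_of_tendsto (hB x).1.norm (Eventually.of_forall fun k => hT k x)
  exact ⟨LinearMap.mkContinuous ⟨⟨B, hadd⟩, hsmul⟩ M hbd, hB⟩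

end abstract

/-! ### the lattice -/

theorem dl_dense (d : ℕ) (x : L2 (Site d)) :
    x ∈ closure (Submodule.span ℂ (Set.range (dl (d := d))) : Set (L2 (Site d))) := by
  have h := lp.hasSum_single (E := fun _ : Site d => ℂ) (p := 2) (by norm_num) x
  refine mem_closure_of_tendsto h (Eventually.of_forall fun s => ?_)
  refine Submodule.sum_mem _ fun i _ => ?_
  have e : lp.single (E := fun _ : Site d => ℂ) 2 i (x i) = (x i) • dl i := by
    unfold dl
    rw [← lp.single_smul, smul_eq_mul, mul_one]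
  rw [e]
  exact Submodule.smul_mem _ _ (Submodule.subset_span ⟨i, rfl⟩)

theorem shift_dl {d : ℕ} (z : Site d) (S : L2 (Site d) →L[ℂ] L2 (Site d)) (hS : IsShift (-z) S) :
    S (dl 0) = dl z := by
  ext x
  rw [hS]
  unfold dl
  rw [lp.single_apply, lp.single_apply, Pi.single_apply, Pi.single_apply]
  by_cases h : x = z
  · subst h; simp
  · rw [if_neg h, if_neg]
    intro h'
    apply h
    have := add_neg_eq_zero.1 h'
    exact this

theorem vel_shift {d : ℕ} {c : ℝ} {j : Fin d} {v : L2 (Site d) →L[ℂ] L2 (Site d)}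
    (hv : IsVel c j v) {w : Site d} {S : L2 (Site d) →L[ℂ] L2 (Site d)} (hS : IsShift w S)
    (ψ : L2 (Site d)) : v (S ψ) = S (v ψ) := by
  ext x
  rw [hv, hS, hS, hS, hv]
  have e1 : x + Pi.single j 1 + w = x + w + Pi.single j 1 := by abel
  have e2 : x - Pi.single j 1 + w = x + w - Pi.single j 1 := by abel
  rw [e1, e2]

section shift

variable {d : ℕ} {c : ℝ} {j : Fin d} {v : L2 (Site d) →L[ℂ] L2 (Site d)}
  (ev : (Site d → ℝ) → UG (L2 (Site d))) {z : Site d} {S : L2 (Site d) →L[ℂ] L2 (Site d)}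

theorem U_shift (h2 : St_COV) (hev : ∀ V, IsGrp c V (ev V)) (hS : IsShift (-z) S)
    (V : Site d → ℝ) (t : ℝ) (ψ : L2 (Site d)) :
    (ev V).U t (S ψ) = S ((ev fun y => V (y + z)).U t ψ) := by
  have h := h2 d c ev hev (-z) S hS (fun y => V (y + z)) t ψ
  have e : (fun y => (fun y => V (y + z)) (y + -z)) = V := by
    funext y; simp
  rw [e] at h
  exact h

theorem avP_shift (h2 : St_COV) (hev : ∀ V, IsGrp c V (ev V)) (hv : IsVel c j v)
    (hS : IsShift (-z) S) (V : Site d → ℝ) (N : ℕ) :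
    avP (ev V) v N (dl z) = S (avP (ev fun y => V (y + z)) v N (dl 0)) := by
  unfold avP
  have e := ContinuousLinearMap.intervalIntegral_comp_comm S
    ((cont_P (ev fun y => V (y + z)) v (dl 0)).intervalIntegrable (μ := volume) (0 : ℝ) (N : ℝ))
  rw [map_smul]
  congr 1
  refine Eq.trans ?_ e
  refine intervalIntegral.integral_congr fun s _ => ?_
  show (ev V).U (-s) (v ((ev V).U s (dl z))) = _
  rw [← shift_dl z S hS, U_shift ev h2 hev hS, vel_shift hv hS, U_shift ev h2 hev hS]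

theorem avM_shift (h2 : St_COV) (hev : ∀ V, IsGrp c V (ev V)) (hv : IsVel c j v)
    (hS : IsShift (-z) S) (V : Site d → ℝ) (N : ℕ) :
    avM (ev V) v N (dl z) = S (avM (ev fun y => V (y + z)) v N (dl 0)) := by
  unfold avM
  have e := ContinuousLinearMap.intervalIntegral_comp_comm S
    ((cont_M (ev fun y => V (y + z)) v (dl 0)).intervalIntegrable (μ := volume) (0 : ℝ) (N : ℝ))
  rw [map_smul]
  congr 1
  refine Eq.trans ?_ e
  refine intervalIntegral.integral_congr fun s _ => ?_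
  show (ev V).U s (v ((ev V).U (-s) (dl z))) = _
  rw [← shift_dl z S hS, U_shift ev h2 hev hS, vel_shift hv hS, U_shift ev h2 hev hS]

theorem cont_avP (h4 : St_CV) (hev : ∀ V, IsGrp c V (ev V)) (v : L2 (Site d) →L[ℂ] L2 (Site d))
    (N : ℕ) : Continuous fun V => avP (ev V) v N (dl 0) := by
  have hU := h4 d c ev hev
  suffices key : Continuous fun V : Site d → ℝ =>
      ∫ s in (0 : ℝ)..(N : ℝ), (ev V).U (-s) (v ((ev V).U s (dl 0))) from
    key.const_smul ((N : ℂ)⁻¹)
  refine intervalIntegral.continuous_parametric_intervalIntegral_of_continuous'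
    (f := fun (V : Site d → ℝ) (s : ℝ) => (ev V).U (-s) (v ((ev V).U s (dl 0)))) ?_ _ _
  have g1 : Continuous fun p : (Site d → ℝ) × ℝ => (ev p.1).U p.2 (dl 0) :=
    hU.comp (by fun_prop : Continuous fun p : (Site d → ℝ) × ℝ =>
      ((p.1, p.2, dl 0) : (Site d → ℝ) × ℝ × L2 (Site d)))
  exact hU.comp (continuous_fst.prodMk ((continuous_neg.comp continuous_snd).prodMk
    (v.continuous.comp g1)))

theorem cont_avM (h4 : St_CV) (hev : ∀ V, IsGrp c V (ev V)) (v : L2 (Site d) →L[ℂ] L2 (Site d))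
    (N : ℕ) : Continuous fun V => avM (ev V) v N (dl 0) := by
  have hU := h4 d c ev hev
  suffices key : Continuous fun V : Site d → ℝ =>
      ∫ s in (0 : ℝ)..(N : ℝ), (ev V).U s (v ((ev V).U (-s) (dl 0))) from
    key.const_smul ((N : ℂ)⁻¹)
  refine intervalIntegral.continuous_parametric_intervalIntegral_of_continuous'
    (f := fun (V : Site d → ℝ) (s : ℝ) => (ev V).U s (v ((ev V).U (-s) (dl 0)))) ?_ _ _
  have g1 : Continuous fun p : (Site d → ℝ) × ℝ => (ev p.1).U (-p.2) (dl 0) :=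
    hU.comp (by fun_prop : Continuous fun p : (Site d → ℝ) × ℝ =>
      ((p.1, -p.2, dl 0) : (Site d → ℝ) × ℝ × L2 (Site d)))
  exact hU.comp (continuous_fst.prodMk (continuous_snd.prodMk (v.continuous.comp g1)))

end shift

theorem tendsto_of_enorm_sq {X : Type} [NormedAddCommGroup X] {a : ℕ → X} {y : X}
    (h : Tendsto (fun n => ‖a n - y‖ₑ ^ 2) atTop (𝓝 0)) : Tendsto a atTop (𝓝 y) := by
  rw [tendsto_iff_edist_tendsto_0]
  have h1 := ((ENNReal.continuous_rpow_const (y := (1 / 2 : ℝ))).tendsto 0).comp h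
  rw [ENNReal.zero_rpow_of_pos (by norm_num)] at h1
  refine h1.congr fun n => ?_
  simp only [Function.comp]
  rw [edist_eq_enorm_sub, ← ENNReal.rpow_natCast, ← ENNReal.rpow_mul]
  norm_num

end LIMB

open LIMB in
theorem t_LIMB (h1 : St_LIMA) (h2 : St_COV) (h3 : St_RES) (h4 : St_CV) (h5 : St_OPS) :
    St_LIM := by
  intro d c ev hev ν _ j v hv
  obtain ⟨b, hb, hP, hM⟩ := h1 d c ev hev ν j v hv
  have hfP : ∀ N, AEMeasurable (fun V => ‖avP (ev V) v N (dl 0) - b V‖ₑ ^ 2) (PP d ν) := fun N =>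
    (((cont_avP ev h4 hev v N).aestronglyMeasurable).sub hb).enorm.pow_const 2
  have hfM : ∀ N, AEMeasurable (fun V => ‖avM (ev V) v N (dl 0) - b V‖ₑ ^ 2) (PP d ν) := fun N =>
    (((cont_avM ev h4 hev v N).aestronglyMeasurable).sub hb).enorm.pow_const 2
  have hPM := hP.add hM
  rw [add_zero] at hPM
  obtain ⟨Nk, hmono, hNk⟩ := extraction_forall_of_eventually
    (P := fun n k => (∫⁻ V, ‖avP (ev V) v k (dl 0) - b V‖ₑ ^ 2 ∂(PP d ν)) +
      (∫⁻ V, ‖avM (ev V) v k (dl 0) - b V‖ₑ ^ 2 ∂(PP d ν)) < (2⁻¹ : ℝ≥0∞) ^ n)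
    (fun n => (tendsto_order.1 hPM).2 _ (by
      refine ENNReal.pow_pos ?_ n
      simp))
  refine ⟨Nk, b, hmono.tendsto_atTop, hP, ?_⟩
  -- almost sure convergence at the origin
  have hfS : ∀ n, AEMeasurable (fun V => ‖avP (ev V) v (Nk n) (dl 0) - b V‖ₑ ^ 2 +
      ‖avM (ev V) v (Nk n) (dl 0) - b V‖ₑ ^ 2) (PP d ν) := fun n =>
    (hfP (Nk n)).add (hfM (Nk n))
  have hsum : ∫⁻ V, ∑' n, (‖avP (ev V) v (Nk n) (dl 0) - b V‖ₑ ^ 2 +
      ‖avM (ev V) v (Nk n) (dl 0) - b V‖ₑ ^ 2) ∂(PP d ν) ≠ ∞ := by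
    rw [lintegral_tsum hfS]
    have hle : ∑' n, ∫⁻ V, (‖avP (ev V) v (Nk n) (dl 0) - b V‖ₑ ^ 2 +
        ‖avM (ev V) v (Nk n) (dl 0) - b V‖ₑ ^ 2) ∂(PP d ν) ≤ ∑' n : ℕ, (2⁻¹ : ℝ≥0∞) ^ n := by
      refine ENNReal.tsum_le_tsum fun n => ?_
      rw [lintegral_add_left' (hfP (Nk n))]
      exact (hNk n).le
    refine ne_top_of_le_ne_top ?_ hle
    rw [ENNReal.tsum_geometric]
    simp
  have hae := ae_lt_top' (AEMeasurable.tsum hfS) hsum
  have hG : ∀ᵐ V ∂(PP d ν), Tendsto (fun n => avP (ev V) v (Nk n) (dl 0)) atTop (𝓝 (b V)) ∧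
      Tendsto (fun n => avM (ev V) v (Nk n) (dl 0)) atTop (𝓝 (b V)) := by
    filter_upwards [hae] with V hV
    have h0 := ENNReal.tendsto_atTop_zero_of_tsum_ne_top hV.ne
    constructor
    · refine tendsto_of_enorm_sq (tendsto_of_tendsto_of_tendsto_of_le_of_le tendsto_const_nhds h0
        (fun _ => zero_le) fun n => ?_)
      exact le_self_add
    · refine tendsto_of_enorm_sq (tendsto_of_tendsto_of_tendsto_of_le_of_le tendsto_const_nhds h0
        (fun _ => zero_le) fun n => ?_)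
      exact le_add_self
  have hGz : ∀ᵐ V ∂(PP d ν), ∀ z : Site d,
      Tendsto (fun n => avP (ev fun y => V (y + z)) v (Nk n) (dl 0)) atTop
        (𝓝 (b fun y => V (y + z))) ∧
      Tendsto (fun n => avM (ev fun y => V (y + z)) v (Nk n) (dl 0)) atTop
        (𝓝 (b fun y => V (y + z))) := by
    rw [ae_all_iff]
    intro z
    exact ((h3 d ν).2 z).quasiMeasurePreserving.ae hG
  filter_upwards [hGz] with V hV
  obtain ⟨B, hB⟩ := ext_lim (fun k => PL (ev V) v (Nk k)) (fun k => ML (ev V) v (Nk k)) ‖v‖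
    (norm_nonneg _) (fun k => norm_PL (ev V) v (Nk k)) (fun k => norm_ML (ev V) v (Nk k))
    (Site d) dl (dl_dense d) (fun z => by
      obtain ⟨S, hS⟩ := (h5 d).1 (-z)
      refine ⟨S (b fun y => V (y + z)), ?_, ?_⟩
      · have := (S.continuous.tendsto _).comp (hV z).1
        refine this.congr fun k => ?_
        rw [PL_apply, avP_shift ev h2 hev hv hS]
        rfl
      · have := (S.continuous.tendsto _).comp (hV z).2
        refine this.congr fun k => ?_
        rw [ML_apply, avM_shift ev h2 hev hv hS]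
        rfl)
  refine ⟨B, hB, ?_⟩
  have h0 := (hV 0).1
  simp only [add_zero] at h0
  exact tendsto_nhds_unique (hB (dl 0)).1 h0

end Pool.Agent.H5R2.NB
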