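import Pool.Agent.H5R2.NB.Defs

set_option autoImplicit false

open MeasureTheory Filter Topology
open scoped BigOperators ENNReal NNReal InnerProductSpace ComplexConjugate

namespace Pool.Agent.H5R2.NB

namespace MEaux

variable {X : Type} [NormedAddCommGroup X] [InnerProductSpace ℂ X]

lemma stat (x : ℤ → X) (h : ∀ m n, ⟪x (m + 1), x (n + 1)⟫_ℂ = ⟪x m, x n⟫_ℂ) (k m n : ℤ) :
    ⟪x (m + k), x (n + k)⟫_ℂ = ⟪x m, x n⟫_ℂ := by
  induction k using Int.induction_on with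
  | zero => simp
  | succ i ih =>
    rw [← ih, ← h (m + i) (n + i)]
    ring_nf
  | pred i ih =>
    rw [← ih, ← h (m + (-(i : ℤ) - 1)) (n + (-(i : ℤ) - 1))]
    ring_nf

lemma normx (x : ℤ → X) (h : ∀ m n, ⟪x (m + 1), x (n + 1)⟫_ℂ = ⟪x m, x n⟫_ℂ) (m : ℤ) :
    ‖x m‖ = ‖x 0‖ := by
  have h1 := stat x h m 0 0
  rw [zero_add, inner_self_eq_norm_sq_to_K, inner_self_eq_norm_sq_to_K] at h1
  have h2 : ‖x m‖ ^ 2 = ‖x 0‖ ^ 2 := by exact_mod_cast h1
  exact (sq_eq_sq₀ (norm_nonneg _) (norm_nonneg _)).1 h2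

omit [InnerProductSpace ℂ X] in
lemma shift_bound (x : ℤ → X) (c : ℝ) (hc : ∀ m, ‖x m‖ ≤ c) (N : ℕ) (k : ℤ) :
    ‖(∑ n ∈ Finset.range N, x n) - ∑ n ∈ Finset.range N, x (k + n)‖ ≤ 2 * c * |(k : ℝ)| := by
  have step : ∀ k : ℤ, ‖(∑ n ∈ Finset.range N, x (k + n)) -
      ∑ n ∈ Finset.range N, x (k + 1 + n)‖ ≤ 2 * c := by
    intro k
    have h1 : (∑ n ∈ Finset.range N, x (k + n)) - ∑ n ∈ Finset.range N, x (k + 1 + n) =
        x k - x (k + N) := by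
      rw [← Finset.sum_sub_distrib]
      have := Finset.sum_range_sub' (fun n : ℕ => x (k + n)) N
      simp only [Nat.cast_zero, add_zero] at this
      rw [← this]
      refine Finset.sum_congr rfl fun n _ => ?_
      congr 2
      push_cast
      ring
    rw [h1]
    calc ‖x k - x (k + N)‖ ≤ ‖x k‖ + ‖x (k + N)‖ := norm_sub_le _ _
      _ ≤ 2 * c := by linarith [hc k, hc (k + N)]
  induction k using Int.induction_on with
  | zero => simp
  | succ i ih =>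
    have h2 := step i
    have h3 : (∑ n ∈ Finset.range N, x n) - ∑ n ∈ Finset.range N, x ((i : ℤ) + 1 + n) =
        ((∑ n ∈ Finset.range N, x n) - ∑ n ∈ Finset.range N, x ((i : ℤ) + n)) +
        ((∑ n ∈ Finset.range N, x ((i : ℤ) + n)) - ∑ n ∈ Finset.range N, x ((i : ℤ) + 1 + n)) := by
      abel
    rw [h3]
    refine (norm_add_le _ _).trans ?_
    have h4 : |(((i : ℤ) : ℝ))| = (i : ℝ) := by simp
    have h5 : |((((i : ℤ) + 1 : ℤ)) : ℝ)| = (i : ℝ) + 1 := by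
      push_cast
      rw [abs_of_nonneg]
      positivity
    rw [h4] at ih
    rw [h5]
    linarith
  | pred i ih =>
    have h2 := step (-(i : ℤ) - 1)
    have h3 : (∑ n ∈ Finset.range N, x n) - ∑ n ∈ Finset.range N, x (-(i : ℤ) - 1 + n) =
        ((∑ n ∈ Finset.range N, x n) - ∑ n ∈ Finset.range N, x (-(i : ℤ) + n)) -
        ((∑ n ∈ Finset.range N, x (-(i : ℤ) - 1 + n)) -
          ∑ n ∈ Finset.range N, x (-(i : ℤ) - 1 + 1 + n)) := by
      have : (-(i : ℤ) - 1 + 1) = -(i : ℤ) := by ring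
      rw [this]
      abel
    rw [h3]
    refine (norm_sub_le _ _).trans ?_
    have h4 : |((((-(i : ℤ)) : ℤ)) : ℝ)| = (i : ℝ) := by
      push_cast
      rw [abs_neg, abs_of_nonneg]
      positivity
    have h5 : |((((-(i : ℤ) - 1 : ℤ))) : ℝ)| = (i : ℝ) + 1 := by
      push_cast
      have : (-(i : ℝ) - 1) = -((i : ℝ) + 1) := by ring
      rw [this, abs_neg, abs_of_nonneg]
      positivity
    rw [h4] at ih
    rw [h5]
    linarith

lemma norm_comb (x : ℤ → X) (h : ∀ m n, ⟪x (m + 1), x (n + 1)⟫_ℂ = ⟪x m, x n⟫_ℂ)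
    {ι : Type} (t : Finset ι) (w : ι → ℝ) (k : ι → ℤ) (n : ℤ) :
    ‖∑ i ∈ t, w i • x (k i + n)‖ = ‖∑ i ∈ t, w i • x (k i)‖ := by
  have key : ∀ n : ℤ, ⟪∑ i ∈ t, w i • x (k i + n), ∑ i ∈ t, w i • x (k i + n)⟫_ℂ =
      ∑ i ∈ t, ∑ j ∈ t, (w i : ℂ) * ((w j : ℂ) * ⟪x (k i + n), x (k j + n)⟫_ℂ) := by
    intro n
    rw [sum_inner]
    refine Finset.sum_congr rfl fun i _ => ?_
    rw [inner_sum]
    refine Finset.sum_congr rfl fun j _ => ?_
    rw [← Complex.coe_smul (w i), ← Complex.coe_smul (w j), inner_smul_left, inner_smul_right]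
    simp
  have h1 : ⟪∑ i ∈ t, w i • x (k i + n), ∑ i ∈ t, w i • x (k i + n)⟫_ℂ =
      ⟪∑ i ∈ t, w i • x (k i), ∑ i ∈ t, w i • x (k i)⟫_ℂ := by
    have k0 := key 0
    simp only [add_zero] at k0
    rw [key n, k0]
    refine Finset.sum_congr rfl fun i _ => ?_
    refine Finset.sum_congr rfl fun j _ => ?_
    rw [stat x h n (k i) (k j)]
  rw [inner_self_eq_norm_sq_to_K, inner_self_eq_norm_sq_to_K] at h1
  have h2 : ‖∑ i ∈ t, w i • x (k i + n)‖ ^ 2 = ‖∑ i ∈ t, w i • x (k i)‖ ^ 2 := by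
    exact_mod_cast h1
  exact (sq_eq_sq₀ (norm_nonneg _) (norm_nonneg _)).1 h2

lemma exists_min [CompleteSpace X] (K : Set X) (hne : K.Nonempty) (hcl : IsClosed K)
    (hconv : Convex ℝ K) : ∃ y ∈ K, ∀ w ∈ K, ‖y‖ ≤ ‖w‖ := by
  let _ : InnerProductSpace ℝ X := InnerProductSpace.complexToReal
  obtain ⟨y, hy, hyn⟩ := exists_norm_eq_iInf_of_complete_convex (F := X) hne
    hcl.isComplete hconv (0 : X)
  refine ⟨y, hy, fun w hw => ?_⟩
  have h1 : ‖(0 : X) - y‖ ≤ ‖(0 : X) - w‖ := by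
    rw [hyn]
    exact ciInf_le (f := fun w : K => ‖(0 : X) - w‖)
      ⟨0, by rintro _ ⟨a, rfl⟩; exact norm_nonneg _⟩ ⟨w, hw⟩
  simpa using h1

lemma forward (x : ℤ → X) (h : ∀ m n, ⟪x (m + 1), x (n + 1)⟫_ℂ = ⟪x m, x n⟫_ℂ) (y : X)
    (hy : y ∈ closure (convexHull ℝ (Set.range x)))
    (hmin : ∀ w ∈ closure (convexHull ℝ (Set.range x)), ‖y‖ ≤ ‖w‖) :
    Tendsto (fun N : ℕ => ((N : ℂ)⁻¹) • ∑ n ∈ Finset.range N, x n) atTop (𝓝 y) := by
  set c : ℝ := ‖x 0‖ with hc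
  have hcx : ∀ m, ‖x m‖ ≤ c := fun m => (normx x h m).le
  have hc0 : 0 ≤ c := norm_nonneg _
  set Cc : Set X := closure (convexHull ℝ (Set.range x)) with hCc
  have hconv : Convex ℝ Cc := (convex_convexHull ℝ _).closure
  -- parallelogram
  have par : ∀ w ∈ Cc, ‖w - y‖ ^ 2 ≤ 2 * ‖w‖ ^ 2 - 2 * ‖y‖ ^ 2 := by
    intro w hw
    have hm : ((1 / 2 : ℝ) • w + (1 / 2 : ℝ) • y) ∈ Cc :=
      hconv hw hy (by norm_num) (by norm_num) (by norm_num)
    have h1 := hmin _ hm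
    have h2 : ((1 / 2 : ℝ) • w + (1 / 2 : ℝ) • y) = (1 / 2 : ℝ) • (w + y) := by
      rw [smul_add]
    rw [h2, norm_smul] at h1
    have h3 : 2 * ‖y‖ ≤ ‖w + y‖ := by
      have : ‖(1 / 2 : ℝ)‖ = 1 / 2 := by norm_num
      rw [this] at h1
      linarith
    have h4 := parallelogram_law_with_norm ℂ w y
    have h5 : (2 * ‖y‖) ^ 2 ≤ ‖w + y‖ ^ 2 := by
      apply pow_le_pow_left₀ (by positivity) h3
    nlinarith [h4, h5]
  rw [Metric.tendsto_atTop]
  intro ε hε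
  -- choose z
  obtain ⟨z, hz, hzy⟩ : ∃ z ∈ convexHull ℝ (Set.range x), ‖z‖ ^ 2 < ‖y‖ ^ 2 + ε ^ 2 / 8 := by
    have hopen : IsOpen {z : X | ‖z‖ ^ 2 < ‖y‖ ^ 2 + ε ^ 2 / 8} :=
      isOpen_lt (by fun_prop) continuous_const
    have hyin : y ∈ {z : X | ‖z‖ ^ 2 < ‖y‖ ^ 2 + ε ^ 2 / 8} := by
      show ‖y‖ ^ 2 < ‖y‖ ^ 2 + ε ^ 2 / 8
      have : 0 < ε ^ 2 / 8 := by positivity
      linarith
    obtain ⟨z, hz1, hz2⟩ := mem_closure_iff.1 hy _ hopen hyin
    exact ⟨z, hz2, hz1⟩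
  rw [convexHull_eq] at hz
  obtain ⟨ι, t, w, v, hw0, hw1, hv, hzeq⟩ := hz
  rw [Finset.centerMass_eq_of_sum_1 _ _ hw1] at hzeq
  choose! k hk using hv
  have hzeq' : ∑ i ∈ t, w i • x (k i) = z := by
    rw [← hzeq]
    exact Finset.sum_congr rfl fun i hi => by rw [hk i hi]
  set D : ℝ := ∑ i ∈ t, w i * (2 * c * |((k i : ℤ) : ℝ)|) with hD
  have hD0 : 0 ≤ D := Finset.sum_nonneg fun i hi => mul_nonneg (hw0 i hi) (by positivity)
  obtain ⟨N0, hN0⟩ := exists_nat_gt (2 * D / ε)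
  refine ⟨N0 + 1, fun N hN => ?_⟩
  have hNpos : (0 : ℝ) < N := by
    have : 0 < N := by omega
    exact_mod_cast this
  set Sz : X := ∑ n ∈ Finset.range N, (1 / (N : ℝ)) • ∑ i ∈ t, w i • x (k i + (n : ℤ)) with hSz
  have hmemz : ∀ n : ℤ, ∑ i ∈ t, w i • x (k i + n) ∈ Cc := by
    intro n
    refine subset_closure ?_
    exact (convex_convexHull ℝ _).sum_mem hw0 hw1
      fun i _ => subset_convexHull ℝ _ ⟨_, rfl⟩
  have hSzmem : Sz ∈ Cc := by
    refine hconv.sum_mem (fun _ _ => by positivity) ?_ fun n _ => hmemz n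
    rw [Finset.sum_const, Finset.card_range, nsmul_eq_mul]
    field_simp
  have hSznorm : ‖Sz‖ ≤ ‖z‖ := by
    calc ‖Sz‖ ≤ ∑ n ∈ Finset.range N, ‖(1 / (N : ℝ)) • ∑ i ∈ t, w i • x (k i + (n : ℤ))‖ :=
          norm_sum_le _ _
      _ = ∑ n ∈ Finset.range N, (1 / (N : ℝ)) * ‖z‖ := by
          refine Finset.sum_congr rfl fun n _ => ?_
          rw [norm_smul, norm_comb x h, hzeq']
          congr 1
          rw [Real.norm_of_nonneg (by positivity)]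
      _ = ‖z‖ := by
          rw [Finset.sum_const, Finset.card_range, nsmul_eq_mul]
          field_simp
  have h1 : ‖Sz - y‖ < ε / 2 := by
    have h2 := par Sz hSzmem
    have h3 : ‖Sz‖ ^ 2 ≤ ‖z‖ ^ 2 := pow_le_pow_left₀ (norm_nonneg _) hSznorm 2
    have h4 : ‖Sz - y‖ ^ 2 < (ε / 2) ^ 2 := by nlinarith
    exact lt_of_pow_lt_pow_left₀ 2 (by positivity) h4
  -- comparison
  have h2 : ‖((N : ℂ)⁻¹) • (∑ n ∈ Finset.range N, x n) - Sz‖ ≤ D / N := by
    have e1 : ((N : ℂ)⁻¹) • (∑ n ∈ Finset.range N, x n) =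
        (1 / (N : ℝ)) • ∑ n ∈ Finset.range N, x n := by
      rw [← Complex.coe_smul (1 / (N : ℝ))]
      congr 1
      push_cast
      rw [one_div]
    have e2 : ∑ n ∈ Finset.range N, x n = ∑ i ∈ t, w i • ∑ n ∈ Finset.range N, x n := by
      rw [← Finset.sum_smul, hw1, one_smul]
    have e3 : Sz = (1 / (N : ℝ)) • ∑ i ∈ t, w i • ∑ n ∈ Finset.range N, x (k i + (n : ℤ)) := by
      rw [hSz, ← Finset.smul_sum]
      congr 1
      rw [Finset.sum_comm]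
      refine Finset.sum_congr rfl fun i _ => ?_
      rw [Finset.smul_sum]
    rw [e1, e3, e2, ← smul_sub, ← Finset.sum_sub_distrib, norm_smul,
      Real.norm_of_nonneg (by positivity)]
    have e4 : ‖∑ i ∈ t, (w i • (∑ n ∈ Finset.range N, x n) -
        w i • ∑ n ∈ Finset.range N, x (k i + (n : ℤ)))‖ ≤ D := by
      refine (norm_sum_le _ _).trans ?_
      rw [hD]
      refine Finset.sum_le_sum fun i hi => ?_
      rw [← smul_sub, norm_smul, Real.norm_of_nonneg (hw0 i hi)]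
      exact mul_le_mul_of_nonneg_left (shift_bound x c hcx N (k i)) (hw0 i hi)
    rw [one_div, inv_mul_eq_div]
    exact div_le_div_of_nonneg_right e4 hNpos.le
  have h3 : D / N < ε / 2 := by
    have hNN : (N0 : ℝ) < N := by
      have : N0 < N := by omega
      exact_mod_cast this
    have h4 : 2 * D / ε < N := hN0.trans hNN
    rw [div_lt_iff₀ hε] at h4
    rw [div_lt_iff₀ hNpos]
    linarith
  rw [dist_eq_norm]
  calc ‖((N : ℂ)⁻¹) • (∑ n ∈ Finset.range N, x n) - y‖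
      = ‖(((N : ℂ)⁻¹) • (∑ n ∈ Finset.range N, x n) - Sz) + (Sz - y)‖ := by
        congr 1
        abel
    _ ≤ ‖((N : ℂ)⁻¹) • (∑ n ∈ Finset.range N, x n) - Sz‖ + ‖Sz - y‖ := norm_add_le _ _
    _ < ε := by linarith

end MEaux

/-- the mean ergodic theorem for stationary sequences -/
theorem t_ME : St_ME := by
  intro X _ _ _ x h
  have hne : (closure (convexHull ℝ (Set.range x))).Nonempty :=
    ⟨x 0, subset_closure (subset_convexHull ℝ _ ⟨0, rfl⟩)⟩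
  obtain ⟨y, hy, hmin⟩ := MEaux.exists_min (closure (convexHull ℝ (Set.range x))) hne
    isClosed_closure (convex_convexHull ℝ (Set.range x)).closure
  refine ⟨y, MEaux.forward x h y hy hmin, ?_⟩
  have hr : Set.range (fun n : ℤ => x (-n - 1)) = Set.range x := by
    ext z
    constructor
    · rintro ⟨n, rfl⟩
      exact ⟨_, rfl⟩
    · rintro ⟨n, rfl⟩
      exact ⟨-n - 1, by show x (-(-n - 1) - 1) = x n; congr 1; ring⟩
  have h' : ∀ m n : ℤ, ⟪(fun n : ℤ => x (-n - 1)) (m + 1), (fun n : ℤ => x (-n - 1)) (n + 1)⟫_ℂ =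
      ⟪(fun n : ℤ => x (-n - 1)) m, (fun n : ℤ => x (-n - 1)) n⟫_ℂ := by
    intro m n
    have := h (-(m + 1) - 1) (-(n + 1) - 1)
    show ⟪x (-(m + 1) - 1), x (-(n + 1) - 1)⟫_ℂ = ⟪x (-m - 1), x (-n - 1)⟫_ℂ
    rw [← this]
    congr 2 <;> ring
  exact MEaux.forward (fun n : ℤ => x (-n - 1)) h' y (by rw [hr]; exact hy)
    (by rw [hr]; exact hmin)

end Pool.Agent.H5R2.NB
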