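import Pool.Agent.H5R2.NB.Defs

/-! # Task MOM: second moment of the position (helper847) -/

set_option autoImplicit false

open MeasureTheory Filter Topology
open scoped BigOperators ENNReal NNReal InnerProductSpace ComplexConjugate

namespace Pool.Agent.H5R2.NB

namespace MOM

variable {ι : Type}

lemma hasSum_sq (g : L2 ι) : HasSum (fun x => ‖g x‖ ^ 2) (‖g‖ ^ 2) := by
  have h := lp.hasSum_norm (p := 2) (by norm_num) g
  simpa [ENNReal.toReal_ofNat, Real.rpow_two] using h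

lemma enorm_sq (g : L2 ι) : ∑' x, ‖g x‖ₑ ^ 2 = ‖g‖ₑ ^ 2 := by
  have h := hasSum_sq g
  rw [← ofReal_norm, ← ENNReal.ofReal_pow (norm_nonneg _), ← h.tsum_eq,
    ENNReal.ofReal_tsum_of_nonneg (fun x => by positivity) h.summable]
  refine tsum_congr fun x => ?_
  rw [← ofReal_norm, ← ENNReal.ofReal_pow (norm_nonneg _)]

/-- dominated convergence in `ℓ²` -/
lemma tendsto_dom (φ : ℕ → L2 ι) (ψ g : L2 ι) (hb : ∀ n x, ‖φ n x‖ ≤ ‖g x‖)
    (ht : ∀ x, Tendsto (fun n => φ n x) atTop (𝓝 (ψ x))) :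
    Tendsto φ atTop (𝓝 ψ) := by
  have hψ : ∀ x, ‖ψ x‖ ≤ ‖g x‖ := fun x =>
    le_of_tendsto (ht x).norm (Eventually.of_forall fun n => hb n x)
  rw [tendsto_iff_norm_sub_tendsto_zero]
  have h2 : Tendsto (fun n => ‖φ n - ψ‖ ^ 2) atTop (𝓝 0) := by
    have e : (fun n => ‖φ n - ψ‖ ^ 2) = fun n => ∑' x, ‖(φ n - ψ) x‖ ^ 2 := by
      funext n
      exact (hasSum_sq _).tsum_eq.symm
    rw [e]
    have h0 : (0 : ℝ) = ∑' x : ι, (0 : ℝ) := by simp
    rw [h0]
    refine tendsto_tsum_of_dominated_convergence (bound := fun x => 4 * ‖g x‖ ^ 2)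
      ((hasSum_sq g).summable.mul_left 4) ?_ ?_
    · intro x
      have h1 : Tendsto (fun n => (φ n - ψ) x) atTop (𝓝 0) := by
        have := (ht x).sub_const (ψ x)
        simpa using this
      have h3 := (h1.norm).pow 2
      simpa using h3
    · refine Eventually.of_forall fun n x => ?_
      have h1 : ‖(φ n - ψ) x‖ ≤ 2 * ‖g x‖ := by
        calc ‖(φ n - ψ) x‖ = ‖φ n x - ψ x‖ := by rfl
          _ ≤ ‖φ n x‖ + ‖ψ x‖ := norm_sub_le _ _
          _ ≤ 2 * ‖g x‖ := by linarith [hb n x, hψ x]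
      rw [Real.norm_eq_abs, abs_of_nonneg (by positivity)]
      nlinarith [norm_nonneg ((φ n - ψ) x), norm_nonneg (g x)]
  have h3 := h2.sqrt
  simpa [Real.sqrt_sq (norm_nonneg _)] using h3

section lattice

variable {d : ℕ}

lemma mul_mem (m : Site d → ℝ) (M : ℝ) (hM : ∀ x, |m x| ≤ M) (ψ : L2 (Site d)) (x : Site d) :
    ‖(m x : ℂ) * ψ x‖ ≤ ‖((M : ℂ) • ψ) x‖ := by
  have h0 : 0 ≤ M := (abs_nonneg _).trans (hM x)
  have e : ((M : ℂ) • ψ) x = (M : ℂ) * ψ x := rfl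
  rw [e, norm_mul, norm_mul, Complex.norm_real, Complex.norm_real, Real.norm_eq_abs,
    Real.norm_eq_abs, abs_of_nonneg h0]
  gcongr
  exact hM x

/-- multiplication by a bounded real function -/
noncomputable def mulop (m : Site d → ℝ) (M : ℝ) (hM : ∀ x, |m x| ≤ M) :
    L2 (Site d) →L[ℂ] L2 (Site d) :=
  LinearMap.mkContinuous
    { toFun := fun ψ => ⟨fun x => (m x : ℂ) * ψ x,
        Memℓp.mono' (lp.memℓp ((M : ℂ) • ψ)) (mul_mem m M hM ψ)⟩
      map_add' := by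
        intro φ ψ
        ext x
        show (m x : ℂ) * (φ x + ψ x) = (m x : ℂ) * φ x + (m x : ℂ) * ψ x
        ring
      map_smul' := by
        intro r ψ
        ext x
        show (m x : ℂ) * (r * ψ x) = r * ((m x : ℂ) * ψ x)
        ring } M (by
    intro ψ
    have h0 : 0 ≤ M := (abs_nonneg _).trans (hM 0)
    have h1 : ‖(⟨fun x => (m x : ℂ) * ψ x,
        Memℓp.mono' (lp.memℓp ((M : ℂ) • ψ)) (mul_mem m M hM ψ)⟩ : L2 (Site d))‖ ≤
        ‖(M : ℂ) • ψ‖ := lp.norm_mono (by norm_num) (mul_mem m M hM ψ)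
    refine h1.trans ?_
    rw [norm_smul, Complex.norm_real, Real.norm_eq_abs, abs_of_nonneg h0])

lemma mulop_apply (m : Site d → ℝ) (M : ℝ) (hM : ∀ x, |m x| ≤ M) (ψ : L2 (Site d))
    (x : Site d) : (mulop m M hM ψ) x = (m x : ℂ) * ψ x := rfl

lemma mulop_norm_le (m : Site d → ℝ) (M : ℝ) (hM : ∀ x, |m x| ≤ M) (ψ : L2 (Site d)) :
    ‖mulop m M hM ψ‖ ≤ M * ‖ψ‖ := by
  have h0 : 0 ≤ M := (abs_nonneg _).trans (hM 0)
  exact (mulop m M hM).le_of_opNorm_le (LinearMap.mkContinuous_norm_le _ h0 _) ψ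

/-- the clamped coordinate -/
noncomputable def xi (j : Fin d) (R : ℕ) (x : Site d) : ℝ := max (-(R : ℝ)) (min (R : ℝ) (x j : ℝ))

lemma xi_abs (j : Fin d) (R : ℕ) (x : Site d) : |xi j R x| ≤ R := by
  have hR : (0 : ℝ) ≤ R := Nat.cast_nonneg R
  unfold xi
  rw [abs_le]
  exact ⟨le_max_left _ _, max_le (by linarith) (min_le_left _ _)⟩

lemma clamp_step (R t : ℝ) (hR : 0 ≤ R) :
    |max (-R) (min R (t + 1)) - max (-R) (min R t)| ≤ 1 := by
  rw [abs_le]
  constructor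
  all_goals
    simp only [max_def, min_def]
    split_ifs <;> linarith

lemma xi_eq (j : Fin d) (R : ℕ) (x : Site d) (h : |(x j : ℝ)| ≤ R) : xi j R x = x j := by
  rw [abs_le] at h
  unfold xi
  rw [min_eq_right h.2, max_eq_right h.1]

/-- `ξ(x+e_j) - ξ(x)` -/
noncomputable def aR (j : Fin d) (R : ℕ) (x : Site d) : ℝ :=
  xi j R (x + Pi.single j 1) - xi j R x

/-- `ξ(x) - ξ(x-e_j)` -/
noncomputable def bR (j : Fin d) (R : ℕ) (x : Site d) : ℝ :=
  xi j R x - xi j R (x - Pi.single j 1)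

lemma aR_abs (j : Fin d) (R : ℕ) (x : Site d) : |aR j R x| ≤ 1 := by
  unfold aR xi
  have e : (((x + Pi.single j 1 : Site d) j : ℤ) : ℝ) = (x j : ℝ) + 1 := by simp
  rw [e]
  exact clamp_step _ _ (Nat.cast_nonneg R)

lemma bR_abs (j : Fin d) (R : ℕ) (x : Site d) : |bR j R x| ≤ 1 := by
  unfold bR xi
  have e : ((x j : ℤ) : ℝ) = (((x - Pi.single j 1 : Site d) j : ℤ) : ℝ) + 1 := by simp
  rw [e]
  exact clamp_step _ _ (Nat.cast_nonneg R)

lemma xi_eventually (j : Fin d) (x : Site d) : ∀ᶠ R : ℕ in atTop, xi j R x = x j := by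
  filter_upwards [eventually_ge_atTop (⌈|(x j : ℝ)|⌉₊)] with R hR
  exact xi_eq j R x ((Nat.le_ceil _).trans (by exact_mod_cast hR))

lemma aR_tendsto (j : Fin d) (x : Site d) : Tendsto (fun R => aR j R x) atTop (𝓝 1) := by
  refine tendsto_const_nhds.congr' ?_
  filter_upwards [xi_eventually j x, xi_eventually j (x + Pi.single j 1)] with R h1 h2
  unfold aR
  rw [h1, h2]
  simp

lemma bR_tendsto (j : Fin d) (x : Site d) : Tendsto (fun R => bR j R x) atTop (𝓝 1) := by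
  refine tendsto_const_nhds.congr' ?_
  filter_upwards [xi_eventually j x, xi_eventually j (x - Pi.single j 1)] with R h1 h2
  unfold bR
  rw [h1, h2]
  simp

lemma mulop_tendsto (m : ℕ → Site d → ℝ) (hM : ∀ n x, |m n x| ≤ 1)
    (ht : ∀ x, Tendsto (fun n => m n x) atTop (𝓝 1)) (ψ : L2 (Site d)) :
    Tendsto (fun n => mulop (m n) 1 (hM n) ψ) atTop (𝓝 ψ) := by
  refine tendsto_dom _ ψ ψ ?_ ?_
  · intro n x
    rw [mulop_apply, norm_mul, Complex.norm_real, Real.norm_eq_abs]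
    calc |m n x| * ‖ψ x‖ ≤ 1 * ‖ψ x‖ := by gcongr; exact hM n x
      _ = ‖ψ x‖ := one_mul _
  · intro x
    simp only [mulop_apply]
    have h1 : Tendsto (fun n => ((m n x : ℝ) : ℂ)) atTop (𝓝 ((1 : ℝ) : ℂ)) :=
      (Complex.continuous_ofReal.tendsto _).comp (ht x)
    have h2 := h1.mul_const (ψ x)
    simpa using h2

/-- the truncated velocity -/
noncomputable def vR (c : ℝ) (j : Fin d) (R : ℕ) (Sp Sm : L2 (Site d) →L[ℂ] L2 (Site d)) :
    L2 (Site d) →L[ℂ] L2 (Site d) :=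
  (Complex.I * c) • ((mulop (aR j R) 1 (aR_abs j R)).comp Sp -
    (mulop (bR j R) 1 (bR_abs j R)).comp Sm)

lemma vR_apply (c : ℝ) (j : Fin d) (R : ℕ) (Sp Sm : L2 (Site d) →L[ℂ] L2 (Site d))
    (hp : IsShift (Pi.single j 1) Sp) (hm : IsShift (-Pi.single j 1) Sm) (ψ : L2 (Site d))
    (x : Site d) : (vR c j R Sp Sm ψ) x = Complex.I * c *
      (aR j R x * ψ (x + Pi.single j 1) - bR j R x * ψ (x - Pi.single j 1)) := by
  show (Complex.I * c) * ((aR j R x : ℂ) * (Sp ψ) x - (bR j R x : ℂ) * (Sm ψ) x) = _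
  rw [hp ψ x, hm ψ x, sub_eq_add_neg x]

lemma vR_norm_le (c : ℝ) (j : Fin d) (R : ℕ) (Sp Sm : L2 (Site d) →L[ℂ] L2 (Site d))
    (ψ : L2 (Site d)) :
    ‖vR c j R Sp Sm ψ‖ ≤ |c| * (‖Sp‖ + ‖Sm‖) * ‖ψ‖ := by
  have e : vR c j R Sp Sm ψ = (Complex.I * c) • (mulop (aR j R) 1 (aR_abs j R) (Sp ψ) -
    mulop (bR j R) 1 (bR_abs j R) (Sm ψ)) := rfl
  rw [e, norm_smul, norm_mul, Complex.norm_I, one_mul, Complex.norm_real, Real.norm_eq_abs,
    mul_assoc]
  gcongr
  calc ‖mulop (aR j R) 1 (aR_abs j R) (Sp ψ) - mulop (bR j R) 1 (bR_abs j R) (Sm ψ)‖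
      ≤ ‖mulop (aR j R) 1 (aR_abs j R) (Sp ψ)‖ + ‖mulop (bR j R) 1 (bR_abs j R) (Sm ψ)‖ :=
        norm_sub_le _ _
    _ ≤ 1 * ‖Sp ψ‖ + 1 * ‖Sm ψ‖ := add_le_add (mulop_norm_le _ _ _ _) (mulop_norm_le _ _ _ _)
    _ ≤ (‖Sp‖ + ‖Sm‖) * ‖ψ‖ := by
        rw [one_mul, one_mul, add_mul]
        exact add_le_add (Sp.le_opNorm ψ) (Sm.le_opNorm ψ)

lemma vR_tendsto (c : ℝ) (j : Fin d) (Sp Sm v : L2 (Site d) →L[ℂ] L2 (Site d))
    (hp : IsShift (Pi.single j 1) Sp) (hm : IsShift (-Pi.single j 1) Sm) (hv : IsVel c j v)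
    (ψ : L2 (Site d)) :
    Tendsto (fun R => vR c j R Sp Sm ψ) atTop (𝓝 (v ψ)) := by
  have e : v ψ = (Complex.I * c) • (Sp ψ - Sm ψ) := by
    ext x
    show (v ψ) x = (Complex.I * c) * ((Sp ψ) x - (Sm ψ) x)
    rw [hv ψ x, hp ψ x, hm ψ x, sub_eq_add_neg x]
  rw [e]
  exact ((mulop_tendsto (fun R => aR j R) (fun R => aR_abs j R) (aR_tendsto j) (Sp ψ)).sub
    (mulop_tendsto (fun R => bR j R) (fun R => bR_abs j R) (bR_tendsto j) (Sm ψ))).const_smul _

lemma hop_comm (c : ℝ) (j : Fin d) (R : ℕ) (w : Site d → ℂ) (x : Site d) :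
    hopf c (fun y => (xi j R y : ℂ) * w y) x = (xi j R x : ℂ) * hopf c w x +
      c * (aR j R x * w (x + Pi.single j 1) - bR j R x * w (x - Pi.single j 1)) := by
  have key : ∑ i : Fin d, (((xi j R (x + Pi.single i 1) : ℂ) * w (x + Pi.single i 1) +
      (xi j R (x - Pi.single i 1) : ℂ) * w (x - Pi.single i 1)) -
      (xi j R x : ℂ) * (w (x + Pi.single i 1) + w (x - Pi.single i 1))) =
      aR j R x * w (x + Pi.single j 1) - bR j R x * w (x - Pi.single j 1) := by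
    rw [Finset.sum_eq_single j]
    · unfold aR bR
      push_cast
      ring
    · intro i _ hij
      have e1 : (x + Pi.single i 1 : Site d) j = x j := by
        rw [Pi.add_apply, Pi.single_eq_of_ne hij.symm, add_zero]
      have e2 : (x - Pi.single i 1 : Site d) j = x j := by
        rw [Pi.sub_apply, Pi.single_eq_of_ne hij.symm, sub_zero]
      have h1 : xi j R (x + Pi.single i 1) = xi j R x := by
        unfold xi
        rw [e1]
      have h2 : xi j R (x - Pi.single i 1) = xi j R x := by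
        unfold xi
        rw [e2]
      rw [h1, h2]
      ring
    · simp
  rw [← key, Finset.sum_sub_distrib, ← Finset.mul_sum]
  unfold hopf
  ring

lemma isSol (c : ℝ) (V : Site d → ℝ) (W : UG (L2 (Site d))) (hW : IsGrp c V W) (j : Fin d)
    (R : ℕ) (Sp Sm : L2 (Site d) →L[ℂ] L2 (Site d))
    (hp : IsShift (Pi.single j 1) Sp) (hm : IsShift (-Pi.single j 1) Sm) :
    IsSol c V (fun t => mulop (xi j R) R (xi_abs j R) (W.U t (dl 0)))
      (fun t => vR c j R Sp Sm (W.U t (dl 0))) := by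
  refine ⟨fun T => ⟨R * ‖(dl 0 : L2 (Site d))‖, fun t _ => ?_⟩, fun t x => ?_⟩
  · have h := mulop_norm_le (xi j R) R (xi_abs j R) (W.U t (dl 0))
    rwa [W.norm'] at h
  · have h := ((hW (dl 0)).2 t x).const_mul (xi j R x : ℂ)
    have e : (fun s => (mulop (xi j R) R (xi_abs j R) (W.U s (dl 0))) x) =
        fun s => (xi j R x : ℂ) * (W.U s (dl 0)) x := by
      funext s
      rfl
    rw [e]
    refine h.congr_deriv ?_
    have e2 : (fun y => (mulop (xi j R) R (xi_abs j R) (W.U t (dl 0))) y) =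
        fun y => (xi j R y : ℂ) * (W.U t (dl 0)) y := by
      funext y
      rfl
    have e3 : ((0 : L2 (Site d)) x) = 0 := rfl
    rw [e2, hop_comm, vR_apply c j R Sp Sm hp hm, mulop_apply, e3]
    ring

end lattice

lemma cont_comp {X : Type} [NormedAddCommGroup X] [InnerProductSpace ℂ X] (W : UG X)
    (g : ℝ → X) (hg : Continuous g) : Continuous fun s => W.U (-s) (g s) := by
  rw [continuous_iff_continuousAt]
  intro s0
  rw [ContinuousAt, tendsto_iff_norm_sub_tendsto_zero]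
  have h1 : Tendsto (fun s => ‖g s - g s0‖) (𝓝 s0) (𝓝 0) := by
    have := (hg.tendsto s0)
    rwa [tendsto_iff_norm_sub_tendsto_zero] at this
  have h2 : Tendsto (fun s => ‖W.U (-s) (g s0) - W.U (-s0) (g s0)‖) (𝓝 s0) (𝓝 0) := by
    have := ((W.cont' (g s0)).comp continuous_neg).tendsto s0
    rwa [tendsto_iff_norm_sub_tendsto_zero] at this
  refine squeeze_zero (fun s => norm_nonneg _) (fun s => ?_) (by simpa using h1.add h2)
  calc ‖W.U (-s) (g s) - W.U (-s0) (g s0)‖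
      = ‖W.U (-s) (g s - g s0) + (W.U (-s) (g s0) - W.U (-s0) (g s0))‖ := by
        rw [map_sub]
        congr 1
        abel
    _ ≤ ‖W.U (-s) (g s - g s0)‖ + ‖W.U (-s) (g s0) - W.U (-s0) (g s0)‖ := norm_add_le _ _
    _ = ‖g s - g s0‖ + ‖W.U (-s) (g s0) - W.U (-s0) (g s0)‖ := by rw [W.norm']

end MOM

open MOM in
theorem t_MOM (h : St_UN) (h2 : St_OPS) : St_MOM := by
  intro d c V W hW j v hv t
  obtain ⟨Sp, hp⟩ := (h2 d).1 (Pi.single j 1)
  obtain ⟨Sm, hm⟩ := (h2 d).1 (-Pi.single j 1)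
  have hcw : Continuous fun s => W.U s (dl 0) := W.cont' _
  -- the truncated identity
  have key : ∀ R : ℕ, ‖mulop (xi j R) R (xi_abs j R) (W.U t (dl 0))‖ₑ =
      ‖∫ s in (0 : ℝ)..t, W.U (-s) (vR c j R Sp Sm (W.U s (dl 0)))‖ₑ := by
    intro R
    have hch : Continuous fun s => vR c j R Sp Sm (W.U s (dl 0)) :=
      (vR c j R Sp Sm).continuous.comp hcw
    have hU := h d c V W hW _ _ hch (isSol c V W hW j R Sp Sm hp hm) t
    have e0 : mulop (xi j R) R (xi_abs j R) (W.U 0 (dl 0)) = 0 := by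
      rw [W.zero']
      ext x
      rw [mulop_apply]
      by_cases hx : x = 0
      · subst hx
        have : xi j R (0 : Site d) = 0 := by
          rw [xi_eq j R 0 (by simp)]
          simp
        rw [this]
        simp
      · have : (dl (0 : Site d)) x = 0 := by
          unfold dl
          exact lp.single_apply_ne 2 0 _ hx
        rw [this, mul_zero]
        rfl
    have e1 : ∫ s in (0 : ℝ)..t, W.U (t - s) (vR c j R Sp Sm (W.U s (dl 0))) =
        W.U t (∫ s in (0 : ℝ)..t, W.U (-s) (vR c j R Sp Sm (W.U s (dl 0)))) := by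
      rw [← ContinuousLinearMap.intervalIntegral_comp_comm _
        ((cont_comp W _ hch).intervalIntegrable 0 t)]
      refine intervalIntegral.integral_congr fun s _ => ?_
      show W.U (t - s) _ = W.U t (W.U (-s) _)
      rw [← W.add', sub_eq_add_neg]
    rw [hU, e0, map_zero, zero_add, e1, ← ofReal_norm, ← ofReal_norm, W.norm']
  -- the left side
  have hL : ∀ R : ℕ, ∑' x : Site d, ENNReal.ofReal ((xi j R x) ^ 2) *
      ‖(W.U t (dl 0)) x‖ₑ ^ 2 =
      ‖∫ s in (0 : ℝ)..t, W.U (-s) (vR c j R Sp Sm (W.U s (dl 0)))‖ₑ ^ 2 := by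
    intro R
    rw [← key R, ← enorm_sq]
    refine tsum_congr fun x => ?_
    rw [mulop_apply, enorm_mul, mul_pow]
    congr 1
    rw [← ofReal_norm, Complex.norm_real, Real.norm_eq_abs, ← ENNReal.ofReal_pow (abs_nonneg _),
      sq_abs]
  -- the limit of the right side
  have hR : Tendsto (fun R : ℕ => ‖∫ s in (0 : ℝ)..t,
      W.U (-s) (vR c j R Sp Sm (W.U s (dl 0)))‖ₑ ^ 2) atTop
      (𝓝 (‖∫ s in (0 : ℝ)..t, W.U (-s) (v (W.U s (dl 0)))‖ₑ ^ 2)) := by
    have h1 : Tendsto (fun R : ℕ => ∫ s in (0 : ℝ)..t,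
        W.U (-s) (vR c j R Sp Sm (W.U s (dl 0)))) atTop
        (𝓝 (∫ s in (0 : ℝ)..t, W.U (-s) (v (W.U s (dl 0))))) := by
      refine intervalIntegral.tendsto_integral_filter_of_dominated_convergence
        (bound := fun _ => |c| * (‖Sp‖ + ‖Sm‖) * ‖(dl 0 : L2 (Site d))‖) ?_ ?_ ?_ ?_
      · refine Eventually.of_forall fun R => ?_
        exact (cont_comp W _ ((vR c j R Sp Sm).continuous.comp hcw)).aestronglyMeasurable
      · refine Eventually.of_forall fun R => ae_of_all _ fun s _ => ?_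
        rw [W.norm']
        have := vR_norm_le c j R Sp Sm (W.U s (dl 0))
        rwa [W.norm'] at this
      · exact intervalIntegrable_const
      · refine ae_of_all _ fun s _ => ?_
        exact ((W.U (-s)).continuous.tendsto _).comp (vR_tendsto c j Sp Sm v hp hm hv _)
    exact ENNReal.Tendsto.pow ((continuous_enorm.tendsto _).comp h1)
  have hR' : Tendsto (fun R : ℕ => ∑' x : Site d, ENNReal.ofReal ((xi j R x) ^ 2) *
      ‖(W.U t (dl 0)) x‖ₑ ^ 2) atTop
      (𝓝 (‖∫ s in (0 : ℝ)..t, W.U (-s) (v (W.U s (dl 0)))‖ₑ ^ 2)) := by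
    simpa only [hL] using hR
  apply le_antisymm
  · rw [ENNReal.tsum_eq_iSup_sum]
    refine iSup_le fun F => ?_
    refine ge_of_tendsto hR' ?_
    have hev : ∀ᶠ R : ℕ in atTop, ∀ x ∈ F, xi j R x = x j :=
      (Finset.eventually_all F).mpr fun x _ => xi_eventually j x
    filter_upwards [hev] with R hR
    calc ∑ x ∈ F, ENNReal.ofReal ((x j : ℝ) ^ 2) * ‖(W.U t (dl 0)) x‖ₑ ^ 2
        = ∑ x ∈ F, ENNReal.ofReal ((xi j R x) ^ 2) * ‖(W.U t (dl 0)) x‖ₑ ^ 2 :=
          Finset.sum_congr rfl fun x hx => by rw [hR x hx]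
      _ ≤ _ := ENNReal.sum_le_tsum F
  · refine le_of_tendsto hR' (Eventually.of_forall fun R => ?_)
    refine ENNReal.tsum_le_tsum fun x => ?_
    refine mul_le_mul' (ENNReal.ofReal_le_ofReal (sq_le_sq.mpr ?_)) le_rfl
    have hR0 : (0 : ℝ) ≤ R := Nat.cast_nonneg R
    unfold xi
    rw [abs_le]
    constructor
    · rcases le_total (R : ℝ) (x j : ℝ) with h3 | h3
      · rw [min_eq_left h3]
        refine le_max_of_le_right ?_
        have := neg_abs_le (x j : ℝ)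
        linarith [abs_nonneg (x j : ℝ)]
      · rw [min_eq_right h3]
        exact le_max_of_le_right (neg_abs_le _)
    · refine max_le (by linarith [abs_nonneg (x j : ℝ)]) ?_
      exact (min_le_right _ _).trans (le_abs_self _)

end Pool.Agent.H5R2.NB
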