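import Pool.Agent.H5R2.NB.Defs

set_option autoImplicit false

open MeasureTheory Filter Topology
open scoped BigOperators ENNReal NNReal InnerProductSpace ComplexConjugate

namespace Pool.Agent.H5R2.NB

namespace NN

variable {X : Type} [NormedAddCommGroup X] [InnerProductSpace ℂ X]

theorem inner_pres (W : UG X) (t : ℝ) (x y : X) : ⟪W.U t x, W.U t y⟫_ℂ = ⟪x, y⟫_ℂ := by
  let L : X →ₗᵢ[ℂ] X := ⟨(W.U t).toLinearMap, fun x => W.norm' t x⟩
  exact L.inner_map_map x y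

theorem inner_adj (W : UG X) (t : ℝ) (x y : X) : ⟪W.U t x, y⟫_ℂ = ⟪x, W.U (-t) y⟫_ℂ := by
  have h : W.U t (W.U (-t) y) = y := by
    rw [← W.add', add_neg_cancel, W.zero']
  conv_lhs => rw [← h]
  rw [inner_pres]

end NN

theorem t_NN : St_NN := by
  intro ι U e hF κ κ' φ h
  have h1 : ∀ s, ⟪e, (U κ).U s φ⟫_ℂ = 0 := by
    intro s
    rw [← inner_conj_symm, NN.inner_adj, h (-s), map_zero]
  have h2 : ∀ t, (U κ').U t φ = (U κ).U t φ := by
    intro t
    have h3 := hF κ' κ t φ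
    rw [h3]
    simp [h1]
  refine ⟨fun t => ?_, h2⟩
  have h4 : ⟪φ, (U κ').U t e⟫_ℂ = ⟪(U κ').U (-t) φ, e⟫_ℂ := by
    rw [NN.inner_adj, neg_neg]
  rw [h4, h2, NN.inner_adj, neg_neg, h t]

end Pool.Agent.H5R2.NB
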