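import Pool.Agent.H5R2.NB.Defs
import Pool.Agent.H4R2.AE.Exist

set_option autoImplicit false

open MeasureTheory Filter Topology
open scoped BigOperators ENNReal NNReal

namespace Pool.Agent.H5R2.NB

namespace OPS

theorem shift {d : ℕ} (z : Site d) : ∃ S : L2 (Site d) →L[ℂ] L2 (Site d), IsShift z S := by
  obtain ⟨A, hA⟩ := Pool.Agent.H4R2.AE.Exist.exists_op (fun x : Site d => x + z)
    (add_left_injective z) (fun _ => 1) 1 zero_le_one (by simp)
  refine ⟨A, ?_⟩
  intro ψ x
  rw [hA, one_mul]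

theorem coe_sum {d : ℕ} (s : Finset (Fin d)) (f : Fin d → L2 (Site d)) (x : Site d) :
    (∑ i ∈ s, f i) x = ∑ i ∈ s, (f i) x := by
  classical
  induction s using Finset.induction_on with
  | empty => simp
  | insert a s ha ih =>
    rw [Finset.sum_insert ha, Finset.sum_insert ha, lp.coeFn_add, Pi.add_apply, ih]

end OPS

open OPS in
theorem t_OPS : St_OPS := by
  intro d
  refine ⟨fun z => shift z, ?_, ?_⟩
  · intro c
    choose S hS using fun z : Site d => shift z
    refine ⟨(c : ℂ) • ∑ i : Fin d, (S (Pi.single i 1) + S (-Pi.single i 1)), ?_⟩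
    intro ψ x
    simp only [ContinuousLinearMap.smul_apply, ContinuousLinearMap.sum_apply,
      ContinuousLinearMap.add_apply]
    rw [lp.coeFn_smul, Pi.smul_apply, coe_sum, hopf, smul_eq_mul]
    congr 1
    refine Finset.sum_congr rfl (fun i _ => ?_)
    rw [lp.coeFn_add, Pi.add_apply, hS _ ψ x, hS _ ψ x, sub_eq_add_neg]
  · intro c j
    obtain ⟨S1, hS1⟩ := shift (d := d) (Pi.single j 1)
    obtain ⟨S2, hS2⟩ := shift (d := d) (-Pi.single j 1)
    refine ⟨(Complex.I * c) • (S1 - S2), ?_⟩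
    intro ψ x
    simp only [ContinuousLinearMap.smul_apply, ContinuousLinearMap.sub_apply]
    rw [lp.coeFn_smul, Pi.smul_apply, lp.coeFn_sub, Pi.sub_apply, hS1 ψ x, hS2 ψ x,
      sub_eq_add_neg x, smul_eq_mul]

end Pool.Agent.H5R2.NB
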