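import Pool.Agent.H5R2.NB.Defs

set_option autoImplicit false

open MeasureTheory Filter Topology
open scoped BigOperators ENNReal NNReal InnerProductSpace ComplexConjugate

namespace Pool.Agent.H5R2.NB
namespace PROPR

section basics
variable {ι : Type}

theorem inner_UU (W : UG (L2 ι)) (t : ℝ) (x y : L2 ι) : ⟪W.U t x, W.U t y⟫_ℂ = ⟪x, y⟫_ℂ := by
  let f : L2 ι →ₗᵢ[ℂ] L2 ι := ⟨(W.U t).toLinearMap, W.norm' t⟩
  exact f.inner_map_map x y

theorem U_neg (W : UG (L2 ι)) (t : ℝ) (x : L2 ι) : W.U t (W.U (-t) x) = x := by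
  rw [← W.add', add_neg_cancel, W.zero']

theorem inner_left (W : UG (L2 ι)) (t : ℝ) (x y : L2 ι) :
    ⟪W.U t x, y⟫_ℂ = ⟪x, W.U (-t) y⟫_ℂ := by
  conv_lhs => rw [← U_neg W t y]
  exact inner_UU W t x _

theorem inner_left' (W : UG (L2 ι)) (t : ℝ) (x y : L2 ι) :
    ⟪W.U (-t) x, y⟫_ℂ = ⟪x, W.U t y⟫_ℂ := by
  rw [inner_left, neg_neg]

/-- the complement of the cyclic space -/
noncomputable def NNN (U : ℝ → UG (L2 ι)) (e : L2 ι) : Submodule ℂ (L2 ι) :=
  (Submodule.span ℂ (Set.range fun t => (U 0).U t e))ᗮ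

theorem mem_NNN {U : ℝ → UG (L2 ι)} {e φ : L2 ι} :
    φ ∈ NNN U e ↔ ∀ t, ⟪φ, (U 0).U t e⟫_ℂ = 0 := by
  unfold NNN
  rw [Submodule.mem_orthogonal']
  constructor
  · intro h t
    exact h _ (Submodule.subset_span ⟨t, rfl⟩)
  · intro h u hu
    induction hu using Submodule.span_induction with
    | mem x hx => obtain ⟨t, rfl⟩ := hx; exact h t
    | zero => simp
    | add x y _ _ hx hy => rw [inner_add_right, hx, hy, add_zero]
    | smul a x _ hx => rw [inner_smul_right, hx, mul_zero]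

theorem U_mem_NNN {U : ℝ → UG (L2 ι)} {e φ : L2 ι} (h : φ ∈ NNN U e) (s : ℝ) :
    (U 0).U s φ ∈ NNN U e := by
  rw [mem_NNN] at h ⊢
  intro t
  rw [inner_left, ← (U 0).add']
  exact h _

instance (U : ℝ → UG (L2 ι)) (e : L2 ι) : (NNN U e).HasOrthogonalProjection := by
  unfold NNN; infer_instance

/-- the projection -/
noncomputable def P (U : ℝ → UG (L2 ι)) (e : L2 ι) : L2 ι →L[ℂ] L2 ι :=
  (NNN U e).starProjection

theorem P_mem (U : ℝ → UG (L2 ι)) (e x : L2 ι) : P U e x ∈ NNN U e :=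
  Submodule.starProjection_apply_mem _ _

theorem P_self {U : ℝ → UG (L2 ι)} {e x : L2 ι} (h : x ∈ NNN U e) : P U e x = x :=
  Submodule.starProjection_eq_self_iff.2 h

theorem P_norm (U : ℝ → UG (L2 ι)) (e x : L2 ι) : ‖P U e x‖ ≤ ‖x‖ :=
  Submodule.norm_starProjection_apply_le _ _

theorem P_symm (U : ℝ → UG (L2 ι)) (e x y : L2 ι) : ⟪P U e x, y⟫_ℂ = ⟪x, P U e y⟫_ℂ :=
  Submodule.inner_starProjection_left_eq_right _ _ _

theorem inner_P {U : ℝ → UG (L2 ι)} {e η : L2 ι} (h : η ∈ NNN U e) (y : L2 ι) :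
    ⟪η, P U e y⟫_ℂ = ⟪η, y⟫_ℂ := by
  rw [← P_symm, P_self h]

end basics

section key

theorem ae_zero_of_rect {ν : Measure ℝ} [IsProbabilityMeasure ν] {F : ℝ × ℝ → ℂ}
    (hF : Integrable F (ν.prod ν))
    (h : ∀ A A' : Set ℝ, MeasurableSet A → MeasurableSet A' →
      ∫ z in A ×ˢ A', F z ∂(ν.prod ν) = 0) : F =ᵐ[ν.prod ν] 0 := by
  refine Integrable.ae_eq_zero_of_forall_setIntegral_eq_zero hF ?_
  intro s hs hlt
  clear hlt
  induction s, hs using MeasurableSpace.induction_on_inter generateFrom_prod.symm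
    isPiSystem_prod with
  | empty => simp
  | basic t ht =>
    obtain ⟨A, hA, A', hA', rfl⟩ := ht
    exact h A A' hA hA'
  | compl t ht ih =>
    have h1 := integral_add_compl ht hF
    rw [ih, zero_add] at h1
    rw [h1]
    have := h Set.univ Set.univ .univ .univ
    simpa using this
  | iUnion f hd hm ih =>
    rw [integral_iUnion hm hd hF.integrableOn]
    simp [ih]

theorem int3 {g : ℝ → ℝ → ℂ} (hg : Measurable (Function.uncurry g)) {K : ℝ}
    (hK : ∀ κ, ∫⁻ r, ‖g κ r‖ₑ ^ 2 ≤ ENNReal.ofReal K) (ν : Measure ℝ) [IsProbabilityMeasure ν]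
    {w : ℝ × ℝ → ℂ} (hw : Measurable w) {c : ℝ} (hc : ∀ z, ‖w z‖ ≤ c) :
    Integrable (Function.uncurry fun (z : ℝ × ℝ) (r : ℝ) => w z * (g z.1 r * conj (g z.2 r)))
      ((ν.prod ν).prod volume) := by
  have h1 : Measurable fun p : (ℝ × ℝ) × ℝ => g p.1.1 p.2 :=
    hg.comp (measurable_fst.fst.prodMk measurable_snd)
  have h2 : Measurable fun p : (ℝ × ℝ) × ℝ => g p.1.2 p.2 :=
    hg.comp (measurable_fst.snd.prodMk measurable_snd)
  have hm : Measurable (Function.uncurry fun (z : ℝ × ℝ) (r : ℝ) =>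
      w z * (g z.1 r * conj (g z.2 r))) := by
    unfold Function.uncurry
    exact (hw.comp measurable_fst).mul (h1.mul (Complex.continuous_conj.measurable.comp h2))
  have g1 : ∀ κ, Measurable fun r => g κ r := fun κ =>
    hg.comp (measurable_const.prodMk measurable_id)
  refine ⟨hm.aestronglyMeasurable, ?_⟩
  rw [hasFiniteIntegral_iff_enorm, lintegral_prod _ hm.enorm.aemeasurable]
  calc ∫⁻ z, (∫⁻ r, ‖w z * (g z.1 r * conj (g z.2 r))‖ₑ) ∂(ν.prod ν)
      ≤ ∫⁻ _z, ENNReal.ofReal c * (ENNReal.ofReal K + ENNReal.ofReal K) ∂(ν.prod ν) := by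
        refine lintegral_mono fun z => ?_
        calc ∫⁻ r, ‖w z * (g z.1 r * conj (g z.2 r))‖ₑ
            ≤ ∫⁻ r, ENNReal.ofReal c * (‖g z.1 r‖ₑ ^ 2 + ‖g z.2 r‖ₑ ^ 2) := by
              refine lintegral_mono fun r => ?_
              rw [enorm_mul, enorm_mul]
              have e1 : ‖w z‖ₑ ≤ ENNReal.ofReal c := by
                rw [← ofReal_norm]; exact ENNReal.ofReal_le_ofReal (hc z)
              have e2 : ‖conj (g z.2 r)‖ₑ = ‖g z.2 r‖ₑ := by
                rw [← ofReal_norm, ← ofReal_norm, RCLike.norm_conj]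
              rw [e2]
              have e3 : ‖g z.1 r‖ₑ * ‖g z.2 r‖ₑ ≤ ‖g z.1 r‖ₑ ^ 2 + ‖g z.2 r‖ₑ ^ 2 := by
                rcases le_total ‖g z.1 r‖ₑ ‖g z.2 r‖ₑ with h | h
                · calc ‖g z.1 r‖ₑ * ‖g z.2 r‖ₑ ≤ ‖g z.2 r‖ₑ * ‖g z.2 r‖ₑ := by gcongr
                    _ = ‖g z.2 r‖ₑ ^ 2 := (sq _).symm
                    _ ≤ _ := le_add_self
                · calc ‖g z.1 r‖ₑ * ‖g z.2 r‖ₑ ≤ ‖g z.1 r‖ₑ * ‖g z.1 r‖ₑ := by gcongr
                    _ = ‖g z.1 r‖ₑ ^ 2 := (sq _).symm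
                    _ ≤ _ := le_self_add
              exact mul_le_mul' e1 e3
          _ = ENNReal.ofReal c * ((∫⁻ r, ‖g z.1 r‖ₑ ^ 2) + ∫⁻ r, ‖g z.2 r‖ₑ ^ 2) := by
              have hadd : Measurable fun r => ‖g z.1 r‖ₑ ^ 2 + ‖g z.2 r‖ₑ ^ 2 :=
                ((g1 z.1).enorm.pow_const 2).add ((g1 z.2).enorm.pow_const 2)
              rw [lintegral_const_mul _ hadd, lintegral_add_left ((g1 z.1).enorm.pow_const 2)]
          _ ≤ _ := by
              gcongr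
              · exact hK _
              · exact hK _
    _ < ⊤ := by
        rw [lintegral_const]
        simp only [measure_univ, mul_one]
        exact ENNReal.mul_lt_top ENNReal.ofReal_lt_top
          (ENNReal.add_lt_top.2 ⟨ENNReal.ofReal_lt_top, ENNReal.ofReal_lt_top⟩)

/-- the kernel -/
noncomputable def Kf (g : ℝ → ℝ → ℂ) (z : ℝ × ℝ) : ℂ := ∫ r, g z.1 r * conj (g z.2 r)

theorem fub {g : ℝ → ℝ → ℂ} (hg : Measurable (Function.uncurry g)) {K : ℝ}
    (hK : ∀ κ, ∫⁻ r, ‖g κ r‖ₑ ^ 2 ≤ ENNReal.ofReal K) (ν : Measure ℝ) [IsProbabilityMeasure ν]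
    {w : ℝ × ℝ → ℂ} (hw : Measurable w) {c : ℝ} (hc : ∀ z, ‖w z‖ ≤ c) :
    ∫ r, (∫ z, w z * (g z.1 r * conj (g z.2 r)) ∂(ν.prod ν)) =
      ∫ z, w z * Kf g z ∂(ν.prod ν) := by
  rw [← integral_integral_swap (int3 hg hK ν hw hc)]
  refine integral_congr_ae (Eventually.of_forall fun z => ?_)
  show ∫ r, w z * (g z.1 r * conj (g z.2 r)) = _
  rw [integral_const_mul]
  rfl

theorem intK {g : ℝ → ℝ → ℂ} (hg : Measurable (Function.uncurry g)) {K : ℝ}
    (hK : ∀ κ, ∫⁻ r, ‖g κ r‖ₑ ^ 2 ≤ ENNReal.ofReal K) (ν : Measure ℝ) [IsProbabilityMeasure ν]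
    {w : ℝ × ℝ → ℂ} (hw : Measurable w) {c : ℝ} (hc : ∀ z, ‖w z‖ ≤ c) :
    Integrable (fun z => w z * Kf g z) (ν.prod ν) := by
  have := (int3 hg hK ν hw hc).integral_prod_left
  refine this.congr (Eventually.of_forall fun z => ?_)
  show ∫ r, w z * (g z.1 r * conj (g z.2 r)) = _
  rw [integral_const_mul]
  rfl

theorem star_lhs {g : ℝ → ℝ → ℂ} (hg : Measurable (Function.uncurry g)) {M : ℝ}
    (hM : ∀ κ r, ‖g κ r‖ ≤ M) {ν : Measure ℝ} [IsProbabilityMeasure ν]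
    {q₁ q₂ : ℝ → ℂ} {R : ℝ} (h1 : Measurable q₁) (h2 : Measurable q₂) (b1 : ∀ κ, ‖q₁ κ‖ ≤ 1)
    (b2 : ∀ κ, ‖q₂ κ‖ ≤ 1) (hR : ∀ κ, R < |κ| → q₁ κ = 0 ∧ q₂ κ = 0) (r : ℝ) :
    ((∫ κ, q₂ κ * κ * conj (g κ r) ∂ν) * (∫ κ, q₁ κ * g κ r ∂ν) -
        (∫ κ, q₂ κ * conj (g κ r) ∂ν) * (∫ κ, q₁ κ * κ * g κ r ∂ν)) =
      ∫ z, (q₁ z.1 * q₂ z.2 * ((z.2 : ℂ) - z.1)) * (g z.1 r * conj (g z.2 r)) ∂(ν.prod ν) := by
  have gr : Measurable fun κ => g κ r := hg.comp (measurable_id.prodMk measurable_const)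
  have gc : Measurable fun κ => conj (g κ r) := Complex.continuous_conj.measurable.comp gr
  have M0 : 0 ≤ M := (norm_nonneg _).trans (hM 0 0)
  have k1 : ∀ κ, ‖q₁ κ * κ‖ ≤ |R| := by
    intro κ
    by_cases h : R < |κ|
    · rw [(hR κ h).1]; simp
    · rw [norm_mul, Complex.norm_real, Real.norm_eq_abs]
      have : |κ| ≤ |R| := (not_lt.1 h).trans (le_abs_self R)
      calc ‖q₁ κ‖ * |κ| ≤ 1 * |R| := by
            gcongr; exact b1 κ
        _ = |R| := one_mul _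
  have k2 : ∀ κ, ‖q₂ κ * κ‖ ≤ |R| := by
    intro κ
    by_cases h : R < |κ|
    · rw [(hR κ h).2]; simp
    · rw [norm_mul, Complex.norm_real, Real.norm_eq_abs]
      have : |κ| ≤ |R| := (not_lt.1 h).trans (le_abs_self R)
      calc ‖q₂ κ‖ * |κ| ≤ 1 * |R| := by
            gcongr; exact b2 κ
        _ = |R| := one_mul _
  have m1 : Measurable fun κ : ℝ => q₁ κ * κ := h1.mul Complex.measurable_ofReal
  have m2 : Measurable fun κ : ℝ => q₂ κ * κ := h2.mul Complex.measurable_ofReal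
  have I1 : Integrable (fun z : ℝ × ℝ => (q₁ z.1 * g z.1 r) * (q₂ z.2 * z.2 * conj (g z.2 r)))
      (ν.prod ν) := by
    refine Integrable.of_bound ((((h1.mul gr).comp measurable_fst).mul
      ((m2.mul gc).comp measurable_snd)).aestronglyMeasurable) ((1 * M) * (|R| * M))
      (Eventually.of_forall fun z => ?_)
    rw [norm_mul, norm_mul, norm_mul (q₂ z.2 * z.2), RCLike.norm_conj]
    have := hM z.1 r
    have := hM z.2 r
    have := b1 z.1
    have := k2 z.2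
    gcongr
  have I2 : Integrable (fun z : ℝ × ℝ => (q₁ z.1 * z.1 * g z.1 r) * (q₂ z.2 * conj (g z.2 r)))
      (ν.prod ν) := by
    refine Integrable.of_bound ((((m1.mul gr).comp measurable_fst).mul
      ((h2.mul gc).comp measurable_snd)).aestronglyMeasurable) ((|R| * M) * (1 * M))
      (Eventually.of_forall fun z => ?_)
    rw [norm_mul, norm_mul (q₁ z.1 * z.1), norm_mul (q₂ z.2), RCLike.norm_conj]
    have := hM z.1 r
    have := hM z.2 r
    have := b2 z.2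
    have := k1 z.1
    gcongr
  rw [mul_comm (∫ κ, q₂ κ * κ * conj (g κ r) ∂ν), mul_comm (∫ κ, q₂ κ * conj (g κ r) ∂ν),
    ← integral_prod_mul, ← integral_prod_mul, ← integral_sub I1 I2]
  refine integral_congr_ae (Eventually.of_forall fun z => ?_)
  simp only
  ring

theorem key {g : ℝ → ℝ → ℂ} (hg : Measurable (Function.uncurry g)) {K M : ℝ}
    (hK : ∀ κ, ∫⁻ r, ‖g κ r‖ₑ ^ 2 ≤ ENNReal.ofReal K) (hM : ∀ κ r, ‖g κ r‖ ≤ M)
    (ν : Measure ℝ) [IsProbabilityMeasure ν] [NullSingletonClass ν]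
    (hstar : ∀ (q₁ q₂ : ℝ → ℂ) (R : ℝ), Measurable q₁ → Measurable q₂ → (∀ κ, ‖q₁ κ‖ ≤ 1) →
      (∀ κ, ‖q₂ κ‖ ≤ 1) → (∀ κ, R < |κ| → q₁ κ = 0 ∧ q₂ κ = 0) →
      ∫ r : ℝ, ((∫ κ, q₂ κ * κ * conj (g κ r) ∂ν) * (∫ κ, q₁ κ * g κ r ∂ν) -
        (∫ κ, q₂ κ * conj (g κ r) ∂ν) * (∫ κ, q₁ κ * κ * g κ r ∂ν)) = 0)
    (q₀ : ℝ → ℂ) (R : ℝ) (hq : Measurable q₀) (hb : ∀ κ, ‖q₀ κ‖ ≤ 1)
    (hR : ∀ κ, R < |κ| → q₀ κ = 0) :
    ∀ᵐ r : ℝ, ∫ κ, q₀ κ * g κ r ∂ν = 0 := by
  classical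
  -- the indicator of [-R,R]
  have hIcc : MeasurableSet {κ : ℝ | |κ| ≤ R} := measurableSet_le measurable_abs measurable_const
  set w0 : ℝ × ℝ → ℂ := fun z => (Set.indicator {κ : ℝ | |κ| ≤ R} (fun _ => (1 : ℂ)) z.1) *
    (Set.indicator {κ : ℝ | |κ| ≤ R} (fun _ => (1 : ℂ)) z.2) * ((z.2 : ℂ) - z.1) with hw0
  have mind : ∀ A : Set ℝ, MeasurableSet A → Measurable (A.indicator (fun _ => (1 : ℂ))) :=
    fun A hA => measurable_const.indicator hA
  have hw0m : Measurable w0 :=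
    (((mind _ hIcc).comp measurable_fst).mul ((mind _ hIcc).comp measurable_snd)).mul
      ((Complex.measurable_ofReal.comp measurable_snd).sub
        (Complex.measurable_ofReal.comp measurable_fst))
  have hw0b : ∀ z, ‖w0 z‖ ≤ |R| + |R| := by
    intro z
    simp only [hw0]
    by_cases h1 : |z.1| ≤ R
    · by_cases h2 : |z.2| ≤ R
      · rw [Set.indicator_of_mem (show z.1 ∈ {κ : ℝ | |κ| ≤ R} from h1),
          Set.indicator_of_mem (show z.2 ∈ {κ : ℝ | |κ| ≤ R} from h2), one_mul, one_mul]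
        refine (norm_sub_le _ _).trans ?_
        rw [Complex.norm_real, Complex.norm_real, Real.norm_eq_abs, Real.norm_eq_abs]
        have := le_abs_self R
        linarith
      · rw [Set.indicator_of_notMem (show z.2 ∉ {κ : ℝ | |κ| ≤ R} from h2)]
        simp
    · rw [Set.indicator_of_notMem (show z.1 ∉ {κ : ℝ | |κ| ≤ R} from h1)]
      simp
  have hF := intK hg hK ν hw0m hw0b
  have hF0 : (fun z => w0 z * Kf g z) =ᵐ[ν.prod ν] 0 := by
    refine ae_zero_of_rect hF fun A A' hA hA' => ?_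
    have hAR : MeasurableSet (A ∩ {κ : ℝ | |κ| ≤ R}) := hA.inter hIcc
    have hAR' : MeasurableSet (A' ∩ {κ : ℝ | |κ| ≤ R}) := hA'.inter hIcc
    have hs := hstar ((A ∩ {κ : ℝ | |κ| ≤ R}).indicator fun _ => 1)
      ((A' ∩ {κ : ℝ | |κ| ≤ R}).indicator fun _ => 1) R (mind _ hAR) (mind _ hAR')
      (fun κ => by
        by_cases h : κ ∈ A ∩ {κ : ℝ | |κ| ≤ R}
        · rw [Set.indicator_of_mem h]; simp
        · rw [Set.indicator_of_notMem h]; simp)
      (fun κ => by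
        by_cases h : κ ∈ A' ∩ {κ : ℝ | |κ| ≤ R}
        · rw [Set.indicator_of_mem h]; simp
        · rw [Set.indicator_of_notMem h]; simp)
      (fun κ hκ => ⟨Set.indicator_of_notMem (fun h => absurd h.2 (not_le.2 hκ)) _,
        Set.indicator_of_notMem (fun h => absurd h.2 (not_le.2 hκ)) _⟩)
    have e1 : ∀ r, _ := fun r => star_lhs (ν := ν) hg hM (mind _ hAR) (mind _ hAR')
      (fun κ => by
        by_cases h : κ ∈ A ∩ {κ : ℝ | |κ| ≤ R}
        · rw [Set.indicator_of_mem h]; simp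
        · rw [Set.indicator_of_notMem h]; simp)
      (fun κ => by
        by_cases h : κ ∈ A' ∩ {κ : ℝ | |κ| ≤ R}
        · rw [Set.indicator_of_mem h]; simp
        · rw [Set.indicator_of_notMem h]; simp)
      (fun κ (hκ : R < |κ|) => ⟨Set.indicator_of_notMem (fun h => absurd h.2 (not_le.2 hκ)) _,
        Set.indicator_of_notMem (fun h => absurd h.2 (not_le.2 hκ)) _⟩) r
    rw [integral_congr_ae (Eventually.of_forall e1)] at hs
    have e2 : ∀ z : ℝ × ℝ, (A ∩ {κ : ℝ | |κ| ≤ R}).indicator (fun _ => (1 : ℂ)) z.1 *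
        (A' ∩ {κ : ℝ | |κ| ≤ R}).indicator (fun _ => (1 : ℂ)) z.2 * ((z.2 : ℂ) - z.1) =
        (A ×ˢ A').indicator w0 z := by
      intro z
      by_cases h1 : z.1 ∈ A
      · by_cases h2 : z.2 ∈ A'
        · rw [Set.indicator_of_mem (show z ∈ A ×ˢ A' from ⟨h1, h2⟩)]
          simp only [hw0]
          congr 2
          · by_cases h : |z.1| ≤ R
            · rw [Set.indicator_of_mem (show z.1 ∈ {κ : ℝ | |κ| ≤ R} from h),
                Set.indicator_of_mem (show z.1 ∈ A ∩ {κ : ℝ | |κ| ≤ R} from ⟨h1, h⟩)]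
            · rw [Set.indicator_of_notMem (show z.1 ∉ {κ : ℝ | |κ| ≤ R} from h),
                Set.indicator_of_notMem (fun h' => h h'.2)]
          · by_cases h : |z.2| ≤ R
            · rw [Set.indicator_of_mem (show z.2 ∈ {κ : ℝ | |κ| ≤ R} from h),
                Set.indicator_of_mem (show z.2 ∈ A' ∩ {κ : ℝ | |κ| ≤ R} from ⟨h2, h⟩)]
            · rw [Set.indicator_of_notMem (show z.2 ∉ {κ : ℝ | |κ| ≤ R} from h),
                Set.indicator_of_notMem (fun h' => h h'.2)]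
        · rw [Set.indicator_of_notMem (fun h' : z ∈ A ×ˢ A' => h2 h'.2),
            Set.indicator_of_notMem (fun h' : z.2 ∈ A' ∩ {κ : ℝ | |κ| ≤ R} => h2 h'.1)]
          simp
      · rw [Set.indicator_of_notMem (fun h' : z ∈ A ×ˢ A' => h1 h'.1),
          Set.indicator_of_notMem (fun h' : z.1 ∈ A ∩ {κ : ℝ | |κ| ≤ R} => h1 h'.1)]
        simp
    simp_rw [e2] at hs
    have hwm : Measurable ((A ×ˢ A').indicator w0) := hw0m.indicator (hA.prod hA')
    have hwb : ∀ z, ‖(A ×ˢ A').indicator w0 z‖ ≤ |R| + |R| := fun z =>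
      (norm_indicator_le_norm_self _ _).trans (hw0b z)
    rw [fub hg hK ν hwm hwb] at hs
    rw [← integral_indicator (hA.prod hA'), ← hs]
    refine integral_congr_ae (Eventually.of_forall fun z => ?_)
    by_cases h : z ∈ A ×ˢ A'
    · simp only [Set.indicator_of_mem h]
    · simp only [Set.indicator_of_notMem h, zero_mul]
  -- the diagonal is null
  have hdiag : ∀ᵐ z ∂(ν.prod ν), z.1 ≠ z.2 := by
    have hms : MeasurableSet {z : ℝ × ℝ | z.1 = z.2} :=
      measurableSet_eq_fun measurable_fst measurable_snd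
    have : (ν.prod ν) {z : ℝ × ℝ | z.1 = z.2} = 0 := by
      rw [Measure.measure_prod_null hms]
      refine Eventually.of_forall fun x => ?_
      have : (Prod.mk x ⁻¹' {z : ℝ × ℝ | z.1 = z.2}) = {x} := by
        ext y; simp [eq_comm]
      simp only [this, Pi.zero_apply]
      exact measure_singleton x
    rw [ae_iff]
    simpa using this
  -- the quadratic form of q₀
  set w2 : ℝ × ℝ → ℂ := fun z => q₀ z.1 * conj (q₀ z.2) with hw2
  have hw2m : Measurable w2 := (hq.comp measurable_fst).mul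
    (Complex.continuous_conj.measurable.comp (hq.comp measurable_snd))
  have hw2b : ∀ z, ‖w2 z‖ ≤ 1 := by
    intro z
    simp only [hw2]
    rw [norm_mul, RCLike.norm_conj]
    calc ‖q₀ z.1‖ * ‖q₀ z.2‖ ≤ 1 * 1 := by
          have := hb z.1
          have := hb z.2
          gcongr
      _ = 1 := one_mul _
  have hfub := fub hg hK ν hw2m hw2b
  have hzero : ∫ z, w2 z * Kf g z ∂(ν.prod ν) = 0 := by
    rw [integral_eq_zero_of_ae]
    filter_upwards [hF0, hdiag] with z hz hd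
    simp only [hw2, Pi.zero_apply]
    by_cases h1 : |z.1| ≤ R
    · by_cases h2 : |z.2| ≤ R
      · simp only [hw0, Pi.zero_apply] at hz
        rw [Set.indicator_of_mem (show z.1 ∈ {κ : ℝ | |κ| ≤ R} from h1),
          Set.indicator_of_mem (show z.2 ∈ {κ : ℝ | |κ| ≤ R} from h2), one_mul, one_mul] at hz
        have hne : ((z.2 : ℂ) - z.1) ≠ 0 := by
          rw [sub_ne_zero]
          exact fun h => hd (by exact_mod_cast h.symm)
        rcases mul_eq_zero.1 hz with h | h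
        · exact absurd h hne
        · rw [h, mul_zero]
      · rw [hR _ (not_le.1 h2)]; simp
    · rw [hR _ (not_le.1 h1)]; simp
  rw [hzero] at hfub
  -- inner integral is the square
  have hsq : ∀ r, ∫ z, w2 z * (g z.1 r * conj (g z.2 r)) ∂(ν.prod ν) =
      ((‖∫ κ, q₀ κ * g κ r ∂ν‖ ^ 2 : ℝ) : ℂ) := by
    intro r
    have : ∫ z, w2 z * (g z.1 r * conj (g z.2 r)) ∂(ν.prod ν) =
        ∫ z, (q₀ z.1 * g z.1 r) * (conj (q₀ z.2 * g z.2 r)) ∂(ν.prod ν) := by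
      refine integral_congr_ae (Eventually.of_forall fun z => ?_)
      simp only [hw2, map_mul]
      ring
    rw [this, integral_prod_mul (fun κ => q₀ κ * g κ r) (fun κ => conj (q₀ κ * g κ r)),
      integral_conj, Complex.mul_conj, Complex.normSq_eq_norm_sq]
  have hint : Integrable (fun r => ‖∫ κ, q₀ κ * g κ r ∂ν‖ ^ 2) := by
    have := (int3 hg hK ν hw2m hw2b).integral_prod_right
    have h2 := this.norm
    refine h2.congr (Eventually.of_forall fun r => ?_)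
    show ‖∫ z, w2 z * (g z.1 r * conj (g z.2 r)) ∂(ν.prod ν)‖ = _
    rw [hsq r, Complex.norm_real]
    simp
  simp_rw [hsq] at hfub
  rw [integral_complex_ofReal] at hfub
  have h0 : ∫ r, ‖∫ κ, q₀ κ * g κ r ∂ν‖ ^ 2 = 0 := by exact_mod_cast hfub
  rw [integral_eq_zero_iff_of_nonneg (fun r => by positivity) hint] at h0
  filter_upwards [h0] with r hr
  have : ‖∫ κ, q₀ κ * g κ r ∂ν‖ ^ 2 = 0 := hr
  exact norm_eq_zero.1 (pow_eq_zero_iff (two_ne_zero) |>.1 this)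

end key

section meas
variable {ι : Type} {U : ℝ → UG (L2 ι)} {e : L2 ι} {v : L2 ι →L[ℂ] L2 ι} {Nk : ℕ → ℕ}
  {S : Set ℝ} {B : ℝ → L2 ι →L[ℂ] L2 ι}

theorem avP_cont (hCT : Continuous fun p : ℝ × ℝ × L2 ι => (U p.1).U p.2.1 p.2.2)
    (v : L2 ι →L[ℂ] L2 ι) (N : ℕ) (f : ℝ × ℝ → L2 ι) (hf : Continuous f) :
    Continuous fun z : ℝ × ℝ => avP (U z.1) v N (f z) := by
  unfold avP
  have h0 : Continuous fun p : (ℝ × ℝ) × ℝ => (p.1.1, p.2, f p.1) := by fun_prop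
  have h1 : Continuous fun p : (ℝ × ℝ) × ℝ => v ((U p.1.1).U p.2 (f p.1)) :=
    v.continuous.comp (hCT.comp h0)
  have h2 : Continuous fun p : (ℝ × ℝ) × ℝ => (p.1.1, -p.2, v ((U p.1.1).U p.2 (f p.1))) :=
    (continuous_fst.fst).prodMk ((continuous_snd.neg).prodMk h1)
  have h4 : Continuous (Function.uncurry fun (z : ℝ × ℝ) (s : ℝ) =>
      (U z.1).U (-s) (v ((U z.1).U s (f z)))) := hCT.comp h2
  have h3 : Continuous fun z : ℝ × ℝ =>
      ∫ s in (0 : ℝ)..(N : ℝ), (U z.1).U (-s) (v ((U z.1).U s (f z))) :=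
    intervalIntegral.continuous_parametric_intervalIntegral_of_continuous' h4 _ _
  exact (continuous_const (y := ((N : ℂ)⁻¹))).smul h3

/-- hypotheses -/
structure Hyp (U : ℝ → UG (L2 ι)) (e : L2 ι) (v : L2 ι →L[ℂ] L2 ι) (Nk : ℕ → ℕ)
    (S : Set ℝ) (B : ℝ → L2 ι →L[ℂ] L2 ι) : Prop where
  ct : Continuous fun p : ℝ × ℝ × L2 ι => (U p.1).U p.2.1 p.2.2
  nn : ∀ (κ : ℝ) (φ : L2 ι), φ ∈ NNN U e → ∀ t, (U κ).U t φ = (U 0).U t φ
  hS : MeasurableSet S
  good : ∀ κ ∈ S, Good (U κ) v Nk (B κ)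
  zero : ∀ κ, κ ∉ S → B κ = 0
  bd : ∀ κ x, ‖B κ x‖ ≤ ‖v‖ * ‖x‖
  comm : ∀ κ t x, B κ ((U κ).U t x) = (U κ).U t (B κ x)

theorem Hyp.sm (h : Hyp U e v Nk S B) (f : ℝ × ℝ → L2 ι) (hf : Continuous f) :
    StronglyMeasurable fun p : ℝ × ℝ => B p.1 (f p) := by
  refine stronglyMeasurable_of_tendsto atTop (f := fun k (p : ℝ × ℝ) =>
    Set.indicator (S ×ˢ Set.univ) (fun p : ℝ × ℝ => avP (U p.1) v (Nk k) (f p)) p) ?_ ?_
  · intro k
    exact ((avP_cont h.ct v (Nk k) f hf).stronglyMeasurable).indicator (h.hS.prod .univ)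
  · rw [tendsto_pi_nhds]
    intro p
    by_cases hp : p.1 ∈ S
    · have : (p ∈ S ×ˢ (Set.univ : Set ℝ)) := ⟨hp, trivial⟩
      simp only [Set.indicator_of_mem this]
      exact (h.good _ hp (f p)).1
    · have : p ∉ S ×ˢ (Set.univ : Set ℝ) := fun h' => hp h'.1
      simp only [Set.indicator_of_notMem this, h.zero _ hp]
      simp

theorem Hyp.sm1 (h : Hyp U e v Nk S B) (x : L2 ι) : StronglyMeasurable fun κ : ℝ => B κ x :=
  (h.sm (fun _ => x) continuous_const).comp_measurable (measurable_id.prodMk measurable_const)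
    (g := fun κ : ℝ => (κ, (0 : ℝ)))

theorem Hyp.sm_G (h : Hyp U e v Nk S B) (φ : L2 ι) :
    Measurable (Function.uncurry (G U B e φ)) := by
  have h1 : Continuous fun p : ℝ × ℝ => (U p.1).U (-p.2) e :=
    h.ct.comp (continuous_fst.prodMk ((continuous_snd.neg).prodMk continuous_const))
  exact ((stronglyMeasurable_const (b := φ)).inner (h.sm _ h1)).measurable

theorem Hyp.sm_adj [Countable ι] (h : Hyp U e v Nk S B) (y : L2 ι) :
    StronglyMeasurable fun κ : ℝ => (ContinuousLinearMap.adjoint (B κ)) y := by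
  classical
  refine stronglyMeasurable_of_tendsto atTop (f := fun (s : Finset ι) (κ : ℝ) =>
    ∑ x ∈ s, ⟪B κ (lp.single 2 x (1 : ℂ)), y⟫_ℂ • (lp.single 2 x (1 : ℂ) : L2 ι)) ?_ ?_
  · intro s
    refine Finset.stronglyMeasurable_fun_sum s fun x _ => ?_
    have h3 : StronglyMeasurable fun κ : ℝ => ⟪B κ (lp.single 2 x (1 : ℂ)), y⟫_ℂ :=
      (h.sm1 _).inner stronglyMeasurable_const
    exact h3.smul_const _
  · rw [tendsto_pi_nhds]
    intro κ
    have h1 := lp.hasSum_single (p := 2) (by norm_num) ((ContinuousLinearMap.adjoint (B κ)) y)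
    have h2 : ∀ x : ι, ⟪B κ (lp.single 2 x (1 : ℂ)), y⟫_ℂ • (lp.single 2 x (1 : ℂ) : L2 ι) =
        lp.single 2 x (((ContinuousLinearMap.adjoint (B κ)) y) x) := by
      intro x
      have e1 : ⟪B κ (lp.single 2 x (1 : ℂ)), y⟫_ℂ = ((ContinuousLinearMap.adjoint (B κ)) y) x := by
        rw [← ContinuousLinearMap.adjoint_inner_right, lp.inner_single_left]
        simp
      rw [e1, ← lp.single_smul]
      simp
    simp_rw [h2]
    exact h1

theorem Hyp.G_bd (h : Hyp U e v Nk S B) (φ : L2 ι) (κ r : ℝ) :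
    ‖G U B e φ κ r‖ ≤ ‖φ‖ * (‖v‖ * ‖e‖) := by
  unfold G
  refine (norm_inner_le_norm _ _).trans ?_
  gcongr
  refine (h.bd _ _).trans ?_
  rw [(U κ).norm']

theorem Hyp.norm_B (h : Hyp U e v Nk S B) (κ : ℝ) : ‖B κ‖ ≤ ‖v‖ :=
  ContinuousLinearMap.opNorm_le_bound _ (norm_nonneg _) (h.bd κ)

theorem Hyp.intb (h : Hyp U e v Nk S B) (ν : Measure ℝ) [IsProbabilityMeasure ν]
    {q : ℝ → ℂ} (hq : Measurable q) (hb : ∀ κ, ‖q κ‖ ≤ 1) (x : L2 ι) :
    Integrable (fun κ => q κ • B κ x) ν := by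
  refine Integrable.of_bound ((hq.stronglyMeasurable.smul (h.sm1 x)).aestronglyMeasurable)
    (1 * (‖v‖ * ‖x‖)) (Eventually.of_forall fun κ => ?_)
  rw [norm_smul]
  have := hb κ
  have := h.bd κ x
  gcongr

theorem Hyp.rep (h : Hyp U e v Nk S B) (ν : Measure ℝ) [IsProbabilityMeasure ν]
    {q : ℝ → ℂ} (hq : Measurable q) (hb : ∀ κ, ‖q κ‖ ≤ 1) (κ r : ℝ) :
    G U B e (P U e (∫ κ, q κ • B κ e ∂ν)) κ r =
      conj (∫ κ', q κ' * ⟪(ContinuousLinearMap.adjoint (B κ')) (P U e (B κ e)),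
        (U κ').U r e⟫_ℂ ∂ν) := by
  set b0 := ∫ κ, q κ • B κ e ∂ν with hb0
  have hφ : P U e b0 ∈ NNN U e := P_mem _ _ _
  set w := (U 0).U (-r) (P U e (B κ e)) with hw
  have hwm : w ∈ NNN U e := U_mem_NNN (P_mem _ _ _) _
  have e1 : G U B e (P U e b0) κ r = ⟪P U e b0, w⟫_ℂ := by
    unfold G
    rw [h.comm, hw, ← inner_left, ← inner_left, h.nn κ _ hφ, inner_P (U_mem_NNN hφ r)]
  have e2 : ⟪w, b0⟫_ℂ = ∫ κ', q κ' * ⟪(ContinuousLinearMap.adjoint (B κ')) (P U e (B κ e)),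
        (U κ').U r e⟫_ℂ ∂ν := by
    rw [hb0, ← integral_inner (h.intb ν hq hb e)]
    refine integral_congr_ae (Eventually.of_forall fun κ' => ?_)
    simp only
    rw [inner_smul_right, ContinuousLinearMap.adjoint_inner_left, h.comm, ← inner_left',
      h.nn κ' _ (P_mem _ _ _)]
  rw [e1, ← e2, ← inner_P hwm b0, inner_conj_symm]

theorem Hyp.energy [Countable ι] (hS1 : St_S1) (hfam : Fam U e) (h : Hyp U e v Nk S B)
    (ν : Measure ℝ) [IsProbabilityMeasure ν] (C : ℝ≥0) (hC : ν ≤ C • volume)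
    {q : ℝ → ℂ} {R : ℝ} (hq : Measurable q) (hb : ∀ κ, ‖q κ‖ ≤ 1) (hR : ∀ κ, R < |κ| → q κ = 0)
    (κ : ℝ) :
    ∫⁻ r, ‖G U B e (P U e (∫ κ, q κ • B κ e ∂ν)) κ r‖ₑ ^ 2 ≤
      ENNReal.ofReal (8 * C * 1 ^ 2 * (‖v‖ * (‖v‖ * ‖e‖)) ^ 2) := by
  have h1 := hS1 ι U e hfam ν C hC q 1 R hq hb hR
    (fun κ' => (ContinuousLinearMap.adjoint (B κ')) (P U e (B κ e))) (‖v‖ * (‖v‖ * ‖e‖))
    (h.sm_adj _).aestronglyMeasurable (by
      intro κ'
      refine (ContinuousLinearMap.le_opNorm _ _).trans ?_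
      rw [LinearIsometryEquiv.norm_map]
      have := h.norm_B κ'
      have := (P_norm U e (B κ e)).trans (h.bd κ e)
      gcongr)
  rw [measure_univ, mul_one] at h1
  refine le_trans (le_of_eq ?_) h1
  refine lintegral_congr fun r => ?_
  rw [h.rep ν hq hb]
  congr 1
  rw [← ofReal_norm, ← ofReal_norm, RCLike.norm_conj]

theorem Hyp.cont_int (h : Hyp U e v Nk S B) (ν : Measure ℝ) [IsProbabilityMeasure ν]
    {q : ℝ → ℂ} (hq : Measurable q) (hb : ∀ κ, ‖q κ‖ ≤ 1) (φ : L2 ι) :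
    Continuous fun r => ∫ κ, q κ * G U B e φ κ r ∂ν := by
  refine continuous_of_dominated (bound := fun _ => 1 * (‖φ‖ * (‖v‖ * ‖e‖))) ?_ ?_ ?_ ?_
  · intro r
    exact (hq.mul ((h.sm_G φ).comp (measurable_id.prodMk measurable_const))).aestronglyMeasurable
  · intro r
    refine Eventually.of_forall fun κ => ?_
    rw [norm_mul]
    have := hb κ
    have := h.G_bd φ κ r
    gcongr
  · exact integrable_const _
  · refine Eventually.of_forall fun κ => continuous_const.mul ?_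
    unfold G
    exact continuous_const.inner ((B κ).continuous.comp (((U κ).cont' e).comp continuous_neg))

theorem Hyp.orth [Countable ι] (hS1 : St_S1) (hSTAR : St_STAR) (hfam : Fam U e)
    (h : Hyp U e v Nk S B) (hNk : Tendsto Nk atTop atTop)
    (ν : Measure ℝ) [IsProbabilityMeasure ν] (C : ℝ≥0) (hC : ν ≤ C • volume)
    (hSν : ∀ᵐ κ ∂ν, κ ∈ S)
    {q : ℝ → ℂ} {R : ℝ} (hq : Measurable q) (hb : ∀ κ, ‖q κ‖ ≤ 1) (hR : ∀ κ, R < |κ| → q κ = 0)
    {η : L2 ι} (hη : η ∈ NNN U e) : ∫ κ, q κ * ⟪η, B κ e⟫_ℂ ∂ν = 0 := by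
  have hac : ν ≪ volume := Measure.absolutelyContinuous_of_le_smul hC
  have : NullSingletonClass ν := ⟨fun x => hac (measure_singleton x)⟩
  set b0 := ∫ κ, q κ • B κ e ∂ν with hb0
  set φ := P U e b0 with hφ
  have hφm : φ ∈ NNN U e := P_mem _ _ _
  have hk := key (h.sm_G φ) (h.energy hS1 hfam ν C hC hq hb hR) (h.G_bd φ) ν
    (fun q₁ q₂ R' m1 m2 b1 b2 hR' => hSTAR ι U e hfam ν C hC v Nk hNk B
      (hSν.mono fun κ hκ => h.good κ hκ) φ (mem_NNN.1 hφm) q₁ q₂ R' m1 m2 b1 b2 hR')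
    q R hq hb hR
  have h0 : (fun r => ∫ κ, q κ * G U B e φ κ r ∂ν) = fun _ => 0 :=
    (h.cont_int ν hq hb φ).ae_eq_iff_eq volume continuous_const |>.1 hk
  have h1 := congrFun h0 0
  simp only [G, neg_zero, (U _).zero'] at h1
  have h2 : ∀ η' : L2 ι, ⟪η', b0⟫_ℂ = ∫ κ, q κ * ⟪η', B κ e⟫_ℂ ∂ν := by
    intro η'
    rw [hb0, ← integral_inner (h.intb ν hq hb e)]
    refine integral_congr_ae (Eventually.of_forall fun κ' => ?_)
    simp only
    rw [inner_smul_right]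
  rw [← h2] at h1
  have h3 : φ = 0 := by
    rw [← inner_self_eq_zero (𝕜 := ℂ)]
    calc ⟪φ, φ⟫_ℂ = ⟪φ, P U e b0⟫_ℂ := rfl
      _ = ⟪φ, b0⟫_ℂ := inner_P hφm b0
      _ = 0 := h1
  rw [← h2, ← inner_P hη, ← hφ, h3, inner_zero_right]

theorem Hyp.main [Countable ι] (hS1 : St_S1) (hSTAR : St_STAR) (hfam : Fam U e)
    (h : Hyp U e v Nk S B) (hNk : Tendsto Nk atTop atTop)
    (ν : Measure ℝ) [IsProbabilityMeasure ν] (C : ℝ≥0) (hC : ν ≤ C • volume)
    (hSν : ∀ᵐ κ ∂ν, κ ∈ S) :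
    ∀ᵐ κ ∂ν, ∀ φ ∈ NNN U e, ⟪φ, B κ e⟫_ℂ = 0 := by
  classical
  have h1 : ∀ η ∈ NNN U e, ∀ᵐ κ ∂ν, ⟪η, B κ e⟫_ℂ = 0 := by
    intro η hη
    have hbd : ∀ κ, ‖⟪η, B κ e⟫_ℂ‖ ≤ ‖η‖ * (‖v‖ * ‖e‖) := fun κ =>
      (norm_inner_le_norm _ _).trans (by have := h.bd κ e; gcongr)
    set M := ‖η‖ * (‖v‖ * ‖e‖) with hM
    have hM0 : 0 ≤ M := by positivity
    have hgm : Measurable fun κ => ⟪η, B κ e⟫_ℂ :=
      ((stronglyMeasurable_const (b := η)).inner (h.sm1 e)).measurable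
    have h2 : ∀ n : ℕ, ∀ᵐ κ : ℝ ∂ν, |κ| ≤ (n : ℝ) → ⟪η, B κ e⟫_ℂ = 0 := by
      intro n
      have hset : MeasurableSet {κ : ℝ | |κ| ≤ n} :=
        measurableSet_le measurable_abs measurable_const
      have h3 := h.orth hS1 hSTAR hfam hNk ν C hC hSν
        (q := Set.indicator {κ : ℝ | |κ| ≤ n} fun κ => conj ⟪η, B κ e⟫_ℂ / ((M + 1 : ℝ) : ℂ))
        (R := n)
        (((Complex.continuous_conj.measurable.comp hgm).div_const _).indicator hset)
        (fun κ => by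
          refine (norm_indicator_le_norm_self _ _).trans ?_
          rw [norm_div, RCLike.norm_conj, Complex.norm_real, Real.norm_eq_abs,
            abs_of_pos (by linarith), div_le_one (by linarith)]
          exact (hbd κ).trans (by linarith))
        (fun κ hκ => Set.indicator_of_notMem
          (fun h' : κ ∈ {κ : ℝ | |κ| ≤ n} => absurd h' (not_le.2 hκ)) _) hη
      have h4 : ∀ κ, Set.indicator {κ : ℝ | |κ| ≤ n}
          (fun κ => conj ⟪η, B κ e⟫_ℂ / ((M + 1 : ℝ) : ℂ)) κ * ⟪η, B κ e⟫_ℂ =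
          ((Set.indicator {κ : ℝ | |κ| ≤ n} (fun κ => ‖⟪η, B κ e⟫_ℂ‖ ^ 2 / (M + 1)) κ : ℝ) : ℂ) := by
        intro κ
        by_cases hκ : κ ∈ {κ : ℝ | |κ| ≤ n}
        · rw [Set.indicator_of_mem hκ, Set.indicator_of_mem hκ, div_mul_eq_mul_div,
            Complex.conj_mul']
          push_cast
          rfl
        · rw [Set.indicator_of_notMem hκ, Set.indicator_of_notMem hκ]
          simp
      simp_rw [h4] at h3
      rw [integral_complex_ofReal] at h3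
      have h5 : ∫ κ, Set.indicator {κ : ℝ | |κ| ≤ n}
          (fun κ => ‖⟪η, B κ e⟫_ℂ‖ ^ 2 / (M + 1)) κ ∂ν = 0 := by exact_mod_cast h3
      rw [integral_eq_zero_iff_of_nonneg] at h5
      · filter_upwards [h5] with κ hκ hn
        rw [Set.indicator_of_mem (show κ ∈ {κ : ℝ | |κ| ≤ n} from hn)] at hκ
        simp only [Pi.zero_apply, div_eq_zero_iff] at hκ
        rcases hκ with hκ | hκ
        · exact norm_eq_zero.1 (pow_eq_zero_iff two_ne_zero |>.1 hκ)
        · linarith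
      · intro κ
        exact Set.indicator_nonneg (fun κ _ => by positivity) κ
      · refine Integrable.of_bound ((((hgm.norm.pow_const 2).div_const _).indicator
          hset).aestronglyMeasurable) (M ^ 2 / (M + 1)) (Eventually.of_forall fun κ => ?_)
        refine (norm_indicator_le_norm_self _ _).trans ?_
        rw [Real.norm_eq_abs, abs_of_nonneg (by positivity)]
        have := hbd κ
        gcongr
    have h6 := ae_all_iff.2 h2
    filter_upwards [h6] with κ hκ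
    obtain ⟨n, hn⟩ := exists_nat_ge |κ|
    exact hκ n hn
  have h7 : ∀ᵐ κ ∂ν, ∀ x : ι, ⟪P U e (lp.single 2 x (1 : ℂ)), B κ e⟫_ℂ = 0 :=
    ae_all_iff.2 fun x => h1 _ (P_mem _ _ _)
  filter_upwards [h7] with κ hκ φ hφ
  have h8 : P U e (B κ e) = 0 := by
    ext x
    have := hκ x
    rw [P_symm, lp.inner_single_left] at this
    simpa using this
  rw [← inner_P hφ, h8, inner_zero_right]

end meas

end PROPR

theorem t_PROPR (h1 : St_S1) (h2 : St_BP) (h3 : St_NN) (h4 : St_CT) (h5 : St_STAR) :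
    St_PROPR := by
  classical
  intro ι _ U e hfam ν _ C hC v Nk hNk B hB
  obtain ⟨T, hT1, hT2, hT3⟩ : ∃ T : Set ℝ, MeasurableSet T ∧ T ∈ ae ν ∧
      ∀ κ ∈ T, Good (U κ) v Nk (B κ) := by
    obtain ⟨t, ht1, ht2, ht3⟩ := exists_measurable_superset_of_null (mem_ae_iff.1 hB)
    refine ⟨tᶜ, ht2.compl, ?_, ?_⟩
    · rw [mem_ae_iff, compl_compl]; exact ht3
    · intro κ hκ
      by_contra h
      exact hκ (ht1 h)
  set B' : ℝ → L2 ι →L[ℂ] L2 ι := fun κ => if κ ∈ T then B κ else 0 with hB'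
  have hyp : PROPR.Hyp U e v Nk T B' := by
    refine ⟨h4 ι U e hfam, ?_, hT1, ?_, ?_, ?_, ?_⟩
    · intro κ φ hφ t
      exact (h3 ι U e hfam 0 κ φ (PROPR.mem_NNN.1 hφ)).2 t
    · intro κ hκ
      simp only [hB', if_pos hκ]
      exact hT3 κ hκ
    · intro κ hκ
      simp only [hB', if_neg hκ]
    · intro κ x
      by_cases hκ : κ ∈ T
      · simp only [hB', if_pos hκ]
        exact (h2 ι (U κ) v Nk hNk (B κ) (hT3 κ hκ)).1 x
      · simp only [hB', if_neg hκ]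
        simp only [_root_.zero_apply, norm_zero]
        positivity
    · intro κ t x
      by_cases hκ : κ ∈ T
      · simp only [hB', if_pos hκ]
        exact (h2 ι (U κ) v Nk hNk (B κ) (hT3 κ hκ)).2 t x
      · simp only [hB', if_neg hκ]
        simp
  have hmain := hyp.main h1 h5 hfam hNk ν C hC hT2
  filter_upwards [hmain, hT2] with κ hκ hκT φ hφ
  have := hκ φ (PROPR.mem_NNN.2 hφ)
  simpa only [hB', if_pos hκT] using this

end Pool.Agent.H5R2.NB
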