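import Pool.Agent.H5R2.NB.Defs

set_option autoImplicit false

open MeasureTheory Filter Topology
open scoped BigOperators ENNReal NNReal

namespace Pool.Agent.H5R2.NB

namespace RES

variable {d : ℕ}

theorem meas_update : Measurable
    (fun p : (Site d → ℝ) × ℝ => Function.update p.1 (0 : Site d) p.2) := by
  rw [measurable_pi_iff]
  intro i
  by_cases h : i = 0
  · subst h
    simp only [Function.update_self]
    exact measurable_snd
  · simp only [Function.update_of_ne h]
    exact (measurable_pi_apply i).comp measurable_fst

theorem meas_shift (z : Site d) : Measurable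
    (fun (V : Site d → ℝ) (y : Site d) => V (y + z)) := by
  rw [measurable_pi_iff]
  intro i
  exact measurable_pi_apply (i + z)

end RES

open RES in
theorem t_RES : St_RES := by
  intro d ν _
  constructor
  · refine ⟨meas_update, ?_⟩
    apply Measure.eq_infinitePi
    intro s t ht
    classical
    rw [Measure.map_apply meas_update]
    swap
    · exact MeasurableSet.pi (Finset.countable_toSet s) (fun i _ => ht i)
    have hpre : (fun p : (Site d → ℝ) × ℝ => Function.update p.1 (0 : Site d) p.2) ⁻¹'
        ((s : Set (Site d)).pi t) =
        (((s.erase 0 : Finset (Site d)) : Set (Site d)).pi t) ×ˢ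
          (if (0 : Site d) ∈ s then t 0 else Set.univ) := by
      ext p
      simp only [Set.mem_preimage, Set.mem_pi, Finset.mem_coe, Set.mem_prod, Finset.mem_erase]
      constructor
      · intro h
        refine ⟨?_, ?_⟩
        · intro i hi
          have := h i hi.2
          rwa [Function.update_of_ne hi.1] at this
        · split_ifs with h0
          · have := h 0 h0
            rwa [Function.update_self] at this
          · trivial
      · rintro ⟨h1, h2⟩ i hi
        by_cases h0 : i = 0
        · subst h0
          rw [Function.update_self]
          rwa [if_pos hi] at h2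
        · rw [Function.update_of_ne h0]
          exact h1 i ⟨h0, hi⟩
    rw [hpre, Measure.prod_prod]
    unfold PP
    rw [Measure.infinitePi_pi (fun _ => ν) (fun i _ => ht i)]
    by_cases h0 : (0 : Site d) ∈ s
    · rw [if_pos h0, Finset.prod_erase_mul s (fun i => ν (t i)) h0]
    · rw [if_neg h0, measure_univ, mul_one, Finset.erase_eq_of_notMem h0]
  · intro z
    refine ⟨meas_shift z, ?_⟩
    apply Measure.eq_infinitePi
    intro s t ht
    classical
    rw [Measure.map_apply (meas_shift z)]
    swap
    · exact MeasurableSet.pi (Finset.countable_toSet s) (fun i _ => ht i)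
    have hpre : (fun (V : Site d → ℝ) (y : Site d) => V (y + z)) ⁻¹'
        ((s : Set (Site d)).pi t) =
        (((s.image (fun y => y + z) : Finset (Site d)) : Set (Site d)).pi
          (fun i => t (i - z))) := by
      ext V
      simp only [Set.mem_preimage, Set.mem_pi, Finset.mem_coe, Finset.mem_image]
      constructor
      · rintro h i ⟨y, hy, rfl⟩
        rw [add_sub_cancel_right]
        exact h y hy
      · intro h y hy
        have := h (y + z) ⟨y, hy, rfl⟩
        rwa [add_sub_cancel_right] at this
    rw [hpre]
    unfold PP
    rw [Measure.infinitePi_pi (fun _ => ν) (fun i _ => ht (i - z)), Finset.prod_image]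
    · refine Finset.prod_congr rfl (fun i _ => ?_)
      rw [add_sub_cancel_right]
    · intro a _ b _ h
      exact add_right_cancel h

end Pool.Agent.H5R2.NB
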