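import Pool.Agent.H5R2.NB.Defs

/-!
Task S1: averaged Kato smoothness.
-/

set_option autoImplicit false
set_option linter.unusedSectionVars false

open MeasureTheory Filter Topology
open scoped BigOperators ENNReal NNReal InnerProductSpace ComplexConjugate

namespace Pool.Agent.H5R2.NB

namespace S1

section group

variable {X : Type} [NormedAddCommGroup X] [InnerProductSpace ℂ X]

lemma inner_U (W : UG X) (t : ℝ) (x y : X) : ⟪W.U t x, W.U t y⟫_ℂ = ⟪x, y⟫_ℂ := by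
  let L : X →ₗᵢ[ℂ] X := ⟨(W.U t).toLinearMap, W.norm' t⟩
  exact L.inner_map_map x y

lemma inner_shift (W : UG X) (s : ℝ) (x y : X) : ⟪W.U s x, y⟫_ℂ = ⟪x, W.U (-s) y⟫_ℂ := by
  have h : y = W.U s (W.U (-s) y) := by
    rw [← W.add', add_neg_cancel, W.zero']
  conv_lhs => rw [h]
  rw [inner_U]

lemma key [CompleteSpace X] (U : ℝ → UG X) (e : X) (hF : Fam U e) (κ κ' T : ℝ) (x x' : X) :
    ⟪(U κ).U T x, (U κ').U T x'⟫_ℂ = ⟪x, x'⟫_ℂ + (Complex.I * ((κ - κ' : ℝ) : ℂ)) *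
      ∫ s in (0 : ℝ)..T, conj (⟪e, (U κ).U s x⟫_ℂ) * ⟪e, (U κ').U s x'⟫_ℂ := by
  rw [hF κ κ' T x', inner_sub_right, inner_U, inner_smul_right]
  have hc : Continuous fun s : ℝ => ⟪e, (U κ').U s x'⟫_ℂ • (U κ).U (T - s) e := by
    refine Continuous.smul ?_ ?_
    · exact continuous_const.inner ((U κ').cont' x')
    · exact ((U κ).cont' e).comp (continuous_const.sub continuous_id)
  have h1 : ⟪(U κ).U T x, ∫ s in (0 : ℝ)..T, ⟪e, (U κ').U s x'⟫_ℂ • (U κ).U (T - s) e⟫_ℂ =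
      ∫ s in (0 : ℝ)..T, ⟪(U κ).U T x, ⟪e, (U κ').U s x'⟫_ℂ • (U κ).U (T - s) e⟫_ℂ := by
    have := (innerSL ℂ ((U κ).U T x)).intervalIntegral_comp_comm
      (hc.intervalIntegrable (μ := volume) 0 T)
    simpa using this.symm
  rw [h1]
  have h2 : ∀ s : ℝ, ⟪(U κ).U T x, ⟪e, (U κ').U s x'⟫_ℂ • (U κ).U (T - s) e⟫_ℂ =
      conj (⟪e, (U κ).U s x⟫_ℂ) * ⟪e, (U κ').U s x'⟫_ℂ := by
    intro s
    rw [inner_smul_right, sub_eq_add_neg, (U κ).add', inner_U, ← inner_shift, inner_conj_symm]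
    ring
  simp only [h2]
  push_cast
  ring

end group

section main

variable {ι : Type} (U : ℝ → UG (L2 ι)) (e : L2 ι)
  (ν : Measure ℝ) [IsFiniteMeasure ν] (q : ℝ → ℂ) (χ : ℝ → L2 ι)

/-- `G(κ,s) = conj (q κ) ⟨e, U_κ(s) χ_κ⟩` -/
noncomputable def GG (κ s : ℝ) : ℂ := conj (q κ) * ⟪e, (U κ).U s (χ κ)⟫_ℂ

/-- `h(s) = ∫ G(κ,s) dν(κ)` -/
noncomputable def hh (s : ℝ) : ℂ := ∫ κ, GG U e q χ κ s ∂ν

/-- `u_T(κ) = conj (q κ) U_κ(T) χ_κ` -/
noncomputable def uu (T κ : ℝ) : L2 ι := conj (q κ) • (U κ).U T (χ κ)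

variable {U e ν q χ} {Q M : ℝ}

lemma GG_bound (hq : ∀ κ, ‖q κ‖ ≤ Q) (hM : ∀ κ, ‖χ κ‖ ≤ M) (κ s : ℝ) :
    ‖GG U e q χ κ s‖ ≤ Q * (‖e‖ * M) := by
  unfold GG
  rw [norm_mul, RCLike.norm_conj]
  refine mul_le_mul (hq κ) ?_ (norm_nonneg _) ((norm_nonneg _).trans (hq κ))
  refine (norm_inner_le_norm _ _).trans ?_
  rw [(U κ).norm']
  exact mul_le_mul_of_nonneg_left (hM κ) (norm_nonneg _)

lemma uu_bound (hq : ∀ κ, ‖q κ‖ ≤ Q) (hM : ∀ κ, ‖χ κ‖ ≤ M) (T κ : ℝ) :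
    ‖uu U q χ T κ‖ ≤ Q * M := by
  unfold uu
  rw [norm_smul, RCLike.norm_conj, (U κ).norm']
  exact mul_le_mul (hq κ) (hM κ) (norm_nonneg _) ((norm_nonneg _).trans (hq κ))

lemma uu_aesm (hc : Continuous fun p : ℝ × ℝ × L2 ι => (U p.1).U p.2.1 p.2.2)
    (hq : Measurable q) (hχ : AEStronglyMeasurable χ ν) (T : ℝ) :
    AEStronglyMeasurable (uu U q χ T) ν := by
  unfold uu
  have h1 : AEStronglyMeasurable (fun κ : ℝ => conj (q κ)) ν :=
    (Complex.continuous_conj.measurable.comp hq).aestronglyMeasurable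
  have h2 : AEStronglyMeasurable (fun κ : ℝ => (κ, T, χ κ)) ν :=
    aestronglyMeasurable_id.prodMk (aestronglyMeasurable_const.prodMk hχ)
  exact h1.smul (hc.comp_aestronglyMeasurable h2)

lemma GG_aesm (hc : Continuous fun p : ℝ × ℝ × L2 ι => (U p.1).U p.2.1 p.2.2)
    (hq : Measurable q) (hχ : AEStronglyMeasurable χ ν) (μ : Measure ℝ) [SFinite μ] :
    AEStronglyMeasurable (fun p : ℝ × ℝ => GG U e q χ p.1 p.2) (ν.prod μ) := by
  unfold GG
  have h1 : AEStronglyMeasurable (fun p : ℝ × ℝ => conj (q p.1)) (ν.prod μ) :=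
    (Complex.continuous_conj.measurable.comp (hq.comp measurable_fst)).aestronglyMeasurable
  have h2 : AEStronglyMeasurable (fun p : ℝ × ℝ => (p.1, p.2, χ p.1)) (ν.prod μ) :=
    measurable_fst.aestronglyMeasurable.prodMk
      (measurable_snd.aestronglyMeasurable.prodMk hχ.comp_fst)
  exact h1.mul (aestronglyMeasurable_const.inner (hc.comp_aestronglyMeasurable h2))

lemma GG_cont_right (κ : ℝ) : Continuous fun s => GG U e q χ κ s := by
  unfold GG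
  exact continuous_const.mul (continuous_const.inner ((U κ).cont' (χ κ)))

/-- the correlation integral -/
noncomputable def JJ (U : ℝ → UG (L2 ι)) (e : L2 ι) (q : ℝ → ℂ) (χ : ℝ → L2 ι) (T : ℝ)
    (p : ℝ × ℝ) : ℂ :=
  ∫ s in Set.Ioc (-T) T, conj (GG U e q χ p.1 s) * GG U e q χ p.2 s

lemma uu_inner (hF : Fam U e) {T : ℝ} (hT : 0 ≤ T) (κ κ' : ℝ) :
    ⟪uu U q χ T κ, uu U q χ T κ'⟫_ℂ - ⟪uu U q χ (-T) κ, uu U q χ (-T) κ'⟫_ℂ =
      (Complex.I * ((κ - κ' : ℝ) : ℂ)) * JJ U e q χ T (κ, κ') := by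
  unfold uu JJ
  simp only [inner_smul_left, inner_smul_right, Complex.conj_conj]
  rw [key U e hF, key U e hF, ← intervalIntegral.integral_of_le (by linarith : -T ≤ T)]
  have hc : Continuous fun s => conj (⟪e, (U κ).U s (χ κ)⟫_ℂ) * ⟪e, (U κ').U s (χ κ')⟫_ℂ :=
    (Complex.continuous_conj.comp (continuous_const.inner ((U κ).cont' (χ κ)))).mul
      (continuous_const.inner ((U κ').cont' (χ κ')))
  have h1 : ∫ s in (-T)..T, conj (GG U e q χ κ s) * GG U e q χ κ' s =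
      q κ * conj (q κ') *
        ∫ s in (-T)..T, conj (⟪e, (U κ).U s (χ κ)⟫_ℂ) * ⟪e, (U κ').U s (χ κ')⟫_ℂ := by
    rw [← intervalIntegral.integral_const_mul]
    refine intervalIntegral.integral_congr fun s _ => ?_
    simp only [GG, map_mul, Complex.conj_conj]
    ring
  rw [h1, ← intervalIntegral.integral_add_adjacent_intervals
    (hc.intervalIntegrable (μ := volume) (-T) 0) (hc.intervalIntegrable (μ := volume) 0 T),
    intervalIntegral.integral_symm (-T) 0]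
  ring

lemma JJ_bound (hq : ∀ κ, ‖q κ‖ ≤ Q) (hM : ∀ κ, ‖χ κ‖ ≤ M) {T : ℝ} (hT : 0 ≤ T) (p : ℝ × ℝ) :
    ‖JJ U e q χ T p‖ ≤ (Q * (‖e‖ * M)) * (Q * (‖e‖ * M)) * (2 * T) := by
  unfold JJ
  have h1 : ∀ s ∈ Set.Ioc (-T) T, ‖conj (GG U e q χ p.1 s) * GG U e q χ p.2 s‖ ≤
      (Q * (‖e‖ * M)) * (Q * (‖e‖ * M)) := by
    intro s _
    rw [norm_mul, RCLike.norm_conj]
    exact mul_le_mul (GG_bound hq hM _ _) (GG_bound hq hM _ _) (norm_nonneg _)
      ((norm_nonneg _).trans (GG_bound (U := U) (e := e) hq hM 0 0))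
  refine (norm_setIntegral_le_of_norm_le_const (by simp) h1).trans (le_of_eq ?_)
  rw [Real.volume_real_Ioc_of_le (by linarith)]
  ring

lemma prod_integrable (hc : Continuous fun p : ℝ × ℝ × L2 ι => (U p.1).U p.2.1 p.2.2)
    (hqm : Measurable q) (hq : ∀ κ, ‖q κ‖ ≤ Q) (hχ : AEStronglyMeasurable χ ν)
    (hM : ∀ κ, ‖χ κ‖ ≤ M) (T : ℝ) :
    Integrable (fun z : (ℝ × ℝ) × ℝ => conj (GG U e q χ z.1.1 z.2) * GG U e q χ z.1.2 z.2)
      ((ν.prod ν).prod (volume.restrict (Set.Ioc (-T) T))) := by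
  have h0 := GG_aesm (e := e) (ν := ν) hc hqm hχ (volume.restrict (Set.Ioc (-T) T))
  -- measurability of the two factors on the triple product
  have h1 : AEStronglyMeasurable (fun z : (ℝ × ℝ) × ℝ => GG U e q χ z.1.1 z.2)
      ((ν.prod ν).prod (volume.restrict (Set.Ioc (-T) T))) := by
    have hqmp : Measure.QuasiMeasurePreserving (fun z : (ℝ × ℝ) × ℝ => (z.1.1, z.2))
        ((ν.prod ν).prod (volume.restrict (Set.Ioc (-T) T)))
        (ν.prod (volume.restrict (Set.Ioc (-T) T))) :=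
      QuasiMeasurePreserving.prodMap
        (Measure.quasiMeasurePreserving_fst) (Measure.QuasiMeasurePreserving.id _)
    exact h0.comp_quasiMeasurePreserving hqmp
  have h2 : AEStronglyMeasurable (fun z : (ℝ × ℝ) × ℝ => GG U e q χ z.1.2 z.2)
      ((ν.prod ν).prod (volume.restrict (Set.Ioc (-T) T))) := by
    have hqmp : Measure.QuasiMeasurePreserving (fun z : (ℝ × ℝ) × ℝ => (z.1.2, z.2))
        ((ν.prod ν).prod (volume.restrict (Set.Ioc (-T) T)))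
        (ν.prod (volume.restrict (Set.Ioc (-T) T))) :=
      QuasiMeasurePreserving.prodMap
        (Measure.quasiMeasurePreserving_snd) (Measure.QuasiMeasurePreserving.id _)
    exact h0.comp_quasiMeasurePreserving hqmp
  refine Integrable.of_bound ((Complex.continuous_conj.comp_aestronglyMeasurable h1).mul h2)
    ((Q * (‖e‖ * M)) * (Q * (‖e‖ * M))) (Filter.Eventually.of_forall fun z => ?_)
  rw [norm_mul, RCLike.norm_conj]
  exact mul_le_mul (GG_bound hq hM _ _) (GG_bound hq hM _ _) (norm_nonneg _)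
    ((norm_nonneg _).trans (GG_bound (U := U) (e := e) hq hM 0 0))

lemma integral_JJ (hc : Continuous fun p : ℝ × ℝ × L2 ι => (U p.1).U p.2.1 p.2.2)
    (hqm : Measurable q) (hq : ∀ κ, ‖q κ‖ ≤ Q) (hχ : AEStronglyMeasurable χ ν)
    (hM : ∀ κ, ‖χ κ‖ ≤ M) (T : ℝ) :
    ∫ p, JJ U e q χ T p ∂(ν.prod ν) =
      ((∫ s in Set.Ioc (-T) T, ‖hh U e ν q χ s‖ ^ 2 : ℝ) : ℂ) := by
  have hi := prod_integrable (e := e) hc hqm hq hχ hM T
  unfold JJ
  rw [integral_integral_swap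
    (f := fun (p : ℝ × ℝ) (s : ℝ) => conj (GG U e q χ p.1 s) * GG U e q χ p.2 s) hi,
    ← integral_complex_ofReal]
  refine integral_congr_ae (Filter.Eventually.of_forall fun s => ?_)
  simp only
  rw [integral_prod_mul (fun κ => conj (GG U e q χ κ s)) (fun κ => GG U e q χ κ s), integral_conj]
  unfold hh
  rw [Complex.conj_mul']
  push_cast
  rfl

lemma JJ_integrable (hc : Continuous fun p : ℝ × ℝ × L2 ι => (U p.1).U p.2.1 p.2.2)
    (hqm : Measurable q) (hq : ∀ κ, ‖q κ‖ ≤ Q) (hχ : AEStronglyMeasurable χ ν)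
    (hM : ∀ κ, ‖χ κ‖ ≤ M) (T : ℝ) : Integrable (JJ U e q χ T) (ν.prod ν) :=
  (prod_integrable (e := e) hc hqm hq hχ hM T).integral_prod_left

/-- the kernel -/
noncomputable def KK (ε y : ℝ) : ℝ := y / (y ^ 2 + ε ^ 2)

lemma KK_cont {ε : ℝ} (hε : 0 < ε) : Continuous (KK ε) := by
  unfold KK
  exact Continuous.div continuous_id (by fun_prop) fun y => by positivity

lemma KK_abs_le {ε : ℝ} (hε : 0 < ε) (y : ℝ) : |KK ε y| ≤ 1 / (2 * ε) := by
  unfold KK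
  have hd : 0 < y ^ 2 + ε ^ 2 := by positivity
  rw [abs_div, abs_of_pos hd, div_le_div_iff₀ hd (by positivity)]
  nlinarith [sq_nonneg (|y| - ε), sq_abs y, abs_nonneg y]

lemma KKy_abs_le {ε : ℝ} (hε : 0 < ε) (y : ℝ) : |KK ε y * y| ≤ 1 := by
  unfold KK
  have hd : 0 < y ^ 2 + ε ^ 2 := by positivity
  have h1 : y / (y ^ 2 + ε ^ 2) * y = y ^ 2 / (y ^ 2 + ε ^ 2) := by ring
  rw [h1, abs_of_nonneg (by positivity), div_le_one hd]
  nlinarith [sq_nonneg ε]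

lemma F_integrable (hc : Continuous fun p : ℝ × ℝ × L2 ι => (U p.1).U p.2.1 p.2.2)
    (hqm : Measurable q) (hq : ∀ κ, ‖q κ‖ ≤ Q) (hχ : AEStronglyMeasurable χ ν)
    (hM : ∀ κ, ‖χ κ‖ ≤ M) (T : ℝ) {ε : ℝ} (hε : 0 < ε) :
    Integrable (fun p : ℝ × ℝ => ((KK ε (p.1 - p.2) : ℝ) : ℂ) *
      ⟪uu U q χ T p.1, uu U q χ T p.2⟫_ℂ) (ν.prod ν) := by
  have h1 := uu_aesm (ν := ν) hc hqm hχ T
  have h2 : Continuous fun p : ℝ × ℝ => ((KK ε (p.1 - p.2) : ℝ) : ℂ) :=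
    Complex.continuous_ofReal.comp ((KK_cont hε).comp (continuous_fst.sub continuous_snd))
  refine Integrable.of_bound (h2.aestronglyMeasurable.mul (h1.comp_fst.inner h1.comp_snd))
    (1 / (2 * ε) * ((Q * M) * (Q * M))) (Filter.Eventually.of_forall fun p => ?_)
  rw [norm_mul, Complex.norm_real, Real.norm_eq_abs]
  refine mul_le_mul (KK_abs_le hε _) ?_ (norm_nonneg _) (by positivity)
  refine (norm_inner_le_norm _ _).trans ?_
  exact mul_le_mul (uu_bound hq hM T _) (uu_bound hq hM T _) (norm_nonneg _)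
    ((norm_nonneg _).trans (uu_bound (U := U) hq hM T 0))

lemma F_bound (hKB : St_KB) [Countable ι]
    (hc : Continuous fun p : ℝ × ℝ × L2 ι => (U p.1).U p.2.1 p.2.2)
    (hqm : Measurable q) (hq : ∀ κ, ‖q κ‖ ≤ Q) (hχ : AEStronglyMeasurable χ ν)
    (hM : ∀ κ, ‖χ κ‖ ≤ M) {C : ℝ≥0} (hν : ν ≤ C • volume) (T : ℝ) {ε : ℝ} (hε : 0 < ε) :
    ‖∫ p : ℝ × ℝ, ((KK ε (p.1 - p.2) : ℝ) : ℂ) * ⟪uu U q χ T p.1, uu U q χ T p.2⟫_ℂ
      ∂(ν.prod ν)‖ ≤ Real.pi * C * ((Q * M) ^ 2 * ν.real Set.univ) := by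
  rw [integral_prod _ (F_integrable hc hqm hq hχ hM T hε)]
  have h1 := hKB ι ν C hν (uu U q χ T) (Q * M) (uu_aesm hc hqm hχ T) (uu_bound hq hM T) ε hε
  refine h1.trans ?_
  refine mul_le_mul_of_nonneg_left ?_ (by positivity)
  have h2 : ∀ κ, ‖uu U q χ T κ‖ ^ 2 ≤ (Q * M) ^ 2 := fun κ =>
    pow_le_pow_left₀ (norm_nonneg _) (uu_bound hq hM T κ) 2
  have h3 : Integrable (fun κ => ‖uu U q χ T κ‖ ^ 2) ν := by
    refine Integrable.of_bound ((uu_aesm hc hqm hχ T).norm.pow 2) ((Q * M) ^ 2)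
      (Filter.Eventually.of_forall fun κ => ?_)
    rw [Real.norm_eq_abs, abs_of_nonneg (sq_nonneg _)]
    exact h2 κ
  refine (integral_mono h3 (integrable_const _) h2).trans (le_of_eq ?_)
  rw [integral_const, smul_eq_mul, mul_comm]

lemma eps_bound (hKB : St_KB) [Countable ι] (hF : Fam U e)
    (hc : Continuous fun p : ℝ × ℝ × L2 ι => (U p.1).U p.2.1 p.2.2)
    (hqm : Measurable q) (hq : ∀ κ, ‖q κ‖ ≤ Q) (hχ : AEStronglyMeasurable χ ν)
    (hM : ∀ κ, ‖χ κ‖ ≤ M) {C : ℝ≥0} (hν : ν ≤ C • volume) {T : ℝ} (hT : 0 ≤ T)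
    {ε : ℝ} (hε : 0 < ε) :
    ‖∫ p : ℝ × ℝ, ((KK ε (p.1 - p.2) * (p.1 - p.2) : ℝ) : ℂ) * JJ U e q χ T p ∂(ν.prod ν)‖ ≤
      2 * (Real.pi * C * ((Q * M) ^ 2 * ν.real Set.univ)) := by
  have h1 : ∀ p : ℝ × ℝ, ((KK ε (p.1 - p.2) : ℝ) : ℂ) *
        ⟪uu U q χ T p.1, uu U q χ T p.2⟫_ℂ -
      ((KK ε (p.1 - p.2) : ℝ) : ℂ) * ⟪uu U q χ (-T) p.1, uu U q χ (-T) p.2⟫_ℂ =
      Complex.I * (((KK ε (p.1 - p.2) * (p.1 - p.2) : ℝ) : ℂ) * JJ U e q χ T p) := by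
    intro p
    rw [← mul_sub, uu_inner hF hT]
    push_cast
    ring
  have h2 := integral_sub (F_integrable hc hqm hq hχ hM T hε)
    (F_integrable hc hqm hq hχ hM (-T) hε)
  rw [integral_congr_ae (Filter.Eventually.of_forall h1), integral_const_mul] at h2
  have h3 : ‖∫ p : ℝ × ℝ, ((KK ε (p.1 - p.2) * (p.1 - p.2) : ℝ) : ℂ) * JJ U e q χ T p
      ∂(ν.prod ν)‖ = ‖Complex.I * ∫ p : ℝ × ℝ, ((KK ε (p.1 - p.2) * (p.1 - p.2) : ℝ) : ℂ) *
        JJ U e q χ T p ∂(ν.prod ν)‖ := by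
    rw [norm_mul, Complex.norm_I, one_mul]
  rw [h3, h2]
  refine (norm_sub_le _ _).trans ?_
  have h4 := F_bound hKB hc hqm hq hχ hM hν T hε
  have h5 := F_bound hKB hc hqm hq hχ hM hν (-T) hε
  linarith

lemma ae_ne {C : ℝ≥0} (hν : ν ≤ C • (volume : Measure ℝ)) :
    ∀ᵐ p : ℝ × ℝ ∂(ν.prod ν), p.1 ≠ p.2 := by
  have hν0 : ∀ x : ℝ, ν {x} = 0 := by
    intro x
    refine le_antisymm ((hν {x}).trans ?_) zero_le
    simp
  have h1 : (ν.prod ν) {p : ℝ × ℝ | p.1 = p.2} = 0 := by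
    rw [Measure.measure_prod_null (isClosed_eq continuous_fst continuous_snd).measurableSet]
    refine Filter.Eventually.of_forall fun x => ?_
    have : Prod.mk x ⁻¹' {p : ℝ × ℝ | p.1 = p.2} = {x} := by
      ext y
      simp [eq_comm]
    simp only [this, hν0, Pi.zero_apply]
  rw [ae_iff]
  simpa using h1

lemma limit_bound (hKB : St_KB) [Countable ι] (hF : Fam U e)
    (hc : Continuous fun p : ℝ × ℝ × L2 ι => (U p.1).U p.2.1 p.2.2)
    (hqm : Measurable q) (hq : ∀ κ, ‖q κ‖ ≤ Q) (hχ : AEStronglyMeasurable χ ν)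
    (hM : ∀ κ, ‖χ κ‖ ≤ M) {C : ℝ≥0} (hν : ν ≤ C • volume) {T : ℝ} (hT : 0 ≤ T) :
    ‖∫ p : ℝ × ℝ, JJ U e q χ T p ∂(ν.prod ν)‖ ≤
      2 * (Real.pi * C * ((Q * M) ^ 2 * ν.real Set.univ)) := by
  have hJ := JJ_integrable (e := e) hc hqm hq hχ hM T
  have hlim : Tendsto (fun n : ℕ => ∫ p : ℝ × ℝ,
      ((KK (1 / ((n : ℝ) + 1)) (p.1 - p.2) * (p.1 - p.2) : ℝ) : ℂ) * JJ U e q χ T p ∂(ν.prod ν))
      atTop (𝓝 (∫ p : ℝ × ℝ, JJ U e q χ T p ∂(ν.prod ν))) := by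
    refine tendsto_integral_of_dominated_convergence (fun p => ‖JJ U e q χ T p‖) ?_ hJ.norm ?_ ?_
    · intro n
      have hn : 0 < 1 / ((n : ℝ) + 1) := by positivity
      have h2 : Continuous fun p : ℝ × ℝ =>
          ((KK (1 / ((n : ℝ) + 1)) (p.1 - p.2) * (p.1 - p.2) : ℝ) : ℂ) :=
        Complex.continuous_ofReal.comp (((KK_cont hn).comp (continuous_fst.sub continuous_snd)).mul
          (continuous_fst.sub continuous_snd))
      exact h2.aestronglyMeasurable.mul hJ.aestronglyMeasurable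
    · intro n
      have hn : 0 < 1 / ((n : ℝ) + 1) := by positivity
      refine Filter.Eventually.of_forall fun p => ?_
      rw [norm_mul, Complex.norm_real, Real.norm_eq_abs]
      exact mul_le_of_le_one_left (norm_nonneg _) (KKy_abs_le hn _)
    · filter_upwards [ae_ne hν] with p hp
      have hy : p.1 - p.2 ≠ 0 := sub_ne_zero.2 hp
      set y := p.1 - p.2 with hyd
      have h3 : Tendsto (fun n : ℕ => KK (1 / ((n : ℝ) + 1)) y * y) atTop (𝓝 1) := by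
        unfold KK
        have h4 : Tendsto (fun n : ℕ => y / (y ^ 2 + (1 / ((n : ℝ) + 1)) ^ 2) * y) atTop
            (𝓝 (y / (y ^ 2 + 0 ^ 2) * y)) := by
          refine Tendsto.mul_const _ (Tendsto.div tendsto_const_nhds
            (tendsto_const_nhds.add (tendsto_one_div_add_atTop_nhds_zero_nat.pow 2)) ?_)
          positivity
        have h5 : y / (y ^ 2 + 0 ^ 2) * y = 1 := by
          field_simp
          ring
        rwa [h5] at h4
      have h6 := ((Complex.continuous_ofReal.tendsto 1).comp h3).mul_const (JJ U e q χ T p)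
      simpa using h6
  refine le_of_tendsto hlim.norm (Filter.Eventually.of_forall fun n => ?_)
  exact eps_bound hKB hF hc hqm hq hχ hM hν hT (by positivity)

lemma hh_bound (hq : ∀ κ, ‖q κ‖ ≤ Q) (hM : ∀ κ, ‖χ κ‖ ≤ M) (s : ℝ) :
    ‖hh U e ν q χ s‖ ≤ (Q * (‖e‖ * M)) * ν.real Set.univ := by
  unfold hh
  exact norm_integral_le_of_norm_le_const (Filter.Eventually.of_forall fun κ => GG_bound hq hM κ s)

lemma hh_aesm (hc : Continuous fun p : ℝ × ℝ × L2 ι => (U p.1).U p.2.1 p.2.2)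
    (hqm : Measurable q) (hχ : AEStronglyMeasurable χ ν) :
    AEStronglyMeasurable (hh U e ν q χ) volume := by
  have h0 := GG_aesm (e := e) (ν := ν) hc hqm hχ volume
  exact h0.prod_swap.integral_prod_right'

lemma lint_Ioc (hKB : St_KB) [Countable ι] (hF : Fam U e)
    (hc : Continuous fun p : ℝ × ℝ × L2 ι => (U p.1).U p.2.1 p.2.2)
    (hqm : Measurable q) (hq : ∀ κ, ‖q κ‖ ≤ Q) (hχ : AEStronglyMeasurable χ ν)
    (hM : ∀ κ, ‖χ κ‖ ≤ M) {C : ℝ≥0} (hν : ν ≤ C • volume) {T : ℝ} (hT : 0 ≤ T) :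
    ∫⁻ s in Set.Ioc (-T) T, ‖hh U e ν q χ s‖ₑ ^ 2 ≤
      ENNReal.ofReal (2 * (Real.pi * C * ((Q * M) ^ 2 * ν.real Set.univ))) := by
  have h1 := limit_bound hKB hF hc hqm hq hχ hM hν hT
  rw [integral_JJ hc hqm hq hχ hM T, Complex.norm_real, Real.norm_eq_abs] at h1
  have h2 := (le_abs_self _).trans h1
  have h3 : Integrable (fun s => ‖hh U e ν q χ s‖ ^ 2) (volume.restrict (Set.Ioc (-T) T)) := by
    refine Integrable.of_bound (((hh_aesm hc hqm hχ).mono_measure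
      Measure.restrict_le_self).norm.pow 2) (((Q * (‖e‖ * M)) * ν.real Set.univ) ^ 2)
      (Filter.Eventually.of_forall fun s => ?_)
    rw [Real.norm_eq_abs, abs_of_nonneg (sq_nonneg _)]
    exact pow_le_pow_left₀ (norm_nonneg _) (hh_bound hq hM s) 2
  have h4 : ∫⁻ s in Set.Ioc (-T) T, ‖hh U e ν q χ s‖ₑ ^ 2 =
      ENNReal.ofReal (∫ s in Set.Ioc (-T) T, ‖hh U e ν q χ s‖ ^ 2) := by
    rw [ofReal_integral_eq_lintegral_ofReal h3 (Filter.Eventually.of_forall fun s => sq_nonneg _)]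
    refine lintegral_congr fun s => ?_
    rw [ENNReal.ofReal_pow (norm_nonneg _), ofReal_norm]
  rw [h4]
  exact ENNReal.ofReal_le_ofReal h2

lemma lint_all (hKB : St_KB) [Countable ι] (hF : Fam U e)
    (hc : Continuous fun p : ℝ × ℝ × L2 ι => (U p.1).U p.2.1 p.2.2)
    (hqm : Measurable q) (hq : ∀ κ, ‖q κ‖ ≤ Q) (hχ : AEStronglyMeasurable χ ν)
    (hM : ∀ κ, ‖χ κ‖ ≤ M) {C : ℝ≥0} (hν : ν ≤ C • volume) :
    ∫⁻ s, ‖hh U e ν q χ s‖ₑ ^ 2 ≤
      ENNReal.ofReal (2 * (Real.pi * C * ((Q * M) ^ 2 * ν.real Set.univ))) := by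
  have hcov : AECover (volume : Measure ℝ) atTop (fun n : ℕ => Set.Ioc (-(n : ℝ)) (n : ℝ)) :=
    aecover_Ioc (tendsto_neg_atTop_atBot.comp tendsto_natCast_atTop_atTop)
      tendsto_natCast_atTop_atTop
  have hm : AEMeasurable (fun s => ‖hh U e ν q χ s‖ₑ ^ 2) volume :=
    (hh_aesm hc hqm hχ).enorm.pow_const 2
  refine le_of_tendsto (hcov.lintegral_tendsto_of_countably_generated hm)
    (Filter.Eventually.of_forall fun n => ?_)
  exact lint_Ioc hKB hF hc hqm hq hχ hM hν (Nat.cast_nonneg n)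

lemma hh_neg (t : ℝ) :
    ‖∫ κ, q κ * ⟪χ κ, (U κ).U t e⟫_ℂ ∂ν‖ₑ = ‖hh U e ν q χ (-t)‖ₑ := by
  have h1 : ∫ κ, q κ * ⟪χ κ, (U κ).U t e⟫_ℂ ∂ν = conj (hh U e ν q χ (-t)) := by
    unfold hh
    rw [← integral_conj]
    refine integral_congr_ae (Filter.Eventually.of_forall fun κ => ?_)
    simp only [GG, map_mul, Complex.conj_conj, inner_conj_symm]
    rw [inner_shift, neg_neg]
  rw [h1]
  simp only [enorm_eq_nnnorm, RCLike.nnnorm_conj]

end main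

end S1

theorem t_S1 (hKB : St_KB) (hCT : St_CT) : St_S1 := by
  intro ι _ U e hF ν _ C hν q Q R hqm hq _ χ M hχ hM
  have hc := hCT ι U e hF
  have hQ : 0 ≤ Q := (norm_nonneg _).trans (hq 0)
  have hM0 : 0 ≤ M := (norm_nonneg _).trans (hM 0)
  have h1 := S1.lint_all (e := e) hKB hF hc hqm hq hχ hM hν
  have h2 : ∫⁻ t : ℝ, ‖∫ κ, q κ * ⟪χ κ, (U κ).U t e⟫_ℂ ∂ν‖ₑ ^ 2 =
      ∫⁻ s, ‖S1.hh U e ν q χ s‖ₑ ^ 2 := by
    rw [← lintegral_neg_eq_self (μ := (volume : Measure ℝ)) (fun s => ‖S1.hh U e ν q χ s‖ₑ ^ 2)]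
    refine lintegral_congr fun t => ?_
    rw [S1.hh_neg]
  rw [h2]
  refine h1.trans ?_
  have h3 : ν Set.univ = ENNReal.ofReal (ν.real Set.univ) := by
    rw [ofReal_measureReal]
  rw [h3, ← ENNReal.ofReal_mul (by positivity)]
  refine ENNReal.ofReal_le_ofReal ?_
  have hν0 : 0 ≤ ν.real Set.univ := measureReal_nonneg
  have hC : (0 : ℝ) ≤ C := C.2
  have h4 : 2 * (Real.pi * C * ((Q * M) ^ 2 * ν.real Set.univ)) =
      2 * Real.pi * (C * Q ^ 2 * M ^ 2 * ν.real Set.univ) := by ring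
  have h5 : 8 * C * Q ^ 2 * M ^ 2 * ν.real Set.univ =
      8 * (C * Q ^ 2 * M ^ 2 * ν.real Set.univ) := by ring
  rw [h4, h5]
  refine mul_le_mul_of_nonneg_right ?_ (by positivity)
  linarith [Real.pi_le_four]

end Pool.Agent.H5R2.NB
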