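import Pool.Agent.H5R2.NB.Defs

/-! # Task STAR: the main identity -/

set_option autoImplicit false

open MeasureTheory Filter Topology
open scoped BigOperators ENNReal NNReal InnerProductSpace ComplexConjugate

namespace Pool.Agent.H5R2.NB

namespace STAR

section basic

variable {X : Type} [NormedAddCommGroup X] [InnerProductSpace ℂ X]

theorem U_neg_U (W : UG X) (t : ℝ) (x : X) : W.U t (W.U (-t) x) = x := by
  rw [← W.add', add_neg_cancel, W.zero']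

theorem inner_UU (W : UG X) (t : ℝ) (x y : X) : ⟪W.U t x, W.U t y⟫_ℂ = ⟪x, y⟫_ℂ := by
  have h := LinearIsometry.inner_map_map
    (⟨(W.U t).toLinearMap, fun x => W.norm' t x⟩ : X →ₗᵢ[ℂ] X) x y
  exact h

theorem inner_U_left (W : UG X) (t : ℝ) (x y : X) : ⟪W.U t x, y⟫_ℂ = ⟪x, W.U (-t) y⟫_ℂ := by
  conv_lhs => rw [← U_neg_U W t y]
  exact inner_UU W t x _

theorem inner_U_right (W : UG X) (t : ℝ) (x y : X) : ⟪x, W.U t y⟫_ℂ = ⟪W.U (-t) x, y⟫_ℂ := by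
  rw [inner_U_left, neg_neg]

/-- the reversed group -/
def rev (W : UG X) : UG X where
  U t := W.U (-t)
  zero' x := by rw [neg_zero]; exact W.zero' x
  add' s t x := by rw [neg_add]; exact W.add' _ _ _
  norm' t x := W.norm' _ x
  cont' x := (W.cont' x).comp continuous_neg

theorem rev_U (W : UG X) (t : ℝ) : (rev W).U t = W.U (-t) := rfl

theorem avP_rev (W : UG X) (v : X →L[ℂ] X) (N : ℕ) (x : X) :
    avP (rev W) v N x = avM W v N x := by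
  unfold avP avM
  simp only [rev_U, neg_neg]

theorem cont_av (W : UG X) (v : X →L[ℂ] X) (x : X) :
    Continuous fun u => W.U (-u) (v (W.U u x)) := by
  have h1 : Continuous fun u => v (W.U u x) := v.continuous.comp (W.cont' x)
  rw [continuous_iff_continuousAt]
  intro u₀
  have h2 : Tendsto (fun u => W.U (-u) (v (W.U u x) - v (W.U u₀ x))) (𝓝 u₀) (𝓝 0) := by
    rw [tendsto_zero_iff_norm_tendsto_zero]
    simp only [W.norm']
    have h3 : Tendsto (fun u => v (W.U u x) - v (W.U u₀ x)) (𝓝 u₀) (𝓝 0) := by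
      have h4 := (h1.tendsto u₀).sub_const (v (W.U u₀ x))
      rwa [sub_self] at h4
    exact tendsto_zero_iff_norm_tendsto_zero.1 h3
  have h5 : Tendsto (fun u => W.U (-u) (v (W.U u₀ x))) (𝓝 u₀)
      (𝓝 (W.U (-u₀) (v (W.U u₀ x)))) :=
    ((W.cont' (v (W.U u₀ x))).comp continuous_neg).tendsto u₀
  have h6 := h2.add h5
  rw [zero_add] at h6
  refine h6.congr (fun u => ?_)
  rw [map_sub, sub_add_cancel]

theorem inner_avP [CompleteSpace X] (W : UG X) (v : X →L[ℂ] X) (N : ℕ) (x y : X) :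
    ⟪y, avP W v N x⟫_ℂ = (N : ℂ)⁻¹ * ∫ u in (0 : ℝ)..(N : ℝ), ⟪y, W.U (-u) (v (W.U u x))⟫_ℂ := by
  unfold avP
  rw [inner_smul_right]
  congr 1
  have h1 := (innerSL ℂ y).intervalIntegral_comp_comm
    ((cont_av W v x).intervalIntegrable (μ := volume) 0 (N : ℝ))
  simpa using h1.symm

/-- Duhamel formula with a coefficient -/
def FamT (θ : ℂ) (U : ℝ → UG X) (e : X) : Prop :=
  ∀ (κ κ' t : ℝ) (x : X), (U κ').U t x = (U κ).U t x -
    (θ * ((κ' - κ : ℝ) : ℂ)) •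
      ∫ s in (0 : ℝ)..t, ⟪e, (U κ').U s x⟫_ℂ • (U κ).U (t - s) e

theorem FamT_of (U : ℝ → UG X) (e : X) (h : Fam U e) : FamT Complex.I U e := h

theorem FamT_rev (U : ℝ → UG X) (e : X) (h : Fam U e) :
    FamT (-Complex.I) (fun κ => rev (U κ)) e := by
  intro κ κ' t x
  simp only [rev_U]
  rw [h κ κ' (-t) x]
  have h1 := intervalIntegral.integral_comp_neg (a := (0 : ℝ)) (b := t)
    (fun s => ⟪e, (U κ').U s x⟫_ℂ • (U κ).U (-t - s) e)
  rw [neg_zero] at h1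
  rw [intervalIntegral.integral_symm, ← h1]
  have h2 : ∀ s : ℝ, -t - -s = -(t - s) := by intro s; ring
  simp only [h2]
  rw [smul_neg, neg_mul, neg_smul]

theorem duhamel_inner [CompleteSpace X] {θ : ℂ} {U : ℝ → UG X} {e : X} (h : FamT θ U e)
    (v : X →L[ℂ] X) (κ κ' s : ℝ) (x y : X) :
    ⟪y, v ((U κ').U s x)⟫_ℂ - ⟪y, v ((U κ).U s x)⟫_ℂ =
      -(θ * ((κ' - κ : ℝ) : ℂ)) * ∫ r in (0 : ℝ)..s,
        conj (⟪x, (U κ').U (-r) e⟫_ℂ) * ⟪y, v ((U κ).U (s - r) e)⟫_ℂ := by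
  rw [h κ κ' s x, map_sub, inner_sub_right, map_smul, inner_smul_right]
  have hc : Continuous fun r => ⟪e, (U κ').U r x⟫_ℂ • (U κ).U (s - r) e :=
    (continuous_const.inner ((U κ').cont' x)).smul
      (((U κ).cont' e).comp (continuous_const.sub continuous_id))
  have h1 := ((innerSL ℂ y).comp v).intervalIntegral_comp_comm
    (hc.intervalIntegrable (μ := volume) 0 s)
  have h2 : ⟪y, v (∫ r in (0 : ℝ)..s, ⟪e, (U κ').U r x⟫_ℂ • (U κ).U (s - r) e)⟫_ℂ =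
      ∫ r in (0 : ℝ)..s, conj (⟪x, (U κ').U (-r) e⟫_ℂ) * ⟪y, v ((U κ).U (s - r) e)⟫_ℂ := by
    have h3 : ⟪y, v (∫ r in (0 : ℝ)..s, ⟪e, (U κ').U r x⟫_ℂ • (U κ).U (s - r) e)⟫_ℂ =
        ((innerSL ℂ y).comp v)
          (∫ r in (0 : ℝ)..s, ⟪e, (U κ').U r x⟫_ℂ • (U κ).U (s - r) e) := by simp
    rw [h3, ← h1]
    apply intervalIntegral.integral_congr
    intro r _
    simp only [ContinuousLinearMap.comp_apply, map_smul, smul_eq_mul]
    rw [inner_U_right, ← inner_conj_symm x]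
    simp
  rw [h2]
  ring

end basic

section fwd

variable {ι : Type}

noncomputable def Gp (U : ℝ → UG (L2 ι)) (χ : ℝ → L2 ι) (e : L2 ι) (κ r : ℝ) : ℂ :=
  ⟪χ κ, (U κ).U (-r) e⟫_ℂ

noncomputable def Fp (U : ℝ → UG (L2 ι)) (v : L2 ι →L[ℂ] L2 ι) (e φ : L2 ι) (κ s r : ℝ) : ℂ :=
  ⟪(U 0).U s φ, v ((U κ).U (s - r) e)⟫_ℂ

/-- continuity of the family as a plain proposition -/
def CT (U : ℝ → UG (L2 ι)) : Prop :=
  Continuous fun p : ℝ × ℝ × L2 ι => (U p.1).U p.2.1 p.2.2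

theorem sm_U {U : ℝ → UG (L2 ι)} (hct : CT U) {α : Type} [MeasurableSpace α]
    {f g : α → ℝ} {h : α → L2 ι} (hf : Measurable f) (hg : Measurable g)
    (hh : StronglyMeasurable h) : StronglyMeasurable fun a => (U (f a)).U (g a) (h a) :=
  hct.comp_stronglyMeasurable
    (hf.stronglyMeasurable.prodMk (hg.stronglyMeasurable.prodMk hh))

theorem sm_Gp {U : ℝ → UG (L2 ι)} (hct : CT U) {χ : ℝ → L2 ι} (hχ : StronglyMeasurable χ)
    (e : L2 ι) {α : Type} [MeasurableSpace α] {f g : α → ℝ} (hf : Measurable f)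
    (hg : Measurable g) : StronglyMeasurable fun a => Gp U χ e (f a) (g a) := by
  unfold Gp
  exact (hχ.comp_measurable hf).inner
    (sm_U hct hf hg.neg stronglyMeasurable_const)

theorem sm_Fp {U : ℝ → UG (L2 ι)} (hct : CT U) (v : L2 ι →L[ℂ] L2 ι) (e φ : L2 ι)
    {α : Type} [MeasurableSpace α] {f g h : α → ℝ} (hf : Measurable f)
    (hg : Measurable g) (hh : Measurable h) :
    StronglyMeasurable fun a => Fp U v e φ (f a) (g a) (h a) := by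
  unfold Fp
  exact (sm_U hct measurable_const hg stronglyMeasurable_const).inner
    (v.continuous.comp_stronglyMeasurable
      (sm_U hct hf (hg.sub hh) stronglyMeasurable_const))

theorem norm_Gp {U : ℝ → UG (L2 ι)} {χ : ℝ → L2 ι} {M : ℝ} (hχM : ∀ κ, ‖χ κ‖ ≤ M)
    (e : L2 ι) (κ r : ℝ) : ‖Gp U χ e κ r‖ ≤ M * ‖e‖ := by
  unfold Gp
  refine (norm_inner_le_norm _ _).trans ?_
  rw [(U κ).norm']
  exact mul_le_mul_of_nonneg_right (hχM κ) (norm_nonneg _)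

theorem norm_Fp (U : ℝ → UG (L2 ι)) (v : L2 ι →L[ℂ] L2 ι) (e φ : L2 ι) (κ s r : ℝ) :
    ‖Fp U v e φ κ s r‖ ≤ ‖φ‖ * (‖v‖ * ‖e‖) := by
  unfold Fp
  refine (norm_inner_le_norm _ _).trans ?_
  rw [(U 0).norm']
  refine mul_le_mul_of_nonneg_left ?_ (norm_nonneg _)
  refine (v.le_opNorm _).trans ?_
  rw [(U κ).norm']

/-- average of a bounded function times a bounded coefficient -/
theorem norm_int_le (ν : Measure ℝ) [IsProbabilityMeasure ν] {q f : ℝ → ℂ} {Q C : ℝ}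
    (hq : ∀ κ, ‖q κ‖ ≤ Q) (hf : ∀ κ, ‖f κ‖ ≤ C) :
    ‖∫ κ, q κ * f κ ∂ν‖ ≤ Q * C := by
  have hQ : 0 ≤ Q := (norm_nonneg _).trans (hq 0)
  have h := norm_integral_le_of_norm_le_const (μ := ν) (C := Q * C)
    (f := fun κ => q κ * f κ) (Eventually.of_forall (fun κ => by
      rw [norm_mul]; exact mul_le_mul (hq κ) (hf κ) (norm_nonneg _) hQ))
  simpa using h

/-- the pointwise limit of the averages of `Fp` -/
theorem lim_Fp {U : ℝ → UG (L2 ι)} (v : L2 ι →L[ℂ] L2 ι) (e φ : L2 ι)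
    (hφ : ∀ κ t, (U κ).U t φ = (U 0).U t φ) {χ : ℝ → L2 ι} {Nk : ℕ → ℕ}
    (hNk : Tendsto Nk atTop atTop) {B : ℝ → L2 ι →L[ℂ] L2 ι} {κ : ℝ}
    (hav : ∀ x, Tendsto (fun k => avP (U κ) v (Nk k) x) atTop (𝓝 (B κ x)))
    (hcomm : ∀ t x, B κ ((U κ).U t x) = (U κ).U t (B κ x))
    (hχB : ∀ x, ⟪χ κ, x⟫_ℂ = ⟪φ, B κ x⟫_ℂ) (r : ℝ) :
    Tendsto (fun k => ((Nk k : ℂ)⁻¹) * ∫ s in r..(Nk k : ℝ), Fp U v e φ κ s r) atTop
      (𝓝 (Gp U χ e κ r)) := by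
  set y := (U κ).U r φ with hy
  set T : ℝ → ℂ := fun u => ⟪y, (U κ).U (-u) (v ((U κ).U u e))⟫_ℂ with hT
  have hcontv : Continuous fun u => (U κ).U (-u) (v ((U κ).U u e)) := cont_av _ _ _
  have hcT : Continuous T := continuous_const.inner hcontv
  have hTb : ∀ u, ‖T u‖ ≤ ‖φ‖ * (‖v‖ * ‖e‖) := by
    intro u
    refine (norm_inner_le_norm _ _).trans ?_
    rw [hy, (U κ).norm', (U κ).norm']
    refine mul_le_mul_of_nonneg_left ?_ (norm_nonneg _)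
    refine (v.le_opNorm _).trans ?_
    rw [(U κ).norm']
  have hF : ∀ s, Fp U v e φ κ s r = T (s - r) := by
    intro s
    show ⟪(U 0).U s φ, v ((U κ).U (s - r) e)⟫_ℂ = _
    rw [← hφ κ s]
    have h1 : (U κ).U s φ = (U κ).U (s - r) y := by
      rw [hy, ← (U κ).add', sub_add_cancel]
    rw [h1, inner_U_left]
  -- the average over `[0, N]`
  have hN1 : ∀ N : ℕ, (N : ℂ)⁻¹ * ∫ u in (0 : ℝ)..(N : ℝ), T u = ⟪y, avP (U κ) v N e⟫_ℂ := by
    intro N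
    exact (inner_avP (U κ) v N e y).symm
  have hlim1 : Tendsto (fun k => (Nk k : ℂ)⁻¹ * ∫ u in (0 : ℝ)..(Nk k : ℝ), T u) atTop
      (𝓝 ⟪y, B κ e⟫_ℂ) := by
    simp only [hN1]
    exact tendsto_const_nhds.inner (hav e)
  have hval : ⟪y, B κ e⟫_ℂ = Gp U χ e κ r := by
    unfold Gp
    rw [hχB, hcomm, hy, inner_U_left]
  rw [← hval]
  -- the error
  have herr : Tendsto (fun k => (Nk k : ℂ)⁻¹ *
      ∫ u in ((Nk k : ℝ) - r)..(Nk k : ℝ), T u) atTop (𝓝 0) := by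
    rw [tendsto_zero_iff_norm_tendsto_zero]
    have hb : ∀ k, ‖(Nk k : ℂ)⁻¹ * ∫ u in ((Nk k : ℝ) - r)..(Nk k : ℝ), T u‖ ≤
        (Nk k : ℝ)⁻¹ * (‖φ‖ * (‖v‖ * ‖e‖) * |r|) := by
      intro k
      rw [norm_mul, norm_inv, Complex.norm_natCast]
      refine mul_le_mul_of_nonneg_left ?_ (by positivity)
      have h1 := intervalIntegral.norm_integral_le_of_norm_le_const
        (a := (Nk k : ℝ) - r) (b := (Nk k : ℝ)) (f := T) (C := ‖φ‖ * (‖v‖ * ‖e‖))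
        (fun u _ => hTb u)
      simpa using h1
    have h2 : Tendsto (fun k => (Nk k : ℝ)⁻¹ * (‖φ‖ * (‖v‖ * ‖e‖) * |r|)) atTop (𝓝 0) := by
      have h3 : Tendsto (fun k => ((Nk k : ℝ))⁻¹) atTop (𝓝 0) :=
        (tendsto_inv_atTop_zero.comp (tendsto_natCast_atTop_atTop (R := ℝ))).comp hNk
      have h4 := h3.mul_const (‖φ‖ * (‖v‖ * ‖e‖) * |r|)
      rwa [zero_mul] at h4
    exact squeeze_zero (fun _ => norm_nonneg _) hb h2
  have h7 := hlim1.sub herr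
  rw [sub_zero] at h7
  refine h7.congr (fun k => ?_)
  simp only [hF]
  rw [intervalIntegral.integral_comp_sub_right T r, sub_self, ← mul_sub]
  congr 1
  rw [sub_eq_iff_eq_add]
  exact (intervalIntegral.integral_add_adjacent_intervals
    (hcT.intervalIntegrable _ _) (hcT.intervalIntegrable _ _)).symm

/-- the limit of the averages of `β` -/
theorem lim_beta {U : ℝ → UG (L2 ι)} (hct : CT U) (ν : Measure ℝ) [IsProbabilityMeasure ν]
    (v : L2 ι →L[ℂ] L2 ι) (e φ : L2 ι)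
    (hφ : ∀ κ t, (U κ).U t φ = (U 0).U t φ) {χ : ℝ → L2 ι} {Nk : ℕ → ℕ}
    (hNk : Tendsto Nk atTop atTop) {B : ℝ → L2 ι →L[ℂ] L2 ι}
    (hav : ∀ᵐ κ ∂ν, ∀ x, Tendsto (fun k => avP (U κ) v (Nk k) x) atTop (𝓝 (B κ x)))
    (hcomm : ∀ᵐ κ ∂ν, ∀ t x, B κ ((U κ).U t x) = (U κ).U t (B κ x))
    (hχB : ∀ᵐ κ ∂ν, ∀ x, ⟪χ κ, x⟫_ℂ = ⟪φ, B κ x⟫_ℂ)
    {q : ℝ → ℂ} {Q : ℝ} (hqm : Measurable q) (hq : ∀ κ, ‖q κ‖ ≤ Q) (r : ℝ) (hr : 0 ≤ r) :
    Tendsto (fun k => ((Nk k : ℂ)⁻¹) * ∫ s in r..(Nk k : ℝ), ∫ κ, q κ * Fp U v e φ κ s r ∂ν)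
      atTop (𝓝 (∫ κ, q κ * Gp U χ e κ r ∂ν)) := by
  have hQ : 0 ≤ Q := (norm_nonneg _).trans (hq 0)
  set C := ‖φ‖ * (‖v‖ * ‖e‖) with hC
  have hC0 : 0 ≤ C := by positivity
  -- swap
  have hswap : ∀ T : ℝ, ∫ s in r..T, ∫ κ, q κ * Fp U v e φ κ s r ∂ν =
      ∫ κ, q κ * (∫ s in r..T, Fp U v e φ κ s r) ∂ν := by
    intro T
    rw [intervalIntegral_integral_swap]
    · refine integral_congr_ae (Eventually.of_forall (fun κ => ?_))
      simp only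
      rw [intervalIntegral.integral_const_mul]
    · have hsm : StronglyMeasurable (Function.uncurry fun (s κ : ℝ) =>
          q κ * Fp U v e φ κ s r) := by
        have h1 := sm_Fp hct v e φ (f := fun p : ℝ × ℝ => p.2) (g := fun p => p.1)
          (h := fun _ => r) measurable_snd measurable_fst measurable_const
        exact (hqm.stronglyMeasurable.comp_measurable measurable_snd).mul h1
      have : IsFiniteMeasure (volume.restrict (Set.uIoc r T)) := ⟨by simp [Set.uIoc]⟩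
      refine Integrable.of_bound hsm.aestronglyMeasurable (Q * C)
        (Eventually.of_forall (fun p => ?_))
      simp only [Function.uncurry]
      rw [norm_mul]
      exact mul_le_mul (hq _) (norm_Fp U v e φ _ _ _) (norm_nonneg _) hQ
  simp only [hswap]
  have hmul : ∀ k, ((Nk k : ℂ)⁻¹) *
      ∫ κ, q κ * (∫ s in r..(Nk k : ℝ), Fp U v e φ κ s r) ∂ν =
      ∫ κ, q κ * (((Nk k : ℂ)⁻¹) * ∫ s in r..(Nk k : ℝ), Fp U v e φ κ s r) ∂ν := by
    intro k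
    rw [← integral_const_mul]
    refine integral_congr_ae (Eventually.of_forall (fun κ => ?_))
    simp only
    ring
  simp only [hmul]
  refine tendsto_integral_filter_of_dominated_convergence (fun _ => Q * C) ?_ ?_
    (integrable_const _) ?_
  · refine Eventually.of_forall (fun k => ?_)
    have hsm : StronglyMeasurable fun p : ℝ × ℝ => Fp U v e φ p.1 p.2 r :=
      sm_Fp hct v e φ (f := fun p : ℝ × ℝ => p.1) (g := fun p => p.2)
        (h := fun _ => r) measurable_fst measurable_snd measurable_const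
    have h1 : StronglyMeasurable fun κ => ∫ s in r..(Nk k : ℝ), Fp U v e φ κ s r := by
      simp only [intervalIntegral]
      exact (hsm.integral_prod_right' (ν := volume.restrict (Set.Ioc r (Nk k : ℝ)))).sub
        (hsm.integral_prod_right' (ν := volume.restrict (Set.Ioc (Nk k : ℝ) r)))
    exact (hqm.stronglyMeasurable.mul (stronglyMeasurable_const.mul h1)).aestronglyMeasurable
  · have hev : ∀ᶠ k in atTop, ⌈r⌉₊ + 1 ≤ Nk k := hNk.eventually_ge_atTop _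
    filter_upwards [hev] with k hk
    refine Eventually.of_forall (fun κ => ?_)
    have hNr : r ≤ (Nk k : ℝ) := by
      have h1 : r ≤ (⌈r⌉₊ : ℝ) := Nat.le_ceil r
      have h2 : ((⌈r⌉₊ + 1 : ℕ) : ℝ) ≤ (Nk k : ℝ) := by exact_mod_cast hk
      push_cast at h2
      linarith
    have hN0 : (0 : ℝ) < (Nk k : ℝ) := by
      have : 0 < Nk k := by omega
      exact_mod_cast this
    rw [norm_mul]
    refine mul_le_mul (hq κ) ?_ (norm_nonneg _) hQ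
    rw [norm_mul, norm_inv, Complex.norm_natCast]
    have h1 := intervalIntegral.norm_integral_le_of_norm_le_const
      (a := r) (b := (Nk k : ℝ)) (f := fun s => Fp U v e φ κ s r) (C := C)
      (fun s _ => norm_Fp U v e φ κ s r)
    rw [abs_of_nonneg (by linarith)] at h1
    calc (Nk k : ℝ)⁻¹ * ‖∫ s in r..(Nk k : ℝ), Fp U v e φ κ s r‖
        ≤ (Nk k : ℝ)⁻¹ * (C * ((Nk k : ℝ) - r)) :=
          mul_le_mul_of_nonneg_left h1 (by positivity)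
      _ ≤ (Nk k : ℝ)⁻¹ * (C * (Nk k : ℝ)) := by
          refine mul_le_mul_of_nonneg_left ?_ (by positivity)
          exact mul_le_mul_of_nonneg_left (by linarith) hC0
      _ = C := by field_simp
  · filter_upwards [hav, hcomm, hχB] with κ h1 h2 h3
    exact tendsto_const_nhds.mul (lim_Fp v e φ hφ hNk h1 h2 h3 r)

/-- the three functions of the averaging lemma -/
theorem apply_AVL (hAVL : St_AVL) {U : ℝ → UG (L2 ι)} (hct : CT U) (ν : Measure ℝ)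
    [IsProbabilityMeasure ν]
    (v : L2 ι →L[ℂ] L2 ι) (e φ : L2 ι)
    (hφ : ∀ κ t, (U κ).U t φ = (U 0).U t φ) {χ : ℝ → L2 ι} (hχ : StronglyMeasurable χ)
    {M : ℝ} (hχM : ∀ κ, ‖χ κ‖ ≤ M) {Nk : ℕ → ℕ}
    (hNk : Tendsto Nk atTop atTop) {B : ℝ → L2 ι →L[ℂ] L2 ι}
    (hav : ∀ᵐ κ ∂ν, ∀ x, Tendsto (fun k => avP (U κ) v (Nk k) x) atTop (𝓝 (B κ x)))
    (hcomm : ∀ᵐ κ ∂ν, ∀ t x, B κ ((U κ).U t x) = (U κ).U t (B κ x))
    (hχB : ∀ᵐ κ ∂ν, ∀ x, ⟪χ κ, x⟫_ℂ = ⟪φ, B κ x⟫_ℂ)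
    {q q' : ℝ → ℂ} {Q : ℝ} (hqm : Measurable q) (hq : ∀ κ, ‖q κ‖ ≤ Q)
    (hqm' : Measurable q') (hq' : ∀ κ, ‖q' κ‖ ≤ Q) {K : ℝ}
    (hK1 : ∫⁻ r : ℝ, ‖∫ κ, q' κ * conj (Gp U χ e κ r) ∂ν‖ₑ ^ 2 ≤ ENNReal.ofReal K)
    (hK2 : ∀ s : ℝ, ∫⁻ r : ℝ, ‖∫ κ, q κ * Fp U v e φ κ s r ∂ν‖ₑ ^ 2 ≤ ENNReal.ofReal K) :
    IntegrableOn (fun r => (∫ κ, q' κ * conj (Gp U χ e κ r) ∂ν) *
      ∫ κ, q κ * Gp U χ e κ r ∂ν) (Set.Ioi 0) ∧
    Tendsto (fun k => ((Nk k : ℂ)⁻¹) * ∫ s in (0 : ℝ)..(Nk k : ℝ),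
      ∫ r in (0 : ℝ)..s, (∫ κ, q' κ * conj (Gp U χ e κ r) ∂ν) *
        ∫ κ, q κ * Fp U v e φ κ s r ∂ν) atTop
      (𝓝 (∫ r in Set.Ioi (0 : ℝ), (∫ κ, q' κ * conj (Gp U χ e κ r) ∂ν) *
        ∫ κ, q κ * Gp U χ e κ r ∂ν)) := by
  have hQ : 0 ≤ Q := (norm_nonneg _).trans (hq 0)
  have hM : 0 ≤ M := (norm_nonneg _).trans (hχM 0)
  set C := ‖φ‖ * (‖v‖ * ‖e‖) with hC
  have hC0 : 0 ≤ C := by positivity
  have hG : ∀ {q : ℝ → ℂ}, Measurable q → Measurable fun r => ∫ κ, q κ * Gp U χ e κ r ∂ν := by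
    intro q hqm
    have h1 := sm_Gp hct hχ e (f := fun p : ℝ × ℝ => p.2) (g := fun p => p.1)
      measurable_snd measurable_fst
    exact (((hqm.stronglyMeasurable.comp_measurable measurable_snd).mul
      h1).integral_prod_right' (ν := ν)).measurable
  have hGc : ∀ {q : ℝ → ℂ}, Measurable q →
      Measurable fun r => ∫ κ, q κ * conj (Gp U χ e κ r) ∂ν := by
    intro q hqm
    have h1 := sm_Gp hct hχ e (f := fun p : ℝ × ℝ => p.2) (g := fun p => p.1)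
      measurable_snd measurable_fst
    have h2 : StronglyMeasurable fun p : ℝ × ℝ => conj (Gp U χ e p.2 p.1) :=
      Complex.continuous_conj.comp_stronglyMeasurable h1
    exact (((hqm.stronglyMeasurable.comp_measurable measurable_snd).mul
      h2).integral_prod_right' (ν := ν)).measurable
  have hF : Measurable fun p : ℝ × ℝ => ∫ κ, q κ * Fp U v e φ κ p.1 p.2 ∂ν := by
    have h1 := sm_Fp hct v e φ (f := fun p : (ℝ × ℝ) × ℝ => p.2) (g := fun p => p.1.1)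
      (h := fun p => p.1.2) measurable_snd (measurable_fst.comp measurable_fst)
      (measurable_snd.comp measurable_fst)
    exact (((hqm.stronglyMeasurable.comp_measurable measurable_snd).mul
      h1).integral_prod_right' (ν := ν)).measurable
  refine hAVL (fun r => ∫ κ, q' κ * conj (Gp U χ e κ r) ∂ν)
    (fun s r => ∫ κ, q κ * Fp U v e φ κ s r ∂ν) (fun r => ∫ κ, q κ * Gp U χ e κ r ∂ν)
    (max (Q * (M * ‖e‖)) (Q * C)) K Nk (hGc hqm') ?_ hK1 hF ?_ hK2 (hG hqm) hNk ?_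
  · intro r
    refine le_trans ?_ (le_max_left _ _)
    refine norm_int_le ν hq' (fun κ => ?_)
    rw [RCLike.norm_conj]
    exact norm_Gp hχM e κ r
  · intro s r
    refine le_trans ?_ (le_max_right _ _)
    exact norm_int_le ν hq (fun κ => norm_Fp U v e φ κ s r)
  · intro r hr
    exact lim_beta hct ν v e φ hφ hNk hav hcomm hχB hqm hq r hr

noncomputable def Ph (U : ℝ → UG (L2 ι)) (v : L2 ι →L[ℂ] L2 ι) (φ : L2 ι) (χ : ℝ → L2 ι)
    (κ κ' s : ℝ) : ℂ :=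
  ⟪(U 0).U s φ, v ((U κ').U s (χ κ'))⟫_ℂ - ⟪(U 0).U s φ, v ((U κ).U s (χ κ'))⟫_ℂ

theorem Ph_eq {θ : ℂ} {U : ℝ → UG (L2 ι)} {e : L2 ι} (h : FamT θ U e)
    (v : L2 ι →L[ℂ] L2 ι) (φ : L2 ι) (χ : ℝ → L2 ι) (κ κ' s : ℝ) :
    Ph U v φ χ κ κ' s = -(θ * ((κ' - κ : ℝ) : ℂ)) * ∫ r in (0 : ℝ)..s,
      conj (Gp U χ e κ' r) * Fp U v e φ κ s r :=
  duhamel_inner h v κ κ' s (χ κ') ((U 0).U s φ)

theorem norm_Ph (U : ℝ → UG (L2 ι)) (v : L2 ι →L[ℂ] L2 ι) (φ : L2 ι) {χ : ℝ → L2 ι} {M : ℝ}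
    (hχM : ∀ κ, ‖χ κ‖ ≤ M) (κ κ' s : ℝ) :
    ‖Ph U v φ χ κ κ' s‖ ≤ 2 * (‖φ‖ * (‖v‖ * M)) := by
  have h1 : ∀ κ, ‖⟪(U 0).U s φ, v ((U κ).U s (χ κ'))⟫_ℂ‖ ≤ ‖φ‖ * (‖v‖ * M) := by
    intro κ
    refine (norm_inner_le_norm _ _).trans ?_
    rw [(U 0).norm']
    refine mul_le_mul_of_nonneg_left ?_ (norm_nonneg _)
    refine (v.le_opNorm _).trans ?_
    rw [(U κ).norm']
    exact mul_le_mul_of_nonneg_left (hχM _) (norm_nonneg _)
  unfold Ph
  refine (norm_sub_le _ _).trans ?_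
  have := h1 κ
  have := h1 κ'
  linarith

theorem sm_Ph {U : ℝ → UG (L2 ι)} (hct : CT U) (v : L2 ι →L[ℂ] L2 ι) (φ : L2 ι)
    {χ : ℝ → L2 ι} (hχ : StronglyMeasurable χ) {α : Type} [MeasurableSpace α]
    {f g h : α → ℝ} (hf : Measurable f) (hg : Measurable g) (hh : Measurable h) :
    StronglyMeasurable fun a => Ph U v φ χ (f a) (g a) (h a) := by
  unfold Ph
  have h0 := sm_U hct (measurable_const (a := (0 : ℝ))) hh
    (stronglyMeasurable_const (b := φ))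
  exact (h0.inner (v.continuous.comp_stronglyMeasurable
      (sm_U hct hg hh (hχ.comp_measurable hg)))).sub
    (h0.inner (v.continuous.comp_stronglyMeasurable
      (sm_U hct hf hh (hχ.comp_measurable hg))))

/-- identity for fixed `s` -/
theorem claimA {θ : ℂ} {U : ℝ → UG (L2 ι)} (hct : CT U) {e : L2 ι} (hF : FamT θ U e)
    (ν : Measure ℝ) [IsProbabilityMeasure ν] (v : L2 ι →L[ℂ] L2 ι) (φ : L2 ι)
    {χ : ℝ → L2 ι} (hχ : StronglyMeasurable χ) {M : ℝ} (hχM : ∀ κ, ‖χ κ‖ ≤ M)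
    {q₁ q₂ : ℝ → ℂ} {Q : ℝ} (hm₁ : Measurable q₁) (hm₂ : Measurable q₂)
    (hq₁ : ∀ κ, ‖q₁ κ‖ ≤ Q) (hq₁' : ∀ κ, ‖q₁ κ * κ‖ ≤ Q)
    (hq₂ : ∀ κ, ‖q₂ κ‖ ≤ Q) (hq₂' : ∀ κ, ‖q₂ κ * κ‖ ≤ Q) (s : ℝ) :
    ∫ p : ℝ × ℝ, q₁ p.1 * q₂ p.2 * Ph U v φ χ p.1 p.2 s ∂(ν.prod ν) =
      -θ * ∫ r in (0 : ℝ)..s,
        ((∫ κ, q₂ κ * κ * conj (Gp U χ e κ r) ∂ν) * (∫ κ, q₁ κ * Fp U v e φ κ s r ∂ν) -
        (∫ κ, q₂ κ * conj (Gp U χ e κ r) ∂ν) * (∫ κ, q₁ κ * κ * Fp U v e φ κ s r ∂ν)) := by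
  have hQ : 0 ≤ Q := (norm_nonneg _).trans (hq₁ 0)
  have hM : 0 ≤ M := (norm_nonneg _).trans (hχM 0)
  set A : ℝ → ℝ × ℝ → ℂ := fun r p =>
    (q₁ p.1 * Fp U v e φ p.1 s r) * (q₂ p.2 * p.2 * conj (Gp U χ e p.2 r)) with hA
  set A' : ℝ → ℝ × ℝ → ℂ := fun r p =>
    (q₁ p.1 * p.1 * Fp U v e φ p.1 s r) * (q₂ p.2 * conj (Gp U χ e p.2 r)) with hA'
  have hpt : ∀ p : ℝ × ℝ, q₁ p.1 * q₂ p.2 * Ph U v φ χ p.1 p.2 s =
      -θ * ∫ r in (0 : ℝ)..s, (A r p - A' r p) := by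
    intro p
    rw [Ph_eq hF]
    rw [← intervalIntegral.integral_const_mul, ← intervalIntegral.integral_const_mul,
      ← intervalIntegral.integral_const_mul]
    apply intervalIntegral.integral_congr
    intro r _
    simp only [hA, hA']
    push_cast
    ring
  simp only [hpt]
  rw [integral_const_mul]
  congr 1
  -- measurability and bounds
  have hsF : StronglyMeasurable fun z : ℝ × ℝ × ℝ => Fp U v e φ z.2.1 s z.1 :=
    sm_Fp hct v e φ (measurable_fst.comp measurable_snd) measurable_const measurable_fst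
  have hsG : StronglyMeasurable fun z : ℝ × ℝ × ℝ => conj (Gp U χ e z.2.2 z.1) :=
    Complex.continuous_conj.comp_stronglyMeasurable
      (sm_Gp hct hχ e (measurable_snd.comp measurable_snd) measurable_fst)
  have hs1 : StronglyMeasurable fun z : ℝ × ℝ × ℝ => q₁ z.2.1 :=
    hm₁.stronglyMeasurable.comp_measurable (measurable_fst.comp measurable_snd)
  have hs2 : StronglyMeasurable fun z : ℝ × ℝ × ℝ => q₂ z.2.2 :=
    hm₂.stronglyMeasurable.comp_measurable (measurable_snd.comp measurable_snd)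
  have hsk1 : StronglyMeasurable fun z : ℝ × ℝ × ℝ => ((z.2.1 : ℝ) : ℂ) :=
    Complex.continuous_ofReal.comp_stronglyMeasurable
      (measurable_fst.comp measurable_snd).stronglyMeasurable
  have hsk2 : StronglyMeasurable fun z : ℝ × ℝ × ℝ => ((z.2.2 : ℝ) : ℂ) :=
    Complex.continuous_ofReal.comp_stronglyMeasurable
      (measurable_snd.comp measurable_snd).stronglyMeasurable
  have hmA : StronglyMeasurable fun z : ℝ × ℝ × ℝ => A z.1 z.2 :=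
    (hs1.mul hsF).mul ((hs2.mul hsk2).mul hsG)
  have hmA' : StronglyMeasurable fun z : ℝ × ℝ × ℝ => A' z.1 z.2 :=
    ((hs1.mul hsk1).mul hsF).mul (hs2.mul hsG)
  set C := ‖φ‖ * (‖v‖ * ‖e‖) with hC
  have hC0 : 0 ≤ C := by positivity
  have hGn : ∀ κ r, ‖conj (Gp U χ e κ r)‖ ≤ M * ‖e‖ := by
    intro κ r; rw [RCLike.norm_conj]; exact norm_Gp hχM e κ r
  have hMe : 0 ≤ M * ‖e‖ := by positivity
  have hbA : ∀ r p, ‖A r p‖ ≤ (Q * C) * (Q * (M * ‖e‖)) := by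
    intro r p
    simp only [hA]
    rw [norm_mul]
    refine mul_le_mul ?_ ?_ (norm_nonneg _) (by positivity)
    · rw [norm_mul]; exact mul_le_mul (hq₁ _) (norm_Fp U v e φ _ _ _) (norm_nonneg _) hQ
    · rw [norm_mul]; exact mul_le_mul (hq₂' _) (hGn _ _) (norm_nonneg _) hQ
  have hbA' : ∀ r p, ‖A' r p‖ ≤ (Q * C) * (Q * (M * ‖e‖)) := by
    intro r p
    simp only [hA']
    rw [norm_mul]
    refine mul_le_mul ?_ ?_ (norm_nonneg _) (by positivity)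
    · rw [norm_mul]; exact mul_le_mul (hq₁' _) (norm_Fp U v e φ _ _ _) (norm_nonneg _) hQ
    · rw [norm_mul]; exact mul_le_mul (hq₂ _) (hGn _ _) (norm_nonneg _) hQ
  rw [← intervalIntegral_integral_swap (f := fun r p => A r p - A' r p)]
  · apply intervalIntegral.integral_congr
    intro r _
    simp only
    have hi : Integrable (A r) (ν.prod ν) := by
      refine Integrable.of_bound
        (hmA.comp_measurable (measurable_prodMk_left (x := r))).aestronglyMeasurable _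
        (Eventually.of_forall (fun p => hbA r p))
    have hi' : Integrable (A' r) (ν.prod ν) := by
      refine Integrable.of_bound
        (hmA'.comp_measurable (measurable_prodMk_left (x := r))).aestronglyMeasurable _
        (Eventually.of_forall (fun p => hbA' r p))
    rw [integral_sub hi hi']
    simp only [hA, hA']
    rw [integral_prod_mul (fun κ => q₁ κ * Fp U v e φ κ s r)
        (fun κ => q₂ κ * κ * conj (Gp U χ e κ r)),
      integral_prod_mul (fun κ => q₁ κ * κ * Fp U v e φ κ s r)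
        (fun κ => q₂ κ * conj (Gp U χ e κ r))]
    ring
  · have : IsFiniteMeasure (volume.restrict (Set.uIoc (0 : ℝ) s)) := ⟨by simp [Set.uIoc]⟩
    refine Integrable.of_bound (hmA.sub hmA').aestronglyMeasurable
      ((Q * C) * (Q * (M * ‖e‖)) + (Q * C) * (Q * (M * ‖e‖)))
      (Eventually.of_forall (fun z => ?_))
    exact (norm_sub_le _ _).trans (add_le_add (hbA _ _) (hbA' _ _))

theorem sm_J {f : ℝ × ℝ → ℂ} (hf : StronglyMeasurable f) :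
    StronglyMeasurable (fun s => ∫ r in (0 : ℝ)..s, f (s, r)) := by
  have h1 : StronglyMeasurable fun s => ∫ r in Set.Ioc (0 : ℝ) s, f (s, r) := by
    have hS : MeasurableSet {p : ℝ × ℝ | 0 < p.2 ∧ p.2 ≤ p.1} :=
      (measurableSet_lt measurable_const measurable_snd).inter
        (measurableSet_le measurable_snd measurable_fst)
    have h2 := (hf.indicator hS).integral_prod_right' (ν := (volume : Measure ℝ))
    refine (congrArg StronglyMeasurable (funext fun s => ?_)).mp h2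
    rw [← integral_indicator measurableSet_Ioc]
    rfl
  have h1' : StronglyMeasurable fun s => ∫ r in Set.Ioc s (0 : ℝ), f (s, r) := by
    have hS : MeasurableSet {p : ℝ × ℝ | p.1 < p.2 ∧ p.2 ≤ 0} :=
      (measurableSet_lt measurable_fst measurable_snd).inter
        (measurableSet_le measurable_snd measurable_const)
    have h2 := (hf.indicator hS).integral_prod_right' (ν := (volume : Measure ℝ))
    refine (congrArg StronglyMeasurable (funext fun s => ?_)).mp h2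
    rw [← integral_indicator measurableSet_Ioc]
    rfl
  simp only [intervalIntegral]
  exact h1.sub h1'

theorem int_J {f : ℝ × ℝ → ℂ} (hf : StronglyMeasurable f) {C : ℝ} (hC : ∀ p, ‖f p‖ ≤ C)
    (N : ℕ) : IntervalIntegrable (fun s => ∫ r in (0 : ℝ)..s, f (s, r)) volume 0 (N : ℝ) := by
  rw [intervalIntegrable_iff_integrableOn_Ioc_of_le (Nat.cast_nonneg _)]
  refine Integrable.of_bound (sm_J hf).aestronglyMeasurable (C * N) ?_
  rw [ae_restrict_iff' measurableSet_Ioc]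
  refine Eventually.of_forall (fun s hs => ?_)
  have h1 := intervalIntegral.norm_integral_le_of_norm_le_const
    (a := (0 : ℝ)) (b := s) (f := fun r => f (s, r)) (C := C) (fun r _ => hC _)
  refine h1.trans ?_
  rw [sub_zero, abs_of_pos hs.1]
  exact mul_le_mul_of_nonneg_left hs.2 ((norm_nonneg _).trans (hC (0, 0)))

/-- the forward half of the identity -/
theorem forward (hAVL : St_AVL) {θ : ℂ} {U : ℝ → UG (L2 ι)} (hct : CT U) {e : L2 ι}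
    (hF : FamT θ U e)
    (ν : Measure ℝ) [IsProbabilityMeasure ν] (v : L2 ι →L[ℂ] L2 ι) (φ : L2 ι)
    (hφ : ∀ κ t, (U κ).U t φ = (U 0).U t φ)
    {χ : ℝ → L2 ι} (hχ : StronglyMeasurable χ) {M : ℝ} (hχM : ∀ κ, ‖χ κ‖ ≤ M)
    {Nk : ℕ → ℕ} (hNk : Tendsto Nk atTop atTop) {B : ℝ → L2 ι →L[ℂ] L2 ι}
    (hav : ∀ᵐ κ ∂ν, ∀ x, Tendsto (fun k => avP (U κ) v (Nk k) x) atTop (𝓝 (B κ x)))
    (hcomm : ∀ᵐ κ ∂ν, ∀ t x, B κ ((U κ).U t x) = (U κ).U t (B κ x))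
    (hχB : ∀ᵐ κ ∂ν, ∀ x, ⟪χ κ, x⟫_ℂ = ⟪φ, B κ x⟫_ℂ)
    {q₁ q₂ : ℝ → ℂ} {Q : ℝ} (hm₁ : Measurable q₁) (hm₂ : Measurable q₂)
    (hq₁ : ∀ κ, ‖q₁ κ‖ ≤ Q) (hq₁' : ∀ κ, ‖q₁ κ * κ‖ ≤ Q)
    (hq₂ : ∀ κ, ‖q₂ κ‖ ≤ Q) (hq₂' : ∀ κ, ‖q₂ κ * κ‖ ≤ Q) {K : ℝ}
    (hK2 : ∫⁻ r : ℝ, ‖∫ κ, q₂ κ * conj (Gp U χ e κ r) ∂ν‖ₑ ^ 2 ≤ ENNReal.ofReal K)
    (hK2' : ∫⁻ r : ℝ, ‖∫ κ, q₂ κ * κ * conj (Gp U χ e κ r) ∂ν‖ₑ ^ 2 ≤ ENNReal.ofReal K)
    (hK1 : ∀ s : ℝ, ∫⁻ r : ℝ, ‖∫ κ, q₁ κ * Fp U v e φ κ s r ∂ν‖ₑ ^ 2 ≤ ENNReal.ofReal K)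
    (hK1' : ∀ s : ℝ, ∫⁻ r : ℝ, ‖∫ κ, q₁ κ * κ * Fp U v e φ κ s r ∂ν‖ₑ ^ 2 ≤
      ENNReal.ofReal K) :
    IntegrableOn (fun r => (∫ κ, q₂ κ * κ * conj (Gp U χ e κ r) ∂ν) *
        (∫ κ, q₁ κ * Gp U χ e κ r ∂ν) -
        (∫ κ, q₂ κ * conj (Gp U χ e κ r) ∂ν) * (∫ κ, q₁ κ * κ * Gp U χ e κ r ∂ν))
      (Set.Ioi 0) ∧
    -θ * ∫ r in Set.Ioi (0 : ℝ), ((∫ κ, q₂ κ * κ * conj (Gp U χ e κ r) ∂ν) *
        (∫ κ, q₁ κ * Gp U χ e κ r ∂ν) -
        (∫ κ, q₂ κ * conj (Gp U χ e κ r) ∂ν) * (∫ κ, q₁ κ * κ * Gp U χ e κ r ∂ν)) =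
      ∫ p : ℝ × ℝ, q₁ p.1 * q₂ p.2 * (⟪χ p.2, χ p.2⟫_ℂ - ⟪χ p.1, χ p.2⟫_ℂ) ∂(ν.prod ν) := by
  have hQ : 0 ≤ Q := (norm_nonneg _).trans (hq₁ 0)
  have hM : 0 ≤ M := (norm_nonneg _).trans (hχM 0)
  have hmk : Measurable fun κ : ℝ => (κ : ℂ) := Complex.measurable_ofReal
  have hm₁' : Measurable fun κ : ℝ => q₁ κ * (κ : ℂ) := hm₁.mul hmk
  have hm₂' : Measurable fun κ : ℝ => q₂ κ * (κ : ℂ) := hm₂.mul hmk
  obtain ⟨i1, l1⟩ := apply_AVL hAVL hct ν v e φ hφ hχ hχM hNk hav hcomm hχB hm₁ hq₁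
    hm₂' hq₂' hK2' hK1
  obtain ⟨i2, l2⟩ := apply_AVL hAVL hct ν v e φ hφ hχ hχM hNk hav hcomm hχB hm₁'
    hq₁' hm₂ hq₂ hK2 hK1'
  refine ⟨i1.sub i2, ?_⟩
  rw [integral_sub i1 i2]
  have hlim := ((l1.sub l2).const_mul (-θ))
  -- the sequence of averages
  set S : ℕ → ℂ := fun N => ∫ p : ℝ × ℝ, q₁ p.1 * q₂ p.2 *
    ((N : ℂ)⁻¹ * ∫ s in (0 : ℝ)..(N : ℝ), Ph U v φ χ p.1 p.2 s) ∂(ν.prod ν) with hS
  have hSlim : Tendsto (fun k => S (Nk k)) atTop (𝓝 (∫ p : ℝ × ℝ, q₁ p.1 * q₂ p.2 *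
      (⟪χ p.2, χ p.2⟫_ℂ - ⟪χ p.1, χ p.2⟫_ℂ) ∂(ν.prod ν))) := by
    rw [hS]
    refine tendsto_integral_of_dominated_convergence
      (fun _ => Q * Q * (2 * (‖φ‖ * (‖v‖ * M)))) ?_ (integrable_const _) ?_ ?_
    · intro k
      have h1 : StronglyMeasurable fun p : ℝ × ℝ =>
          ∫ s in (0 : ℝ)..(Nk k : ℝ), Ph U v φ χ p.1 p.2 s := by
        have h2 : StronglyMeasurable fun z : (ℝ × ℝ) × ℝ => Ph U v φ χ z.1.1 z.1.2 z.2 :=
          sm_Ph hct v φ hχ (measurable_fst.comp measurable_fst)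
            (measurable_snd.comp measurable_fst) measurable_snd
        simp only [intervalIntegral]
        exact (h2.integral_prod_right' (ν := volume.restrict (Set.Ioc 0 (Nk k : ℝ)))).sub
          (h2.integral_prod_right' (ν := volume.restrict (Set.Ioc (Nk k : ℝ) 0)))
      exact (((hm₁.stronglyMeasurable.comp_measurable measurable_fst).mul
        (hm₂.stronglyMeasurable.comp_measurable measurable_snd)).mul
        (stronglyMeasurable_const.mul h1)).aestronglyMeasurable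
    · intro k
      refine Eventually.of_forall (fun p => ?_)
      rw [norm_mul]
      refine mul_le_mul ?_ ?_ (norm_nonneg _) (by positivity)
      · rw [norm_mul]; exact mul_le_mul (hq₁ _) (hq₂ _) (norm_nonneg _) hQ
      · rw [norm_mul, norm_inv, Complex.norm_natCast]
        have h1 := intervalIntegral.norm_integral_le_of_norm_le_const
          (a := (0 : ℝ)) (b := (Nk k : ℝ)) (f := fun s => Ph U v φ χ p.1 p.2 s)
          (C := 2 * (‖φ‖ * (‖v‖ * M))) (fun s _ => norm_Ph U v φ hχM _ _ _)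
        rw [sub_zero, abs_of_nonneg (Nat.cast_nonneg _)] at h1
        have hP : 0 ≤ 2 * (‖φ‖ * (‖v‖ * M)) := by positivity
        calc (Nk k : ℝ)⁻¹ * ‖∫ s in (0 : ℝ)..(Nk k : ℝ), Ph U v φ χ p.1 p.2 s‖
            ≤ (Nk k : ℝ)⁻¹ * (2 * (‖φ‖ * (‖v‖ * M)) * (Nk k : ℝ)) :=
              mul_le_mul_of_nonneg_left h1 (by positivity)
          _ = (2 * (‖φ‖ * (‖v‖ * M))) * ((Nk k : ℝ)⁻¹ * (Nk k : ℝ)) := by ring
          _ ≤ (2 * (‖φ‖ * (‖v‖ * M))) * 1 := by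
              refine mul_le_mul_of_nonneg_left ?_ hP
              exact inv_mul_le_one
          _ = _ := mul_one _
    · -- pointwise limit
      have hq1 : ∀ᵐ p ∂(ν.prod ν), (∀ x, Tendsto (fun k => avP (U p.1) v (Nk k) x) atTop
          (𝓝 (B p.1 x))) ∧ ∀ x, ⟪χ p.1, x⟫_ℂ = ⟪φ, B p.1 x⟫_ℂ :=
        Measure.quasiMeasurePreserving_fst.ae (hav.and hχB)
      have hq2 : ∀ᵐ p ∂(ν.prod ν), (∀ x, Tendsto (fun k => avP (U p.2) v (Nk k) x) atTop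
          (𝓝 (B p.2 x))) ∧ ∀ x, ⟪χ p.2, x⟫_ℂ = ⟪φ, B p.2 x⟫_ℂ :=
        Measure.quasiMeasurePreserving_snd.ae (hav.and hχB)
      filter_upwards [hq1, hq2] with p hp1 hp2
      refine tendsto_const_nhds.mul ?_
      rw [hp2.2, hp1.2]
      have h3 : Tendsto (fun k => ⟪φ, avP (U p.2) v (Nk k) (χ p.2)⟫_ℂ -
          ⟪φ, avP (U p.1) v (Nk k) (χ p.2)⟫_ℂ) atTop
          (𝓝 (⟪φ, B p.2 (χ p.2)⟫_ℂ - ⟪φ, B p.1 (χ p.2)⟫_ℂ)) :=
        (tendsto_const_nhds.inner (hp2.1 _)).sub (tendsto_const_nhds.inner (hp1.1 _))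
      refine h3.congr (fun k => ?_)
      rw [inner_avP, inner_avP, ← mul_sub, ← intervalIntegral.integral_sub]
      · congr 1
        apply intervalIntegral.integral_congr
        intro s _
        simp only [Ph]
        rw [inner_U_right, inner_U_right, neg_neg, hφ p.1, hφ p.2]
      · exact (continuous_const.inner (cont_av _ _ _)).intervalIntegrable _ _
      · exact (continuous_const.inner (cont_av _ _ _)).intervalIntegrable _ _
  -- swap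
  have hSeq : ∀ N : ℕ, S N = -θ * ((N : ℂ)⁻¹ * (∫ s in (0 : ℝ)..(N : ℝ),
      ∫ r in (0 : ℝ)..s, (∫ κ, q₂ κ * κ * conj (Gp U χ e κ r) ∂ν) *
        ∫ κ, q₁ κ * Fp U v e φ κ s r ∂ν) - (N : ℂ)⁻¹ * ∫ s in (0 : ℝ)..(N : ℝ),
      ∫ r in (0 : ℝ)..s, (∫ κ, q₂ κ * conj (Gp U χ e κ r) ∂ν) *
        ∫ κ, q₁ κ * κ * Fp U v e φ κ s r ∂ν) := by
    intro N
    have h1 : S N = (N : ℂ)⁻¹ * ∫ s in (0 : ℝ)..(N : ℝ), ∫ p : ℝ × ℝ,
        q₁ p.1 * q₂ p.2 * Ph U v φ χ p.1 p.2 s ∂(ν.prod ν) := by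
      rw [intervalIntegral_integral_swap, ← integral_const_mul]
      · refine integral_congr_ae (Eventually.of_forall (fun p => ?_))
        simp only
        rw [intervalIntegral.integral_const_mul]
        ring
      · have h2 : StronglyMeasurable fun z : ℝ × ℝ × ℝ =>
            q₁ z.2.1 * q₂ z.2.2 * Ph U v φ χ z.2.1 z.2.2 z.1 :=
          ((hm₁.stronglyMeasurable.comp_measurable (measurable_fst.comp measurable_snd)).mul
            (hm₂.stronglyMeasurable.comp_measurable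
              (measurable_snd.comp measurable_snd))).mul
            (sm_Ph hct v φ hχ (measurable_fst.comp measurable_snd)
              (measurable_snd.comp measurable_snd) measurable_fst)
        have : IsFiniteMeasure (volume.restrict (Set.uIoc (0 : ℝ) (N : ℝ))) :=
          ⟨by simp [Set.uIoc]⟩
        refine Integrable.of_bound h2.aestronglyMeasurable
          (Q * Q * (2 * (‖φ‖ * (‖v‖ * M)))) (Eventually.of_forall (fun z => ?_))
        simp only [Function.uncurry]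
        rw [norm_mul]
        refine mul_le_mul ?_ (norm_Ph U v φ hχM _ _ _) (norm_nonneg _) (by positivity)
        rw [norm_mul]; exact mul_le_mul (hq₁ _) (hq₂ _) (norm_nonneg _) hQ
    rw [h1]
    simp only [claimA hct hF ν v φ hχ hχM hm₁ hm₂ hq₁ hq₁' hq₂ hq₂']
    rw [intervalIntegral.integral_const_mul]
    -- split the difference
    have hsF : StronglyMeasurable fun z : (ℝ × ℝ) × ℝ => Fp U v e φ z.2 z.1.1 z.1.2 :=
      sm_Fp hct v e φ measurable_snd (measurable_fst.comp measurable_fst)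
        (measurable_snd.comp measurable_fst)
    have hsG : StronglyMeasurable fun z : (ℝ × ℝ) × ℝ => conj (Gp U χ e z.2 z.1.2) :=
      Complex.continuous_conj.comp_stronglyMeasurable
        (sm_Gp hct hχ e measurable_snd (measurable_snd.comp measurable_fst))
    have hmul : ∀ {q : ℝ → ℂ}, Measurable q →
        StronglyMeasurable fun p : ℝ × ℝ => ∫ κ, q κ * Fp U v e φ κ p.1 p.2 ∂ν := by
      intro q hqm
      exact ((hqm.stronglyMeasurable.comp_measurable measurable_snd).mul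
        hsF).integral_prod_right' (ν := ν)
    have hmulG : ∀ {q : ℝ → ℂ}, Measurable q →
        StronglyMeasurable fun p : ℝ × ℝ => ∫ κ, q κ * conj (Gp U χ e κ p.2) ∂ν := by
      intro q hqm
      exact ((hqm.stronglyMeasurable.comp_measurable measurable_snd).mul
        hsG).integral_prod_right' (ν := ν)
    have hb1 : ∀ {q : ℝ → ℂ}, (∀ κ, ‖q κ‖ ≤ Q) → ∀ s r,
        ‖∫ κ, q κ * Fp U v e φ κ s r ∂ν‖ ≤ Q * (‖φ‖ * (‖v‖ * ‖e‖)) := by
      intro q hq s r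
      exact norm_int_le ν hq (fun κ => norm_Fp U v e φ κ s r)
    have hb2 : ∀ {q : ℝ → ℂ}, (∀ κ, ‖q κ‖ ≤ Q) → ∀ r,
        ‖∫ κ, q κ * conj (Gp U χ e κ r) ∂ν‖ ≤ Q * (M * ‖e‖) := by
      intro q hq r
      refine norm_int_le ν hq (fun κ => ?_)
      rw [RCLike.norm_conj]
      exact norm_Gp hχM e κ r
    have hMe : 0 ≤ M * ‖e‖ := by positivity
    have m1 := (hmulG hm₂').mul (hmul hm₁)
    have m2 := (hmulG hm₂).mul (hmul hm₁')
    have b1 : ∀ p : ℝ × ℝ, ‖(∫ κ, q₂ κ * κ * conj (Gp U χ e κ p.2) ∂ν) *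
        ∫ κ, q₁ κ * Fp U v e φ κ p.1 p.2 ∂ν‖ ≤
        (Q * (M * ‖e‖)) * (Q * (‖φ‖ * (‖v‖ * ‖e‖))) := by
      intro p
      rw [norm_mul]
      exact mul_le_mul (hb2 hq₂' _) (hb1 hq₁ _ _) (norm_nonneg _) (by positivity)
    have b2 : ∀ p : ℝ × ℝ, ‖(∫ κ, q₂ κ * conj (Gp U χ e κ p.2) ∂ν) *
        ∫ κ, q₁ κ * κ * Fp U v e φ κ p.1 p.2 ∂ν‖ ≤
        (Q * (M * ‖e‖)) * (Q * (‖φ‖ * (‖v‖ * ‖e‖))) := by
      intro p
      rw [norm_mul]
      exact mul_le_mul (hb2 hq₂ _) (hb1 hq₁' _ _) (norm_nonneg _) (by positivity)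
    have j1 : IntervalIntegrable (fun s => ∫ r in (0 : ℝ)..s,
        (∫ κ, q₂ κ * κ * conj (Gp U χ e κ r) ∂ν) *
          ∫ κ, q₁ κ * Fp U v e φ κ s r ∂ν) volume 0 (N : ℝ) := int_J m1 b1 N
    have j2 : IntervalIntegrable (fun s => ∫ r in (0 : ℝ)..s,
        (∫ κ, q₂ κ * conj (Gp U χ e κ r) ∂ν) *
          ∫ κ, q₁ κ * κ * Fp U v e φ κ s r ∂ν) volume 0 (N : ℝ) := int_J m2 b2 N
    rw [← mul_sub, ← intervalIntegral.integral_sub j1 j2]
    have hin : ∀ s : ℝ, ∫ r in (0 : ℝ)..s,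
        ((∫ κ, q₂ κ * κ * conj (Gp U χ e κ r) ∂ν) * (∫ κ, q₁ κ * Fp U v e φ κ s r ∂ν) -
        (∫ κ, q₂ κ * conj (Gp U χ e κ r) ∂ν) * (∫ κ, q₁ κ * κ * Fp U v e φ κ s r ∂ν)) =
        (∫ r in (0 : ℝ)..s, (∫ κ, q₂ κ * κ * conj (Gp U χ e κ r) ∂ν) *
          ∫ κ, q₁ κ * Fp U v e φ κ s r ∂ν) -
        ∫ r in (0 : ℝ)..s, (∫ κ, q₂ κ * conj (Gp U χ e κ r) ∂ν) *
          ∫ κ, q₁ κ * κ * Fp U v e φ κ s r ∂ν := by
      intro s
      apply intervalIntegral.integral_sub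
      · rw [intervalIntegrable_iff]
        have : IsFiniteMeasure (volume.restrict (Set.uIoc (0 : ℝ) s)) :=
          ⟨by simp [Set.uIoc]⟩
        exact Integrable.of_bound
          (m1.comp_measurable (measurable_prodMk_left (x := s))).aestronglyMeasurable _
          (Eventually.of_forall (fun r => b1 (s, r)))
      · rw [intervalIntegrable_iff]
        have : IsFiniteMeasure (volume.restrict (Set.uIoc (0 : ℝ) s)) :=
          ⟨by simp [Set.uIoc]⟩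
        exact Integrable.of_bound
          (m2.comp_measurable (measurable_prodMk_left (x := s))).aestronglyMeasurable _
          (Eventually.of_forall (fun r => b2 (s, r)))
    simp only [hin]
    ring
  have hSlim2 : Tendsto (fun k => S (Nk k)) atTop (𝓝 (-θ *
      ((∫ r in Set.Ioi (0 : ℝ), (∫ κ, q₂ κ * κ * conj (Gp U χ e κ r) ∂ν) *
        ∫ κ, q₁ κ * Gp U χ e κ r ∂ν) -
      ∫ r in Set.Ioi (0 : ℝ), (∫ κ, q₂ κ * conj (Gp U χ e κ r) ∂ν) *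
        ∫ κ, q₁ κ * κ * Gp U χ e κ r ∂ν))) := by
    refine hlim.congr (fun k => ?_)
    rw [hSeq]
  exact tendsto_nhds_unique hSlim2 hSlim

/-- the uniform square integrability -/
def SB (U : ℝ → UG (L2 ι)) (e : L2 ι) (ν : Measure ℝ) (Q R M K : ℝ) : Prop :=
  ∀ (q : ℝ → ℂ) (χ : ℝ → L2 ι), Measurable q → (∀ κ, ‖q κ‖ ≤ Q) → (∀ κ, R < |κ| → q κ = 0) →
    StronglyMeasurable χ → (∀ κ, ‖χ κ‖ ≤ M) →
      ∫⁻ t : ℝ, ‖∫ κ, q κ * ⟪χ κ, (U κ).U t e⟫_ℂ ∂ν‖ₑ ^ 2 ≤ ENNReal.ofReal K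

theorem SB_rev {U : ℝ → UG (L2 ι)} {e : L2 ι} {ν : Measure ℝ} {Q R M K : ℝ}
    (h : SB U e ν Q R M K) : SB (fun κ => rev (U κ)) e ν Q R M K := by
  intro q χ h1 h2 h3 h4 h5
  have h6 := h q χ h1 h2 h3 h4 h5
  rw [← lintegral_neg_eq_self] at h6
  exact h6

theorem SB_G {U : ℝ → UG (L2 ι)} {e : L2 ι} {ν : Measure ℝ} {Q R M K : ℝ}
    (h : SB U e ν Q R M K) {χ : ℝ → L2 ι} (hχ : StronglyMeasurable χ)
    (hχM : ∀ κ, ‖χ κ‖ ≤ M) {q : ℝ → ℂ} (hqm : Measurable q) (hq : ∀ κ, ‖q κ‖ ≤ Q)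
    (hR : ∀ κ, R < |κ| → q κ = 0) :
    ∫⁻ r : ℝ, ‖∫ κ, q κ * conj (Gp U χ e κ r) ∂ν‖ₑ ^ 2 ≤ ENNReal.ofReal K := by
  have h1 := h (fun κ => conj (q κ)) χ (Complex.continuous_conj.measurable.comp hqm)
    (fun κ => by rw [RCLike.norm_conj]; exact hq κ)
    (fun κ hκ => by rw [hR κ hκ, map_zero]) hχ hχM
  rw [← lintegral_neg_eq_self] at h1
  refine le_trans (le_of_eq ?_) h1
  refine lintegral_congr (fun r => ?_)
  have h2 : ∫ κ, q κ * conj (Gp U χ e κ r) ∂ν =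
      conj (∫ κ, conj (q κ) * ⟪χ κ, (U κ).U (-r) e⟫_ℂ ∂ν) := by
    rw [← integral_conj]
    refine integral_congr_ae (Eventually.of_forall (fun κ => ?_))
    simp only [map_mul, Complex.conj_conj, Gp]
  rw [h2]
  congr 1
  rw [← ofReal_norm, ← ofReal_norm, RCLike.norm_conj]

theorem SB_F {U : ℝ → UG (L2 ι)} {e : L2 ι} {ν : Measure ℝ} {Q R M K : ℝ}
    (h : SB U e ν Q R M K) (v : L2 ι →L[ℂ] L2 ι) (φ : L2 ι) (hM : ‖v‖ * ‖φ‖ ≤ M)
    {q : ℝ → ℂ} (hqm : Measurable q) (hq : ∀ κ, ‖q κ‖ ≤ Q)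
    (hR : ∀ κ, R < |κ| → q κ = 0) (s : ℝ) :
    ∫⁻ r : ℝ, ‖∫ κ, q κ * Fp U v e φ κ s r ∂ν‖ₑ ^ 2 ≤ ENNReal.ofReal K := by
  have h1 := h q (fun _ => ContinuousLinearMap.adjoint v ((U 0).U s φ)) hqm hq hR
    stronglyMeasurable_const (by
      intro κ
      refine le_trans (ContinuousLinearMap.le_opNorm _ _) ?_
      rw [(U 0).norm', LinearIsometryEquiv.norm_map]
      exact hM)
  rw [← lintegral_sub_left_eq_self _ s] at h1
  refine le_trans (le_of_eq ?_) h1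
  refine lintegral_congr (fun r => ?_)
  congr 2
  refine integral_congr_ae (Eventually.of_forall (fun κ => ?_))
  simp only [Fp, ContinuousLinearMap.adjoint_inner_left]

/-- measurability of the adjoint vector -/
theorem meas_psi [Countable ι] {U : ℝ → UG (L2 ι)} (hct : CT U) (ν : Measure ℝ)
    (v : L2 ι →L[ℂ] L2 ι) (φ : L2 ι) {Nk : ℕ → ℕ} {B : ℝ → L2 ι →L[ℂ] L2 ι}
    (hav : ∀ᵐ κ ∂ν, ∀ x, Tendsto (fun k => avP (U κ) v (Nk k) x) atTop (𝓝 (B κ x))) :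
    AEStronglyMeasurable (fun κ => ContinuousLinearMap.adjoint (B κ) φ) ν := by
  classical
  have h1 : ∀ z : L2 ι, AEStronglyMeasurable (fun κ => ⟪φ, B κ z⟫_ℂ) ν := by
    intro z
    refine aestronglyMeasurable_of_tendsto_ae atTop
      (f := fun k κ => ⟪φ, avP (U κ) v (Nk k) z⟫_ℂ) (fun k => ?_) ?_
    · simp only [inner_avP]
      have h2 : StronglyMeasurable fun p : ℝ × ℝ =>
          ⟪φ, (U p.1).U (-p.2) (v ((U p.1).U p.2 z))⟫_ℂ :=
        (stronglyMeasurable_const (b := φ)).inner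
          (sm_U hct measurable_fst measurable_snd.neg
            (v.continuous.comp_stronglyMeasurable
              (sm_U hct measurable_fst measurable_snd stronglyMeasurable_const)))
      have h3 : StronglyMeasurable fun κ : ℝ => ∫ u in (0 : ℝ)..(Nk k : ℝ),
          ⟪φ, (U κ).U (-u) (v ((U κ).U u z))⟫_ℂ := by
        simp only [intervalIntegral]
        exact (h2.integral_prod_right' (ν := volume.restrict (Set.Ioc 0 (Nk k : ℝ)))).sub
          (h2.integral_prod_right' (ν := volume.restrict (Set.Ioc (Nk k : ℝ) 0)))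
      exact (stronglyMeasurable_const.mul h3).aestronglyMeasurable
    · filter_upwards [hav] with κ hκ
      exact tendsto_const_nhds.inner (hκ z)
  -- coordinates
  have h2 : ∀ x : ι, AEStronglyMeasurable
      (fun κ => (ContinuousLinearMap.adjoint (B κ) φ : L2 ι) x) ν := by
    intro x
    have h3 : (fun κ => (ContinuousLinearMap.adjoint (B κ) φ : L2 ι) x) =
        fun κ => conj (⟪φ, B κ (lp.single 2 x (1 : ℂ))⟫_ℂ) := by
      funext κ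
      rw [← ContinuousLinearMap.adjoint_inner_left, inner_conj_symm, lp.inner_single_left]
      simp
    rw [h3]
    exact Complex.continuous_conj.comp_aestronglyMeasurable (h1 _)
  refine aestronglyMeasurable_of_tendsto_ae (atTop : Filter (Finset ι))
    (f := fun s κ => ∑ x ∈ s, lp.single 2 x ((ContinuousLinearMap.adjoint (B κ) φ : L2 ι) x))
    (fun s => ?_) (Eventually.of_forall (fun κ => ?_))
  · refine Finset.aestronglyMeasurable_fun_sum s (fun x _ => ?_)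
    have h4 : (fun κ => (lp.single 2 x ((ContinuousLinearMap.adjoint (B κ) φ : L2 ι) x) :
        L2 ι)) = fun κ => ((ContinuousLinearMap.adjoint (B κ) φ : L2 ι) x) •
          (lp.single 2 x (1 : ℂ) : L2 ι) := by
      funext κ
      rw [← lp.single_smul, smul_eq_mul, mul_one]
    rw [h4]
    exact (h2 x).smul_const _
  · exact lp.hasSum_single (by norm_num) (ContinuousLinearMap.adjoint (B κ) φ)

end fwd

end STAR

open STAR in
theorem t_STAR (h1 : St_S1) (h2 : St_BP) (h3 : St_NN) (h4 : St_CT) (h5 : St_AVL) :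
    St_STAR := by
  intro ι _ U e hFam ν _ C hν v Nk hNk B hgood φ hφ0 q₁ q₂ R hm₁ hm₂ hq₁ hq₂ hR
  have hct : STAR.CT U := h4 ι U e hFam
  have hφ : ∀ κ t, (U κ).U t φ = (U 0).U t φ := fun κ t => (h3 ι U e hFam 0 κ φ hφ0).2 t
  have hav : ∀ᵐ κ ∂ν, ∀ x, Tendsto (fun k => avP (U κ) v (Nk k) x) atTop (𝓝 (B κ x)) := by
    filter_upwards [hgood] with κ hκ x
    exact (hκ x).1
  have havM : ∀ᵐ κ ∂ν, ∀ x, Tendsto (fun k => avM (U κ) v (Nk k) x) atTop (𝓝 (B κ x)) := by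
    filter_upwards [hgood] with κ hκ x
    exact (hκ x).2
  have hBP : ∀ᵐ κ ∂ν, (∀ x, ‖B κ x‖ ≤ ‖v‖ * ‖x‖) ∧
      ∀ t x, B κ ((U κ).U t x) = (U κ).U t (B κ x) := by
    filter_upwards [hgood] with κ hκ
    exact h2 ι (U κ) v Nk hNk (B κ) hκ
  have hcomm : ∀ᵐ κ ∂ν, ∀ t x, B κ ((U κ).U t x) = (U κ).U t (B κ x) := by
    filter_upwards [hBP] with κ hκ
    exact hκ.2
  -- the vector `χ`
  set M : ℝ := ‖v‖ * ‖φ‖ with hMdef
  have hM0 : 0 ≤ M := by positivity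
  obtain ⟨ψ, hψm, hψ⟩ := STAR.meas_psi hct ν v φ hav
  set χ : ℝ → L2 ι := Set.indicator {κ | ‖ψ κ‖ ≤ M} ψ with hχdef
  have hχ : StronglyMeasurable χ :=
    hψm.indicator (measurableSet_le hψm.norm.measurable measurable_const)
  have hχM : ∀ κ, ‖χ κ‖ ≤ M := by
    intro κ
    rw [hχdef]
    by_cases hκ : κ ∈ {κ | ‖ψ κ‖ ≤ M}
    · rw [Set.indicator_of_mem hκ]; exact hκ
    · rw [Set.indicator_of_notMem hκ, norm_zero]; exact hM0
  have hχB : ∀ᵐ κ ∂ν, ∀ x, ⟪χ κ, x⟫_ℂ = ⟪φ, B κ x⟫_ℂ := by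
    filter_upwards [hψ, hBP] with κ h6 h7 x
    have h8 : ‖B κ‖ ≤ ‖v‖ := ContinuousLinearMap.opNorm_le_bound _ (norm_nonneg _) h7.1
    have h9 : κ ∈ {κ | ‖ψ κ‖ ≤ M} := by
      show ‖ψ κ‖ ≤ M
      rw [← h6]
      refine le_trans (ContinuousLinearMap.le_opNorm _ _) ?_
      rw [LinearIsometryEquiv.norm_map]
      exact mul_le_mul_of_nonneg_right h8 (norm_nonneg _)
    rw [hχdef, Set.indicator_of_mem h9, ← h6, ContinuousLinearMap.adjoint_inner_left]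
  -- the coefficient functions
  set Q : ℝ := 1 + |R| with hQdef
  have hQ1 : (1 : ℝ) ≤ Q := by rw [hQdef]; linarith [abs_nonneg R]
  have hb1 : ∀ {q : ℝ → ℂ}, (∀ κ, ‖q κ‖ ≤ 1) → ∀ κ, ‖q κ‖ ≤ Q :=
    fun h κ => (h κ).trans hQ1
  have hb2 : ∀ {q : ℝ → ℂ}, (∀ κ, ‖q κ‖ ≤ 1) → (∀ κ, R < |κ| → q κ = 0) →
      ∀ κ : ℝ, ‖q κ * (κ : ℂ)‖ ≤ Q := by
    intro q hq hqR κ
    by_cases hκ : R < |κ|
    · rw [hqR κ hκ, zero_mul, norm_zero]; linarith
    · rw [norm_mul, Complex.norm_real, Real.norm_eq_abs]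
      push Not at hκ
      calc ‖q κ‖ * |κ| ≤ 1 * |κ| := mul_le_mul_of_nonneg_right (hq κ) (abs_nonneg _)
        _ ≤ R := by rw [one_mul]; exact hκ
        _ ≤ Q := by rw [hQdef]; linarith [le_abs_self R]
  have hR₁ : ∀ κ, R < |κ| → q₁ κ = 0 := fun κ hκ => (hR κ hκ).1
  have hR₂ : ∀ κ, R < |κ| → q₂ κ = 0 := fun κ hκ => (hR κ hκ).2
  have hR₁' : ∀ κ : ℝ, R < |κ| → q₁ κ * (κ : ℂ) = 0 := fun κ hκ => by
    rw [hR₁ κ hκ, zero_mul]
  have hR₂' : ∀ κ : ℝ, R < |κ| → q₂ κ * (κ : ℂ) = 0 := fun κ hκ => by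
    rw [hR₂ κ hκ, zero_mul]
  have hmk : Measurable fun κ : ℝ => (κ : ℂ) := Complex.measurable_ofReal
  have hm₁' : Measurable fun κ : ℝ => q₁ κ * (κ : ℂ) := hm₁.mul hmk
  have hm₂' : Measurable fun κ : ℝ => q₂ κ * (κ : ℂ) := hm₂.mul hmk
  -- square integrability
  set K : ℝ := 8 * C * Q ^ 2 * M ^ 2 with hKdef
  have hSB : STAR.SB U e ν Q R M K := by
    intro q χ' g1 g2 g3 g4 g5
    have h6 := h1 ι U e hFam ν C hν q Q R g1 g2 g3 χ' M g4.aestronglyMeasurable g5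
    rw [measure_univ, mul_one] at h6
    exact h6
  have hSB' := STAR.SB_rev hSB
  obtain ⟨i1, e1⟩ := STAR.forward h5 hct (STAR.FamT_of U e hFam) ν v φ hφ hχ hχM hNk hav
    hcomm hχB hm₁ hm₂ (hb1 hq₁) (hb2 hq₁ hR₁) (hb1 hq₂) (hb2 hq₂ hR₂)
    (STAR.SB_G hSB hχ hχM hm₂ (hb1 hq₂) hR₂)
    (STAR.SB_G hSB hχ hχM hm₂' (hb2 hq₂ hR₂) hR₂')
    (STAR.SB_F hSB v φ le_rfl hm₁ (hb1 hq₁) hR₁)
    (STAR.SB_F hSB v φ le_rfl hm₁' (hb2 hq₁ hR₁) hR₁')
  have hct' : STAR.CT (fun κ => STAR.rev (U κ)) := by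
    have h6 : Continuous fun p : ℝ × ℝ × L2 ι => (p.1, -p.2.1, p.2.2) := by fun_prop
    exact hct.comp h6
  have hav' : ∀ᵐ κ ∂ν, ∀ x, Tendsto (fun k => avP (STAR.rev (U κ)) v (Nk k) x) atTop
      (𝓝 (B κ x)) := by
    filter_upwards [havM] with κ hκ x
    simp only [STAR.avP_rev]
    exact hκ x
  have hcomm' : ∀ᵐ κ ∂ν, ∀ t x, B κ ((STAR.rev (U κ)).U t x) =
      (STAR.rev (U κ)).U t (B κ x) := by
    filter_upwards [hcomm] with κ hκ t x
    exact hκ (-t) x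
  obtain ⟨i2, e2⟩ := STAR.forward h5 hct' (STAR.FamT_rev U e hFam) ν v φ
    (fun κ t => hφ κ (-t)) hχ hχM hNk hav'
    hcomm' hχB hm₁ hm₂ (hb1 hq₁) (hb2 hq₁ hR₁) (hb1 hq₂) (hb2 hq₂ hR₂)
    (STAR.SB_G hSB' hχ hχM hm₂ (hb1 hq₂) hR₂)
    (STAR.SB_G hSB' hχ hχM hm₂' (hb2 hq₂ hR₂) hR₂')
    (STAR.SB_F hSB' v φ le_rfl hm₁ (hb1 hq₁) hR₁)
    (STAR.SB_F hSB' v φ le_rfl hm₁' (hb2 hq₁ hR₁) hR₁')
  -- combine
  set h : ℝ → ℂ := fun r => (∫ κ, q₂ κ * κ * conj (STAR.Gp U χ e κ r) ∂ν) *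
        (∫ κ, q₁ κ * STAR.Gp U χ e κ r ∂ν) -
        (∫ κ, q₂ κ * conj (STAR.Gp U χ e κ r) ∂ν) *
          (∫ κ, q₁ κ * κ * STAR.Gp U χ e κ r ∂ν) with hh
  have i2' : IntegrableOn (fun r => h (-r)) (Set.Ioi 0) := i2
  have e2' : -(-Complex.I) * ∫ r in Set.Ioi (0 : ℝ), h (-r) =
      ∫ p : ℝ × ℝ, q₁ p.1 * q₂ p.2 * (⟪χ p.2, χ p.2⟫_ℂ - ⟪χ p.1, χ p.2⟫_ℂ) ∂(ν.prod ν) := e2
  have i1' : IntegrableOn h (Set.Ioi 0) := i1
  have i3 : IntegrableOn h (Set.Iic 0) := by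
    rw [integrableOn_Iic_iff_integrableOn_Iio]
    have h6 := (Measure.measurePreserving_neg (volume : Measure ℝ)).integrableOn_comp_preimage
      (MeasurableEquiv.neg ℝ).measurableEmbedding (f := h) (s := Set.Iio 0)
    rw [← h6]
    have h7 : (Neg.neg ⁻¹' Set.Iio (0 : ℝ)) = Set.Ioi 0 := by
      ext x; simp
    rw [h7]
    exact i2'
  have hsum := intervalIntegral.integral_Iic_add_Ioi i3 i1'
  have hneg := integral_comp_neg_Ioi (0 : ℝ) h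
  rw [neg_zero] at hneg
  have hzero : ∫ r, h r = 0 := by
    rw [← hsum, ← hneg]
    have e3 := e1.trans e2'.symm
    have e4 : Complex.I * ((∫ r in Set.Ioi (0 : ℝ), h (-r)) + ∫ r in Set.Ioi (0 : ℝ), h r) =
        0 := by linear_combination -e3
    exact (mul_eq_zero.1 e4).resolve_left Complex.I_ne_zero
  rw [← hzero]
  refine integral_congr_ae (Eventually.of_forall (fun r => ?_))
  have hG : ∀ᵐ κ ∂ν, G U B e φ κ r = STAR.Gp U χ e κ r := by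
    filter_upwards [hχB] with κ hκ
    unfold G STAR.Gp
    rw [hκ]
  simp only [hh]
  have c1 : ∫ κ, q₂ κ * κ * conj (G U B e φ κ r) ∂ν =
      ∫ κ, q₂ κ * κ * conj (STAR.Gp U χ e κ r) ∂ν := by
    refine integral_congr_ae ?_
    filter_upwards [hG] with κ hκ
    rw [hκ]
  have c2 : ∫ κ, q₁ κ * G U B e φ κ r ∂ν = ∫ κ, q₁ κ * STAR.Gp U χ e κ r ∂ν := by
    refine integral_congr_ae ?_
    filter_upwards [hG] with κ hκ
    rw [hκ]
  have c3 : ∫ κ, q₂ κ * conj (G U B e φ κ r) ∂ν =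
      ∫ κ, q₂ κ * conj (STAR.Gp U χ e κ r) ∂ν := by
    refine integral_congr_ae ?_
    filter_upwards [hG] with κ hκ
    rw [hκ]
  have c4 : ∫ κ, q₁ κ * κ * G U B e φ κ r ∂ν = ∫ κ, q₁ κ * κ * STAR.Gp U χ e κ r ∂ν := by
    refine integral_congr_ae ?_
    filter_upwards [hG] with κ hκ
    rw [hκ]
  rw [c1, c2, c3, c4]

end Pool.Agent.H5R2.NB
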