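import Pool.Agent.H5R2.NB.Defs

set_option autoImplicit false

open MeasureTheory Filter Topology
open scoped BigOperators ENNReal NNReal InnerProductSpace ComplexConjugate

namespace Pool.Agent.H5R2.NB

namespace STAT

lemma inner_dl {d : ℕ} (x : Site d) (f : L2 (Site d)) : ⟪dl x, f⟫_ℂ = f x := by
  unfold dl
  rw [lp.inner_single_left]
  simp

lemma inner_dl' {d : ℕ} (x : Site d) (f : L2 (Site d)) : ⟪f, dl x⟫_ℂ = conj (f x) := by
  rw [← inner_conj_symm, inner_dl]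

lemma cont_eval {d : ℕ} (x : Site d) : Continuous fun f : L2 (Site d) => f x := by
  have : (fun f : L2 (Site d) => f x) = fun f => ⟪dl x, f⟫_ℂ := by
    funext f; rw [inner_dl]
  rw [this]
  exact continuous_const.inner continuous_id

lemma inner_UG {ι : Type} (W : UG (L2 ι)) (t : ℝ) (x y : L2 ι) :
    ⟪W.U t x, W.U t y⟫_ℂ = ⟪x, y⟫_ℂ := by
  let f : L2 ι →ₗᵢ[ℂ] L2 ι := ⟨(W.U t).toLinearMap, W.norm' t⟩
  exact f.inner_map_map x y

lemma UG_neg {ι : Type} (W : UG (L2 ι)) (t : ℝ) (x : L2 ι) : W.U (-t) (W.U t x) = x := by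
  rw [← W.add', neg_add_cancel, W.zero']

lemma UG_neg' {ι : Type} (W : UG (L2 ι)) (t : ℝ) (x : L2 ι) : W.U t (W.U (-t) x) = x := by
  rw [← W.add', add_neg_cancel, W.zero']

lemma inner_adj {ι : Type} (W : UG (L2 ι)) (t : ℝ) (x y : L2 ι) :
    ⟪x, W.U t y⟫_ℂ = ⟪W.U (-t) x, y⟫_ℂ := by
  rw [← inner_UG W (-t) x, UG_neg]

lemma sq_bound {ι : Type} (f : L2 ι) (s : Finset ι) : ∑ x ∈ s, ‖f x‖ ^ 2 ≤ ‖f‖ ^ 2 := by
  have h := lp.sum_rpow_le_norm_rpow (p := 2) (by norm_num) f s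
  simpa using h

/-- exchange of sum and expectation -/
lemma exch {ι Ω : Type} [Countable ι] [MeasurableSpace Ω] (P : Measure Ω) [IsProbabilityMeasure P]
    (f g : Ω → L2 ι) (A : ℝ)
    (hf : ∀ x, AEStronglyMeasurable (fun V => (f V) x) P)
    (hg : ∀ x, AEStronglyMeasurable (fun V => (g V) x) P)
    (hA : ∀ V, ‖f V‖ ≤ A) (hB : ∀ V, ‖g V‖ ≤ A) :
    HasSum (fun x => ∫ V, conj ((f V) x) * (g V) x ∂P) (∫ V, ⟪f V, g V⟫_ℂ ∂P) := by
  have hm : ∀ x, AEStronglyMeasurable (fun V => conj ((f V) x) * (g V) x) P := by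
    intro x
    exact (Complex.continuous_conj.comp_aestronglyMeasurable (hf x)).mul (hg x)
  have hb : ∀ x V, ‖conj ((f V) x) * (g V) x‖ ≤ A * A := by
    intro x V
    rw [norm_mul, RCLike.norm_conj]
    have h1 : ‖(f V) x‖ ≤ A := (lp.norm_apply_le_norm (by norm_num) (f V) x).trans (hA V)
    have h2 : ‖(g V) x‖ ≤ A := (lp.norm_apply_le_norm (by norm_num) (g V) x).trans (hB V)
    have h0 : 0 ≤ A := (norm_nonneg _).trans (hA V)
    exact mul_le_mul h1 h2 (norm_nonneg _) h0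
  have hi : ∀ x, Integrable (fun V => conj ((f V) x) * (g V) x) P := by
    intro x
    exact Integrable.of_bound (hm x) (A * A) (Eventually.of_forall (hb x))
  have hs : Summable fun x => ∫ V, ‖conj ((f V) x) * (g V) x‖ ∂P := by
    refine summable_of_sum_le (c := A ^ 2) (fun x => integral_nonneg fun V => norm_nonneg _) ?_
    intro s
    rw [← integral_finsetSum s (fun x _ => (hi x).norm)]
    have h1 : ∫ V, ∑ x ∈ s, ‖conj ((f V) x) * (g V) x‖ ∂P ≤ ∫ V, A ^ 2 ∂P := by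
      refine integral_mono (integrable_finsetSum s fun x _ => (hi x).norm)
        (integrable_const _) ?_
      intro V
      have h0 : 0 ≤ A := (norm_nonneg _).trans (hA V)
      have hf2 : ∑ x ∈ s, ‖(f V) x‖ ^ 2 ≤ A ^ 2 :=
        (sq_bound (f V) s).trans (pow_le_pow_left₀ (norm_nonneg _) (hA V) 2)
      have hg2 : ∑ x ∈ s, ‖(g V) x‖ ^ 2 ≤ A ^ 2 :=
        (sq_bound (g V) s).trans (pow_le_pow_left₀ (norm_nonneg _) (hB V) 2)
      have h3 : ∀ x ∈ s, ‖conj ((f V) x) * (g V) x‖ ≤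
          (1 / 2) * ‖(f V) x‖ ^ 2 + (1 / 2) * ‖(g V) x‖ ^ 2 := by
        intro x _
        rw [norm_mul, RCLike.norm_conj]
        nlinarith [sq_nonneg (‖(f V) x‖ - ‖(g V) x‖)]
      calc ∑ x ∈ s, ‖conj ((f V) x) * (g V) x‖
          ≤ ∑ x ∈ s, ((1 / 2) * ‖(f V) x‖ ^ 2 + (1 / 2) * ‖(g V) x‖ ^ 2) := Finset.sum_le_sum h3
        _ = (1 / 2) * ∑ x ∈ s, ‖(f V) x‖ ^ 2 + (1 / 2) * ∑ x ∈ s, ‖(g V) x‖ ^ 2 := by
            rw [Finset.sum_add_distrib, Finset.mul_sum, Finset.mul_sum]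
        _ ≤ A ^ 2 := by linarith
    simpa using h1
  have h := hasSum_integral_of_summable_integral_norm hi hs
  have h2 : (∫ V, ∑' x, conj ((f V) x) * (g V) x ∂P) = ∫ V, ⟪f V, g V⟫_ℂ ∂P := by
    refine integral_congr_ae (Eventually.of_forall fun V => ?_)
    show (∑' x, conj ((f V) x) * (g V) x) = ⟪f V, g V⟫_ℂ
    rw [lp.inner_eq_tsum]
    refine tsum_congr fun x => ?_
    rw [RCLike.inner_apply]
    ring
  rw [h2] at h
  exact h

/-- the velocity at time `s` -/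
noncomputable def XX {ι : Type} (W : UG (L2 ι)) (v : L2 ι →L[ℂ] L2 ι) (s : ℝ) (f : L2 ι) : L2 ι :=
  W.U (-s) (v (W.U s f))

lemma shift_inner {d : ℕ} (z : Site d) (S T : L2 (Site d) →L[ℂ] L2 (Site d)) (hS : IsShift z S)
    (hT : IsShift (-z) T) (f g : L2 (Site d)) : ⟪S f, g⟫_ℂ = ⟪f, T g⟫_ℂ := by
  rw [lp.inner_eq_tsum, lp.inner_eq_tsum]
  rw [← (Equiv.addRight (-z)).tsum_eq (fun x => ⟪(S f) x, g x⟫_ℂ)]
  refine tsum_congr fun x => ?_
  simp only [Equiv.coe_addRight]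
  rw [hS f, hT g]
  rw [neg_add_cancel_right]

lemma vel_symm {d : ℕ} (hO : St_OPS) (c : ℝ) (j : Fin d) (v : L2 (Site d) →L[ℂ] L2 (Site d))
    (hv : IsVel c j v) (f g : L2 (Site d)) : ⟪v f, g⟫_ℂ = ⟪f, v g⟫_ℂ := by
  obtain ⟨S, hS⟩ := (hO d).1 (Pi.single j 1)
  obtain ⟨T, hT⟩ := (hO d).1 (-Pi.single j 1)
  have hvf : ∀ f, v f = (Complex.I * c) • (S f - T f) := by
    intro f
    ext x
    rw [hv f x]
    rw [lp.coeFn_smul, Pi.smul_apply, lp.coeFn_sub, Pi.sub_apply, hS f x, hT f x, smul_eq_mul,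
      sub_eq_add_neg x]
  rw [hvf f, hvf g, inner_smul_left, inner_smul_right, inner_sub_left, inner_sub_right]
  rw [shift_inner _ S T hS hT]
  have hS' : IsShift (-(-Pi.single j 1)) S := by rw [neg_neg]; exact hS
  rw [shift_inner _ T S hT hS']
  simp only [map_mul, Complex.conj_I, Complex.conj_ofReal]
  ring

lemma vel_shift {d : ℕ} (c : ℝ) (j : Fin d) (v : L2 (Site d) →L[ℂ] L2 (Site d))
    (hv : IsVel c j v) (z : Site d) (S : L2 (Site d) →L[ℂ] L2 (Site d)) (hS : IsShift z S)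
    (f : L2 (Site d)) : v (S f) = S (v f) := by
  ext x
  rw [hv (S f) x, hS (v f) x, hv f (x + z), hS f, hS f]
  rw [add_right_comm, sub_add_eq_add_sub]

lemma XX_symm {ι : Type} (W : UG (L2 ι)) (v : L2 ι →L[ℂ] L2 ι)
    (hv : ∀ f g, ⟪v f, g⟫_ℂ = ⟪f, v g⟫_ℂ) (s : ℝ) (f g : L2 ι) :
    ⟪XX W v s f, g⟫_ℂ = ⟪f, XX W v s g⟫_ℂ := by
  unfold XX
  rw [inner_adj W (-s), neg_neg, ← hv]
  have h := inner_adj W s (v (W.U s f)) g
  rw [h]

lemma XX_norm {ι : Type} (W : UG (L2 ι)) (v : L2 ι →L[ℂ] L2 ι) (s : ℝ) (f : L2 ι) :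
    ‖XX W v s f‖ ≤ ‖v‖ * ‖f‖ := by
  unfold XX
  rw [W.norm']
  calc ‖v (W.U s f)‖ ≤ ‖v‖ * ‖W.U s f‖ := v.le_opNorm _
    _ = ‖v‖ * ‖f‖ := by rw [W.norm']

lemma norm_dl {d : ℕ} (x : Site d) : ‖(dl x : L2 (Site d))‖ = 1 := by
  unfold dl
  rw [lp.norm_single (by norm_num)]
  simp

lemma shift_dl {d : ℕ} (z : Site d) (S : L2 (Site d) →L[ℂ] L2 (Site d)) (hS : IsShift z S) :
    S (dl 0) = dl (-z) := by
  ext x
  rw [hS (dl 0) x]
  unfold dl
  rw [lp.coeFn_single, lp.coeFn_single]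
  by_cases h : x = -z
  · subst h
    rw [neg_add_cancel, Pi.single_eq_same, Pi.single_eq_same]
  · rw [Pi.single_eq_of_ne h, Pi.single_eq_of_ne]
    intro h2
    exact h (eq_neg_of_add_eq_zero_left h2)

end STAT

open STAT in
theorem t_STAT (h1 : St_COV) (h2 : St_CV) (h3 : St_RES) (h4 : St_OPS) : St_STAT := by
  intro d c ev hev ν _ j v hv s s' a
  have hvs := vel_symm h4 c j v hv
  -- continuity
  have hcU : ∀ (t : ℝ) (f : (Site d → ℝ) → L2 (Site d)), Continuous f →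
      Continuous fun V => (ev V).U t (f V) := by
    intro t f hf
    exact (h2 d c ev hev).comp (continuous_id.prodMk (continuous_const.prodMk hf))
  have hcX : ∀ (t : ℝ) (f : (Site d → ℝ) → L2 (Site d)), Continuous f →
      Continuous fun V => XX (ev V) v t (f V) := by
    intro t f hf
    exact hcU (-t) _ (v.continuous.comp (hcU t f hf))
  have hPP : IsProbabilityMeasure (PP d ν) := by unfold PP; infer_instance
  -- the four vectors
  set f1 : (Site d → ℝ) → L2 (Site d) := fun V => (ev V).U a (dl 0) with hf1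
  set g1 : (Site d → ℝ) → L2 (Site d) :=
    fun V => XX (ev V) v s (XX (ev V) v s' ((ev V).U a (dl 0))) with hg1
  set f2 : (Site d → ℝ) → L2 (Site d) :=
    fun V => (ev V).U (-a) (XX (ev V) v s' (XX (ev V) v s (dl 0))) with hf2
  set g2 : (Site d → ℝ) → L2 (Site d) := fun V => (ev V).U (-a) (dl 0) with hg2
  have cf1 : Continuous f1 := hcU a _ continuous_const
  have cg1 : Continuous g1 := hcX s _ (hcX s' _ (hcU a _ continuous_const))
  have cf2 : Continuous f2 := hcU (-a) _ (hcX s' _ (hcX s _ continuous_const))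
  have cg2 : Continuous g2 := hcU (-a) _ continuous_const
  set A : ℝ := 1 + ‖v‖ * ‖v‖ with hA
  have hv0 : 0 ≤ ‖v‖ * ‖v‖ := mul_nonneg (norm_nonneg _) (norm_nonneg _)
  have bf1 : ∀ V, ‖f1 V‖ ≤ A := by
    intro V
    show ‖(ev V).U a (dl 0)‖ ≤ A
    rw [(ev V).norm', norm_dl]; linarith
  have bg2 : ∀ V, ‖g2 V‖ ≤ A := by
    intro V
    show ‖(ev V).U (-a) (dl 0)‖ ≤ A
    rw [(ev V).norm', norm_dl]; linarith
  have bXX : ∀ V t t' (f : L2 (Site d)), ‖f‖ = 1 → ‖XX (ev V) v t (XX (ev V) v t' f)‖ ≤ A := by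
    intro V t t' f hf
    have e1 := XX_norm (ev V) v t (XX (ev V) v t' f)
    have e2 := XX_norm (ev V) v t' f
    rw [hf, mul_one] at e2
    have e3 : ‖v‖ * ‖XX (ev V) v t' f‖ ≤ ‖v‖ * ‖v‖ :=
      mul_le_mul_of_nonneg_left e2 (norm_nonneg _)
    linarith
  have bg1 : ∀ V, ‖g1 V‖ ≤ A := by
    intro V
    exact bXX V s s' _ (by rw [(ev V).norm', norm_dl])
  have bf2 : ∀ V, ‖f2 V‖ ≤ A := by
    intro V
    show ‖(ev V).U (-a) (XX (ev V) v s' (XX (ev V) v s (dl 0)))‖ ≤ A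
    rw [(ev V).norm']
    exact bXX V s' s _ (norm_dl 0)
  have E1 := exch (PP d ν) f1 g1 A
    (fun x => ((cont_eval x).comp cf1).aestronglyMeasurable)
    (fun x => ((cont_eval x).comp cg1).aestronglyMeasurable) bf1 bg1
  have E2 := exch (PP d ν) f2 g2 A
    (fun x => ((cont_eval x).comp cf2).aestronglyMeasurable)
    (fun x => ((cont_eval x).comp cg2).aestronglyMeasurable) bf2 bg2
  -- covariance of the velocity
  have covX : ∀ (z : Site d) (S : L2 (Site d) →L[ℂ] L2 (Site d)), IsShift z S →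
      ∀ V t ψ, XX (ev fun y => V (y + z)) v t (S ψ) = S (XX (ev V) v t ψ) := by
    intro z S hS V t ψ
    unfold XX
    rw [h1 d c ev hev z S hS V t ψ, vel_shift c j v hv z S hS, h1 d c ev hev z S hS V (-t)]
  -- equality of the terms
  have key : ∀ x : Site d, (∫ V, conj ((f1 V) x) * (g1 V) x ∂(PP d ν)) =
      ∫ V, conj ((f2 V) (-x)) * (g2 V) (-x) ∂(PP d ν) := by
    intro x
    obtain ⟨S, hS⟩ := (h4 d).1 x
    have hmp := (h3 d ν).2 x
    set F : (Site d → ℝ) → ℂ := fun V => conj (((ev V).U a (dl (-x))) 0) *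
      (XX (ev V) v s (XX (ev V) v s' ((ev V).U a (dl (-x))))) 0 with hF
    have cF : Continuous F := by
      refine (Complex.continuous_conj.comp ((cont_eval 0).comp (hcU a _ continuous_const))).mul ?_
      exact (cont_eval 0).comp (hcX s _ (hcX s' _ (hcU a _ continuous_const)))
    have e1 : ∀ V, conj ((f1 V) x) * (g1 V) x = F (fun y => V (y + x)) := by
      intro V
      have a1 : (ev fun y => V (y + x)).U a (dl (-x)) = S ((ev V).U a (dl 0)) := by
        rw [← shift_dl x S hS, h1 d c ev hev x S hS]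
      have a2 : ((ev fun y => V (y + x)).U a (dl (-x))) 0 = (f1 V) x := by
        rw [a1, hS, zero_add]
      have a3 : (XX (ev fun y => V (y + x)) v s (XX (ev fun y => V (y + x)) v s'
          ((ev fun y => V (y + x)).U a (dl (-x))))) 0 = (g1 V) x := by
        rw [a1, covX x S hS, covX x S hS, hS, zero_add]
      show _ = conj (((ev fun y => V (y + x)).U a (dl (-x))) 0) *
        (XX (ev fun y => V (y + x)) v s (XX (ev fun y => V (y + x)) v s'
          ((ev fun y => V (y + x)).U a (dl (-x))))) 0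
      rw [a2, a3]
    have e2 : ∀ V, F V = conj ((f2 V) (-x)) * (g2 V) (-x) := by
      intro V
      have a1 : ((ev V).U a (dl (-x))) 0 = conj ((g2 V) (-x)) := by
        rw [← inner_dl 0, inner_adj, inner_dl']
      have a2 : (XX (ev V) v s (XX (ev V) v s' ((ev V).U a (dl (-x))))) 0 =
          conj ((f2 V) (-x)) := by
        rw [← inner_dl 0, ← XX_symm (ev V) v hvs, ← XX_symm (ev V) v hvs, inner_adj, inner_dl']
      show conj (((ev V).U a (dl (-x))) 0) *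
        (XX (ev V) v s (XX (ev V) v s' ((ev V).U a (dl (-x))))) 0 = _
      rw [a1, a2, Complex.conj_conj, mul_comm]
    calc (∫ V, conj ((f1 V) x) * (g1 V) x ∂(PP d ν))
        = ∫ V, F (fun y => V (y + x)) ∂(PP d ν) := by simp_rw [e1]
      _ = ∫ V, F V ∂(Measure.map (fun (V : Site d → ℝ) (y : Site d) => V (y + x)) (PP d ν)) := by
          rw [integral_map hmp.measurable.aemeasurable cF.aestronglyMeasurable]
      _ = ∫ V, F V ∂(PP d ν) := by rw [hmp.map_eq]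
      _ = _ := by simp_rw [e2]
  -- conclusion
  have E3 : HasSum (fun x => ∫ V, conj ((f1 V) x) * (g1 V) x ∂(PP d ν))
      (∫ V, ⟪f2 V, g2 V⟫_ℂ ∂(PP d ν)) := by
    have h := (Equiv.neg (Site d)).hasSum_iff.mpr E2
    have e : (fun x => ∫ V, conj ((f1 V) x) * (g1 V) x ∂(PP d ν)) =
        (fun x => ∫ V, conj ((f2 V) x) * (g2 V) x ∂(PP d ν)) ∘ ⇑(Equiv.neg (Site d)) :=
      funext key
    rw [e]
    exact h
  have E4 := E1.unique E3
  have L : ∀ V, ⟪tau ev v (s + a) V, tau ev v (s' + a) V⟫_ℂ = ⟪f1 V, g1 V⟫_ℂ := by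
    intro V
    have a1 : ∀ t, tau ev v (t + a) V = (ev V).U (-a) (XX (ev V) v t ((ev V).U a (dl 0))) := by
      intro t
      unfold tau XX
      rw [(ev V).add' t a, neg_add_rev, (ev V).add' (-a) (-t)]
    rw [a1, a1, inner_UG]
    rw [XX_symm (ev V) v hvs]
  have R : ∀ V, ⟪tau ev v s V, tau ev v s' V⟫_ℂ = ⟪f2 V, g2 V⟫_ℂ := by
    intro V
    show ⟪XX (ev V) v s (dl 0), XX (ev V) v s' (dl 0)⟫_ℂ =
      ⟪(ev V).U (-a) (XX (ev V) v s' (XX (ev V) v s (dl 0))), (ev V).U (-a) (dl 0)⟫_ℂ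
    rw [inner_UG, XX_symm (ev V) v hvs s' ]
  simp_rw [L, R]
  exact E4

end Pool.Agent.H5R2.NB
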