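import Pool.Agent.H5R2.NB.Defs

set_option autoImplicit false

open MeasureTheory Filter Topology
open scoped BigOperators ENNReal NNReal InnerProductSpace ComplexConjugate

namespace Pool.Agent.H5R2.NB

namespace SYM

theorem inner_UG {X : Type} [NormedAddCommGroup X] [InnerProductSpace ℂ X] (W : UG X) (t : ℝ)
    (a b : X) : ⟪W.U t a, W.U t b⟫_ℂ = ⟪a, b⟫_ℂ := by
  let li : X →ₗᵢ[ℂ] X := ⟨(W.U t).toLinearMap, fun x => W.norm' t x⟩
  exact li.inner_map_map a b

theorem adj_UG {X : Type} [NormedAddCommGroup X] [InnerProductSpace ℂ X] (W : UG X) (t : ℝ)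
    (a c : X) : ⟪W.U t a, c⟫_ℂ = ⟪a, W.U (-t) c⟫_ℂ := by
  rw [← inner_UG W t a (W.U (-t) c), ← W.add', add_neg_cancel, W.zero']

theorem inner_dl {d : ℕ} (x : Site d) (f : L2 (Site d)) : ⟪dl x, f⟫_ℂ = f x := by
  unfold dl
  rw [lp.inner_single_left]
  simp

theorem star_dl {d : ℕ} (y : Site d) : star (dl y) = dl y := by
  ext x
  rw [lp.star_apply]
  by_cases h : x = y
  · subst h; simp [dl]
  · simp [dl, h]

end SYM

open SYM in
theorem t_SYM (h : St_UN) : St_SYM := by
  intro d c V W hW t x y
  have hsol : IsSol c V (fun s => star (W.U (-s) (dl y))) (fun _ => 0) := by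
    constructor
    · intro T
      exact ⟨‖dl y‖, fun s _ => by rw [norm_star, W.norm']⟩
    · intro s z
      have h1 := (hW (dl y)).2 (-s) z
      have h2 : HasDerivAt (fun r : ℝ => (W.U (-r) (dl y)) z)
          (-(-Complex.I * (hopf c (fun y' => (W.U (-s) (dl y)) y') z + V z * (W.U (-s) (dl y)) z)
            + (0 : L2 (Site d)) z)) s := by
        have := h1.scomp s (hasDerivAt_neg s)
        rw [neg_one_smul] at this
        exact this
      have h3 := h2.star
      simp only [lp.star_apply]
      refine h3.congr_deriv ?_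
      simp only [lp.coeFn_zero, Pi.zero_apply, add_zero, neg_mul, neg_neg, star_mul', star_add,
        hopf, star_sum, RCLike.star_def, Complex.conj_I, Complex.conj_ofReal, map_sum, map_mul,
        map_add]
  have h4 := h d c V W hW _ (fun _ => 0) continuous_const hsol t
  simp only [neg_zero, W.zero', map_zero, intervalIntegral.integral_zero, add_zero, star_dl] at h4
  rw [← h4, lp.star_apply]
  rw [← inner_dl x (W.U (-t) (dl y)), ← adj_UG, ← inner_dl y (W.U t (dl x))]
  rw [RCLike.star_def, inner_conj_symm]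

end Pool.Agent.H5R2.NB
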