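import Pool.Agent.H5R2.NB.Defs

/-! # Duhamel's formula and uniqueness -/

set_option autoImplicit false

open MeasureTheory Filter Topology
open scoped BigOperators ENNReal NNReal InnerProductSpace ComplexConjugate

namespace Pool.Agent.H5R2.NB

namespace UN

section UGlemmas

variable {X : Type} [NormedAddCommGroup X] [InnerProductSpace ℂ X]

/-- joint continuity -/
lemma joint (W : UG X) : Continuous fun p : ℝ × X => W.U p.1 p.2 := by
  rw [continuous_iff_continuousAt]
  rintro ⟨t, x⟩
  have h1 : Tendsto (fun p : ℝ × X => W.U p.1 x) (𝓝 (t, x)) (𝓝 (W.U t x)) :=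
    ((W.cont' x).tendsto t).comp (continuous_fst.tendsto (t, x))
  have h2 : Tendsto (fun p : ℝ × X => W.U p.1 (p.2 - x)) (𝓝 (t, x)) (𝓝 0) := by
    rw [tendsto_zero_iff_norm_tendsto_zero]
    have h3 : Tendsto (fun p : ℝ × X => ‖p.2 - x‖) (𝓝 (t, x)) (𝓝 0) := by
      have : Continuous fun p : ℝ × X => ‖p.2 - x‖ := by fun_prop
      have h4 := this.tendsto (t, x)
      simpa using h4
    refine h3.congr ?_
    intro p
    rw [W.norm']
  have h5 := h1.add h2
  simp only [add_zero] at h5
  refine h5.congr ?_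
  intro p
  rw [← map_add]
  congr 1
  abel

lemma comp (W : UG X) (s t : ℝ) (x : X) : W.U s (W.U t x) = W.U (s + t) x := by
  rw [W.add']

lemma deriv_group (W : UG X) (k : ℝ → X) (k' : X) (t : ℝ) (hk : HasDerivAt k k' t) :
    HasDerivAt (fun s => W.U s (k s - k t)) (W.U t k') t := by
  rw [hasDerivAt_iff_tendsto_slope] at hk ⊢
  have h1 : Tendsto (fun s => (s, slope k t s)) (𝓝[≠] t) (𝓝 (t, k')) := by
    refine Tendsto.prodMk_nhds ?_ hk
    exact tendsto_id.mono_left nhdsWithin_le_nhds
  have h2 := ((joint W).tendsto (t, k')).comp h1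
  refine h2.congr ?_
  intro s
  simp only [Function.comp_apply, slope, vsub_eq_sub, sub_self, map_zero, sub_zero]
  rw [ContinuousLinearMap.map_smul_of_tower]

end UGlemmas

/-- the finite dimensional estimate -/
lemma fin_est {d : ℕ} (c : ℝ) (V : Site d → ℝ) (K : L2 (Site d) →L[ℂ] L2 (Site d))
    (hK : IsHop c K) (g : ℝ → L2 (Site d)) (h0 : g 0 = 0)
    (hg : ∀ (t : ℝ) (x : Site d), HasDerivAt (fun s => (g s) x)
      (-Complex.I * (hopf c (fun y => (g t) y) x + V x * (g t) x)) t)
    (T : ℝ) (B B' : ℝ → ℝ) (hB0 : 0 ≤ B 0) (hB : ∀ t, HasDerivAt B (B' t) t)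
    (hbd : ∀ t ∈ Set.Ico 0 T, ‖K (g t)‖ ≤ B' t) (Fs : Finset (Site d)) :
    ∀ t ∈ Set.Icc 0 T, Real.sqrt (∑ x ∈ Fs, ‖(g t) x‖ ^ 2) ≤ B t := by
  classical
  set Gv : ℝ → EuclideanSpace ℂ Fs := fun t =>
    WithLp.toLp 2 (fun x : Fs => Complex.exp (Complex.I * t * V x) * (g t) x) with hGv
  set Gd : ℝ → EuclideanSpace ℂ Fs := fun t =>
    WithLp.toLp 2 (fun x : Fs => Complex.exp (Complex.I * t * V x) *
      (-Complex.I * (K (g t)) x)) with hGd
  have hder : ∀ t, HasDerivAt Gv (Gd t) t := by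
    intro t
    have h1 : HasDerivAt (fun t : ℝ => fun x : Fs =>
        Complex.exp (Complex.I * t * V x) * (g t) x)
        (fun x : Fs => Complex.exp (Complex.I * t * V x) * (-Complex.I * (K (g t)) x)) t := by
      rw [hasDerivAt_pi]
      intro x
      have he : HasDerivAt (fun t : ℝ => Complex.exp (Complex.I * t * V x))
          (Complex.exp (Complex.I * t * V x) * (Complex.I * V x)) t := by
        have h2 : HasDerivAt (fun t : ℝ => Complex.I * t * V x) (Complex.I * V x) t := by
          have h3 : HasDerivAt (fun t : ℝ => (t : ℂ)) 1 t := Complex.ofRealCLM.hasDerivAt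
          have h4 := (h3.const_mul Complex.I).mul_const (V x : ℂ)
          simpa using h4
        exact h2.cexp
      have h5 := he.mul (hg t x)
      refine h5.congr_deriv ?_
      rw [hK (g t) x]
      ring
    have h2 := ((PiLp.continuousLinearEquiv 2 ℂ (fun _ : Fs => ℂ)).symm.toContinuousLinearMap.restrictScalars ℝ).hasFDerivAt
      (x := (fun x : Fs => Complex.exp (Complex.I * t * V x) * (g t) x))
    exact h2.comp_hasDerivAt t h1
  have hnG : ∀ t, ‖Gv t‖ = Real.sqrt (∑ x ∈ Fs, ‖(g t) x‖ ^ 2) := by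
    intro t
    rw [EuclideanSpace.norm_eq]
    congr 1
    rw [← Finset.sum_coe_sort Fs]
    refine Finset.sum_congr rfl fun x _ => ?_
    simp only [hGv]
    rw [norm_mul]
    have : ‖Complex.exp (Complex.I * t * V x)‖ = 1 := by
      rw [Complex.norm_exp]
      simp
    rw [this, one_mul]
  have hnD : ∀ t, ‖Gd t‖ ≤ ‖K (g t)‖ := by
    intro t
    rw [EuclideanSpace.norm_eq]
    have h1 : ∑ i : Fs, ‖(Gd t) i‖ ^ 2 = ∑ x ∈ Fs, ‖(K (g t)) x‖ ^ 2 := by
      rw [← Finset.sum_coe_sort Fs]
      refine Finset.sum_congr rfl fun x _ => ?_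
      simp only [hGd]
      rw [norm_mul, norm_mul]
      have : ‖Complex.exp (Complex.I * t * V x)‖ = 1 := by
        rw [Complex.norm_exp]
        simp
      rw [this]
      simp
    rw [h1]
    apply Real.sqrt_le_iff.mpr
    refine ⟨norm_nonneg _, ?_⟩
    have h2 := lp.sum_rpow_le_norm_rpow (p := 2) (by simp) (K (g t)) Fs
    simpa using h2
  intro t ht
  rw [← hnG t]
  have := image_norm_le_of_norm_deriv_right_le_deriv_boundary' (f := Gv) (f' := Gd) (a := 0)
    (b := T) (B := B) (B' := B')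
    (fun s _ => (hder s).continuousAt.continuousWithinAt)
    (fun s _ => (hder s).hasDerivWithinAt)
    (by
      rw [hnG 0, h0]
      simpa using hB0)
    (fun s _ => (hB s).continuousAt.continuousWithinAt)
    (fun s _ => (hB s).hasDerivWithinAt)
    (fun s hs => (hnD s).trans (hbd s hs))
  exact this ht

lemma norm_le_of_fin {d : ℕ} (g : L2 (Site d)) (C : ℝ) (hC : 0 ≤ C)
    (h : ∀ Fs : Finset (Site d), Real.sqrt (∑ x ∈ Fs, ‖g x‖ ^ 2) ≤ C) : ‖g‖ ≤ C := by
  refine lp.norm_le_of_forall_sum_le (p := 2) (by simp) hC ?_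
  intro s
  have h1 := h s
  rw [Real.sqrt_le_iff] at h1
  simpa using h1.2

/-- uniqueness for nonnegative times -/
lemma uniq {d : ℕ} (c : ℝ) (V : Site d → ℝ) (K : L2 (Site d) →L[ℂ] L2 (Site d))
    (hK : IsHop c K) (g : ℝ → L2 (Site d)) (h0 : g 0 = 0)
    (hb : ∀ T : ℝ, ∃ M : ℝ, ∀ t, |t| ≤ T → ‖g t‖ ≤ M)
    (hg : ∀ (t : ℝ) (x : Site d), HasDerivAt (fun s => (g s) x)
      (-Complex.I * (hopf c (fun y => (g t) y) x + V x * (g t) x)) t)
    (T : ℝ) (hT : 0 ≤ T) : g T = 0 := by
  obtain ⟨M, hM⟩ := hb T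
  have hM0 : 0 ≤ M := (norm_nonneg _).trans (hM 0 (by simpa using hT))
  have key : ∀ n : ℕ, ∀ t ∈ Set.Icc 0 T, ‖g t‖ ≤ M * (‖K‖ * t) ^ n / n.factorial := by
    intro n
    induction n with
    | zero =>
      intro t ht
      simpa using hM t (by rw [abs_of_nonneg ht.1]; exact ht.2)
    | succ n ih =>
      intro t ht
      have hBd : ∀ t : ℝ, HasDerivAt (fun t : ℝ => M * (‖K‖ * t) ^ (n + 1) / (n + 1).factorial)
          (‖K‖ * (M * (‖K‖ * t) ^ n / n.factorial)) t := by
        intro t
        have h1 : HasDerivAt (fun t : ℝ => (‖K‖ * t) ^ (n + 1))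
            (((n + 1 : ℕ) : ℝ) * (‖K‖ * t) ^ n * ‖K‖) t := by
          have h2 : HasDerivAt (fun t : ℝ => ‖K‖ * t) ‖K‖ t := by
            simpa using (hasDerivAt_id t).const_mul ‖K‖
          exact h2.pow (n + 1)
        have h3 := (h1.const_mul M).div_const ((n + 1).factorial : ℝ)
        refine h3.congr_deriv ?_
        rw [Nat.factorial_succ]
        have h4 : ((n : ℝ) + 1) ≠ 0 := by positivity
        have h5 : (n.factorial : ℝ) ≠ 0 := by positivity
        push_cast
        field_simp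
      refine norm_le_of_fin (g t) _ ?_ ?_
      · have := ht.1
        positivity
      · intro Fs
        refine fin_est c V K hK g h0 hg T _ _ (by simp) hBd ?_ Fs t ht
        intro s hs
        refine (K.le_opNorm _).trans ?_
        exact mul_le_mul_of_nonneg_left (ih s ⟨hs.1, hs.2.le⟩) (norm_nonneg _)
  have hlim : Tendsto (fun n : ℕ => M * (‖K‖ * T) ^ n / n.factorial) atTop (𝓝 0) := by
    have h1 := (FloorSemiring.tendsto_pow_div_factorial_atTop (‖K‖ * T)).const_mul M
    simp only [mul_zero] at h1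
    refine h1.congr ?_
    intro n
    ring
  have h2 : ‖g T‖ ≤ 0 := ge_of_tendsto' hlim fun n => key n T ⟨hT, le_refl _⟩
  exact norm_le_zero_iff.mp h2

lemma hopf_neg {d : ℕ} (c : ℝ) (ψ : Site d → ℂ) (x : Site d) :
    hopf (-c) ψ x = - hopf c ψ x := by
  unfold hopf
  push_cast
  ring

lemma uniq' {d : ℕ} (c : ℝ) (V : Site d → ℝ) (K : L2 (Site d) →L[ℂ] L2 (Site d))
    (hK : IsHop c K) (g : ℝ → L2 (Site d)) (h0 : g 0 = 0)
    (hb : ∀ T : ℝ, ∃ M : ℝ, ∀ t, |t| ≤ T → ‖g t‖ ≤ M)
    (hg : ∀ (t : ℝ) (x : Site d), HasDerivAt (fun s => (g s) x)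
      (-Complex.I * (hopf c (fun y => (g t) y) x + V x * (g t) x)) t)
    (T : ℝ) : g T = 0 := by
  rcases le_total 0 T with hT | hT
  · exact uniq c V K hK g h0 hb hg T hT
  · have hK' : IsHop (-c) (-K) := by
      intro ψ x
      rw [hopf_neg, ← hK ψ x]
      simp
    have h := uniq (-c) (fun x => - V x) (-K) hK' (fun t => g (-t)) (by simpa using h0)
      (fun T => by
        obtain ⟨M, hM⟩ := hb T
        exact ⟨M, fun t ht => hM (-t) (by simpa using ht)⟩)
      (fun t x => by
        have h1 := hg (-t) x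
        have h2 : HasDerivAt (fun s : ℝ => -s) (-1) t := (hasDerivAt_id t).neg
        have h3 := h1.scomp t h2
        refine h3.congr_deriv ?_
        rw [hopf_neg]
        push_cast
        simp
        ring)
      (-T) (by linarith)
    simpa using h

end UN

open UN in
theorem t_UN (hO : St_OPS) : St_UN := by
  intro d c V W hW f h hh hf
  obtain ⟨K, hK⟩ := (hO d).2.1 c
  set k : ℝ → L2 (Site d) := fun t => ∫ s in (0 : ℝ)..t, W.U (-s) (h s) with hk
  have hcont : Continuous fun s => W.U (-s) (h s) :=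
    (joint W).comp (continuous_neg.prodMk hh)
  have hkd : ∀ t, HasDerivAt k (W.U (-t) (h t)) t := by
    intro t
    exact (hcont.integral_hasStrictDerivAt 0 t).hasDerivAt
  have hWk : ∀ t, W.U t (k t) = ∫ s in (0 : ℝ)..t, W.U (t - s) (h s) := by
    intro t
    change W.U t (∫ s in (0 : ℝ)..t, W.U (-s) (h s)) = _
    rw [← ContinuousLinearMap.intervalIntegral_comp_comm _ (hcont.intervalIntegrable _ _)]
    refine intervalIntegral.integral_congr fun s _ => ?_
    show W.U t (W.U (-s) (h s)) = W.U (t - s) (h s)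
    rw [comp, sub_eq_add_neg]
  have hkc : Continuous k := continuous_iff_continuousAt.mpr fun t => (hkd t).continuousAt
  -- the coordinate derivative of `W.U t (k t)`
  have hWkd : ∀ (t : ℝ) (x : Site d), HasDerivAt (fun s => (W.U s (k s)) x)
      (-Complex.I * (hopf c (fun y => (W.U t (k t)) y) x + V x * (W.U t (k t)) x) +
        (h t) x) t := by
    intro t x
    have h1 := (hW (k t)).2 t x
    have h2 := deriv_group W k _ t (hkd t)
    have h3 : HasDerivAt (fun s => (W.U s (k s - k t)) x)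
        ((W.U t (W.U (-t) (h t))) x) t := by
      let L : L2 (Site d) →L[ℂ] ℂ := lp.evalCLM ℂ (fun _ : Site d => ℂ) 2 x
      have h4 := (L.restrictScalars ℝ).hasFDerivAt (x := W.U t (k t - k t))
      exact h4.comp_hasDerivAt t h2
    have h4 : W.U t (W.U (-t) (h t)) = h t := by
      rw [comp, add_neg_cancel, W.zero']
    rw [h4] at h3
    have h5 := h1.add h3
    have h6 : (fun s => (W.U s (k s)) x) =
        ((fun s => (W.U s (k t)) x) + fun s => (W.U s (k s - k t)) x) := by
      funext s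
      have h7 : W.U s (k s) = W.U s (k t) + W.U s (k s - k t) := by
        rw [← map_add]
        congr 1
        abel
      simp only [Pi.add_apply]
      rw [h7, lp.coeFn_add, Pi.add_apply]
    rw [h6]
    refine h5.congr_deriv ?_
    simp
  set g : ℝ → L2 (Site d) := fun t => f t - W.U t (f 0) - W.U t (k t) with hg
  have hg0 : g 0 = 0 := by
    simp only [hg, hk, intervalIntegral.integral_same, W.zero', sub_self]
  have hgb : ∀ T : ℝ, ∃ M : ℝ, ∀ t, |t| ≤ T → ‖g t‖ ≤ M := by
    intro T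
    obtain ⟨M, hM⟩ := hf.1 T
    obtain ⟨M', hM'⟩ := (isCompact_Icc (a := -T) (b := T)).exists_bound_of_continuousOn
      (f := k) hkc.continuousOn
    refine ⟨M + ‖f 0‖ + M', fun t ht => ?_⟩
    refine (norm_sub_le _ _).trans ?_
    refine add_le_add ((norm_sub_le _ _).trans (add_le_add (hM t ht) (W.norm' _ _).le)) ?_
    rw [W.norm']
    exact hM' t (abs_le.mp ht)
  have hgd : ∀ (t : ℝ) (x : Site d), HasDerivAt (fun s => (g s) x)
      (-Complex.I * (hopf c (fun y => (g t) y) x + V x * (g t) x)) t := by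
    intro t x
    have h1 := hf.2 t x
    have h2 := (hW (f 0)).2 t x
    have h3 := hWkd t x
    have h4 := (h1.sub h2).sub h3
    have h6 : (fun s => (g s) x) =
        ((fun s => (f s) x) - (fun s => (W.U s (f 0)) x)) - fun s => (W.U s (k s)) x := by
      funext s
      simp [hg]
    rw [h6]
    refine h4.congr_deriv ?_
    have h7 : hopf c (fun y => (g t) y) x = hopf c (fun y => (f t) y) x -
        hopf c (fun y => (W.U t (f 0)) y) x - hopf c (fun y => (W.U t (k t)) y) x := by
      unfold hopf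
      rw [← mul_sub, ← mul_sub, ← Finset.sum_sub_distrib, ← Finset.sum_sub_distrib]
      congr 1
      refine Finset.sum_congr rfl fun i _ => ?_
      simp only [hg, lp.coeFn_sub, Pi.sub_apply]
      ring
    rw [h7]
    simp only [hg, lp.coeFn_sub, Pi.sub_apply, lp.coeFn_zero, Pi.zero_apply]
    ring
  intro t
  have h1 := uniq' c V K hK g hg0 hgb hgd t
  have h2 : f t = W.U t (f 0) + W.U t (k t) := by
    have h3 : f t - W.U t (f 0) - W.U t (k t) = 0 := h1
    rw [sub_sub, sub_eq_zero] at h3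
    exact h3
  rw [h2, hWk]

end Pool.Agent.H5R2.NB
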