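import Pool.Agent.H5R2.NB.Defs

/-! Task ZERO: the limit of the averaged velocity vanishes at `δ_0`. -/

set_option autoImplicit false

open MeasureTheory Filter Topology
open scoped BigOperators ENNReal NNReal InnerProductSpace ComplexConjugate

namespace Pool.Agent.H5R2.NB

namespace ZERO

theorem avP_continuous {d : ℕ} (ev : (Site d → ℝ) → UG (L2 (Site d)))
    (hc : Continuous fun p : (Site d → ℝ) × ℝ × L2 (Site d) => (ev p.1).U p.2.1 p.2.2)
    (v : L2 (Site d) →L[ℂ] L2 (Site d)) (N : ℕ) (e : L2 (Site d)) :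
    Continuous fun V => avP (ev V) v N e := by
  suffices h : Continuous fun V : Site d → ℝ =>
      ∫ s in (0 : ℝ)..(N : ℝ), (ev V).U (-s) (v ((ev V).U s e)) from
    h.const_smul ((N : ℂ)⁻¹)
  have hj : Continuous fun q : (Site d → ℝ) × ℝ =>
      (ev q.1).U (-q.2) (v ((ev q.1).U q.2 e)) := by
    have h0 : Continuous fun q : (Site d → ℝ) × ℝ =>
        ((q.1, q.2, e) : (Site d → ℝ) × ℝ × L2 (Site d)) := by fun_prop
    have h1 : Continuous fun q : (Site d → ℝ) × ℝ => (ev q.1).U q.2 e := hc.comp h0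
    have h2 : Continuous fun q : (Site d → ℝ) × ℝ => v ((ev q.1).U q.2 e) :=
      v.continuous.comp h1
    have h3 : Continuous fun q : (Site d → ℝ) × ℝ =>
        ((q.1, -q.2, v ((ev q.1).U q.2 e)) : (Site d → ℝ) × ℝ × L2 (Site d)) :=
      continuous_fst.prodMk (continuous_snd.neg.prodMk h2)
    exact hc.comp h3
  refine intervalIntegral.continuous_of_dominated_interval (bound := fun _ => ‖v‖ * ‖e‖)
    (fun V => ?_) (fun V => ?_) ?_ ?_
  · have : Continuous fun s : ℝ => (ev V).U (-s) (v ((ev V).U s e)) :=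
      hj.comp (continuous_const.prodMk continuous_id)
    exact this.aestronglyMeasurable
  · refine Eventually.of_forall fun s _ => ?_
    rw [(ev V).norm']
    refine (v.le_opNorm _).trans ?_
    rw [(ev V).norm']
  · exact intervalIntegrable_const
  · refine Eventually.of_forall fun s _ => ?_
    exact hj.comp (continuous_id.prodMk continuous_const)

end ZERO

theorem t_ZERO (h1 : St_PROPR) (h2 : St_FAM) (h3 : St_RES) (h4 : St_ANTI) (h5 : St_NN)
    (h6 : St_CV) : St_ZERO := by
  intro d c ev hev ν _ C hC j v hv Nk hNk hgood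
  obtain ⟨hmp, -⟩ := h3 d ν
  have hcont := h6 d c ev hev
  -- the measurable set
  have hmeas : MeasurableSet {V : Site d → ℝ |
      Tendsto (fun n => avP (ev V) v (Nk n) (dl 0)) atTop (𝓝 0)} := by
    have e1 : {V : Site d → ℝ | Tendsto (fun n => avP (ev V) v (Nk n) (dl 0)) atTop (𝓝 0)} =
        {V : Site d → ℝ | Tendsto (fun n => ‖avP (ev V) v (Nk n) (dl 0)‖) atTop (𝓝 0)} := by
      ext V
      exact tendsto_zero_iff_norm_tendsto_zero
    rw [e1]
    refine measurableSet_tendsto (𝓝 0) fun n => ?_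
    exact (ZERO.avP_continuous ev hcont v (Nk n) (dl 0)).norm.measurable
  have hg2 : ∀ᵐ p ∂((PP d ν).prod ν), ∃ B : L2 (Site d) →L[ℂ] L2 (Site d),
      Good (ev (Function.update p.1 0 p.2)) v Nk B :=
    hmp.quasiMeasurePreserving.ae hgood
  have hg3 := Measure.ae_ae_of_ae_prod hg2
  have key : ∀ᵐ V ∂(PP d ν), ∀ᵐ κ ∂ν,
      Tendsto (fun n => avP (ev (Function.update V 0 κ)) v (Nk n) (dl 0)) atTop (𝓝 0) := by
    filter_upwards [hg3] with V hV
    classical
    set B : ℝ → L2 (Site d) →L[ℂ] L2 (Site d) := fun κ =>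
      if h : ∃ B : L2 (Site d) →L[ℂ] L2 (Site d), Good (ev (Function.update V 0 κ)) v Nk B
      then h.choose else 0 with hB
    have hBg : ∀ᵐ κ ∂ν, Good (ev (Function.update V 0 κ)) v Nk (B κ) := by
      filter_upwards [hV] with κ hκ
      simp only [hB]
      rw [dif_pos hκ]
      exact hκ.choose_spec
    have hfam := h2 d c ev hev V
    have hpr := h1 (Site d) (fun κ => ev (Function.update V 0 κ)) (dl 0) hfam ν C hC v Nk hNk B
      hBg
    filter_upwards [hBg, hpr] with κ hκ1 hκ2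
    have ha : ∀ t, ⟪(ev (Function.update V 0 κ)).U t (dl 0), B κ (dl 0)⟫_ℂ = 0 :=
      h4 d c (Function.update V 0 κ) _ (hev _) j v hv Nk hNk (B κ) hκ1
    have hb : ∀ t, ⟪B κ (dl 0), (ev (Function.update V 0 κ)).U t (dl 0)⟫_ℂ = 0 := by
      intro t
      rw [← inner_conj_symm, ha t, map_zero]
    have hcyc := (h5 (Site d) (fun κ => ev (Function.update V 0 κ)) (dl 0) hfam κ 0
      (B κ (dl 0)) hb).1
    have h0 := hκ2 (B κ (dl 0)) hcyc
    rw [inner_self_eq_zero] at h0
    have := (hκ1 (dl 0)).1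
    rwa [h0] at this
  have hprod : ∀ᵐ p ∂((PP d ν).prod ν), Function.update p.1 0 p.2 ∈ {V : Site d → ℝ |
      Tendsto (fun n => avP (ev V) v (Nk n) (dl 0)) atTop (𝓝 0)} := by
    refine (Measure.ae_prod_iff_ae_ae ?_).2 key
    exact hmp.measurable hmeas
  have hfin : ∀ᵐ V ∂(PP d ν), V ∈ {V : Site d → ℝ |
      Tendsto (fun n => avP (ev V) v (Nk n) (dl 0)) atTop (𝓝 0)} := by
    rw [← hmp.map_eq]
    exact (ae_map_iff hmp.measurable.aemeasurable hmeas).2 hprod
  filter_upwards [hfin] with V hV B hB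
  exact tendsto_nhds_unique (hB (dl 0)).1 hV

end Pool.Agent.H5R2.NB
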