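import Pool.Agent.H5R2.NB.ANTI
import Pool.Agent.H5R2.NB.AVL
import Pool.Agent.H5R2.NB.BP
import Pool.Agent.H5R2.NB.COV
import Pool.Agent.H5R2.NB.CT
import Pool.Agent.H5R2.NB.CV
import Pool.Agent.H5R2.NB.EX
import Pool.Agent.H5R2.NB.EXA
import Pool.Agent.H5R2.NB.FAM
import Pool.Agent.H5R2.NB.GEN
import Pool.Agent.H5R2.NB.KB
import Pool.Agent.H5R2.NB.LAW
import Pool.Agent.H5R2.NB.LIMA
import Pool.Agent.H5R2.NB.LIMB
import Pool.Agent.H5R2.NB.MAIN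
import Pool.Agent.H5R2.NB.ME
import Pool.Agent.H5R2.NB.MOM
import Pool.Agent.H5R2.NB.NN
import Pool.Agent.H5R2.NB.OPS
import Pool.Agent.H5R2.NB.PROPR
import Pool.Agent.H5R2.NB.RES
import Pool.Agent.H5R2.NB.S1
import Pool.Agent.H5R2.NB.STAR
import Pool.Agent.H5R2.NB.STAT
import Pool.Agent.H5R2.NB.SYM
import Pool.Agent.H5R2.NB.UN
import Pool.Agent.H5R2.NB.ZERO

/-! # Assembly: no ballistic transport -/

set_option autoImplicit false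

namespace Pool.Agent.H5R2.NB.ALL

theorem a_EX : St_EX := t_EX t_EXA t_OPS
theorem a_UN : St_UN := t_UN t_OPS
theorem a_CV : St_CV := t_CV t_OPS
theorem a_COV : St_COV := t_COV a_UN
theorem a_LIM : St_LIM :=
  t_LIMB (t_LIMA (t_STAT a_COV a_CV t_RES t_OPS) t_ME a_CV) a_COV t_RES a_CV t_OPS
theorem a_S1 : St_S1 := t_S1 t_KB t_CT
theorem a_STAR : St_STAR := t_STAR a_S1 t_BP t_NN t_CT t_AVL
theorem a_PROPR : St_PROPR := t_PROPR a_S1 t_BP t_NN t_CT a_STAR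
theorem a_ZERO : St_ZERO :=
  t_ZERO a_PROPR (t_FAM a_UN) t_RES (t_ANTI (t_SYM a_UN) t_BP) t_NN a_CV
theorem a_MAIN : St_MAIN := t_MAIN a_LIM a_ZERO (t_MOM a_UN t_OPS) t_OPS a_CV

end Pool.Agent.H5R2.NB.ALL

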