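import Pool.Agent.H5R2.NB.Defs

/-! Task ANTI: the averaged velocity is orthogonal to the orbit of `δ_0`. -/

set_option autoImplicit false

open MeasureTheory Filter Topology
open scoped BigOperators ENNReal NNReal InnerProductSpace ComplexConjugate

namespace Pool.Agent.H5R2.NB

namespace ANTI

section grp

variable {X : Type} [NormedAddCommGroup X] [InnerProductSpace ℂ X]

theorem inner_pres (W : UG X) (t : ℝ) (x y : X) : ⟪W.U t x, W.U t y⟫_ℂ = ⟪x, y⟫_ℂ := by
  let L : X →ₗᵢ[ℂ] X := ⟨(W.U t).toLinearMap, W.norm' t⟩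
  exact L.inner_map_map x y

theorem inner_adj (W : UG X) (t : ℝ) (x y : X) : ⟪W.U t x, y⟫_ℂ = ⟪x, W.U (-t) y⟫_ℂ := by
  have h : y = W.U t (W.U (-t) y) := by
    rw [← W.add', add_neg_cancel, W.zero']
  conv_lhs => rw [h]
  exact inner_pres W t _ _

theorem joint (W : UG X) {α : Type*} [TopologicalSpace α] (f : α → ℝ) (g : α → X)
    (hf : Continuous f) (hg : Continuous g) : Continuous fun a => W.U (f a) (g a) := by
  rw [continuous_iff_continuousAt]
  intro a
  have h1 : Tendsto (fun b => W.U (f b) (g a)) (𝓝 a) (𝓝 (W.U (f a) (g a))) :=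
    ((W.cont' (g a)).comp hf).tendsto a
  have h2 : Tendsto (fun b => W.U (f b) (g b - g a)) (𝓝 a) (𝓝 0) := by
    rw [tendsto_zero_iff_norm_tendsto_zero]
    simp only [W.norm']
    rw [← tendsto_iff_norm_sub_tendsto_zero]
    exact hg.tendsto a
  have h3 := h2.add h1
  rw [zero_add] at h3
  refine h3.congr fun b => ?_
  rw [map_sub, sub_add_cancel]

theorem inner_integral (x : X) [CompleteSpace X] (f : ℝ → X) (hf : Continuous f) (a b : ℝ) :
    ⟪x, ∫ s in a..b, f s⟫_ℂ = ∫ s in a..b, ⟪x, f s⟫_ℂ := by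
  have := (innerSL ℂ x).intervalIntegral_comp_comm (hf.intervalIntegrable (μ := volume) a b)
  simpa using this.symm

end grp

section lat

variable {d : ℕ}

theorem summable_shift (f g : L2 (Site d)) (σ : Site d ≃ Site d) :
    Summable fun x => f x * g (σ x) := by
  have hf : Summable fun x => ‖f x‖ ^ 2 := by
    have := (lp.hasSum_norm (p := 2) (by norm_num) f).summable
    simpa using this
  have hg : Summable fun x => ‖g x‖ ^ 2 := by
    have := (lp.hasSum_norm (p := 2) (by norm_num) g).summable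
    simpa using this
  have hg2 : Summable fun x => ‖g (σ x)‖ ^ 2 := (σ.summable_iff (f := fun x => ‖g x‖ ^ 2)).2 hg
  refine Summable.of_norm_bounded (hf.add hg2) fun x => ?_
  rw [norm_mul]
  nlinarith [sq_nonneg (‖f x‖ - ‖g (σ x)‖), norm_nonneg (f x), norm_nonneg (g (σ x)),
    mul_nonneg (norm_nonneg (f x)) (norm_nonneg (g (σ x)))]

theorem inner_star (f g : L2 (Site d)) : ⟪star f, g⟫_ℂ = ∑' x, f x * g x := by
  rw [lp.inner_eq_tsum]
  refine tsum_congr fun x => ?_
  rw [lp.coeFn_star, Pi.star_apply, RCLike.inner_apply]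
  simp [mul_comm]

theorem inner_star_comm (f g : L2 (Site d)) : ⟪star f, g⟫_ℂ = ⟪star g, f⟫_ℂ := by
  rw [inner_star, inner_star]
  exact tsum_congr fun x => mul_comm _ _

/-- the velocity is antisymmetric -/
theorem anti {c : ℝ} {j : Fin d} {v : L2 (Site d) →L[ℂ] L2 (Site d)} (hv : IsVel c j v)
    (f g : L2 (Site d)) : ⟪star f, v g⟫_ℂ = - ⟪star g, v f⟫_ℂ := by
  have hexp : ∀ f g : L2 (Site d), ⟪star f, v g⟫_ℂ = Complex.I * c *
      ((∑' x, f x * g (x + Pi.single j 1)) - ∑' x, f x * g (x - Pi.single j 1)) := by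
    intro f g
    rw [inner_star]
    have s1 := summable_shift f g (Equiv.addRight (Pi.single j (1 : ℤ)))
    have s2 := summable_shift f g (Equiv.subRight (Pi.single j (1 : ℤ)))
    have s1' : Summable fun x => f x * g (x + Pi.single j 1) := s1
    have s2' : Summable fun x => f x * g (x - Pi.single j 1) := s2
    rw [← s1'.tsum_sub s2', ← tsum_mul_left]
    refine tsum_congr fun x => ?_
    rw [hv g x]
    ring
  have hsh : ∀ f g : L2 (Site d), ∑' x, f x * g (x + Pi.single j 1) =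
      ∑' x, g x * f (x - Pi.single j 1) := by
    intro f g
    refine ((Equiv.subRight (Pi.single j (1 : ℤ))).tsum_eq
      (fun x => f x * g (x + Pi.single j 1))).symm.trans ?_
    refine tsum_congr fun x => ?_
    simp only [Equiv.subRight_apply, sub_add_cancel]
    exact mul_comm _ _
  rw [hexp f g, hexp g f, hsh f g, hsh g f]
  ring

variable {c : ℝ} {V : Site d → ℝ} {W : UG (L2 (Site d))}

theorem dl_inner (x : Site d) (f : L2 (Site d)) : ⟪dl x, f⟫_ℂ = f x := by
  unfold dl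
  rw [lp.inner_single_left]
  simp

theorem orbit_star (hs : ∀ t x y, (W.U t (dl y)) x = (W.U t (dl x)) y) (t : ℝ) :
    W.U (-t) (dl 0) = star (W.U t (dl 0)) := by
  ext x
  rw [lp.coeFn_star, Pi.star_apply, ← dl_inner x (W.U (-t) (dl 0)), ← inner_adj,
    ← inner_conj_symm, dl_inner, hs t 0 x]
  rfl

theorem swap {j : Fin d} {v : L2 (Site d) →L[ℂ] L2 (Site d)} (hv : IsVel c j v)
    (hs : ∀ t x y, (W.U t (dl y)) x = (W.U t (dl x)) y) (a b : ℝ) :
    ⟪dl 0, W.U a (v (W.U b (dl 0)))⟫_ℂ = - ⟪dl 0, W.U b (v (W.U a (dl 0)))⟫_ℂ := by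
  have h1 : ∀ a b : ℝ, ⟪dl 0, W.U a (v (W.U b (dl 0)))⟫_ℂ =
      ⟪star (W.U a (dl 0)), v (W.U b (dl 0))⟫_ℂ := by
    intro a b
    rw [← orbit_star hs a, inner_adj, neg_neg]
  rw [h1, h1, anti hv]

end lat

end ANTI

open ANTI in
theorem t_ANTI (h1 : St_SYM) (h2 : St_BP) : St_ANTI := by
  intro d c V W hW j v hv Nk hNk B hG t
  have hs := h1 d c V W hW
  obtain ⟨-, hBc⟩ := h2 (Site d) W v Nk hNk B hG
  have key : ∀ N : ℕ, ⟪W.U t (dl 0), avP W v N (dl 0)⟫_ℂ =
      - ⟪(dl 0 : L2 (Site d)), avM W v N (W.U (-t) (dl 0))⟫_ℂ := by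
    intro N
    unfold avP avM
    rw [inner_smul_right, inner_smul_right, inner_integral, inner_integral, ← mul_neg,
      ← intervalIntegral.integral_neg]
    · congr 1
      refine intervalIntegral.integral_congr fun s _ => ?_
      show ⟪W.U t (dl 0), W.U (-s) (v (W.U s (dl 0)))⟫_ℂ =
        -⟪(dl 0 : L2 (Site d)), W.U s (v (W.U (-s) (W.U (-t) (dl 0))))⟫_ℂ
      rw [inner_adj, ← W.add', ← W.add', swap hv hs (-t + -s) s, add_comm (-t) (-s)]
    · exact joint W _ _ continuous_id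
        (v.continuous.comp (joint W _ _ continuous_neg continuous_const))
    · exact joint W _ _ continuous_neg
        (v.continuous.comp (joint W _ _ continuous_id continuous_const))
  have l1 : Tendsto (fun k => ⟪W.U t (dl 0), avP W v (Nk k) (dl 0)⟫_ℂ) atTop
      (𝓝 ⟪W.U t (dl 0), B (dl 0)⟫_ℂ) :=
    tendsto_const_nhds.inner (hG (dl 0)).1
  have l2 : Tendsto (fun k => ⟪W.U t (dl 0), avP W v (Nk k) (dl 0)⟫_ℂ) atTop
      (𝓝 (-⟪(dl 0 : L2 (Site d)), B (W.U (-t) (dl 0))⟫_ℂ)) := by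
    simp only [key]
    exact (tendsto_const_nhds.inner (hG (W.U (-t) (dl 0))).2).neg
  have e1 := tendsto_nhds_unique l1 l2
  rw [hBc, ← inner_adj] at e1
  have e2 : (2 : ℂ) * ⟪W.U t (dl 0), B (dl 0)⟫_ℂ = 0 := by
    linear_combination e1
  rcases mul_eq_zero.1 e2 with h | h
  · norm_num at h
  · exact h

end Pool.Agent.H5R2.NB
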