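import Pool.Agent.H5R2.NB.ALL

/-! # Final form for `-Δ + λ V` with a single-site law of bounded density -/

set_option autoImplicit false

open MeasureTheory Filter Topology ProbabilityTheory
open scoped BigOperators ENNReal NNReal

namespace Pool.Agent.H5R2.NB.FIN

/-- the operator `-Δ + W`, `(Δu)(x) = ∑_{|n|=1} (u(x+n) - u(x))` -/
theorem hop_eq {d : ℕ} (W : (Fin d → ℤ) → ℝ) (u : (Fin d → ℤ) → ℂ) (x : Fin d → ℤ) :
    hopf (-1) u x + (((2 * d + W x : ℝ)) : ℂ) * u x =
      -(∑ i : Fin d, ((u (x + Pi.single i 1) - u x) + (u (x - Pi.single i 1) - u x))) +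
        (W x : ℂ) * u x := by
  unfold hopf
  have : ∑ i : Fin d, ((u (x + Pi.single i 1) - u x) + (u (x - Pi.single i 1) - u x)) =
      ∑ i : Fin d, (u (x + Pi.single i 1) + u (x - Pi.single i 1)) - 2 * d * u x := by
    have h : ∀ i : Fin d, (u (x + Pi.single i 1) - u x) + (u (x - Pi.single i 1) - u x) =
        (u (x + Pi.single i 1) + u (x - Pi.single i 1)) - 2 * u x := fun i => by ring
    simp only [h, Finset.sum_sub_distrib, Finset.sum_const, Finset.card_univ, Fintype.card_fin,
      nsmul_eq_mul]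
    ring
  rw [this]
  push_cast
  ring

end Pool.Agent.H5R2.NB.FIN
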