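import Pool.Agent.H5R2.NB.Defs

/-! # MAIN: no ballistic transport, from the statements LIM, ZERO, MOM, OPS, CV -/

set_option autoImplicit false

open MeasureTheory Filter Topology
open scoped BigOperators ENNReal NNReal InnerProductSpace ComplexConjugate

namespace Pool.Agent.H5R2.NB

namespace MAIN

variable {d : ℕ}

/-- the integrated velocity -/
noncomputable def F (ev : (Site d → ℝ) → UG (L2 (Site d))) (v : L2 (Site d) →L[ℂ] L2 (Site d))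
    (t : ℝ) (V : Site d → ℝ) : L2 (Site d) :=
  ∫ s in (0 : ℝ)..t, (ev V).U (-s) (v ((ev V).U s (dl 0)))

theorem cont_integrand (c : ℝ) (ev : (Site d → ℝ) → UG (L2 (Site d)))
    (hev : ∀ V, IsGrp c V (ev V)) (hCV : St_CV) (v : L2 (Site d) →L[ℂ] L2 (Site d)) :
    Continuous (fun p : (Site d → ℝ) × ℝ =>
      (ev p.1).U (-p.2) (v ((ev p.1).U p.2 (dl 0)))) := by
  have h := hCV d c ev hev
  have h1 : Continuous (fun p : (Site d → ℝ) × ℝ => (ev p.1).U p.2 (dl 0)) :=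
    h.comp (continuous_fst.prodMk (continuous_snd.prodMk continuous_const))
  exact h.comp (continuous_fst.prodMk (continuous_snd.neg.prodMk (v.continuous.comp h1)))

theorem cont_F (c : ℝ) (ev : (Site d → ℝ) → UG (L2 (Site d)))
    (hev : ∀ V, IsGrp c V (ev V)) (hCV : St_CV) (v : L2 (Site d) →L[ℂ] L2 (Site d)) (t : ℝ) :
    Continuous (F ev v t) := by
  unfold F
  exact intervalIntegral.continuous_parametric_intervalIntegral_of_continuous'
    (f := fun (V : Site d → ℝ) (s : ℝ) => (ev V).U (-s) (v ((ev V).U s (dl 0))))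
    (cont_integrand c ev hev hCV v) 0 t

theorem norm_integrand (W : UG (L2 (Site d))) (v : L2 (Site d) →L[ℂ] L2 (Site d)) (s : ℝ) :
    ‖W.U (-s) (v (W.U s (dl 0)))‖ ≤ ‖v‖ := by
  rw [W.norm']
  refine (v.le_opNorm _).trans ?_
  rw [W.norm']
  have : ‖(dl 0 : L2 (Site d))‖ = 1 := by
    unfold dl
    rw [lp.norm_single (by norm_num)]
    simp
  rw [this, mul_one]

theorem F_sub (c : ℝ) (ev : (Site d → ℝ) → UG (L2 (Site d)))
    (hev : ∀ V, IsGrp c V (ev V)) (hCV : St_CV) (v : L2 (Site d) →L[ℂ] L2 (Site d))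
    (V : Site d → ℝ) (a b : ℝ) : ‖F ev v a V - F ev v b V‖ ≤ ‖v‖ * |a - b| := by
  have hc : Continuous (fun s : ℝ => (ev V).U (-s) (v ((ev V).U s (dl 0)))) :=
    (cont_integrand c ev hev hCV v).comp (continuous_const.prodMk continuous_id)
  have hi : ∀ x y : ℝ, IntervalIntegrable
      (fun s : ℝ => (ev V).U (-s) (v ((ev V).U s (dl 0)))) volume x y :=
    fun x y => hc.intervalIntegrable x y
  unfold F
  rw [intervalIntegral.integral_interval_sub_left (hi 0 a) (hi 0 b)]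
  exact intervalIntegral.norm_integral_le_of_norm_le_const
    (fun s _ => norm_integrand (ev V) v s)

theorem F_nat (ev : (Site d → ℝ) → UG (L2 (Site d))) (v : L2 (Site d) →L[ℂ] L2 (Site d))
    (V : Site d → ℝ) (N : ℕ) (hN : 0 < N) :
    F ev v N V = (N : ℂ) • avP (ev V) v N (dl 0) := by
  unfold F avP
  rw [smul_smul, mul_inv_cancel₀ (by exact_mod_cast hN.ne'), one_smul]
  rfl

/-- pointwise bound for real `t ≥ 1` -/
theorem F_bound (c : ℝ) (ev : (Site d → ℝ) → UG (L2 (Site d)))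
    (hev : ∀ V, IsGrp c V (ev V)) (hCV : St_CV) (v : L2 (Site d) →L[ℂ] L2 (Site d))
    (V : Site d → ℝ) (t : ℝ) (ht : 1 ≤ t) :
    ‖F ev v t V‖ₑ ^ 2 ≤ ENNReal.ofReal (2 * t ^ 2) * ‖avP (ev V) v ⌊t⌋₊ (dl 0)‖ₑ ^ 2 +
      ENNReal.ofReal (2 * ‖v‖ ^ 2) := by
  set N := ⌊t⌋₊ with hN
  have hNpos : 0 < N := Nat.floor_pos.2 ht
  have hNt : (N : ℝ) ≤ t := Nat.floor_le (by linarith)
  have hNt2 : t < N + 1 := Nat.lt_floor_add_one t
  have h1 : ‖F ev v t V‖ ≤ t * ‖avP (ev V) v N (dl 0)‖ + ‖v‖ := by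
    have e : F ev v t V = F ev v N V + (F ev v t V - F ev v N V) := by abel
    rw [e]
    refine (norm_add_le _ _).trans ?_
    have a1 : ‖F ev v N V‖ ≤ t * ‖avP (ev V) v N (dl 0)‖ := by
      rw [F_nat ev v V N hNpos, norm_smul]
      gcongr
      simpa using hNt
    have a2 : ‖F ev v t V - F ev v N V‖ ≤ ‖v‖ := by
      refine (F_sub c ev hev hCV v V t N).trans ?_
      have : |t - N| ≤ 1 := by
        rw [abs_of_nonneg (by linarith)]
        linarith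
      calc ‖v‖ * |t - N| ≤ ‖v‖ * 1 := by gcongr
        _ = ‖v‖ := mul_one _
    linarith
  have h2 : ‖F ev v t V‖ ^ 2 ≤ 2 * t ^ 2 * ‖avP (ev V) v N (dl 0)‖ ^ 2 + 2 * ‖v‖ ^ 2 := by
    have h0 : 0 ≤ ‖F ev v t V‖ := norm_nonneg _
    have h3 : ‖F ev v t V‖ ^ 2 ≤ (t * ‖avP (ev V) v N (dl 0)‖ + ‖v‖) ^ 2 :=
      pow_le_pow_left₀ h0 h1 2
    nlinarith [sq_nonneg (t * ‖avP (ev V) v N (dl 0)‖ - ‖v‖)]
  rw [← ofReal_norm, ← ofReal_norm, ← ENNReal.ofReal_pow (norm_nonneg _),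
    ← ENNReal.ofReal_pow (norm_nonneg _), ← ENNReal.ofReal_mul (by positivity),
    ← ENNReal.ofReal_add (by positivity) (by positivity)]
  exact ENNReal.ofReal_le_ofReal h2

theorem tend_one (c : ℝ) (ev : (Site d → ℝ) → UG (L2 (Site d)))
    (hev : ∀ V, IsGrp c V (ev V)) (hCV : St_CV) (v : L2 (Site d) →L[ℂ] L2 (Site d))
    (P : Measure (Site d → ℝ)) [IsProbabilityMeasure P]
    (h : Tendsto (fun N : ℕ => ∫⁻ V, ‖avP (ev V) v N (dl 0)‖ₑ ^ 2 ∂P) atTop (𝓝 0)) :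
    Tendsto (fun t : ℝ => (∫⁻ V, ‖F ev v t V‖ₑ ^ 2 ∂P) / ENNReal.ofReal (t ^ 2)) atTop
      (𝓝 0) := by
  have hfl : Tendsto (fun t : ℝ => ⌊t⌋₊) atTop atTop := tendsto_nat_floor_atTop
  have h1 := h.comp hfl
  have h2 : Tendsto (fun t : ℝ => 2 * (∫⁻ V, ‖avP (ev V) v ⌊t⌋₊ (dl 0)‖ₑ ^ 2 ∂P) +
      ENNReal.ofReal (2 * ‖v‖ ^ 2) / ENNReal.ofReal (t ^ 2)) atTop (𝓝 0) := by
    have a1 : Tendsto (fun t : ℝ => 2 * (∫⁻ V, ‖avP (ev V) v ⌊t⌋₊ (dl 0)‖ₑ ^ 2 ∂P)) atTop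
        (𝓝 0) := by
      have := ENNReal.Tendsto.const_mul (a := 2) h1 (Or.inr (by norm_num))
      simpa using this
    have a2 : Tendsto (fun t : ℝ => ENNReal.ofReal (2 * ‖v‖ ^ 2) / ENNReal.ofReal (t ^ 2))
        atTop (𝓝 0) := by
      have b1 : Tendsto (fun t : ℝ => ENNReal.ofReal (2 * ‖v‖ ^ 2 / t ^ 2)) atTop (𝓝 0) := by
        have b2 : Tendsto (fun t : ℝ => 2 * ‖v‖ ^ 2 / t ^ 2) atTop (𝓝 0) :=
          tendsto_const_nhds.div_atTop (tendsto_pow_atTop (by norm_num))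
        have := ENNReal.tendsto_ofReal b2
        simpa using this
      refine b1.congr' ?_
      filter_upwards [eventually_ge_atTop (1 : ℝ)] with t ht
      rw [ENNReal.ofReal_div_of_pos (by positivity)]
    simpa using a1.add a2
  refine tendsto_of_tendsto_of_tendsto_of_le_of_le' tendsto_const_nhds h2
    (Eventually.of_forall fun t => bot_le) ?_
  filter_upwards [eventually_ge_atTop (1 : ℝ)] with t ht
  have hm : Continuous (fun V => avP (ev V) v ⌊t⌋₊ (dl 0)) :=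
    (cont_F c ev hev hCV v ((⌊t⌋₊ : ℕ) : ℝ)).const_smul ((⌊t⌋₊ : ℂ)⁻¹)
  have hm2 : Measurable (fun V => ‖avP (ev V) v ⌊t⌋₊ (dl 0)‖ₑ ^ 2) :=
    hm.enorm.measurable.pow_const 2
  have h3 : (∫⁻ V, ‖F ev v t V‖ₑ ^ 2 ∂P) ≤
      ENNReal.ofReal (2 * t ^ 2) * (∫⁻ V, ‖avP (ev V) v ⌊t⌋₊ (dl 0)‖ₑ ^ 2 ∂P) +
        ENNReal.ofReal (2 * ‖v‖ ^ 2) := by
    calc (∫⁻ V, ‖F ev v t V‖ₑ ^ 2 ∂P) ≤ ∫⁻ V, (ENNReal.ofReal (2 * t ^ 2) *
          ‖avP (ev V) v ⌊t⌋₊ (dl 0)‖ₑ ^ 2 + ENNReal.ofReal (2 * ‖v‖ ^ 2)) ∂P :=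
          lintegral_mono fun V => F_bound c ev hev hCV v V t ht
      _ = _ := by
          rw [lintegral_add_right _ measurable_const, lintegral_const_mul _ hm2]
          simp
  have ht2 : ENNReal.ofReal (t ^ 2) ≠ 0 := by
    rw [Ne, ENNReal.ofReal_eq_zero, not_le]
    positivity
  calc (∫⁻ V, ‖F ev v t V‖ₑ ^ 2 ∂P) / ENNReal.ofReal (t ^ 2)
      ≤ (ENNReal.ofReal (2 * t ^ 2) * (∫⁻ V, ‖avP (ev V) v ⌊t⌋₊ (dl 0)‖ₑ ^ 2 ∂P) +
        ENNReal.ofReal (2 * ‖v‖ ^ 2)) / ENNReal.ofReal (t ^ 2) := by gcongr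
    _ = _ := by
        rw [ENNReal.add_div]
        congr 1
        rw [ENNReal.ofReal_mul (by norm_num), mul_assoc, mul_comm (ENNReal.ofReal (t ^ 2)),
          ← mul_assoc, mul_div_assoc, ENNReal.div_self ht2 ENNReal.ofReal_ne_top, mul_one]
        norm_num

end MAIN

open MAIN in
theorem t_MAIN (h1 : St_LIM) (h2 : St_ZERO) (h3 : St_MOM) (h4 : St_OPS) (h5 : St_CV) :
    St_MAIN := by
  intro d c ev hev ν _ C hν
  have hv : ∀ j : Fin d, ∃ v : L2 (Site d) →L[ℂ] L2 (Site d), IsVel c j v :=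
    fun j => (h4 d).2.2 c j
  choose v hv using hv
  have : IsProbabilityMeasure (PP d ν) := by unfold PP; infer_instance
  have key : ∀ j : Fin d, Tendsto (fun t : ℝ =>
      (∫⁻ V, ‖F ev (v j) t V‖ₑ ^ 2 ∂(PP d ν)) / ENNReal.ofReal (t ^ 2)) atTop (𝓝 0) := by
    intro j
    obtain ⟨Nk, b, hNk, hb, hae⟩ := h1 d c ev hev ν j (v j) (hv j)
    have hz := h2 d c ev hev ν C hν j (v j) (hv j) Nk hNk (by
      filter_upwards [hae] with V hV
      obtain ⟨B, hB, _⟩ := hV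
      exact ⟨B, hB⟩)
    have hb0 : ∀ᵐ V ∂(PP d ν), b V = 0 := by
      filter_upwards [hae, hz] with V hV hV2
      obtain ⟨B, hB, hB2⟩ := hV
      rw [← hB2]
      exact hV2 B hB
    refine tend_one c ev hev h5 (v j) (PP d ν) ?_
    refine hb.congr fun N => ?_
    refine lintegral_congr_ae ?_
    filter_upwards [hb0] with V hV
    rw [hV, sub_zero]
  have hsum : ∀ t : ℝ, (∫⁻ V, ∑' x : Site d,
      ENNReal.ofReal (∑ i : Fin d, (x i : ℝ) ^ 2) * ‖((ev V).U t (dl 0)) x‖ₑ ^ 2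
        ∂(PP d ν)) / ENNReal.ofReal (t ^ 2) =
      ∑ j : Fin d, (∫⁻ V, ‖F ev (v j) t V‖ₑ ^ 2 ∂(PP d ν)) / ENNReal.ofReal (t ^ 2) := by
    intro t
    have e1 : ∀ V, ∑' x : Site d,
        ENNReal.ofReal (∑ i : Fin d, (x i : ℝ) ^ 2) * ‖((ev V).U t (dl 0)) x‖ₑ ^ 2 =
        ∑ j : Fin d, ‖F ev (v j) t V‖ₑ ^ 2 := by
      intro V
      have e2 : ∀ x : Site d, ENNReal.ofReal (∑ i : Fin d, (x i : ℝ) ^ 2) *
          ‖((ev V).U t (dl 0)) x‖ₑ ^ 2 = ∑ j : Fin d, ENNReal.ofReal ((x j : ℝ) ^ 2) *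
          ‖((ev V).U t (dl 0)) x‖ₑ ^ 2 := by
        intro x
        rw [ENNReal.ofReal_sum_of_nonneg (fun i _ => sq_nonneg _), Finset.sum_mul]
      simp_rw [e2]
      rw [Summable.tsum_finsetSum (fun i _ => ENNReal.summable)]
      refine Finset.sum_congr rfl fun j _ => ?_
      exact h3 d c V (ev V) (hev V) j (v j) (hv j) t
    simp_rw [e1]
    rw [lintegral_finsetSum _ (fun j _ =>
      (cont_F c ev hev h5 (v j) t).enorm.measurable.pow_const 2)]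
    rw [ENNReal.div_eq_inv_mul, Finset.mul_sum]
    refine Finset.sum_congr rfl fun j _ => ?_
    rw [ENNReal.div_eq_inv_mul]
  simp_rw [hsum]
  have := tendsto_finsetSum (Finset.univ : Finset (Fin d)) (fun j _ => key j)
  simpa using this

end Pool.Agent.H5R2.NB
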